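import Pool.Agent.TD25.Arc

/-!
# TD25/Dir: directions of the points of a unit disk that does not contain the origin

Proofs. Let `d > 1`, `x ∈ ℂ`, `‖x - pt d b‖ ≤ 1`. Then `x ≠ 0`. Write `x = pt ‖x‖ t` with `t ∈ b + (-π, π]` (`exists_pt`
and `pt_add_two_pi`). By `norm_pt_sub_sq`, with `r = ‖x‖ > 0`: `cos (t - b) ≥ (r^2 + d^2 - 1) / (2 r d) ≥ √(d^2 - 1) / d`
(AM-GM: `r^2 + (d^2 - 1) ≥ 2 r √(d^2 - 1)`) `= cos (arcsin (1 / d))`, hence `|t - b| ≤ arcsin (1 / d)` (`cos` is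
antitone on `[0, π]`, `Real.cos_arcsin`). If `‖x - pt d b‖ = 1` the first inequality is an equality, so
`|t - b| = arccos ((r^2 + d^2 - 1) / (2 r d)) = ang r d` (`Real.arccos_cos` for `|t - b| ∈ [0, π]`).
`pt_inj`: `pt r t = pt r t'`, `0 < r` gives `t - t' = 2 π k` (`Complex.exp_eq_exp_iff_exists_int`), `|t - t'| < 2π` gives
`k = 0`.
`disj`: a common point `x` of two closed disks with centres `pt d b`, `pt d' b'`, `b ≤ b'`, has
lifts `t`, `t'` with `|t - b| ≤ arcsin (1/d)`, `|t' - b'| ≤ arcsin (1/d')`, `t' = t + 2 π k`. `k = 0` contradicts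
`h1`; in general `t' - t ≥ b' - b - (..) > 0` and `t' - t ≤ b' - b + (...) < 2π` by `h2`: no integer `k` is possible.
`sub_ge`: for `x = pt a t`, `y = pt c t'`, `0 < a, c`: `‖x - y‖^2 = a^2 + c^2 - 2 a c cos z` with `z = t' - t`, and this
minus `((a + c) sin (z / 2))^2` is `(1 + cos z) (a - c)^2 / 2 ≥ 0`.
-/

set_option autoImplicit false

namespace Pool.Agent.TD25

open Real

private theorem red (x : ℝ) : |x - 2 * π * (round (x / (2 * π)) : ℤ)| ≤ π := by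
  have hpi := Real.pi_pos
  have h := abs_sub_round (x / (2 * π))
  have e : x - 2 * π * (round (x / (2 * π)) : ℤ) =
      (2 * π) * (x / (2 * π) - (round (x / (2 * π)) : ℤ)) := by
    field_simp
  rw [e, abs_mul, abs_of_pos (by positivity)]
  nlinarith

private theorem norm_pos' {d b : ℝ} {x : ℂ} (hd : 1 < d) (hx : ‖x - pt d b‖ ≤ 1) :
    d - 1 ≤ ‖x‖ ∧ ‖x‖ ≤ d + 1 := by
  have h1 := norm_sub_norm_le (pt d b) x
  have h2 := norm_sub_norm_le x (pt d b)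
  rw [norm_sub_rev] at h1
  rw [norm_pt (by linarith : (0 : ℝ) ≤ d)] at h1 h2
  constructor <;> linarith

private theorem arcsin_nonneg' {d : ℝ} (hd : 1 < d) : 0 ≤ arcsin (1 / d) :=
  arcsin_nonneg.2 (by positivity)

theorem lift_ball {d b : ℝ} {x : ℂ} (hd : 1 < d) (hx : ‖x - pt d b‖ ≤ 1) :
    ∃ t : ℝ, x = pt ‖x‖ t ∧ |t - b| ≤ arcsin (1 / d) := by
  obtain ⟨t0, ht0⟩ := exists_pt x
  set k : ℤ := round ((t0 - b) / (2 * π)) with hk
  set t : ℝ := t0 - 2 * π * k with ht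
  have hxt : x = pt ‖x‖ t := by
    rw [ht, show t0 - 2 * π * (k : ℝ) = t0 + 2 * π * ((-k : ℤ) : ℝ) by push_cast; ring,
      pt_add_two_pi]
    exact ht0
  have hle : |t - b| ≤ π := by
    have := red (t0 - b)
    rwa [show t - b = t0 - b - 2 * π * (round ((t0 - b) / (2 * π)) : ℤ) by rw [ht, hk]; ring]
  refine ⟨t, hxt, ?_⟩
  have hr : 0 < ‖x‖ := by
    have := (norm_pos' hd hx).1
    linarith
  set r := ‖x‖ with hrdef
  have h1 : ‖x - pt d b‖ ^ 2 ≤ 1 := by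
    have h0 := norm_nonneg (x - pt d b)
    nlinarith
  rw [hxt, norm_pt_sub_sq] at h1
  have h2 : 0 ≤ 1 - (1 / d) ^ 2 := by
    have : (1 / d) ^ 2 ≤ 1 := by
      rw [sq_le_one_iff₀ (by positivity), div_le_one (by linarith)]
      exact hd.le
    linarith
  have h3 : cos (arcsin (1 / d)) = √(1 - (1 / d) ^ 2) := cos_arcsin _
  have h4 : √(1 - (1 / d) ^ 2) ^ 2 = 1 - (1 / d) ^ 2 := Real.sq_sqrt h2
  have h5 : d ^ 2 * √(1 - (1 / d) ^ 2) ^ 2 = d ^ 2 - 1 := by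
    rw [h4]
    field_simp
  have h6 : 0 ≤ √(1 - (1 / d) ^ 2) := Real.sqrt_nonneg _
  have h7 : cos (arcsin (1 / d)) ≤ cos (t - b) := by
    rw [h3]
    have h8 : 0 < 2 * r * d := by positivity
    have h9 : 2 * r * d * √(1 - (1 / d) ^ 2) ≤ 2 * r * d * cos (t - b) := by
      nlinarith [sq_nonneg (r - d * √(1 - (1 / d) ^ 2))]
    exact le_of_mul_le_mul_left h9 h8
  by_contra hcon
  push Not at hcon
  have h10 := cos_lt_cos_of_nonneg_of_le_pi (arcsin_nonneg' hd) hle hcon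
  rw [cos_abs] at h10
  linarith

theorem lift_sphere {d b : ℝ} {x : ℂ} (hd : 1 < d) (hx : ‖x - pt d b‖ = 1) :
    ∃ t : ℝ, x = pt ‖x‖ t ∧ |t - b| = ang ‖x‖ d ∧ ang ‖x‖ d ≤ arcsin (1 / d) := by
  obtain ⟨t, hxt, hle⟩ := lift_ball hd hx.le
  have hr : 0 < ‖x‖ := by
    have := (norm_pos' hd hx.le).1
    linarith
  have h1 : ‖x - pt d b‖ ^ 2 = 1 := by rw [hx]; norm_num
  have h2 : ‖x‖ ^ 2 + d ^ 2 - 2 * ‖x‖ * d * cos (t - b) = 1 := by
    rw [← norm_pt_sub_sq ‖x‖ t d b, ← hxt]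
    exact h1
  have h3 : cos |t - b| = (‖x‖ ^ 2 + d ^ 2 - 1) / (2 * ‖x‖ * d) := by
    rw [cos_abs, eq_div_iff (by positivity)]
    linarith
  have h4 : ang ‖x‖ d = |t - b| := by
    unfold ang
    rw [← h3]
    apply arccos_cos (abs_nonneg _)
    have := arcsin_le_pi_div_two (1 / d)
    have := Real.pi_pos
    linarith
  exact ⟨t, hxt, h4.symm, h4 ▸ hle⟩

theorem pt_inj {r t t' : ℝ} (hr : 0 < r) (h : pt r t = pt r t') (h' : |t - t'| < 2 * π) : t = t' := by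
  unfold pt at h
  have hr' : (r : ℂ) ≠ 0 := by exact_mod_cast hr.ne'
  have h1 := mul_left_cancel₀ hr' h
  obtain ⟨n, hn⟩ := Complex.exp_eq_exp_iff_exists_int.1 h1
  have h2 : (t : ℂ) = t' + n * (2 * π) := by
    have h3 : ((t : ℂ)) * Complex.I = (t' + n * (2 * π)) * Complex.I := by
      rw [hn]
      ring
    exact mul_right_cancel₀ Complex.I_ne_zero h3
  have h3 : t = t' + n * (2 * π) := by exact_mod_cast h2
  have hpi := Real.pi_pos
  have h4 : |(n : ℝ) * (2 * π)| < 2 * π := by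
    rwa [h3, add_sub_cancel_left] at h'
  rw [abs_mul, abs_of_pos (by positivity : 0 < 2 * π)] at h4
  have h5 : |(n : ℝ)| < 1 := by
    by_contra hcon
    push Not at hcon
    nlinarith
  have h6 : |n| < 1 := by exact_mod_cast h5
  have h7 : n = 0 := Int.abs_lt_one_iff.1 h6
  rw [h3, h7]
  push_cast
  ring

theorem norm_pos_of_ball {d b : ℝ} {x : ℂ} (hd : 1 < d) (hx : ‖x - pt d b‖ ≤ 1) : d - 1 ≤ ‖x‖ ∧ ‖x‖ ≤ d + 1 :=
  norm_pos' hd hx

theorem disj {d b d' b' : ℝ} (hd : 1 < d) (hd' : 1 < d')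
    (h1 : arcsin (1 / d) + arcsin (1 / d') < b' - b) (h2 : b' - b < 2 * π - (arcsin (1 / d) + arcsin (1 / d')))
    (x : ℂ) : ¬ (‖x - pt d b‖ ≤ 1 ∧ ‖x - pt d' b'‖ ≤ 1) := by
  rintro ⟨hx, hx'⟩
  obtain ⟨t, ht, hle⟩ := lift_ball hd hx
  obtain ⟨t', ht', hle'⟩ := lift_ball hd' hx'
  have hr : 0 < ‖x‖ := by
    have := (norm_pos' hd hx).1
    linarith
  have h3 := abs_le.1 hle
  have h4 := abs_le.1 hle'
  have h5 : 0 < t' - t := by linarith
  have h6 : t' - t < 2 * π := by linarith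
  have h7 : t = t' := pt_inj hr (ht ▸ ht') (by
    rw [abs_sub_comm, abs_of_pos h5]
    exact h6)
  linarith

theorem sub_ge {a c t t' : ℝ} : ((a + c) * sin ((t' - t) / 2)) ^ 2 ≤ ‖pt a t - pt c t'‖ ^ 2 := by
  rw [norm_pt_sub_sq]
  have h1 : cos (t - t') = 1 - 2 * sin ((t' - t) / 2) ^ 2 := by
    have h2 := cos_sq ((t' - t) / 2)
    have h3 := sin_sq_add_cos_sq ((t' - t) / 2)
    have h4 : 2 * ((t' - t) / 2) = t' - t := by ring
    rw [h4] at h2
    rw [← cos_neg, neg_sub]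
    linarith
  have h2 : -1 ≤ cos (t - t') := neg_one_le_cos _
  have h3 : ((a + c) * sin ((t' - t) / 2)) ^ 2 = (a + c) ^ 2 * sin ((t' - t) / 2) ^ 2 := mul_pow _ _ _
  have h4 : sin ((t' - t) / 2) ^ 2 = (1 - cos (t - t')) / 2 := by linarith
  rw [h3, h4]
  nlinarith [mul_nonneg (by linarith : 0 ≤ 1 + cos (t - t')) (sq_nonneg (a - c))]

end Pool.Agent.TD25
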