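import Pool.Agent.TD25.Fi
import Pool.Agent.SB19.Check2

/-!
# TD25/EP: `arcsin (1 / d) + fi R (d ^ 2) ≤ 0.83` (the true maximum is 0.8070)

Proof. With `p = fi R (d ^ 2)`, `cos p = C / (2 R d)`, `C = R^2 + d^2 - 1`, the claim is `1/d ≤ sin (0.83 - p)`, i.e.
`cos 0.83 · 2 R d sin p ≤ sin 0.83 · C - 2 R`, which follows from `sin 0.83 · C ≥ 2 R` and
`C^2 + 4 R^2 ≥ 4 R sin 0.83 C + 4 (R d cos 0.83)^2`, checked by the verified Taylor models `Pool.Agent.SB19.Check2`.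
-/

set_option autoImplicit false

namespace Pool.Agent.TD25

open Real

namespace EPC

open Pool.Agent.SB19 (Ex Tr2 chk2 of_chk2)

/-- The constant `0.83`. -/
def eT : Ex := .num 83 100
/-- The square. -/
def eS (e : Ex) : Ex := .mul e e
/-- `R^2 + d^2 - 1` -/
def eC : Ex := .add (.add (eS .Z) (eS .X)) (.neg (.num 1 1))
/-- `C sin 0.83 - 2 R` -/
def eP : Ex := .add (.mul eC (.sin eT)) (.neg (.nmul 2 .Z))
/-- `C^2 + 4 R^2 - (4 R sin 0.83 C + 4 (d R cos 0.83)^2)` -/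
def eQ : Ex := .add (.add (eS eC) (.nmul 4 (eS .Z)))
  (.neg (.add (.nmul 4 (.mul .Z (.mul (.sin eT) eC))) (.nmul 4 (eS (.mul (.mul .X .Z) (.cos eT))))))

theorem chk_ok : chk2 [eP, eQ] [] (.X .L (.X .L .L)) ((1855140 + 2708053) * 524288)
    ((2708053 - 1855140) * 524288) ((0 + 0) * 524288) ((0 - 0) * 524288)
    ((2903716 + 2903927) * 524288) ((2903927 - 2903716) * 524288) = true := by
  decide +kernel

theorem poly {R d : ℝ} (hR : 2.7692 ≤ R ∧ R ≤ 2.7694) (hd : 1.7692 ≤ d ∧ d ≤ 2.5826) :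
    2 * R ≤ (R ^ 2 + d ^ 2 - 1) * sin 0.83 ∧
    4 * (R * (sin 0.83 * (R ^ 2 + d ^ 2 - 1))) + 4 * (d * R * cos 0.83) ^ 2 ≤
      (R ^ 2 + d ^ 2 - 1) ^ 2 + 4 * R ^ 2 := by
  have h := of_chk2 [eP, eQ] [] (.X .L (.X .L .L)) 1855140 2708053 0 0 2903716 2903927 chk_ok d 0 R
    ⟨by norm_num; linarith [hd.1], by norm_num; linarith [hd.2]⟩
    ⟨by norm_num, by norm_num⟩
    ⟨by norm_num; linarith [hR.1], by norm_num; linarith [hR.2]⟩
  rcases h with ⟨q, hq, -⟩ | h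
  · exact absurd hq (by simp)
  · have h1 := h eP (by simp)
    have h2 := h eQ (by simp)
    simp only [eP, eQ, eC, eS, eT, Ex.eval] at h1 h2
    have e : ((83 : ℕ) : ℝ) / ((100 : ℕ) : ℝ) = 0.83 := by norm_num
    rw [e] at h1 h2
    push_cast at h1 h2
    constructor
    · linarith
    · nlinarith [h2]

end EPC

theorem ep {R d : ℝ} (hR : OkR R) (h1 : R - 1 ≤ d) (h2 : d ^ 2 ≤ R ^ 2 - 1) :
    arcsin (1 / d) + fi R (d ^ 2) ≤ 0.83 := by
  obtain ⟨hR1, hR2⟩ := hR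
  have hd0 : 1.7692 ≤ d := by linarith
  have hd1 : d ≤ 2.5826 := by nlinarith
  obtain ⟨p1, p2⟩ := EPC.poly ⟨hR1, hR2⟩ ⟨hd0, hd1⟩
  have hRp : 0 < R := by linarith
  have hdp : 0 < d := by linarith
  set p : ℝ := fi R (d ^ 2) with hp
  have hp0 : 0 ≤ p := fi_nonneg _ _
  have hp1 : p < 0.3695 := lt_of_le_of_lt (fi_le ⟨hR1, hR2⟩ (by positivity)) (phm_hi ⟨hR1, hR2⟩)
  have hcp : cos p = (R ^ 2 - 1 + d ^ 2) / (2 * R * d) := by
    rw [hp, cos_fi ⟨hR1, hR2⟩ (by nlinarith) h2, Real.sqrt_sq hdp.le]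
  have hpi := Real.pi_gt_three
  suffices h : arcsin (1 / d) ≤ 0.83 - p by linarith
  rw [Real.arcsin_le_iff_le_sin' ⟨by linarith, by linarith⟩, Real.sin_sub]
  have hsp : 0 ≤ sin p := Real.sin_nonneg_of_nonneg_of_le_pi hp0 (by linarith)
  have hcT : 0 ≤ cos 0.83 := Real.cos_nonneg_of_mem_Icc ⟨by linarith, by linarith⟩
  have hsq := Real.sin_sq_add_cos_sq p
  have hsq' := Real.sin_sq_add_cos_sq 0.83
  rw [div_le_iff₀ hdp]
  have e1 : R ^ 2 + d ^ 2 - 1 = 2 * R * d * cos p := by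
    rw [hcp]
    field_simp
    ring
  rw [e1] at p1 p2
  set s : ℝ := sin 0.83 with hs
  set c : ℝ := cos 0.83 with hc
  have q2 : (2 * R * d * (c * sin p)) ^ 2 ≤ (2 * R * d * cos p * s - 2 * R) ^ 2 := by
    have e3 : sin p ^ 2 = 1 - cos p ^ 2 := by linarith
    have e4 : (2 * R * d * (c * sin p)) ^ 2 = 4 * (d * R * c) ^ 2 - (2 * R * d * cos p) ^ 2 * c ^ 2 := by
      calc (2 * R * d * (c * sin p)) ^ 2 = 4 * (d * R * c) ^ 2 * sin p ^ 2 := by ring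
        _ = _ := by rw [e3]; ring
    have e5 : (2 * R * d * cos p * s - 2 * R) ^ 2 = (2 * R * d * cos p) ^ 2 + 4 * R ^ 2 -
        4 * (R * (s * (2 * R * d * cos p))) - (2 * R * d * cos p) ^ 2 * c ^ 2 := by
      have : s ^ 2 = 1 - c ^ 2 := by linarith
      calc (2 * R * d * cos p * s - 2 * R) ^ 2 = (2 * R * d * cos p) ^ 2 * s ^ 2 + 4 * R ^ 2 -
            4 * (R * (s * (2 * R * d * cos p))) := by ring
        _ = _ := by rw [this]; ring
    rw [e4, e5]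
    linarith
  have q3 : 2 * R * d * (c * sin p) ≤ 2 * R * d * cos p * s - 2 * R :=
    (abs_le_of_sq_le_sq' q2 (by linarith)).2
  have q4 : 2 * R * 1 ≤ 2 * R * ((s * cos p - c * sin p) * d) := by linarith
  exact le_of_mul_le_mul_left q4 (by positivity)

end Pool.Agent.TD25
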