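import Pool.Agent.TD25.Win
import Pool.Agent.TD25.Dir
import Pool.Agent.TD25.EP

/-!
# TD25/Sep9: in a ring of nine disks, disks that are not neighbours are disjoint

Proof. Let `n + 2 ≤ k ≤ n + 7`. `win_lo` (m = 9): `β k - β n > 2π - p n - p k - 2 phm (n + 8 - k) ≥ 2π - p n - p k - 12 phm`,
and `arcsin (1/d n) + p n ≤ 0.83` (`ep`), the same for `k`, so
`β k - β n - arcsin (1/d n) - arcsin (1/d k) > 2π - 12 * 0.3695 - 1.66 > 0` (`π > 3.14`). `far9` also for the
pair `(k, n + 9)` (`k + 2 ≤ n + 9 ≤ k + 7`): `2π - (β k - β n) > arcsin (1/d k) + arcsin (1/d n)`. Then `disj`.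
-/

set_option autoImplicit false

namespace Pool.Agent.TD25

open Real

theorem far9 {R : ℝ} (hR : OkR R) (r : Ring R 9) {n k : ℤ} (h1 : n + 2 ≤ k) (h2 : k ≤ n + 7) :
    arcsin (1 / r.d n) + arcsin (1 / r.d k) < r.β k - r.β n := by
  have hw := r.win_lo hR (n := n) (k := k) (by omega) (by push_cast; omega)
  have e1 := ep hR (r.lo n).le (r.hi n)
  have e2 := ep hR (r.lo k).le (r.hi k)
  change arcsin (1 / r.d n) + r.p n ≤ 0.83 at e1
  change arcsin (1 / r.d k) + r.p k ≤ 0.83 at e2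
  have hk : (n : ℝ) + 2 ≤ k := by exact_mod_cast h1
  have hp := phm_hi hR
  have hp' := phm_lo hR
  have h3 : 2 * phm R * ((n : ℝ) + (9 : ℕ) - 1 - k) ≤ 2 * phm R * 6 := by
    apply mul_le_mul_of_nonneg_left _ (by linarith)
    push_cast
    linarith
  have hpi := Real.pi_gt_d2
  linarith

theorem sep9 {R : ℝ} (hR : OkR R) (r : Ring R 9) (n k : ℤ) (h1 : n + 2 ≤ k) (h2 : k ≤ n + (9 : ℕ) - 2) (x : ℂ) :
    ¬ (‖x - r.b n‖ ≤ 1 ∧ ‖x - r.b k‖ ≤ 1) := by
  push_cast at h2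
  have hn := r.d_pos hR n
  have hk := r.d_pos hR k
  have f1 := far9 hR r (n := n) (k := k) h1 (by omega)
  have f2 := far9 hR r (n := k) (k := n + (9 : ℕ)) (by push_cast; omega) (by push_cast; omega)
  rw [r.per_d, r.per_β] at f2
  exact disj (by linarith) (by linarith) f1 (by linarith) x

end Pool.Agent.TD25
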