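import Pool.Agent.TD25.Cusp
import Pool.Agent.TD25.Sep9

/-!
# TD25/Core9: the final angle count for nine boundary disks and three free disks

Setting: ring of nine disks, free centres `A 0, A 1, A 2`; `M k` is a cusp of disks `s + 3k + 1`, `s + 3k + 2` in ball `A k`; `Q k` is a point
of the circle of disk `s + 3k` in ball `A k` and in ball `A (k - 1)` (indices modulo 3: `hQA'` says `Q (k+1)` is in ball `A k`).
`F` is the two-variable inequality. Claim: impossible.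

Proof. Let `n k = s + 3 k` (`k = 0, 1, 2, 3`), `q k = ‖Q k‖ > 0`, `h k = ‖A k‖`, `φ n = r.p n`, `phm < 0.3695`.
(1) `lift_ball` (`r.d > 1.7`): lifts `t k` of `Q k`, `|t k - β (n k)| ≤ arcsin (1/d (n k))`. Put `t 3 = t 0 + 2π` (`β (n 0 + 9) = β (n 0) + 2π`).
`X k = t (k+1) - t k`, `k = 0, 1, 2`: `X 0 + X 1 + X 2 = 2π`. `X k > 0` by `far9` (`n k + 3`). `X k < π`: `win_hi`:
`β (n k + 3) - β (n k) < φ (n k) + φ (n k + 3) + 4 phm`, and `ep` twice: `X k < 4 phm + 1.66 < 3.138 < π`.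
(2) `InnerProductGeometry.angle (Q k) (Q (k+1)) = X k` (`Q k = pt (q k) (t k)`, `cos` of the angle is `cos (X k)`, `X k ∈ [0, π]`;
for `k = 2` the point `Q 0 = pt (q 0) (t 0 + 2π)`). Let `δ k = angle (Q k) (A k)`, `δ' k = angle (A k) (Q (k+1))`.
`angle_le_angle_add_angle`: `X k ≤ δ k + δ' k`, so `∑ (δ k + δ' k) ≥ 2π`.
(3) For a pair `(Q, A)` with `‖Q - A‖ < 1`, `δ = angle Q A ∈ [0, π]`: `h^2 + q^2 - 2 h q cos δ = ‖Q - A‖^2 < 1`
(`InnerProductGeometry.cos_angle_mul_norm_mul_norm`, also true for `A = 0`).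
(4) Put `f k = fi R ((1 + q k)^2)`, `g k = fi R (1 + R (1 + h k))`. `φ (n k) ≤ f k` (`d ≤ q + 1`, `cusp_norm`, `fi_mono`). `‖M k‖ < 1 + h k`, so
`φ (n k + 1) + (β (n k + 2) - β (n k + 1)) + φ (n k + 2) ≤ 4 Sf R ‖M k‖ ≤ 4 g k` (`cusp_S`, `fi_mono`). Sum of the nine gaps of the ring,
six of them estimated by `r.ov`: `2π < ∑ k (2 φ (n k) + 4 g k) ≤ ∑ k (2 f k + 4 g k)`. (B)
(5) `f k ≤ phm`, `g k ≤ phm`, so for all `i`, `k`: `f i + 2 g k > π - 2 phm - 4 phm > 3.1415 - 2.217 = 0.9245` (from (B)/2).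
(6) Apply `F` to the six pairs `(Q k, A k)`, `(Q (k+1), A k)` and add:
`∑ (2 f k + 4 g k) + lam (∑ (δ k + δ' k) - 2π) ≤ 2π`. With (2) and `lam > 0`: `∑ (2 f k + 4 g k) ≤ 2π`, contradiction to (B).
-/

set_option autoImplicit false

namespace Pool.Agent.TD25

open Real

/-- The two-variable inequality: `F R lam`. -/
def FIneq (R lam : ℝ) : Prop :=
  ∀ h q δ : ℝ, 0 ≤ h → 0 < q → 0 ≤ δ → δ ≤ π → h ^ 2 + q ^ 2 - 2 * h * q * cos δ < 1 →
    0.9245 ≤ fi R ((1 + q) ^ 2) + 2 * fi R (1 + R * (1 + h)) →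
    fi R ((1 + q) ^ 2) + 2 * fi R (1 + R * (1 + h)) + lam * (δ - π / 3) ≤ π / 3

/-- the angle between two points -/
private theorem angle_pt {p p' t t' : ℝ} (hp : 0 < p) (hp' : 0 < p') (h0 : 0 ≤ t' - t)
    (h1 : t' - t ≤ π) : InnerProductGeometry.angle (pt p t) (pt p' t') = t' - t := by
  have n1 : ‖pt p t‖ = p := norm_pt hp.le
  have n2 : ‖pt p' t'‖ = p' := norm_pt hp'.le
  have h2 := norm_pt_sub_sq p t p' t'
  have h3 := norm_sub_sq_real (pt p t) (pt p' t')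
  rw [n1, n2] at h3
  have h4 : inner ℝ (pt p t) (pt p' t') = p * p' * cos (t' - t) := by
    have h5 : cos (t - t') = cos (t' - t) := by rw [← cos_neg, neg_sub]
    rw [h5] at h2
    linarith
  unfold InnerProductGeometry.angle
  rw [n1, n2, h4, mul_comm (p * p'), mul_div_assoc, div_self (by positivity), mul_one]
  exact Real.arccos_cos h0 h1

private theorem cos_law (x y : ℂ) : ‖y‖ ^ 2 + ‖x‖ ^ 2 -
    2 * ‖y‖ * ‖x‖ * cos (InnerProductGeometry.angle x y) = ‖x - y‖ ^ 2 := by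
  have h3 := norm_sub_sq_real x y
  have h4 := InnerProductGeometry.cos_angle_mul_norm_mul_norm x y
  rw [h3, ← h4]
  ring

/-- one pair of lifts -/
private theorem lift_gap {R : ℝ} (hR : OkR R) (r : Ring R 9) {n : ℤ} {t t' : ℝ}
    (h : |t - r.β n| ≤ arcsin (1 / r.d n)) (h' : |t' - r.β (n + 3)| ≤ arcsin (1 / r.d (n + 3))) :
    0 < t' - t ∧ t' - t ≤ π := by
  have h1 := far9 hR r (n := n) (k := n + 3) (by omega) (by omega)
  have h2 := r.win_hi hR (n := n) (k := n + 3) (by omega)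
  have e1 := ep hR (r.lo n).le (r.hi n)
  have e2 := ep hR (r.lo (n + 3)).le (r.hi (n + 3))
  have h3 := phm_hi hR
  have h4 := Real.pi_gt_d2
  rw [abs_le] at h h'
  push_cast at h2
  unfold Ring.p at h2
  constructor
  · linarith [h.1, h.2, h'.1, h'.2]
  · norm_num at h4 ⊢
    linarith [h.1, h.2, h'.1, h'.2]

/-- three consecutive gaps -/
private theorem three_gaps {R : ℝ} (hR : OkR R) (r : Ring R 9) {n : ℤ} {M A : ℂ}
    (h1 : ‖M - r.b (n + 1)‖ = 1) (h2 : ‖M - r.b (n + 2)‖ = 1) (h3 : ‖M‖ < R) (h4 : ‖M - A‖ < 1) :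
    r.β (n + 3) - r.β n < r.p n + 4 * fi R (1 + R * (1 + ‖A‖)) + r.p (n + 3) := by
  have g0 := r.ov n
  have g2 := r.ov (n + 2)
  have e1 : n + 2 + 1 = n + 3 := by ring
  have e2 : n + 1 + 1 = n + 2 := by ring
  rw [e1] at g2
  have g1 := cusp_S hR r (n + 1) M h1 (by rw [e2]; exact h2) h3
  rw [e2] at g1
  have hM : ‖M‖ ≤ 1 + ‖A‖ := by
    have := norm_sub_norm_le M A
    linarith
  have hR0 : 0 < R := by linarith [hR.1]
  have g3 : Sf R ‖M‖ ≤ fi R (1 + R * (1 + ‖A‖)) := by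
    unfold Sf
    apply fi_mono hR
    · positivity
    · have := mul_le_mul_of_nonneg_left hM hR0.le
      linarith
  unfold Ring.p at *
  linarith

namespace Core9C

theorem norm_pt {d b : ℝ} (hd : 0 ≤ d) : ‖pt d b‖ = d := by
  unfold pt
  rw [norm_mul, Complex.norm_exp_ofReal_mul_I, Complex.norm_real, Real.norm_of_nonneg hd, mul_one]

theorem inner_pt (q q' t t' : ℝ) : inner ℝ (pt q t) (pt q' t') = q * q' * cos (t' - t) := by
  unfold pt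
  rw [Complex.inner]
  simp only [map_mul, Complex.conj_ofReal, ← Complex.exp_conj, Complex.conj_I]
  have h : (q : ℂ) * Complex.exp ((t : ℂ) * -Complex.I) * ((q' : ℂ) * Complex.exp ((t' : ℂ) * Complex.I)) =
      ((q * q' : ℝ) : ℂ) * Complex.exp (((t' - t : ℝ) : ℂ) * Complex.I) := by
    push_cast
    rw [show ((t' : ℂ) - t) * Complex.I = (t : ℂ) * -Complex.I + (t' : ℂ) * Complex.I by ring, Complex.exp_add]
    ring
  rw [mul_comm, h, Complex.re_ofReal_mul, Complex.exp_ofReal_mul_I_re]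

theorem angle_pt {q q' t t' : ℝ} (hq : 0 < q) (hq' : 0 < q') (h0 : 0 ≤ t' - t) (h1 : t' - t ≤ π) :
    InnerProductGeometry.angle (pt q t) (pt q' t') = t' - t := by
  unfold InnerProductGeometry.angle
  rw [inner_pt, norm_pt hq.le, norm_pt hq'.le, mul_div_cancel_left₀ _ (by positivity), Real.arccos_cos h0 h1]

/-- The law of cosines. -/
theorem loc (Q A : ℂ) (h : ‖Q - A‖ < 1) :
    ‖A‖ ^ 2 + ‖Q‖ ^ 2 - 2 * ‖A‖ * ‖Q‖ * cos (InnerProductGeometry.angle Q A) < 1 := by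
  have h1 := InnerProductGeometry.cos_angle_mul_norm_mul_norm Q A
  have h2 := norm_sub_sq_real Q A
  have h3 : ‖Q - A‖ ^ 2 < 1 := by
    have := norm_nonneg (Q - A)
    nlinarith
  nlinarith

/-- One application of the two-variable inequality. -/
theorem useF {R lam : ℝ} (F : FIneq R lam) (Q A : ℂ) (hQ : 0 < ‖Q‖) (h : ‖Q - A‖ < 1)
    (h5 : 0.9245 ≤ fi R ((1 + ‖Q‖) ^ 2) + 2 * fi R (1 + R * (1 + ‖A‖))) :
    fi R ((1 + ‖Q‖) ^ 2) + 2 * fi R (1 + R * (1 + ‖A‖)) +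
      lam * (InnerProductGeometry.angle Q A - π / 3) ≤ π / 3 :=
  F ‖A‖ ‖Q‖ _ (norm_nonneg _) hQ (InnerProductGeometry.angle_nonneg _ _) (InnerProductGeometry.angle_le_pi _ _)
    (loc Q A h) h5

variable {R : ℝ}

/-- The direction of a point of a ball at the ring disk number `n`. -/
theorem lift (hR : OkR R) (r : Ring R 9) (n : ℤ) (Q : ℂ) (h : ‖Q - r.b n‖ = 1) :
    ∃ t : ℝ, Q = pt ‖Q‖ t ∧ |t - r.β n| ≤ arcsin (1 / r.d n) :=
  lift_ball (by linarith [r.d_pos hR n]) h.le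

theorem step (hR : OkR R) (r : Ring R 9) (n : ℤ) {t t' : ℝ} (h : |t - r.β n| ≤ arcsin (1 / r.d n))
    (h' : |t' - r.β (n + 3)| ≤ arcsin (1 / r.d (n + 3))) : 0 < t' - t ∧ t' - t < π := by
  have h1 := abs_le.1 h
  have h2 := abs_le.1 h'
  have h3 := far9 hR r (n := n) (k := n + 3) (by omega) (by omega)
  have h4 := r.win_hi hR (n := n) (k := n + 3) (by omega)
  push_cast at h4
  rw [show (n : ℝ) + 3 - n - 1 = 2 by ring] at h4
  have e1 : arcsin (1 / r.d n) + r.p n ≤ 0.83 := ep hR (r.lo n).le (r.hi n)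
  have e2 : arcsin (1 / r.d (n + 3)) + r.p (n + 3) ≤ 0.83 := ep hR (r.lo (n + 3)).le (r.hi (n + 3))
  have h5 := phm_hi hR
  have h6 := Real.pi_gt_d4
  constructor
  · linarith [h1.1, h1.2, h2.1, h2.2]
  · linarith [h1.1, h1.2, h2.1, h2.2]

/-- The three gaps between the disks `n` and `n + 3`. -/
theorem gaps (hR : OkR R) (r : Ring R 9) (n : ℤ) (M A : ℂ) (h1 : ‖M - r.b (n + 1)‖ = 1)
    (h2 : ‖M - r.b (n + 2)‖ = 1) (h3 : ‖M‖ < R) (h4 : ‖M - A‖ < 1) :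
    r.β (n + 3) - r.β n < r.p n + r.p (n + 3) + 4 * fi R (1 + R * (1 + ‖A‖)) := by
  have g1 := r.ov n
  have g3 := r.ov (n + 2)
  have g2 := cusp_S hR r (n + 1) M h1 (by rw [show n + 1 + 1 = n + 2 by ring]; exact h2) h3
  rw [show n + 1 + 1 = n + 2 by ring] at g2
  rw [show n + 2 + 1 = n + 3 by ring] at g3
  have hM : ‖M‖ ≤ 1 + ‖A‖ := by
    have : ‖M‖ ≤ ‖M - A‖ + ‖A‖ := by
      have := norm_add_le (M - A) A
      rwa [sub_add_cancel] at this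
    linarith
  have hR0 : 0 < R := by linarith [hR.1]
  have g4 : Sf R ‖M‖ ≤ fi R (1 + R * (1 + ‖A‖)) := by
    unfold Sf
    apply fi_mono hR
    · have := norm_nonneg M
      positivity
    · have := mul_le_mul_of_nonneg_left hM hR0.le
      linarith
  change r.β (n + 1) - r.β n < r.p n + r.p (n + 1) at g1
  change r.β (n + 3) - r.β (n + 2) < r.p (n + 2) + r.p (n + 3) at g3
  linarith

theorem p_le_f (hR : OkR R) (r : Ring R 9) (n : ℤ) (Q : ℂ) (h : ‖Q - r.b n‖ = 1) :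
    r.p n ≤ fi R ((1 + ‖Q‖) ^ 2) := by
  have h1 := cusp_norm hR r n Q h.le
  have h2 := r.d_pos hR n
  unfold Ring.p
  apply fi_mono hR (by nlinarith)
  nlinarith [h1.2]

theorem core9_aux {lam : ℝ} (hR : OkR R) (r : Ring R 9) (hl : 0 < lam) (F : FIneq R lam) (s : ℤ)
    (A0 A1 A2 Q0 Q1 Q2 M0 M1 M2 : ℂ)
    (q0 : ‖Q0 - r.b s‖ = 1) (q1 : ‖Q1 - r.b (s + 3)‖ = 1) (q2 : ‖Q2 - r.b (s + 3 + 3)‖ = 1)
    (a0 : ‖Q0 - A0‖ < 1) (a1 : ‖Q1 - A1‖ < 1) (a2 : ‖Q2 - A2‖ < 1)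
    (b0 : ‖Q1 - A0‖ < 1) (b1 : ‖Q2 - A1‖ < 1) (b2 : ‖Q0 - A2‖ < 1)
    (m0 : ‖M0 - r.b (s + 1)‖ = 1 ∧ ‖M0 - r.b (s + 2)‖ = 1 ∧ ‖M0‖ < R ∧ ‖M0 - A0‖ < 1)
    (m1 : ‖M1 - r.b (s + 3 + 1)‖ = 1 ∧ ‖M1 - r.b (s + 3 + 2)‖ = 1 ∧ ‖M1‖ < R ∧ ‖M1 - A1‖ < 1)
    (m2 : ‖M2 - r.b (s + 3 + 3 + 1)‖ = 1 ∧ ‖M2 - r.b (s + 3 + 3 + 2)‖ = 1 ∧ ‖M2‖ < R ∧ ‖M2 - A2‖ < 1) :
    False := by
  have hR' := hR
  obtain ⟨r1, r2⟩ := hR'
  obtain ⟨t0, e0, l0⟩ := lift hR r s Q0 q0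
  obtain ⟨t1, e1, l1⟩ := lift hR r (s + 3) Q1 q1
  obtain ⟨t2, e2, l2⟩ := lift hR r (s + 3 + 3) Q2 q2
  have e9 : s + 3 + 3 + 3 = s + ((9 : ℕ) : ℤ) := by push_cast; ring
  have hβ : r.β (s + 3 + 3 + 3) = r.β s + 2 * π := by rw [e9]; exact r.per_β s
  have hd : r.d (s + 3 + 3 + 3) = r.d s := by rw [e9]; exact r.per_d s
  have hp : r.p (s + 3 + 3 + 3) = r.p s := by rw [e9]; exact r.per_p s
  have l3 : |(t0 + 2 * π) - r.β (s + 3 + 3 + 3)| ≤ arcsin (1 / r.d (s + 3 + 3 + 3)) := by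
    rw [hβ, hd, show t0 + 2 * π - (r.β s + 2 * π) = t0 - r.β s by ring]
    exact l0
  have x0 := step hR r s l0 l1
  have x1 := step hR r (s + 3) l1 l2
  have x2 := step hR r (s + 3 + 3) l2 l3
  have n0 := (cusp_norm hR r s Q0 q0.le).1
  have n1 := (cusp_norm hR r (s + 3) Q1 q1.le).1
  have n2 := (cusp_norm hR r (s + 3 + 3) Q2 q2.le).1
  have p0 : 0 < ‖Q0‖ := by linarith
  have p1 : 0 < ‖Q1‖ := by linarith
  have p2 : 0 < ‖Q2‖ := by linarith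
  have A01 : InnerProductGeometry.angle Q0 Q1 = t1 - t0 := by
    have := angle_pt p0 p1 x0.1.le x0.2.le
    rwa [← e0, ← e1] at this
  have A12 : InnerProductGeometry.angle Q1 Q2 = t2 - t1 := by
    have := angle_pt p1 p2 x1.1.le x1.2.le
    rwa [← e1, ← e2] at this
  have e0' : Q0 = pt ‖Q0‖ (t0 + 2 * π) := by
    have h : pt ‖Q0‖ (t0 + 2 * π) = pt ‖Q0‖ t0 := by
      unfold pt
      congr 1
      push_cast
      rw [add_mul, Complex.exp_add, Complex.exp_two_pi_mul_I, mul_one]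
    rw [h]
    exact e0
  have A20 : InnerProductGeometry.angle Q2 Q0 = t0 + 2 * π - t2 := by
    have := angle_pt p2 p0 x2.1.le x2.2.le
    rwa [← e2, ← e0'] at this
  have T0 := InnerProductGeometry.angle_le_angle_add_angle Q0 A0 Q1
  have T1 := InnerProductGeometry.angle_le_angle_add_angle Q1 A1 Q2
  have T2 := InnerProductGeometry.angle_le_angle_add_angle Q2 A2 Q0
  rw [InnerProductGeometry.angle_comm A0 Q1, A01] at T0
  rw [InnerProductGeometry.angle_comm A1 Q2, A12] at T1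
  rw [InnerProductGeometry.angle_comm A2 Q0, A20] at T2
  -- the circle is covered
  have G0 := gaps hR r s M0 A0 m0.1 m0.2.1 m0.2.2.1 m0.2.2.2
  have G1 := gaps hR r (s + 3) M1 A1 m1.1 m1.2.1 m1.2.2.1 m1.2.2.2
  have G2 := gaps hR r (s + 3 + 3) M2 A2 m2.1 m2.2.1 m2.2.2.1 m2.2.2.2
  rw [hβ, hp] at G2
  have P0 := p_le_f hR r s Q0 q0
  have P1 := p_le_f hR r (s + 3) Q1 q1
  have P2 := p_le_f hR r (s + 3 + 3) Q2 q2
  have hph := phm_hi hR
  have hpi := Real.pi_gt_d4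
  have hfl : ∀ Q : ℂ, fi R ((1 + ‖Q‖) ^ 2) ≤ phm R := fun Q => fi_le hR (by have := norm_nonneg Q; positivity)
  have hgl : ∀ A : ℂ, fi R (1 + R * (1 + ‖A‖)) ≤ phm R := fun A =>
    fi_le hR (by have := norm_nonneg A; have : 0 < R := by linarith
                 positivity)
  have f0 := hfl Q0
  have f1 := hfl Q1
  have f2 := hfl Q2
  have g0 := hgl A0
  have g1 := hgl A1
  have g2 := hgl A2
  have U0 := useF F Q0 A0 p0 a0
  have U1 := useF F Q1 A1 p1 a1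
  have U2 := useF F Q2 A2 p2 a2
  have V0 := useF F Q1 A0 p1 b0
  have V1 := useF F Q2 A1 p2 b1
  have V2 := useF F Q0 A2 p0 b2
  generalize fi R ((1 + ‖Q0‖) ^ 2) = F0 at *
  generalize fi R ((1 + ‖Q1‖) ^ 2) = F1 at *
  generalize fi R ((1 + ‖Q2‖) ^ 2) = F2 at *
  generalize fi R (1 + R * (1 + ‖A0‖)) = H0 at *
  generalize fi R (1 + R * (1 + ‖A1‖)) = H1 at *
  generalize fi R (1 + R * (1 + ‖A2‖)) = H2 at *
  generalize InnerProductGeometry.angle Q0 A0 = d0 at *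
  generalize InnerProductGeometry.angle Q1 A1 = d1 at *
  generalize InnerProductGeometry.angle Q2 A2 = d2 at *
  generalize InnerProductGeometry.angle Q1 A0 = c0 at *
  generalize InnerProductGeometry.angle Q2 A1 = c1 at *
  generalize InnerProductGeometry.angle Q0 A2 = c2 at *
  have B : π < F0 + F1 + F2 + 2 * H0 + 2 * H1 + 2 * H2 := by linarith only [G0, G1, G2, P0, P1, P2]
  norm_num at hph hpi U0 U1 U2 V0 V1 V2
  have W0 := U0 (by linarith only [B, f0, f1, f2, g0, g1, g2, hph, hpi])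
  have W1 := U1 (by linarith only [B, f0, f1, f2, g0, g1, g2, hph, hpi])
  have W2 := U2 (by linarith only [B, f0, f1, f2, g0, g1, g2, hph, hpi])
  have W3 := V0 (by linarith only [B, f0, f1, f2, g0, g1, g2, hph, hpi])
  have W4 := V1 (by linarith only [B, f0, f1, f2, g0, g1, g2, hph, hpi])
  have W5 := V2 (by linarith only [B, f0, f1, f2, g0, g1, g2, hph, hpi])
  have X : 0 ≤ lam * (d0 + d1 + d2 + c0 + c1 + c2 - 2 * π) :=
    mul_nonneg hl.le (by linarith only [T0, T1, T2])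
  nlinarith only [W0, W1, W2, W3, W4, W5, X, B]

end Core9C

open Core9C

theorem core9 {R lam : ℝ} (hR : OkR R) (r : Ring R 9) (hl : 0 < lam) (F : FIneq R lam) (s : ℤ) (A Q M : Fin 3 → ℂ)
    (hQ : ∀ k : Fin 3, ‖Q k - r.b (s + 3 * (k : ℤ))‖ = 1) (hQA : ∀ k : Fin 3, ‖Q k - A k‖ < 1)
    (hQA' : ∀ k : Fin 3, ‖Q (k + 1) - A k‖ < 1)
    (hM : ∀ k : Fin 3, ‖M k - r.b (s + 3 * (k : ℤ) + 1)‖ = 1 ∧ ‖M k - r.b (s + 3 * (k : ℤ) + 2)‖ = 1 ∧ ‖M k‖ < R ∧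
      ‖M k - A k‖ < 1) : False := by
  have h0 := hQ 0
  have h1 := hQ 1
  have h2 := hQ 2
  have m0 := hM 0
  have m1 := hM 1
  have m2 := hM 2
  have i0 : s + 3 * (((0 : Fin 3) : ℕ) : ℤ) = s := by simp
  have i1 : s + 3 * (((1 : Fin 3) : ℕ) : ℤ) = s + 3 := by simp
  have i2 : s + 3 * (((2 : Fin 3) : ℕ) : ℤ) = s + 3 + 3 := by
    have : (((2 : Fin 3) : ℕ) : ℤ) = 2 := rfl
    rw [this]; ring
  rw [i0] at h0 m0
  rw [i1] at h1 m1
  rw [i2] at h2 m2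
  exact core9_aux hR r hl F s (A 0) (A 1) (A 2) (Q 0) (Q 1) (Q 2) (M 0) (M 1) (M 2) h0 h1 h2 (hQA 0) (hQA 1) (hQA 2)
    (hQA' 0) (hQA' 1) (hQA' 2) m0 m1 m2

end Pool.Agent.TD25
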