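import Pool.Agent.TD25.FPoly

/-!
# TD25/Far: the final inequality away from the optimum (verified Taylor models)
-/

set_option autoImplicit false

namespace Pool.Agent.TD25

open Real Pool.Agent.SB19

/-- `h^2 + q^2 - 1 - 2 h q cos (π/3 + (π/3 - U - V) / lam)`, `X = h`, `Y = q`, `Z = 1/lam`. -/
def exFar : Ex := .add (.add (.mul .X .X) (.add (.mul .Y .Y) (.neg (.num 1 1)))) (.neg (.mul (.nmul 2 (.mul .X .Y)) (.cos (.add (.ndiv 3 .pi) (.mul (.add (.ndiv 3 .pi) (.neg (.add exU exV))) .Z)))))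

def exSum : Ex := .add (.num 12 10) (.neg (.add exU exV))

def exOut : Ex := .add (.num 9244 10000) (.neg (.add exU exV))

theorem chkL : chk2 [exFar, exSum] [exOut] (.X (.Y (.X (.Y .D .L) (.Y (.Y .D (.Y (.Y .D .L) .L)) (.Y .L .L))) (.X .L .L)) (.Y (.Y (.Y (.X (.Y .D (.X .D .L)) (.Y .L .L)) (.X (.Y (.X .L .L) (.X .L .L)) (.Y (.X .L .L) (.X .L .L)))) (.X (.Y (.X .L (.Y .L .L)) (.X .L .L)) (.Y (.X (.Y .L (.X .L .L)) (.Y (.Y .L .L) (.X .L .L))) (.X (.Y .L .L) (.Y (.X .L (.Y .L .L)) (.X .L (.Y .L .L))))))) (.Y (.X .L (.Y (.X .L (.Y .L .L)) .L)) (.X .L .L))))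
    ((94371 + 724567) * 524288) ((724567 - 94371) * 524288) ((891289 + 1509950) * 524288) ((1509950 - 891289) * 524288)
    ((3808742 + 3826988) * 524288) ((3826988 - 3808742) * 524288) = true := by
  decide +kernel

theorem chkR : chk2 [exFar, exSum] [exOut] (.Y (.Y (.Y .L .L) (.Y (.X .L .L) (.X (.X (.Y .L (.X .L .L)) .L) .L))) (.Y (.X (.Y (.X (.Y (.X .L .L) .L) (.Y .L .L)) (.Y .L .L)) (.Y (.X .L .L) .L)) (.Y .L .L)))
    ((891289 + 1098384) * 524288) ((1098384 - 891289) * 524288) ((891289 + 1509950) * 524288) ((1509950 - 891289) * 524288)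
    ((3808742 + 3826988) * 524288) ((3826988 - 3808742) * 524288) = true := by
  decide +kernel

theorem chkB : chk2 [exFar, exSum] [exOut] (.Y (.Y .L .L) (.Y (.X (.Y .L .L) .L) (.X (.Y (.X .L .L) (.X (.Y .L .L) .L)) (.Y .L .L))))
    ((724566 + 891290) * 524288) ((891290 - 724566) * 524288) ((891289 + 1122291) * 524288) ((1122291 - 891289) * 524288)
    ((3808742 + 3826988) * 524288) ((3826988 - 3808742) * 524288) = true := by
  decide +kernel

theorem chkT : chk2 [exFar, exSum] [exOut] (.Y (.Y (.X (.Y .L .L) (.Y (.X .L .L) .L)) (.X .L .L)) (.Y .L .L))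
    ((724566 + 891290) * 524288) ((891290 - 724566) * 524288) ((1247700 + 1509950) * 524288) ((1509950 - 1247700) * 524288)
    ((3808742 + 3826988) * 524288) ((3826988 - 3808742) * 524288) = true := by
  decide +kernel

/-- The conclusion from the two alternatives of the check. -/
theorem far_core {R lam h q δ : ℝ} (hR1 : 2.76929 ≤ R) (hR2 : R ≤ 2.7693) (hl1 : 0.2740 ≤ lam) (h1 : 0.09 ≤ h)
    (h2 : R * (1 + h) ≤ R ^ 2 - 2) (q1 : 0.85 ≤ q) (q2 : q ≤ 1.44) (hδ0 : 0 ≤ δ) (hδ1 : δ ≤ π)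
    (hc : h ^ 2 + q ^ 2 - 2 * h * q * cos δ < 1) (hΦ : 0.9245 ≤ ff R q + gg R h)
    (hk : (∃ d ∈ [exOut], 0 ≤ d.eval h q (1 / lam)) ∨ ∀ p ∈ [exFar, exSum], 0 ≤ p.eval h q (1 / lam)) :
    ff R q + gg R h + lam * (δ - π / 3) ≤ π / 3 := by
  have hU := ff_le hR1 hR2 q1 q2
  have hV := gg_le hR1 hR2 h1 h2
  have eU : exU.eval h q (1 / lam) = exU.eval 0 q 0 := by simp only [exU, Ex.eval]
  have eV : exV.eval h q (1 / lam) = exV.eval h 0 0 := by simp only [exV, Ex.eval]
  set U := exU.eval 0 q 0 with hUdef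
  set V := exV.eval h 0 0 with hVdef
  have hl : 0 < lam := by linarith
  rcases hk with hk | hk
  · obtain ⟨d, hd, hd2⟩ := hk
    simp only [List.mem_singleton] at hd
    subst hd
    have e : exOut.eval h q (1 / lam) = 9244 / 10000 - (exU.eval h q (1 / lam) + exV.eval h q (1 / lam)) := by
      simp only [exOut, Ex.eval]; push_cast; ring
    rw [e, eU, eV] at hd2
    exfalso
    linarith
  · have hF := hk exFar (by simp)
    have hS := hk exSum (by simp)
    have e : exSum.eval h q (1 / lam) = 12 / 10 - (exU.eval h q (1 / lam) + exV.eval h q (1 / lam)) := by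
      simp only [exSum, Ex.eval]; push_cast; ring
    rw [e, eU, eV] at hS
    have e2 : exFar.eval h q (1 / lam) = h ^ 2 + q ^ 2 - 1 -
        2 * h * q * cos (π / 3 + (π / 3 - (exU.eval h q (1 / lam) + exV.eval h q (1 / lam))) * (1 / lam)) := by
      simp only [exFar, Ex.eval]; push_cast; ring
    rw [e2, eU, eV] at hF
    set t := π / 3 + (π / 3 - (U + V)) * (1 / lam) with ht
    have hpi := pi_gt_three
    have ht0 : 0 ≤ t := by
      have h5 : -(1 : ℝ) ≤ (π / 3 - (U + V)) * (1 / lam) := by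
        rw [mul_one_div, le_div_iff₀ hl]
        linarith
      rw [ht]
      linarith
    have hle : δ ≤ t := by
      by_contra hcon
      rw [not_le] at hcon
      have h6 : cos δ ≤ cos t := cos_le_cos_of_nonneg_of_le_pi ht0 hδ1 hcon.le
      have h7 : 0 < 2 * h * q := by positivity
      have h8 : 2 * h * q * cos δ ≤ 2 * h * q * cos t := mul_le_mul_of_nonneg_left h6 h7.le
      linarith
    have h9 : lam * (δ - π / 3) ≤ π / 3 - (U + V) := by
      have h10 : lam * (t - π / 3) = π / 3 - (U + V) := by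
        rw [ht, add_sub_cancel_left, mul_comm, mul_assoc, one_div_mul_cancel hl.ne', mul_one]
      have h11 : lam * (δ - π / 3) ≤ lam * (t - π / 3) := mul_le_mul_of_nonneg_left (by linarith) hl.le
      linarith
    linarith

theorem far {R lam h q δ : ℝ} (hR1 : 2.76929 ≤ R) (hR2 : R ≤ 2.7693) (hl1 : 0.2740 ≤ lam) (hl2 : lam ≤ 0.2753)
    (h1 : 0.09 ≤ h) (h2 : R * (1 + h) ≤ R ^ 2 - 2) (q1 : 0.85 ≤ q) (q2 : q ≤ 1.44)
    (hn : ¬ (0.691 ≤ h ∧ h ≤ 0.85 ∧ 1.0703 ≤ q ∧ q ≤ 1.1899)) (hδ0 : 0 ≤ δ) (hδ1 : δ ≤ π)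
    (hc : h ^ 2 + q ^ 2 - 2 * h * q * cos δ < 1) (hΦ : 0.9245 ≤ ff R q + gg R h) :
    ff R q + gg R h + lam * (δ - π / 3) ≤ π / 3 := by
  have h3 : h ≤ 1.0475 := by
    by_contra hc
    rw [not_le] at hc
    nlinarith
  have hl : 0 < lam := by linarith
  have z1 : (3808742 : ℝ) ≤ 1048576 * (1 / lam) := by
    rw [mul_one_div, le_div_iff₀ hl]; nlinarith
  have z2 : 1048576 * (1 / lam) ≤ (3826988 : ℝ) := by
    rw [mul_one_div, div_le_iff₀ hl]; nlinarith
  apply far_core hR1 hR2 hl1 h1 h2 q1 q2 hδ0 hδ1 hc hΦ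
  rcases le_or_gt h 0.691 with a | a
  · exact of_box _ _ _ _ _ _ _ _ _ (by norm_num) (by norm_num) (by norm_num) chkL
      (by norm_num; linarith) (by norm_num; linarith) (by norm_num; linarith) (by norm_num; linarith)
      (by exact_mod_cast z1) (by exact_mod_cast z2)
  rcases le_or_gt 0.85 h with b | b
  · exact of_box _ _ _ _ _ _ _ _ _ (by norm_num) (by norm_num) (by norm_num) chkR
      (by norm_num; linarith) (by norm_num; linarith) (by norm_num; linarith) (by norm_num; linarith)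
      (by exact_mod_cast z1) (by exact_mod_cast z2)
  rcases le_or_gt q 1.0703 with c | c
  · exact of_box _ _ _ _ _ _ _ _ _ (by norm_num) (by norm_num) (by norm_num) chkB
      (by norm_num; linarith) (by norm_num; linarith) (by norm_num; linarith) (by norm_num; linarith)
      (by exact_mod_cast z1) (by exact_mod_cast z2)
  rcases le_or_gt 1.1899 q with d | d
  · exact of_box _ _ _ _ _ _ _ _ _ (by norm_num) (by norm_num) (by norm_num) chkT
      (by norm_num; linarith) (by norm_num; linarith) (by norm_num; linarith) (by norm_num; linarith)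
      (by exact_mod_cast z1) (by exact_mod_cast z2)
  exact absurd ⟨a.le, b.le, c.le, d.le⟩ hn

end Pool.Agent.TD25
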