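import Pool.Agent.TD25.Near
import Pool.Agent.TD25.Far
import Pool.Agent.TD25.Core9

/-!
# TD25/FFin: the two-variable inequality `FIneq R (lamO R h0 q0)` for the optimal parameters

Proof. `lam = lamO R h0 q0 ∈ [0.2740, 0.2753]` (`lamB`), `OkR R`, `phm < 0.3695`. Given `h, q, δ` as in `FIneq`; `ff`, `gg` unfold to the
expressions there (`ff R q = fi R ((1 + q)^2)`, `gg R h = 2 * fi R (1 + R * (1 + h))`). `ff ≤ phm`, `gg ≤ 2 phm` (`fi_le`).
(a) `q ≥ 1.44`: `(q sin δ)^2 ≤ h^2 + q^2 - 2 h q cos δ < 1` (difference: `(h - q cos δ)^2`), and `cos δ > 0` (otherwise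
`h^2 + q^2 - 2 h q cos δ ≥ q^2 > 1`), so `sin δ < 1/1.44 < √2/2` and `δ < π/4`. Total `≤ 3 * 0.3695 - 0.274 * π/12 < π/3`.
(b) `q < 1.44`. First `q ≥ 0.85`: `ff R q ≥ 0.9245 - 2 * 0.3695 = 0.1855`, but for `q ≤ 0.85` `ff R q ≤ fi R (1.85^2) ≤ 0.18`
(`fi_mono`, `fi_le_of_cos`). Similarly `h ≥ 0.09`: `gg R h ≥ 0.9245 - 0.3695 = 0.555`, but for
`0 ≤ h ≤ 0.09`: `gg R h ≤ 2 fi R (1 + 1.09 R) ≤ 2 * 0.277`.
(c) Let `hT = R - 2/R - 1` (about 1.0471). If `h > hT`: put `h' = hT`; `gg R h = gg R h' = 2 phm` (`fi_top`; `1 + R (1 + h') = R^2 - 1`), and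
`h'^2 + q^2 - 2 h' q cos δ < 1`: from `2 q cos δ > h + (q^2 - 1)/h` and `h + (q^2-1)/h ≥ h' + (q^2-1)/h'` (as
`(h - h') (1 - (q^2 - 1)/(h h')) ≥ 0`, `q^2 - 1 < 1.0736 < 1.09 < h'^2 < h h'`). So we may assume `h ≤ hT`, i.e. `R (1 + h) ≤ R^2 - 2`.
(d) If `0.691 ≤ h ≤ 0.85` and `1.0703 ≤ q ≤ 1.1899`: `near` (`|h - h0| ≤ 0.08`, `|q - q0| ≤ 0.06` by the bounds in `Opt`). Otherwise `far`.
-/

set_option autoImplicit false

namespace Pool.Agent.TD25

open Real

private theorem cos_up {x : ℝ} (h0 : 0 ≤ x) (h1 : x ≤ 1) : cos x ≤ 1 - x ^ 2 / 2 + x ^ 4 * (5 / 96) := by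
  have h := (abs_le.1 (Real.cos_bound (x := x) (by rw [abs_of_nonneg h0]; exact h1))).2
  rw [abs_of_nonneg h0] at h
  linarith

/-- the values for `0 ≤ h`, `R (1 + h) ≤ R^2 - 2` -/
private theorem main_case {R h0 q0 h q δ : ℝ} (O : Opt R h0 q0) (hh : 0 ≤ h) (hq : 0 < q) (hq2 : q ≤ 1.44)
    (hT : R * (1 + h) ≤ R ^ 2 - 2) (hδ0 : 0 ≤ δ) (hδ1 : δ ≤ π)
    (hc : h ^ 2 + q ^ 2 - 2 * h * q * cos δ < 1) (hΦ : 0.9245 ≤ ff R q + gg R h) :
    ff R q + gg R h + lamO R h0 q0 * (δ - π / 3) ≤ π / 3 := by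
  have O' := O
  obtain ⟨R1, R2, a1, a2, b1, b2, e1, e2, e3⟩ := O'
  have hR1 : 2.769293 ≤ R := by linarith
  have hR2 : R ≤ 2.769294 := by linarith
  have hR : OkR R := ⟨by linarith, by linarith⟩
  obtain ⟨l1, l2⟩ := lamB hR1 hR2 a1 a2 b1 b2
  have hp := phm_hi hR
  have hR0 : 0 < R := by linarith
  have hF : ff R q ≤ phm R := fi_le hR (by positivity)
  have hG : gg R h ≤ 2 * phm R := by
    have : fi R (1 + R * (1 + h)) ≤ phm R := fi_le hR (by positivity)
    unfold gg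
    linarith
  have hq1 : 0.85 ≤ q := by
    by_contra hcon
    rw [not_le] at hcon
    have h1 : ff R q ≤ fi R (1.85 ^ 2) := by
      unfold ff
      apply fi_mono hR (by positivity)
      exact pow_le_pow_left₀ (by linarith) (by linarith) 2
    have h2 : fi R (1.85 ^ 2) ≤ 0.18 := by
      refine fi_le_of_cos hR (by norm_num) (by nlinarith) (by norm_num) (by linarith [pi_gt_three]) ?_
      refine (cos_up (by norm_num) (by norm_num)).trans ?_
      rw [sqrt_sq (by norm_num), le_div_iff₀ (by linarith)]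
      norm_num
      nlinarith
    linarith
  have hh1 : 0.09 ≤ h := by
    by_contra hcon
    rw [not_le] at hcon
    have h1 : fi R (1 + R * (1 + h)) ≤ fi R (1 + R * 1.09) := by
      apply fi_mono hR (by positivity)
      have := mul_le_mul_of_nonneg_left (show 1 + h ≤ 1.09 by linarith) hR0.le
      linarith
    have h2 : fi R (1 + R * 1.09) ≤ 0.277 := by
      refine fi_le_of_cos hR (by positivity) (by nlinarith) (by norm_num) (by linarith [pi_gt_three]) ?_
      refine (cos_up (by norm_num) (by norm_num)).trans ?_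
      have hD : 0 < 1 + R * 1.09 := by positivity
      have hs : √(1 + R * 1.09) ≤ (R + 1.09) / 1.924 := by
        apply Real.sqrt_le_iff.2
        refine ⟨by positivity, ?_⟩
        rw [div_pow, le_div_iff₀ (by norm_num)]
        nlinarith
      have hs0 : 0 < √(1 + R * 1.09) := sqrt_pos.2 hD
      rw [le_div_iff₀ (by positivity)]
      have h3 : 2 * R * √(1 + R * 1.09) ≤ 2 * R * ((R + 1.09) / 1.924) :=
        mul_le_mul_of_nonneg_left hs (by linarith)
      have h4 : R ^ 2 - 1 + (1 + R * 1.09) = (2 * R * ((R + 1.09) / 1.924)) * 0.962 := by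
        ring
      rw [h4]
      have h5 : (1 - 0.277 ^ 2 / 2 + 0.277 ^ 4 * (5 / 96) : ℝ) ≤ 0.962 := by norm_num
      calc (1 - 0.277 ^ 2 / 2 + 0.277 ^ 4 * (5 / 96)) * (2 * R * √(1 + R * 1.09))
          ≤ 0.962 * (2 * R * √(1 + R * 1.09)) := mul_le_mul_of_nonneg_right h5 (by positivity)
        _ ≤ 0.962 * (2 * R * ((R + 1.09) / 1.924)) := mul_le_mul_of_nonneg_left h3 (by norm_num)
        _ = _ := mul_comm _ _
    unfold gg at hΦ
    linarith
  by_cases hn : 0.691 ≤ h ∧ h ≤ 0.85 ∧ 1.0703 ≤ q ∧ q ≤ 1.1899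
  · obtain ⟨n1, n2, n3, n4⟩ := hn
    exact near O (abs_le.2 ⟨by linarith, by linarith⟩) (abs_le.2 ⟨by linarith, by linarith⟩) hδ0 hδ1 hc
  · exact far (by linarith) (by linarith) l1 l2 hh1 hT hq1 hq2 hn hδ0 hδ1 hc hΦ

theorem fineq_of_opt {R h0 q0 : ℝ} (O : Opt R h0 q0) : FIneq R (lamO R h0 q0) := by
  intro h q δ hh hq hδ0 hδ1 hc hΦ
  have O' := O
  obtain ⟨R1, R2, a1, a2, b1, b2, e1, e2, e3⟩ := O'
  have hR1 : 2.769293 ≤ R := by linarith
  have hR2 : R ≤ 2.769294 := by linarith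
  have hR : OkR R := ⟨by linarith, by linarith⟩
  obtain ⟨l1, l2⟩ := lamB hR1 hR2 a1 a2 b1 b2
  have hp := phm_hi hR
  have hR0 : 0 < R := by linarith
  change ff R q + gg R h + lamO R h0 q0 * (δ - π / 3) ≤ π / 3
  change 0.9245 ≤ ff R q + gg R h at hΦ
  have hF : ff R q ≤ phm R := fi_le hR (by positivity)
  have hG : gg R h ≤ 2 * phm R := by
    have : fi R (1 + R * (1 + h)) ≤ phm R := fi_le hR (by positivity)
    unfold gg
    linarith
  rcases le_or_gt 1.44 q with hq2 | hq2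
  · -- (a)
    have hcos : 0 < cos δ := by
      by_contra hcon
      rw [not_lt] at hcon
      have : h * q * cos δ ≤ 0 := mul_nonpos_of_nonneg_of_nonpos (mul_nonneg hh hq.le) hcon
      nlinarith [sq_nonneg h]
    have hδ2 : δ < π / 2 := by
      by_contra hcon
      rw [not_lt] at hcon
      have := cos_nonpos_of_pi_div_two_le_of_le hcon (by linarith [pi_pos])
      linarith
    have hs0 : 0 ≤ sin δ := sin_nonneg_of_nonneg_of_le_pi hδ0 hδ1
    have hs1 : q ^ 2 * sin δ ^ 2 < 1 := by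
      have h1 := sin_sq_add_cos_sq δ
      have h2 : q ^ 2 * sin δ ^ 2 = q ^ 2 - q ^ 2 * cos δ ^ 2 := by
        linear_combination (q ^ 2) * h1
      nlinarith [sq_nonneg (h - q * cos δ)]
    have hs2 : sin δ ^ 2 < 1 / 2 := by
      have h1 : (2 : ℝ) ≤ q ^ 2 := by nlinarith
      nlinarith [sq_nonneg (sin δ)]
    have hδ4 : δ < π / 4 := by
      by_contra hcon
      rw [not_lt] at hcon
      have h1 : sin (π / 4) ≤ sin δ :=
        sin_le_sin_of_le_of_le_pi_div_two (by linarith [pi_pos]) hδ2.le hcon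
      rw [sin_pi_div_four] at h1
      have h2 : (√2 / 2) ^ 2 ≤ sin δ ^ 2 := pow_le_pow_left₀ (by positivity) h1 2
      have h3 : √2 ^ 2 = (2 : ℝ) := sq_sqrt (by norm_num)
      have h4 : (√2 / 2) ^ 2 = (1 / 2 : ℝ) := by rw [div_pow, h3]; norm_num
      linarith
    have hpi := pi_gt_d4
    have h1 : lamO R h0 q0 * (δ - π / 3) ≤ lamO R h0 q0 * (-(π / 12)) :=
      mul_le_mul_of_nonneg_left (by linarith) (by linarith)
    have h2 : 0.274 * (π / 12) ≤ lamO R h0 q0 * (π / 12) :=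
      mul_le_mul_of_nonneg_right (by linarith) (by positivity)
    norm_num at hp hpi h2 ⊢
    linarith
  · rcases le_or_gt (R * (1 + h)) (R ^ 2 - 2) with hT | hT
    · exact main_case O hh hq hq2.le hT hδ0 hδ1 hc hΦ
    · -- (c)
      set h' := R - 2 / R - 1 with hh'
      have e0 : R * (2 / R) = 2 := mul_div_cancel₀ 2 hR0.ne'
      have e4 : R * (1 + h') = R ^ 2 - 2 := by
        rw [hh']
        linear_combination (-1) * e0
      have h2R : 2 / R ≤ 0.7223 := by
        rw [div_le_iff₀ hR0]; linarith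
      have hb : 1.04 ≤ h' := by
        rw [hh']; linarith
      have hlt : h' < h := by
        by_contra hcon
        rw [not_lt] at hcon
        have := mul_le_mul_of_nonneg_left (show 1 + h ≤ 1 + h' by linarith) hR0.le
        linarith
      have hgg : gg R h' = gg R h := by
        unfold gg
        rw [fi_top hR (by linarith), fi_top hR (by linarith)]
      rw [← hgg] at hΦ ⊢
      refine main_case O (by linarith) hq hq2.le e4.le hδ0 hδ1 ?_ hΦ
      have hh0 : 0 < h := by linarith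
      have k1 : h' * (h ^ 2 + q ^ 2 - 1) < h' * (2 * h * q * cos δ) :=
        mul_lt_mul_of_pos_left (by linarith) (by linarith)
      clear_value h'
      have k2 : 0 ≤ (h - h') * (h * h' - (q ^ 2 - 1)) := by
        apply mul_nonneg (by linarith)
        have k5 : 1.04 * 1.04 ≤ h * h' := mul_le_mul (by linarith) hb (by norm_num) hh0.le
        have k6 : q ^ 2 ≤ 1.44 ^ 2 := pow_le_pow_left₀ hq.le hq2.le 2
        norm_num at k5 k6 ⊢
        linarith
      have k3 : h * (h' ^ 2 + q ^ 2 - 1) < h * (2 * h' * q * cos δ) := by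
        linarith
      have k4 := lt_of_mul_lt_mul_left k3 hh0.le
      linarith

end Pool.Agent.TD25
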