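import Pool.Agent.TD25.Defs

/-!
# TD25/Fi: basic properties of `fi`, `phm`, `ang`, and the tangent line inequality for the cosine

Proofs. Write `A = R ^ 2 - 1 > 0`, `D' = min D A`, `c(D) = (A + D') / (2 R √D')`.
* `fi_mono`: for `0 < D ≤ E ≤ A`: `(A + D) / √D ≥ (A + E) / √E`, because with `s = √D ≤ t = √E`, `s t ≤ A`:
  `A / s + s - A / t - t = (t - s) (A / (s t) - 1) ≥ 0`. `arccos` is antitone.
* `fi_le`: `fi R D ≤ fi R A` by `fi_mono` (for `D ≥ A` both are equal) and `fi R A = arccos (√A / R)` (as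
  `(A + A) / (2 R √A) = √A / R`) `= arcsin (1 / R)` (`√(1 - (1/R)^2) = √A / R`, `Real.arcsin_eq_arccos` or
  `Real.arccos_eq_arcsin`).
* `phm_lo`, `phm_hi`: `1 / 2.7694 > sin 0.3694` and `1 / 2.7692 < sin 0.3695` (`Real.sin_bound` or
  `Real.sin_lt`, `Real.sin_gt_sub_cube` or Taylor bounds: `sin x ≤ x - x^3/6 + x^5/120`,
  `sin x ≥ x - x^3/6 + x^5/120 - x^7/5040`; the values are `1/2.7694 = 0.3610890`, `sin 0.3694 = 0.3610560`,
  `1/2.7692 = 0.3611151`, `sin 0.3695 = 0.3611492`).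
* `cos_fi`: the argument of `arccos` is in `[0, 1]`: `A + D ≤ 2 R √D` iff `(R - √D)^2 ≤ 1`.
* `fi_pos`: `(R - 1)^2 < D` gives argument `< 1` (for `D ≤ A`: `(R - √D)^2 < 1`; for `D > A` the value is `√A / R`).
* `fi_le_of_cos`, `ang_le_of_cos`: `Real.arccos_le_arccos` and `arccos (cos t) = t`.
* `cos_tangent`: concavity of the cosine on `[0, π/2]` (or: `g t = cos t0 - sin t0 (t - t0) - cos t` has derivative
  `sin t - sin t0`, of the sign of `t - t0`).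
-/

set_option autoImplicit false

namespace Pool.Agent.TD25

open Real

private theorem A_pos {R : ℝ} (hR : OkR R) : 0 < R ^ 2 - 1 := by
  obtain ⟨h1, h2⟩ := hR
  nlinarith

private theorem R_pos {R : ℝ} (hR : OkR R) : 0 < R := by
  obtain ⟨h1, h2⟩ := hR
  linarith

theorem fi_mono {R D E : ℝ} (hR : OkR R) (h1 : 0 < D) (h : D ≤ E) : fi R D ≤ fi R E := by
  have hA := A_pos hR
  have hR0 := R_pos hR
  rw [fi, fi]
  apply arccos_le_arccos
  have hD : 0 < min D (R ^ 2 - 1) := lt_min h1 hA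
  have hDE : min D (R ^ 2 - 1) ≤ min E (R ^ 2 - 1) := min_le_min_right _ h
  have hE : 0 < min E (R ^ 2 - 1) := hD.trans_le hDE
  have hEA : min E (R ^ 2 - 1) ≤ R ^ 2 - 1 := min_le_right _ _
  generalize min D (R ^ 2 - 1) = D' at *
  generalize min E (R ^ 2 - 1) = E' at *
  have hs : 0 < √D' := sqrt_pos.2 hD
  have ht : 0 < √E' := sqrt_pos.2 hE
  have hst : √D' ≤ √E' := sqrt_le_sqrt hDE
  have hs2 : √D' ^ 2 = D' := sq_sqrt hD.le
  have ht2 : √E' ^ 2 = E' := sq_sqrt hE.le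
  have hst2 : √D' * √E' ≤ R ^ 2 - 1 := by nlinarith
  rw [div_le_div_iff₀ (by positivity) (by positivity)]
  have h3 : 0 ≤ (√E' - √D') * (R ^ 2 - 1 - √D' * √E') :=
    mul_nonneg (by linarith) (by linarith)
  have h4 : (R ^ 2 - 1 + E') * √D' ≤ (R ^ 2 - 1 + D') * √E' := by
    rw [← hs2, ← ht2]
    rw [sqrt_sq hs.le, sqrt_sq ht.le]
    nlinarith
  nlinarith

theorem fi_nonneg (R D : ℝ) : 0 ≤ fi R D := arccos_nonneg _

private theorem fi_top' {R D : ℝ} (hR : OkR R) (h : R ^ 2 - 1 ≤ D) : fi R D = phm R := by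
  have hA := A_pos hR
  have hR0 := R_pos hR
  have hs : 0 < √(R ^ 2 - 1) := sqrt_pos.2 hA
  rw [fi, phm, min_eq_right h, arcsin_eq_arccos (by positivity)]
  congr 1
  have h1 : 1 - (1 / R) ^ 2 = (R ^ 2 - 1) / R ^ 2 := by
    field_simp
  rw [h1, sqrt_div hA.le, sqrt_sq hR0.le, div_eq_div_iff (by positivity) hR0.ne']
  have h2 : √(R ^ 2 - 1) * √(R ^ 2 - 1) = R ^ 2 - 1 := mul_self_sqrt hA.le
  linear_combination (-2 * R) * h2

theorem fi_le {R D : ℝ} (hR : OkR R) (h : 0 < D) : fi R D ≤ phm R := by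
  rw [← fi_top' hR (le_max_right D (R ^ 2 - 1))]
  exact fi_mono hR h (le_max_left _ _)

theorem fi_top {R D : ℝ} (hR : OkR R) (h : R ^ 2 - 1 ≤ D) : fi R D = phm R := fi_top' hR h

private theorem sin_tay {x : ℝ} (hx : |x| ≤ 1) :
    |sin x - (x - x ^ 3 / 6 + x ^ 5 / 120)| ≤ |x| ^ 7 * (8 / 35280) := by
  have hn : ‖((x : ℂ) * Complex.I)‖ = |x| := by
    rw [norm_mul, Complex.norm_I, mul_one, Complex.norm_real, norm_eq_abs]
  have h := Complex.exp_bound (x := (x : ℂ) * Complex.I) (by rw [hn]; exact hx)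
    (n := 7) (by norm_num)
  rw [hn] at h
  have hI2 : Complex.I ^ 2 = -1 := Complex.I_sq
  have hI3 : Complex.I ^ 3 = -Complex.I := Complex.I_pow_three
  have hI4 : Complex.I ^ 4 = 1 := Complex.I_pow_four
  have hI5 : Complex.I ^ 5 = Complex.I := by
    rw [show (5 : ℕ) = 4 + 1 from rfl, pow_add, hI4, pow_one, one_mul]
  have hI6 : Complex.I ^ 6 = -1 := by
    rw [show (6 : ℕ) = 4 + 2 from rfl, pow_add, hI4, hI2, one_mul]
  have h2 : Complex.exp ((x : ℂ) * Complex.I) -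
      ∑ m ∈ Finset.range 7, ((x : ℂ) * Complex.I) ^ m / (m.factorial : ℂ) =
      ((cos x - (1 - x ^ 2 / 2 + x ^ 4 / 24 - x ^ 6 / 720) : ℝ) : ℂ) +
        ((sin x - (x - x ^ 3 / 6 + x ^ 5 / 120) : ℝ) : ℂ) * Complex.I := by
    rw [Complex.exp_mul_I]
    simp only [Finset.sum_range_succ, Finset.sum_range_zero, mul_pow, hI2, hI3, hI4, hI5, hI6,
      Nat.factorial]
    push_cast
    ring
  have h3 : (Complex.exp ((x : ℂ) * Complex.I) -
      ∑ m ∈ Finset.range 7, ((x : ℂ) * Complex.I) ^ m / (m.factorial : ℂ)).im =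
      sin x - (x - x ^ 3 / 6 + x ^ 5 / 120) := by
    rw [h2, Complex.add_im, Complex.ofReal_im, Complex.im_ofReal_mul, Complex.I_im]
    ring
  rw [← h3]
  refine (Complex.abs_im_le_norm _).trans (h.trans (le_of_eq ?_))
  norm_num [Nat.factorial]

theorem phm_lo {R : ℝ} (hR : OkR R) : 0.3694 < phm R := by
  have hR0 := R_pos hR
  have hpi := pi_gt_three
  rw [phm, lt_arcsin_iff_sin_lt' ⟨by linarith, by linarith⟩]
  have h1 : (1 : ℝ) / 2.7694 ≤ 1 / R := one_div_le_one_div_of_le hR0 hR.2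
  have h2 := (abs_le.1 (sin_tay (x := 0.3694) (by rw [abs_of_pos (by norm_num)]; norm_num))).2
  rw [abs_of_pos (by norm_num)] at h2
  refine lt_of_lt_of_le ?_ h1
  norm_num at h2 ⊢
  linarith

theorem phm_hi {R : ℝ} (hR : OkR R) : phm R < 0.3695 := by
  have hR0 := R_pos hR
  have hpi := pi_gt_three
  rw [phm, arcsin_lt_iff_lt_sin' ⟨by linarith, by linarith⟩]
  have h1 : 1 / R ≤ (1 : ℝ) / 2.7692 := one_div_le_one_div_of_le (by norm_num) hR.1
  have h2 := (abs_le.1 (sin_tay (x := 0.3695) (by rw [abs_of_pos (by norm_num)]; norm_num))).1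
  rw [abs_of_pos (by norm_num)] at h2
  refine lt_of_le_of_lt h1 ?_
  norm_num at h2 ⊢
  linarith

theorem cos_fi {R D : ℝ} (hR : OkR R) (h1 : (R - 1) ^ 2 ≤ D) (h2 : D ≤ R ^ 2 - 1) :
    cos (fi R D) = (R ^ 2 - 1 + D) / (2 * R * √D) := by
  have hA := A_pos hR
  have hR0 := R_pos hR
  obtain ⟨hRa, hRb⟩ := hR
  have hD : 0 < D := lt_of_lt_of_le (by nlinarith) h1
  have hs : 0 < √D := sqrt_pos.2 hD
  have hs2 : √D ^ 2 = D := sq_sqrt hD.le
  have h3 : R - 1 ≤ √D := le_sqrt_of_sq_le h1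
  have h4 : √D ≤ R := sqrt_le_iff.2 ⟨hR0.le, by linarith⟩
  rw [fi, min_eq_left h2, cos_arccos]
  · have : 0 ≤ (R ^ 2 - 1 + D) / (2 * R * √D) := by positivity
    linarith
  · rw [div_le_one (by positivity)]
    nlinarith

theorem fi_pos {R D : ℝ} (hR : OkR R) (h1 : (R - 1) ^ 2 < D) : 0 < fi R D := by
  have hA := A_pos hR
  have hR0 := R_pos hR
  obtain ⟨hRa, hRb⟩ := hR
  rw [fi, arccos_pos]
  have hD' : (R - 1) ^ 2 < min D (R ^ 2 - 1) := lt_min h1 (by nlinarith)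
  have hDA : min D (R ^ 2 - 1) ≤ R ^ 2 - 1 := min_le_right _ _
  generalize min D (R ^ 2 - 1) = D' at *
  have hD : 0 < D' := lt_of_le_of_lt (by positivity) hD'
  have hs : 0 < √D' := sqrt_pos.2 hD
  have hs2 : √D' ^ 2 = D' := sq_sqrt hD.le
  have h3 : R - 1 < √D' := lt_sqrt_of_sq_lt hD'
  have h4 : √D' ≤ R := sqrt_le_iff.2 ⟨hR0.le, by linarith⟩
  rw [div_lt_one (by positivity)]
  nlinarith

theorem fi_eq_ang {R d : ℝ} (hR : OkR R) (h1 : 0 < d) (h2 : d ^ 2 ≤ R ^ 2 - 1) : fi R (d ^ 2) = ang R d := by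
  rw [fi, ang, min_eq_left h2, sqrt_sq h1.le]
  congr 2
  ring

theorem fi_le_of_cos {R D t : ℝ} (hR : OkR R) (h1 : 0 < D) (h2 : D ≤ R ^ 2 - 1) (ht0 : 0 ≤ t) (ht1 : t ≤ π)
    (h : cos t ≤ (R ^ 2 - 1 + D) / (2 * R * √D)) : fi R D ≤ t := by
  rw [fi, min_eq_left h2]
  exact (arccos_le_arccos h).trans (arccos_cos ht0 ht1).le

theorem ang_le_of_cos {r d t : ℝ} (ht0 : 0 ≤ t) (ht1 : t ≤ π) (h : cos t ≤ (r ^ 2 + d ^ 2 - 1) / (2 * r * d)) :
    ang r d ≤ t := by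
  rw [ang]
  exact (arccos_le_arccos h).trans (arccos_cos ht0 ht1).le

theorem cos_ang {r d : ℝ} (hr : 0 < r) (hd : 0 < d) (h1 : |r - d| ≤ 1) (h2 : 1 ≤ r + d) :
    cos (ang r d) = (r ^ 2 + d ^ 2 - 1) / (2 * r * d) := by
  obtain ⟨h3, h4⟩ := abs_le.1 h1
  rw [ang, cos_arccos]
  · rw [le_div_iff₀ (by positivity)]
    nlinarith
  · rw [div_le_one (by positivity)]
    nlinarith

theorem cos_tangent {t t0 : ℝ} (h1 : 0 ≤ t) (h2 : t ≤ π / 2) (h3 : 0 ≤ t0) (h4 : t0 ≤ π / 2) :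
    cos t ≤ cos t0 - sin t0 * (t - t0) := by
  rcases lt_trichotomy t t0 with h | h | h
  · obtain ⟨c, hc, hc'⟩ := exists_hasDerivAt_eq_slope cos (fun x => -sin x) h
      continuous_cos.continuousOn (fun x _ => hasDerivAt_cos x)
    have h5 : sin c ≤ sin t0 :=
      sin_le_sin_of_le_of_le_pi_div_two (by linarith [hc.1, pi_pos]) h4 hc.2.le
    rw [eq_div_iff (by linarith)] at hc'
    nlinarith
  · rw [h]
    simp
  · obtain ⟨c, hc, hc'⟩ := exists_hasDerivAt_eq_slope cos (fun x => -sin x) h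
      continuous_cos.continuousOn (fun x _ => hasDerivAt_cos x)
    have h5 : sin t0 ≤ sin c :=
      sin_le_sin_of_le_of_le_pi_div_two (by linarith [pi_pos]) (by linarith [hc.2]) hc.1.le
    rw [eq_div_iff (by linarith)] at hc'
    nlinarith

end Pool.Agent.TD25
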