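import Pool.Agent.TD25.FDefs
import Pool.Agent.TD25.Fi

/-!
# TD25/FDer: derivatives of `ff R`, `gg R`

Write `A = R^2 - 1`, `d = 1 + q`, `W = WW R q = 4 R^2 d^2 - (A + d^2)^2`, `κ = 1 + h`, `M = 1 + R κ`, `s2 = 4 - (R - κ)^2`.
* Near the point `min D A = D` (the functions are eventually equal to the explicit ones: `Filter.EventuallyEq.hasDerivAt_iff` or
  `HasDerivAt.congr_of_eventuallyEq`).
* `ff R q = arccos c`, `c = (A + d^2)/(2 R d)` (`√(d^2) = d`), `c' = (d^2 - A)/(2 R d^2)`, `1 - c^2 = W/(2 R d)^2 > 0`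
  (`c < 1` iff `(R - d)^2 < 1`; `c > 0`), so `ff' = -c'/√(1 - c^2) = (A - d^2)/(d √W)`.
* `fp = N/(d √W)`, `N = A - d^2`, `W' = 8 R^2 d - 4 d (A + d^2) = 4 d (R^2 + 1 - d^2)`; the quotient rule gives
  `[-2 d^2 W - N W - 2 d^2 N (R^2 + 1 - d^2)]/(d^2 W √W) = fpp` (`2 d^2 + N = d^2 + A`).
* `gg R h = 2 arccos c`, `c = (A + M)/(2 R √M) = (R + κ)/(2 √M)`, `c' = (2 + R κ - R^2)/(4 M √M)`, `1 - c^2 = s2/(4 M) > 0`, so
  `gg' = -2 c'/√(1 - c^2) = (R^2 - 2 - R κ)/(M √s2)`. (`s2 > 0`: `R - κ < 2` by `h1` and `R - κ > -2` because `R κ < R^2 - 2`.)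
* `gp = (R^2 - 2 - R κ)/(M √s2)`, `(s2)' = 2 (R - κ)`; with `y = R - κ`, numerator `R y - 2`: the derivative is
  `-[R M s2 + (R y - 2)(R s2 + M y)]/(M^2 s2 √s2) = gpp`.
-/

set_option autoImplicit false

namespace Pool.Agent.TD25

open Real

private theorem W_pos {R q : ℝ} (hR : OkR R) (h1 : R - 2 < q) (h2 : (1 + q) ^ 2 < R ^ 2 - 1) :
    0 < 4 * R ^ 2 * (1 + q) ^ 2 - (R ^ 2 + (1 + q) ^ 2 - 1) ^ 2 := by
  obtain ⟨hR1, hR2⟩ := hR
  have hd : 0 < 1 + q := by linarith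
  have hdR : 1 + q < R := by nlinarith
  have h3 : 4 * R ^ 2 * (1 + q) ^ 2 - (R ^ 2 + (1 + q) ^ 2 - 1) ^ 2 =
      ((1 - (R - (1 + q))) * (1 + (R - (1 + q)))) * ((R + (1 + q) - 1) * (R + (1 + q) + 1)) := by
    ring
  rw [h3]
  apply mul_pos
  · apply mul_pos <;> linarith
  · apply mul_pos <;> linarith

theorem ff_deriv {R q : ℝ} (hR : OkR R) (h1 : R - 2 < q) (h2 : (1 + q) ^ 2 < R ^ 2 - 1) :
    HasDerivAt (ff R) (fp R q) q := by
  have hW := W_pos hR h1 h2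
  obtain ⟨hR1, hR2⟩ := hR
  have hd : 0 < 1 + q := by linarith
  have hR0 : 0 < R := by linarith
  -- the explicit function
  have hc : HasDerivAt (fun x : ℝ => (R ^ 2 - 1 + (1 + x) ^ 2) / (2 * R * (1 + x)))
      (((2 * (1 + q)) * (2 * R * (1 + q)) - (R ^ 2 - 1 + (1 + q) ^ 2) * (2 * R)) /
        (2 * R * (1 + q)) ^ 2) q := by
    have ha : HasDerivAt (fun x : ℝ => R ^ 2 - 1 + (1 + x) ^ 2) (2 * (1 + q)) q := by
      have := (((hasDerivAt_id q).const_add 1).fun_pow 2).const_add (R ^ 2 - 1)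
      simpa using this
    have hb : HasDerivAt (fun x : ℝ => 2 * R * (1 + x)) (2 * R) q := by
      have := ((hasDerivAt_id q).const_add 1).const_mul (2 * R)
      simpa using this
    exact ha.div hb (by positivity)
  set c : ℝ := (R ^ 2 - 1 + (1 + q) ^ 2) / (2 * R * (1 + q)) with hcdef
  have hc1 : 1 - c ^ 2 = (4 * R ^ 2 * (1 + q) ^ 2 - (R ^ 2 + (1 + q) ^ 2 - 1) ^ 2) /
      (2 * R * (1 + q)) ^ 2 := by
    rw [hcdef]
    field_simp
    ring
  have hc2 : 0 < 1 - c ^ 2 := by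
    rw [hc1]
    positivity
  have hcm : c ≠ -1 := by
    intro h
    rw [h] at hc2
    norm_num at hc2
  have hcp : c ≠ 1 := by
    intro h
    rw [h] at hc2
    norm_num at hc2
  have hac := (hasDerivAt_arccos hcm hcp).comp q hc
  have hev : ff R =ᶠ[nhds q]
      (arccos ∘ fun x : ℝ => (R ^ 2 - 1 + (1 + x) ^ 2) / (2 * R * (1 + x))) := by
    have hcont : ContinuousAt (fun x : ℝ => (1 + x) ^ 2) q := by fun_prop
    have hcont2 : ContinuousAt (fun x : ℝ => 1 + x) q := by fun_prop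
    have e1 : ∀ᶠ x in nhds q, (1 + x) ^ 2 < R ^ 2 - 1 := hcont.eventually_lt_const h2
    have e2 : ∀ᶠ x in nhds q, 0 < 1 + x := hcont2.eventually_const_lt hd
    filter_upwards [e1, e2] with x hx1 hx2
    simp only [ff, fi, Function.comp_apply]
    rw [min_eq_left hx1.le, sqrt_sq hx2.le]
  have hfin := hac.congr_of_eventuallyEq hev
  refine hfin.congr_deriv ?_
  have hs : √(1 - c ^ 2) =
      √(4 * R ^ 2 * (1 + q) ^ 2 - (R ^ 2 + (1 + q) ^ 2 - 1) ^ 2) / (2 * R * (1 + q)) := by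
    rw [hc1, sqrt_div hW.le, sqrt_sq (by positivity)]
  rw [hs, fp]
  have hsp : 0 < √(4 * R ^ 2 * (1 + q) ^ 2 - (R ^ 2 + (1 + q) ^ 2 - 1) ^ 2) := sqrt_pos.2 hW
  generalize √(4 * R ^ 2 * (1 + q) ^ 2 - (R ^ 2 + (1 + q) ^ 2 - 1) ^ 2) = s at hsp ⊢
  field_simp
  ring

theorem fp_deriv {R q : ℝ} (hR : OkR R) (h1 : R - 2 < q) (h2 : (1 + q) ^ 2 < R ^ 2 - 1) :
    HasDerivAt (fp R) (fpp R q) q := by
  have hW := W_pos hR h1 h2
  obtain ⟨hR1, hR2⟩ := hR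
  have hd : 0 < 1 + q := by linarith
  have hR0 : 0 < R := by linarith
  have ha : HasDerivAt (fun x : ℝ => R ^ 2 - 1 - (1 + x) ^ 2) (-(2 * (1 + q))) q := by
    have := (((hasDerivAt_id q).const_add 1).fun_pow 2).const_sub (R ^ 2 - 1)
    simpa using this
  have hb : HasDerivAt
      (fun x : ℝ => 4 * R ^ 2 * (1 + x) ^ 2 - (R ^ 2 + (1 + x) ^ 2 - 1) ^ 2)
      (4 * (1 + q) * (R ^ 2 + 1 - (1 + q) ^ 2)) q := by
    have e1 : HasDerivAt (fun x : ℝ => (1 + x) ^ 2) (2 * (1 + q)) q := by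
      have := ((hasDerivAt_id q).const_add 1).fun_pow 2
      simpa using this
    have e2 : HasDerivAt (fun x : ℝ => 4 * R ^ 2 * (1 + x) ^ 2) (4 * R ^ 2 * (2 * (1 + q))) q :=
      e1.const_mul _
    have e3 : HasDerivAt (fun x : ℝ => R ^ 2 + (1 + x) ^ 2 - 1) (2 * (1 + q)) q :=
      (e1.const_add _).sub_const _
    have e4 := e2.fun_sub (e3.fun_pow 2)
    refine e4.congr_deriv ?_
    simp only [Nat.cast_ofNat, Nat.add_one_sub_one, pow_one]
    ring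
  have hsq : HasDerivAt
      (fun x : ℝ => √(4 * R ^ 2 * (1 + x) ^ 2 - (R ^ 2 + (1 + x) ^ 2 - 1) ^ 2))
      ((4 * (1 + q) * (R ^ 2 + 1 - (1 + q) ^ 2)) /
        (2 * √(4 * R ^ 2 * (1 + q) ^ 2 - (R ^ 2 + (1 + q) ^ 2 - 1) ^ 2))) q :=
    hb.sqrt hW.ne'
  have hd1 : HasDerivAt (fun x : ℝ => 1 + x) 1 q := by
    have := (hasDerivAt_id q).const_add 1
    simpa using this
  have hsp : 0 < √(4 * R ^ 2 * (1 + q) ^ 2 - (R ^ 2 + (1 + q) ^ 2 - 1) ^ 2) := sqrt_pos.2 hW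
  have hfin := ha.fun_div (hd1.fun_mul hsq) (mul_pos hd hsp).ne'
  have hfun : fp R = fun x : ℝ => (R ^ 2 - 1 - (1 + x) ^ 2) /
      ((1 + x) * √(4 * R ^ 2 * (1 + x) ^ 2 - (R ^ 2 + (1 + x) ^ 2 - 1) ^ 2)) := by
    funext x
    rfl
  rw [hfun]
  refine hfin.congr_deriv ?_
  rw [fpp, WW]
  have hss := sq_sqrt hW.le
  generalize √(4 * R ^ 2 * (1 + q) ^ 2 - (R ^ 2 + (1 + q) ^ 2 - 1) ^ 2) = s at hsp hss ⊢
  rw [← hss]
  field_simp
  ring

private theorem s2_pos {R h : ℝ} (hR : OkR R) (h1 : R - 3 < h) (h2 : R * (1 + h) < R ^ 2 - 2) :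
    0 < 4 - (R - 1 - h) ^ 2 := by
  obtain ⟨hR1, hR2⟩ := hR
  have hR0 : 0 < R := by linarith
  have h3 : 0 < R - 1 - h := by nlinarith
  nlinarith

private theorem M_pos {R h : ℝ} (hR : OkR R) (h1 : R - 3 < h) : 0 < 1 + R * (1 + h) := by
  obtain ⟨hR1, hR2⟩ := hR
  nlinarith

theorem gg_deriv {R h : ℝ} (hR : OkR R) (h1 : R - 3 < h) (h2 : R * (1 + h) < R ^ 2 - 2) :
    HasDerivAt (gg R) (gp R h) h := by
  have hs2 := s2_pos hR h1 h2
  have hM := M_pos hR h1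
  obtain ⟨hR1, hR2⟩ := hR
  have hR0 : 0 < R := by linarith
  have hm : HasDerivAt (fun x : ℝ => 1 + R * (1 + x)) R h := by
    have := (((hasDerivAt_id h).const_add 1).const_mul R).const_add 1
    simpa using this
  have hsq : HasDerivAt (fun x : ℝ => √(1 + R * (1 + x))) (R / (2 * √(1 + R * (1 + h)))) h :=
    hm.sqrt hM.ne'
  have hsp : 0 < √(1 + R * (1 + h)) := sqrt_pos.2 hM
  have hss := sq_sqrt hM.le
  have hnum : HasDerivAt (fun x : ℝ => R ^ 2 - 1 + (1 + R * (1 + x))) R h := hm.const_add _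
  have hden : HasDerivAt (fun x : ℝ => 2 * R * √(1 + R * (1 + x)))
      (2 * R * (R / (2 * √(1 + R * (1 + h))))) h := hsq.const_mul _
  have hc := hnum.div hden (by positivity)
  set c : ℝ := (R ^ 2 - 1 + (1 + R * (1 + h))) / (2 * R * √(1 + R * (1 + h))) with hcdef
  have hc1 : 1 - c ^ 2 = (4 - (R - 1 - h) ^ 2) / (2 * √(1 + R * (1 + h))) ^ 2 := by
    rw [hcdef, div_pow, mul_pow, mul_pow, mul_pow, hss]
    field_simp
    ring
  have hc2 : 0 < 1 - c ^ 2 := by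
    rw [hc1]
    positivity
  have hcm : c ≠ -1 := by
    intro h'
    rw [h'] at hc2
    norm_num at hc2
  have hcp : c ≠ 1 := by
    intro h'
    rw [h'] at hc2
    norm_num at hc2
  have hac := ((hasDerivAt_arccos hcm hcp).comp h hc).const_mul 2
  have hev : gg R =ᶠ[nhds h] fun x : ℝ =>
      2 * (arccos ∘ ((fun x : ℝ => R ^ 2 - 1 + (1 + R * (1 + x))) /
        fun x : ℝ => 2 * R * √(1 + R * (1 + x)))) x := by
    have hcont : ContinuousAt (fun x : ℝ => R * (1 + x)) h := by fun_prop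
    have e1 : ∀ᶠ x in nhds h, R * (1 + x) < R ^ 2 - 2 := hcont.eventually_lt_const h2
    filter_upwards [e1] with x hx1
    simp only [gg, fi, Function.comp_apply, Pi.div_apply]
    rw [min_eq_left (by linarith)]
  have hfin := hac.congr_of_eventuallyEq hev
  refine hfin.congr_deriv ?_
  have hs : √(1 - c ^ 2) = √(4 - (R - 1 - h) ^ 2) / (2 * √(1 + R * (1 + h))) := by
    rw [hc1, sqrt_div hs2.le, sqrt_sq (by positivity)]
  rw [hs, gp]
  have htp : 0 < √(4 - (R - 1 - h) ^ 2) := sqrt_pos.2 hs2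
  generalize √(4 - (R - 1 - h) ^ 2) = t at htp ⊢
  generalize √(1 + R * (1 + h)) = s at hsp hss ⊢
  have e3 : R ^ 2 - 2 - R * (1 + h) = R ^ 2 - 1 - s ^ 2 := by rw [hss]; ring
  rw [e3, ← hss]
  field_simp
  ring

theorem gp_deriv {R h : ℝ} (hR : OkR R) (h1 : R - 3 < h) (h2 : R * (1 + h) < R ^ 2 - 2) :
    HasDerivAt (gp R) (gpp R h) h := by
  have hs2 := s2_pos hR h1 h2
  have hM := M_pos hR h1
  obtain ⟨hR1, hR2⟩ := hR
  have hR0 : 0 < R := by linarith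
  have hm : HasDerivAt (fun x : ℝ => 1 + R * (1 + x)) R h := by
    have := (((hasDerivAt_id h).const_add 1).const_mul R).const_add 1
    simpa using this
  have hn : HasDerivAt (fun x : ℝ => R ^ 2 - 2 - R * (1 + x)) (-R) h := by
    have := (((hasDerivAt_id h).const_add 1).const_mul R).const_sub (R ^ 2 - 2)
    simpa using this
  have hw : HasDerivAt (fun x : ℝ => 4 - (R - 1 - x) ^ 2) (2 * (R - 1 - h)) h := by
    have := (((hasDerivAt_id h).const_sub (R - 1)).fun_pow 2).const_sub 4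
    simpa using this
  have hsq : HasDerivAt (fun x : ℝ => √(4 - (R - 1 - x) ^ 2))
      ((2 * (R - 1 - h)) / (2 * √(4 - (R - 1 - h) ^ 2))) h := hw.sqrt hs2.ne'
  have hsp : 0 < √(4 - (R - 1 - h) ^ 2) := sqrt_pos.2 hs2
  have hss := sq_sqrt hs2.le
  have hfin := hn.fun_div (hm.fun_mul hsq) (mul_pos hM hsp).ne'
  have hfun : gp R = fun x : ℝ => (R ^ 2 - 2 - R * (1 + x)) /
      ((1 + R * (1 + x)) * √(4 - (R - 1 - x) ^ 2)) := by
    funext x
    rfl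
  rw [hfun]
  refine hfin.congr_deriv ?_
  rw [gpp]
  generalize √(4 - (R - 1 - h) ^ 2) = s at hsp hss ⊢
  rw [← hss]
  field_simp
  ring

end Pool.Agent.TD25
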