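import Pool.Agent.TD25.OptNum
import Pool.Agent.TD25.FDer

/-!
# TD25/OptEx: existence of the optimal parameters

Notation: `R0 = 2.76929324`, `R1 = 2.76929326`, `I = [0.7705, 0.7706]`, `V R h = ff R (qc h) + gg R h`.
(1) `V` is continuous on `[R0, R1] × I` (`arccos` continuous, denominators positive: in `fi` the argument `D` is at least 1 and
`min D (R^2 - 1) > 0`; `qc` continuous).
(2) `K = {(R, h) ∈ [R0, R1] × I | π/3 ≤ V R h}` is compact and nonempty (`optN1`). Let `(R, h) ∈ K` with maximal `R`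
(`IsCompact.exists_isMaxOn`).
(3) `R < R1` by `optN2`. For every `h' ∈ I`: `V R h' ≤ π/3`. Otherwise `V R h' > π/3`, and by continuity in `R` there is `R' ∈ (R, R1]` with
`V R' h' > π/3`, `(R', h') ∈ K`, contradiction to the maximality. So `V R h = π/3` and `h` is a maximum point of `V R` on `I`.
(4) Derivative: `V R` has at `x ∈ I` the derivative `fp R (qc x) * qc' x + gp R x` with `qc' x = -(2 x - qc x)/(2 qc x - x)`
(`2 qc x - x = 2 √(1 - 3x²/4)`, `qc' = 1/2 - (3x/4)/√(1 - 3x²/4)`), by `ff_deriv`, `gg_deriv` (`R - 2 < qc x`, `(1 + qc x)^2 < R^2 - 1`,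
`R (1 + x) < R^2 - 2`). Multiplied by `2 qc x - x > 0` it is `gp R x (2 qc x - x) - fp R (qc x) (2 x - qc x)`: positive at `x = 0.7705` (`optN3`),
negative at `x = 0.7706` (`optN4`). So `h` is not an endpoint of `I` (a positive right derivative at the left endpoint gives larger
values in `I`), hence an interior local maximum and the derivative vanishes: this is `e3`.
(5) `q = qc h`: `h^2 + q^2 - h q = 1` (as `(q - h/2)^2 = 1 - 3h²/4`), bounds from `qcB`.
-/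

set_option autoImplicit false

namespace Pool.Agent.TD25

open Real

/-- The function whose zeros we want. -/
private noncomputable def oeV (R h : ℝ) : ℝ := ff R (qc h) + gg R h

private lemma oe_cont_fi {s : Set (ℝ × ℝ)} {f : ℝ × ℝ → ℝ} (hf : ContinuousOn f s)
    (hR : ∀ p ∈ s, 1 < p.1) (hD : ∀ p ∈ s, 0 < f p) :
    ContinuousOn (fun p : ℝ × ℝ => fi p.1 (f p)) s := by
  unfold fi
  have ha : ContinuousOn (fun p : ℝ × ℝ => p.1 ^ 2 - 1) s := by fun_prop
  have hb : ContinuousOn (fun p : ℝ × ℝ => 2 * p.1) s := by fun_prop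
  have hm : ContinuousOn (fun p : ℝ × ℝ => min (f p) (p.1 ^ 2 - 1)) s :=
    continuous_min.comp_continuousOn (hf.prodMk ha)
  refine continuous_arccos.comp_continuousOn (ContinuousOn.div (ha.add hm) (hb.mul hm.sqrt) ?_)
  intro p hp
  have h1 := hR p hp
  have h2 : 0 < min (f p) (p.1 ^ 2 - 1) := lt_min (hD p hp) (by nlinarith)
  have h3 : 0 < √(min (f p) (p.1 ^ 2 - 1)) := sqrt_pos.2 h2
  have h4 : 0 < 2 * p.1 * √(min (f p) (p.1 ^ 2 - 1)) := by positivity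
  exact h4.ne'

private lemma oe_qc_cont : Continuous qc := by
  unfold qc
  fun_prop

private lemma oe_qc_pos {h : ℝ} (h1 : 0 ≤ h) : 0 ≤ qc h := by
  unfold qc
  positivity

private lemma oe_contV {s : Set (ℝ × ℝ)} (hR : ∀ p ∈ s, 1 < p.1) (hh : ∀ p ∈ s, 0 ≤ p.2) :
    ContinuousOn (fun p : ℝ × ℝ => oeV p.1 p.2) s := by
  unfold oeV ff gg
  have hq := oe_qc_cont
  have h1 : ContinuousOn (fun p : ℝ × ℝ => fi p.1 ((1 + qc p.2) ^ 2)) s := by
    refine oe_cont_fi (f := fun p : ℝ × ℝ => (1 + qc p.2) ^ 2) (by fun_prop) hR fun p hp => ?_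
    have := oe_qc_pos (hh p hp)
    positivity
  have h2 : ContinuousOn (fun p : ℝ × ℝ => fi p.1 (1 + p.1 * (1 + p.2))) s := by
    refine oe_cont_fi (f := fun p : ℝ × ℝ => 1 + p.1 * (1 + p.2)) (by fun_prop) hR fun p hp => ?_
    have a1 := hh p hp
    have a2 := hR p hp
    have : 0 < p.1 := by linarith
    positivity
  exact h1.add (h2.const_mul 2)

private lemma oe_right {f : ℝ → ℝ} {D h b : ℝ} (hd : HasDerivAt f D h) (hb : h < b)
    (hm : ∀ x, h ≤ x → x ≤ b → f x ≤ f h) : D ≤ 0 := by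
  by_contra hcon
  push Not at hcon
  have h1 := (hasDerivAt_iff_tendsto_slope.1 hd).eventually (lt_mem_nhds hcon)
  have h2 : ∀ᶠ x in nhdsWithin h (Set.Ioi h), 0 < slope f h x :=
    h1.filter_mono (nhdsWithin_mono _ fun x hx => ne_of_gt hx)
  have h3 : ∀ᶠ x in nhdsWithin h (Set.Ioi h), x ∈ Set.Ioc h b := Ioc_mem_nhdsGT hb
  obtain ⟨x, hx1, hx2⟩ := (h2.and h3).exists
  rw [slope_def_field] at hx1
  have h4 : 0 < x - h := by linarith [hx2.1]
  have h5 : 0 < f x - f h := by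
    by_contra hc
    push Not at hc
    have := div_nonpos_of_nonpos_of_nonneg hc h4.le
    linarith
  linarith [hm x hx2.1.le hx2.2]

private lemma oe_left {f : ℝ → ℝ} {D h a : ℝ} (hd : HasDerivAt f D h) (ha : a < h)
    (hm : ∀ x, a ≤ x → x ≤ h → f x ≤ f h) : 0 ≤ D := by
  by_contra hcon
  push Not at hcon
  have h1 := (hasDerivAt_iff_tendsto_slope.1 hd).eventually (gt_mem_nhds hcon)
  have h2 : ∀ᶠ x in nhdsWithin h (Set.Iio h), slope f h x < 0 :=
    h1.filter_mono (nhdsWithin_mono _ fun x hx => ne_of_lt hx)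
  have h3 : ∀ᶠ x in nhdsWithin h (Set.Iio h), x ∈ Set.Ico a h := Ico_mem_nhdsLT ha
  obtain ⟨x, hx1, hx2⟩ := (h2.and h3).exists
  rw [slope_def_field] at hx1
  have h4 : x - h < 0 := by linarith [hx2.2]
  have h5 : 0 < f x - f h := by
    by_contra hc
    push Not at hc
    have := div_nonneg_of_nonpos hc h4.le
    linarith
  linarith [hm x hx2.1 hx2.2.le]

private lemma oe_s {h : ℝ} (h1 : 0.7705 ≤ h) (h2 : h ≤ 0.7706) : 0 < 1 - 3 * h ^ 2 / 4 := by
  nlinarith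

private lemma oe_deriv {R x : ℝ} (hR : OkR R) (h1 : 0.7705 ≤ x) (h2 : x ≤ 0.7706) :
    ∃ D, HasDerivAt (oeV R) D x ∧
      D * (2 * qc x - x) = gp R x * (2 * qc x - x) - fp R (qc x) * (2 * x - qc x) := by
  obtain ⟨q1, q2⟩ := qcB h1 h2
  obtain ⟨r1, r2⟩ := hR
  have hs := oe_s h1 h2
  have hsp : 0 < √(1 - 3 * x ^ 2 / 4) := sqrt_pos.2 hs
  have hf := ff_deriv (R := R) (q := qc x) ⟨r1, r2⟩ (by linarith) (by nlinarith)
  have hg := gg_deriv (R := R) (h := x) ⟨r1, r2⟩ (by linarith) (by nlinarith)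
  have hq : HasDerivAt qc (1 / 2 + (-(3 * (2 * x) / 4)) / (2 * √(1 - 3 * x ^ 2 / 4))) x := by
    have e1 : HasDerivAt (fun x : ℝ => 1 - 3 * x ^ 2 / 4) (-(3 * (2 * x) / 4)) x := by
      have := ((((hasDerivAt_id x).fun_pow 2).const_mul 3).div_const 4).const_sub 1
      simpa using this
    have e2 : HasDerivAt (fun x : ℝ => x / 2) (1 / 2) x := (hasDerivAt_id x).div_const 2
    exact e2.add (e1.sqrt hs.ne')
  refine ⟨_, (hf.comp x hq).add hg, ?_⟩
  have e3 : 2 * qc x - x = 2 * √(1 - 3 * x ^ 2 / 4) := by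
    unfold qc
    ring
  have e4 : 2 * x - qc x = 3 / 2 * x - √(1 - 3 * x ^ 2 / 4) := by
    unfold qc
    ring
  rw [e3, e4]
  generalize √(1 - 3 * x ^ 2 / 4) = s at hsp
  field_simp
  ring

/-- The last `R` for which the value `T` is attained. -/
private lemma oe_max {V : ℝ × ℝ → ℝ} {a b c d T : ℝ} (hab : a < b)
    (hV : ContinuousOn V (Set.Icc a b ×ˢ Set.Icc c d)) (h1 : ∃ h ∈ Set.Icc c d, T ≤ V (a, h))
    (h2 : ∀ h ∈ Set.Icc c d, V (b, h) < T) :
    ∃ R ∈ Set.Icc a b, ∃ h ∈ Set.Icc c d, V (R, h) = T ∧ ∀ h' ∈ Set.Icc c d, V (R, h') ≤ T := by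
  have hSc : IsCompact (Set.Icc a b ×ˢ Set.Icc c d) := isCompact_Icc.prod isCompact_Icc
  have hKc : IsClosed ((Set.Icc a b ×ˢ Set.Icc c d) ∩ V ⁻¹' Set.Ici T) :=
    hV.preimage_isClosed_of_isClosed hSc.isClosed isClosed_Ici
  have hK : IsCompact ((Set.Icc a b ×ˢ Set.Icc c d) ∩ V ⁻¹' Set.Ici T) :=
    hSc.of_isClosed_subset hKc Set.inter_subset_left
  obtain ⟨h0, h01, h02⟩ := h1
  have hne : ((Set.Icc a b ×ˢ Set.Icc c d) ∩ V ⁻¹' Set.Ici T).Nonempty :=
    ⟨(a, h0), ⟨⟨⟨le_rfl, hab.le⟩, h01⟩, h02⟩⟩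
  obtain ⟨⟨R, h⟩, ⟨⟨hR, hh⟩, hTV⟩, hmax⟩ := hK.exists_isMaxOn hne continuous_fst.continuousOn
  simp only at hR hh
  have hTV' : T ≤ V (R, h) := hTV
  have hRb : R < b := by
    rcases hR.2.lt_or_eq with h' | h'
    · exact h'
    · exfalso
      have h4 := h2 h hh
      rw [← h'] at h4
      exact absurd hTV' (not_le.2 h4)
  have hle : ∀ h' ∈ Set.Icc c d, V (R, h') ≤ T := by
    intro h' hh'
    by_contra hcon
    push Not at hcon
    have hc3 : ContinuousOn (fun R' : ℝ => (R', h')) (Set.Icc a b) := by fun_prop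
    have hc2 : ContinuousOn (fun R' : ℝ => V (R', h')) (Set.Icc a b) :=
      ContinuousOn.comp (g := V) (f := fun R' : ℝ => (R', h')) (t := Set.Icc a b ×ˢ Set.Icc c d)
        hV hc3 (fun R' hR' => ⟨hR', hh'⟩)
    have hc1 : ContinuousWithinAt (fun R' : ℝ => V (R', h')) (Set.Ioc R b) R :=
      (hc2 R hR).mono fun x hx => ⟨hR.1.trans hx.1.le, hx.2⟩
    have hev : ∀ᶠ R' in nhdsWithin R (Set.Ioc R b), T < V (R', h') :=
      hc1.eventually (lt_mem_nhds hcon)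
    have hnb : (nhdsWithin R (Set.Ioc R b)).NeBot := by
      rw [nhdsWithin_Ioc_eq_nhdsGT hRb]
      infer_instance
    obtain ⟨R', e1, e2⟩ := (hev.and self_mem_nhdsWithin).exists
    have h5 : (R', h') ∈ (Set.Icc a b ×ˢ Set.Icc c d) ∩ V ⁻¹' Set.Ici T :=
      ⟨⟨⟨hR.1.trans e2.1.le, e2.2⟩, hh'⟩, e1.le⟩
    have h6 : R' ≤ R := hmax h5
    exact absurd e2.1 (not_lt.2 h6)
  exact ⟨R, hR, h, hh, le_antisymm (hle h hh) hTV', hle⟩

theorem opt_exists : ∃ R h q : ℝ, OptS R h q := by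
  obtain ⟨h0, h01, h02, h03⟩ := optN1
  obtain ⟨R, ⟨r1, r2⟩, h, ⟨i1, i2⟩, hVe', hle'⟩ := oe_max
    (V := fun p : ℝ × ℝ => oeV p.1 p.2) (a := 2.76929324) (b := 2.76929326) (c := 0.7705)
    (d := 0.7706) (T := π / 3) (by norm_num)
    (oe_contV (fun p hp => lt_of_lt_of_le (by norm_num) hp.1.1)
      (fun p hp => le_trans (by norm_num) hp.2.1))
    ⟨h0, ⟨h01, h02⟩, h03⟩ (fun h hh => optN2 hh.1 hh.2)
  have hVe : oeV R h = π / 3 := hVe'
  have hle : ∀ h' : ℝ, 0.7705 ≤ h' → h' ≤ 0.7706 → oeV R h' ≤ π / 3 :=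
    fun h' j1 j2 => hle' h' ⟨j1, j2⟩
  have hOk : OkR R := ⟨by linarith, by linarith⟩
  obtain ⟨q1, q2⟩ := qcB i1 i2
  have hpos : ∀ x : ℝ, 0.7705 ≤ x → x ≤ 0.7706 → 0 < 2 * qc x - x := by
    intro x j1 j2
    obtain ⟨q3, q4⟩ := qcB j1 j2
    linarith
  have hmx : ∀ x : ℝ, 0.7705 ≤ x → x ≤ 0.7706 → oeV R x ≤ oeV R h := by
    intro x j1 j2
    rw [hVe]
    exact hle x j1 j2
  -- `h` is not an endpoint
  have n1 : h ≠ 0.7705 := by
    intro hh
    obtain ⟨D, hD1, hD2⟩ := oe_deriv hOk (x := 0.7705) le_rfl (by norm_num)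
    have h5 := optN3 r1 r2
    have h6 := hpos 0.7705 le_rfl (by norm_num)
    have h7 : D ≤ 0 := oe_right hD1 (b := 0.7706) (by norm_num) (fun x j1 j2 => by
      rw [← hh]
      exact hmx x j1 j2)
    have h8 := mul_nonpos_of_nonpos_of_nonneg h7 h6.le
    linarith
  have n2 : h ≠ 0.7706 := by
    intro hh
    obtain ⟨D, hD1, hD2⟩ := oe_deriv hOk (x := 0.7706) (by norm_num) le_rfl
    have h5 := optN4 r1 r2
    have h6 := hpos 0.7706 (by norm_num) le_rfl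
    have h7 : 0 ≤ D := oe_left hD1 (a := 0.7705) (by norm_num) (fun x j1 j2 => by
      rw [← hh]
      exact hmx x j1 j2)
    have h8 := mul_nonneg h7 h6.le
    linarith
  have l1 : 0.7705 < h := lt_of_le_of_ne i1 (Ne.symm n1)
  have l2 : h < 0.7706 := lt_of_le_of_ne i2 n2
  obtain ⟨D, hD1, hD2⟩ := oe_deriv hOk i1 i2
  have h7 : D ≤ 0 := oe_right hD1 l2 (fun x j1 j2 => hmx x (i1.trans j1) j2)
  have h8 : 0 ≤ D := oe_left hD1 l1 (fun x j1 j2 => hmx x j1 (j2.trans i2))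
  have h9 : D = 0 := le_antisymm h7 h8
  rw [h9, zero_mul] at hD2
  have hs := oe_s i1 i2
  have hss := sq_sqrt hs.le
  refine ⟨R, h, qc h, ⟨r1, r2, by linarith, by linarith, by linarith, by linarith, ?_, hVe, ?_⟩,
    i1, i2, q1, q2⟩
  · unfold qc
    generalize √(1 - 3 * h ^ 2 / 4) = s at hss
    linear_combination hss
  · linarith

end Pool.Agent.TD25
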