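import Pool.Agent.TD25.FDefs

/-!
# TD25/Par: numerical values of the derivatives at the optimum

For `R ∈ [2.769293, 2.769294]`: `fp R q ∈ [0.271104, 0.271514]` for `q ∈ [1.1299, 1.1303]`, `gp R h ∈ [0.07471, 0.07506]` for
`h ∈ [0.770, 0.771]`, `2 h q fp/(2 q - h) ∈ [0.31656, 0.31777]` (even if `fp` is replaced by its bounds), `lamO ∈ [0.27415, 0.27520]`
(`lamO = (√3/2) (2 h q fp/(2 q - h))`).
Multiply out the square root: `fp = (R^2 - 1 - d^2)/(d √W)` with `d = 1 + q`; e.g. `fp ≤ x` iff `(R^2 - 1 - d^2)^2 ≤ x^2 d^2 W` (all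
positive). Interval arithmetic for polynomials in `R`, `q` on a tiny box: `nlinarith`, or verified Taylor models
(`TD25/Tool`, see the proofs in `TD25/NumH` and `TD25/FPoly` for complete examples).
-/

set_option autoImplicit false

namespace Pool.Agent.TD25

open Real

theorem fpB {R q : ℝ} (hR1 : 2.769293 ≤ R) (hR2 : R ≤ 2.769294) (h1 : 1.1299 ≤ q) (h2 : q ≤ 1.1303) :
    0.27109 ≤ fp R q ∧ fp R q ≤ 0.27153 := by
  have hR3 : 7.668983 ≤ R ^ 2 := by nlinarith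
  have hR4 : R ^ 2 ≤ 7.668990 := by nlinarith
  have hd1 : 4.536474 ≤ (1 + q) ^ 2 := by nlinarith
  have hd2 : (1 + q) ^ 2 ≤ 4.538179 := by nlinarith
  obtain ⟨N, hN⟩ : ∃ N, N = R ^ 2 - 1 - (1 + q) ^ 2 := ⟨_, rfl⟩
  have hN1 : 2.130804 ≤ N := by rw [hN]; linarith
  have hN2 : N ≤ 2.132516 := by rw [hN]; linarith
  have hW : 4 * R ^ 2 * (1 + q) ^ 2 - (R ^ 2 + (1 + q) ^ 2 - 1) ^ 2 = 4 * (1 + q) ^ 2 - N ^ 2 := by
    rw [hN]; ring
  have hs1 : 3.6875 ≤ √(4 * (1 + q) ^ 2 - N ^ 2) := by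
    apply Real.le_sqrt_of_sq_le
    nlinarith
  have hs2 : √(4 * (1 + q) ^ 2 - N ^ 2) ≤ 3.6896 := by
    rw [Real.sqrt_le_left (by norm_num)]
    nlinarith
  rw [fp, hW, ← hN]
  generalize √(4 * (1 + q) ^ 2 - N ^ 2) = s at hs1 hs2
  have hpos : 0 < (1 + q) * s := by
    have : 0 < s := by linarith
    have : 0 < 1 + q := by linarith
    positivity
  have hu : (1 + q) * s ≤ 2.1303 * 3.6896 := by
    apply mul_le_mul (by linarith) hs2 (by linarith) (by norm_num)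
  have hl : 2.1299 * 3.6875 ≤ (1 + q) * s := by
    apply mul_le_mul (by linarith) hs1 (by norm_num) (by linarith)
  rw [le_div_iff₀ hpos, div_le_iff₀ hpos]
  constructor
  · linarith
  · linarith

theorem gpB {R h : ℝ} (hR1 : 2.769293 ≤ R) (hR2 : R ≤ 2.769294) (h1 : 0.770 ≤ h) (h2 : h ≤ 0.771) :
    0.0745 ≤ gp R h ∧ gp R h ≤ 0.0752 := by
  have hR3 : 7.668983 ≤ R ^ 2 := by nlinarith
  have hR4 : R ^ 2 ≤ 7.668990 := by nlinarith
  have hd1 : 4.9016 ≤ R * (1 + h) := by nlinarith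
  have hd2 : R * (1 + h) ≤ 4.9045 := by nlinarith
  have hs1 : 1.7324 ≤ √(4 - (R - 1 - h) ^ 2) := by
    apply Real.le_sqrt_of_sq_le
    nlinarith
  have hs2 : √(4 - (R - 1 - h) ^ 2) ≤ 1.7331 := by
    rw [Real.sqrt_le_left (by norm_num)]
    nlinarith
  rw [gp]
  generalize √(4 - (R - 1 - h) ^ 2) = s at hs1 hs2
  have hpos : 0 < (1 + R * (1 + h)) * s := by
    have : 0 < s := by linarith
    have : 0 < 1 + R * (1 + h) := by linarith
    positivity
  have hu : (1 + R * (1 + h)) * s ≤ 5.9045 * 1.7331 := by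
    apply mul_le_mul (by linarith) hs2 (by linarith) (by norm_num)
  have hl : 5.9016 * 1.7324 ≤ (1 + R * (1 + h)) * s := by
    apply mul_le_mul (by linarith) hs1 (by norm_num) (by linarith)
  rw [le_div_iff₀ hpos, div_le_iff₀ hpos]
  constructor
  · linarith
  · linarith

theorem cB {R h q : ℝ} (hR1 : 2.769293 ≤ R) (hR2 : R ≤ 2.769294) (h1 : 0.770 ≤ h) (h2 : h ≤ 0.771) (h3 : 1.1299 ≤ q)
    (h4 : q ≤ 1.1303) : 0.3165 ≤ 2 * h * q * fp R q / (2 * q - h) ∧ 2 * h * q * fp R q / (2 * q - h) ≤ 0.3178 := by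
  obtain ⟨f1, f2⟩ := fpB hR1 hR2 h3 h4
  generalize fp R q = f at f1 f2
  have hpos : 0 < 2 * q - h := by linarith
  rw [le_div_iff₀ hpos, div_le_iff₀ hpos]
  have hq0 : 0 ≤ q := by linarith
  have a1 : 0.770 * 0.27109 ≤ h * f := mul_le_mul h1 f1 (by norm_num) (by linarith)
  have a2 : h * f ≤ 0.771 * 0.27153 := mul_le_mul h2 f2 (by linarith) (by norm_num)
  have b1 : 0.770 * 0.27109 * q ≤ h * f * q := mul_le_mul_of_nonneg_right a1 hq0
  have b2 : h * f * q ≤ 0.771 * 0.27153 * q := mul_le_mul_of_nonneg_right a2 hq0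
  constructor
  · linarith
  · linarith

theorem lamB {R h q : ℝ} (hR1 : 2.769293 ≤ R) (hR2 : R ≤ 2.769294) (h1 : 0.770 ≤ h) (h2 : h ≤ 0.771) (h3 : 1.1299 ≤ q)
    (h4 : q ≤ 1.1303) : 0.2740 ≤ lamO R h q ∧ lamO R h q ≤ 0.2753 := by
  obtain ⟨c1, c2⟩ := cB hR1 hR2 h1 h2 h3 h4
  have e : lamO R h q = √3 / 2 * (2 * h * q * fp R q / (2 * q - h)) := by
    rw [lamO]; ring
  rw [e]
  generalize 2 * h * q * fp R q / (2 * q - h) = c at c1 c2
  have s1 : 1.732 ≤ √3 := by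
    apply Real.le_sqrt_of_sq_le
    norm_num
  have s2 : √3 ≤ 1.7321 := by
    rw [Real.sqrt_le_left (by norm_num)]
    norm_num
  constructor
  · nlinarith
  · nlinarith

end Pool.Agent.TD25
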