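import Pool.Agent.TD25.UBSec

/-!
# TD25/UB12: the extremal covering of the disk of radius `R` by twelve closed unit disks, nine of them covering the circle

Centres: for `k = 0, 1, 2`: `pt h (2πk/3)` (inner, 3), `pt (√(1+R(1+h))) (2πk/3 ± gg R h/2)` (6), `pt (1+q) (2πk/3 + π/3)` (3). Boundary disks:
the last nine (`b : Fin 9 → ℂ`), inner ones `a : Fin 3 → ℂ`.
Proof. `x = pt ‖x‖ θ`, `θ ∈ [-π/3, π/3] + 2πk/3` for some `k ∈ {0,1,2}` modulo `2π` (`exists_pt`, reduce `θ` to `[-π/3, 5π/3)`). Rotate by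
`-2πk/3` (`pt r (t - 2πk/3) = pt r t * e^{-2πki/3}` is an isometry), so `θ' ∈ [-π/3, π/3]`. If `θ' ≥ 0` apply `ub_sector`; if `θ' < 0` apply it to the
complex conjugate (`conj (pt r t) = pt r (-t)`): distances to `pt h 0`, to `pt (..) (-gg/2)` and to `pt (1+q) (-π/3)`, and
`-π/3 + 2πk/3 = 2π(k-1)/3 + π/3`, i.e. it is the centre number `k - 1` of the last type modulo `2π`.
-/

set_option autoImplicit false

namespace Pool.Agent.TD25

open Real

private theorem norm_rot (r t d b s : ℝ) : ‖pt r (t + s) - pt d (b + s)‖ = ‖pt r t - pt d b‖ := by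
  have h : ‖pt r (t + s) - pt d (b + s)‖ ^ 2 = ‖pt r t - pt d b‖ ^ 2 := by
    rw [norm_pt_sub_sq, norm_pt_sub_sq]
    congr 3
    ring
  exact (sq_eq_sq₀ (norm_nonneg _) (norm_nonneg _)).1 h

private theorem norm_refl (r t d b : ℝ) : ‖pt r (-t) - pt d (-b)‖ = ‖pt r t - pt d b‖ := by
  have h : ‖pt r (-t) - pt d (-b)‖ ^ 2 = ‖pt r t - pt d b‖ ^ 2 := by
    rw [norm_pt_sub_sq, norm_pt_sub_sq, show -t - -b = -(t - b) by ring, cos_neg]
  exact (sq_eq_sq₀ (norm_nonneg _) (norm_nonneg _)).1 h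

private theorem exists_sector (t : ℝ) : ∃ (k : ℤ) (u : ℝ), t = u + 2 * π / 3 * k ∧ |u| ≤ π / 3 := by
  have hpi := Real.pi_pos
  refine ⟨round (t / (2 * π / 3)), t - 2 * π / 3 * round (t / (2 * π / 3)), by ring, ?_⟩
  have h := abs_sub_round (t / (2 * π / 3))
  have e : t - 2 * π / 3 * round (t / (2 * π / 3)) =
      (2 * π / 3) * (t / (2 * π / 3) - round (t / (2 * π / 3))) := by
    field_simp
  rw [e, abs_mul, abs_of_pos (by positivity)]
  nlinarith

/-- the twelve centres, with an integer index -/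
private theorem ub_any {R h q : ℝ} (O : OptS R h q) (x : ℂ) (hx : ‖x‖ ≤ R) :
    ∃ k : ℤ, ‖x - pt h (2 * π / 3 * k)‖ ≤ 1 ∨
      ‖x - pt (√(1 + R * (1 + h))) (gg R h / 2 + 2 * π / 3 * k)‖ ≤ 1 ∨
      ‖x - pt (√(1 + R * (1 + h))) (-(gg R h / 2) + 2 * π / 3 * k)‖ ≤ 1 ∨
      ‖x - pt (1 + q) (π / 3 + 2 * π / 3 * k)‖ ≤ 1 := by
  obtain ⟨t, ht⟩ := exists_pt x
  obtain ⟨k, u, rfl, hu⟩ := exists_sector t
  have hr := norm_nonneg x
  set r := ‖x‖ with hrdef
  rcases le_total 0 u with h0 | h0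
  · refine ⟨k, ?_⟩
    rw [abs_of_nonneg h0] at hu
    have hy : pt r u = pt ‖pt r u‖ u := by rw [norm_pt hr]
    rcases ub_sector O hy h0 hu (by rw [norm_pt hr]; exact hx) with h1 | h1 | h1
    · left
      rw [ht, ← zero_add (2 * π / 3 * (k : ℝ)), ← add_assoc, add_zero, norm_rot]
      exact h1
    · right; left
      rw [ht, norm_rot]
      exact h1
    · right; right; right
      rw [ht, norm_rot]
      exact h1
  · rw [abs_of_nonpos h0] at hu
    have hy : pt r (-u) = pt ‖pt r (-u)‖ (-u) := by rw [norm_pt hr]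
    rcases ub_sector O hy (by linarith) hu (by rw [norm_pt hr]; exact hx) with h1 | h1 | h1
    · refine ⟨k, ?_⟩
      left
      rw [ht, ← zero_add (2 * π / 3 * (k : ℝ)), ← add_assoc, add_zero, norm_rot, ← norm_refl, neg_zero]
      exact h1
    · refine ⟨k, ?_⟩
      right; right; left
      rw [ht, norm_rot, ← norm_refl, neg_neg]
      exact h1
    · refine ⟨k - 1, ?_⟩
      right; right; right
      rw [ht, show π / 3 + 2 * π / 3 * ((k - 1 : ℤ) : ℝ) = -(π / 3) + 2 * π / 3 * (k : ℝ) by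
        push_cast; ring, norm_rot, ← norm_refl, neg_neg]
      exact h1

private theorem ub_any_circle {R h q : ℝ} (O : OptS R h q) (x : ℂ) (hx : ‖x‖ = R) :
    ∃ k : ℤ, 
      ‖x - pt (√(1 + R * (1 + h))) (gg R h / 2 + 2 * π / 3 * k)‖ ≤ 1 ∨
      ‖x - pt (√(1 + R * (1 + h))) (-(gg R h / 2) + 2 * π / 3 * k)‖ ≤ 1 ∨
      ‖x - pt (1 + q) (π / 3 + 2 * π / 3 * k)‖ ≤ 1 := by
  obtain ⟨t, ht⟩ := exists_pt x
  obtain ⟨k, u, rfl, hu⟩ := exists_sector t
  have hr := norm_nonneg x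
  set r := ‖x‖ with hrdef
  rcases le_total 0 u with h0 | h0
  · refine ⟨k, ?_⟩
    rw [abs_of_nonneg h0] at hu
    have hy : pt r u = pt ‖pt r u‖ u := by rw [norm_pt hr]
    rcases ub_sector_circle O hy h0 hu (by rw [norm_pt hr]; exact hx) with h1 | h1
    · left
      rw [ht, norm_rot]
      exact h1
    · right; right
      rw [ht, norm_rot]
      exact h1
  · rw [abs_of_nonpos h0] at hu
    have hy : pt r (-u) = pt ‖pt r (-u)‖ (-u) := by rw [norm_pt hr]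
    rcases ub_sector_circle O hy (by linarith) hu (by rw [norm_pt hr]; exact hx) with h1 | h1
    · refine ⟨k, ?_⟩
      right; left
      rw [ht, norm_rot, ← norm_refl, neg_neg]
      exact h1
    · refine ⟨k - 1, ?_⟩
      right; right
      rw [ht, show π / 3 + 2 * π / 3 * ((k - 1 : ℤ) : ℝ) = -(π / 3) + 2 * π / 3 * (k : ℝ) by
        push_cast; ring, norm_rot, ← norm_refl, neg_neg]
      exact h1

private theorem pt_red (d b : ℝ) (k : ℤ) : ∃ j : Fin 3, pt d (b + 2 * π / 3 * k) = pt d (b + 2 * π / 3 * (j : ℕ)) ∧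
    ∀ d' b' : ℝ, pt d' (b' + 2 * π / 3 * k) = pt d' (b' + 2 * π / 3 * (j : ℕ)) := by
  have h3 : (0 : ℤ) < 3 := by norm_num
  have h1 := Int.emod_nonneg k h3.ne'
  have h2 := Int.emod_lt_of_pos k h3
  have key : ∀ d' b' : ℝ, pt d' (b' + 2 * π / 3 * k) = pt d' (b' + 2 * π / 3 * (((k % 3).toNat : ℕ) : ℝ)) := by
    intro d' b'
    rw [← pt_add_two_pi d' (b' + 2 * π / 3 * (((k % 3).toNat : ℕ) : ℝ)) (k / 3)]
    congr 1
    have e1 : ((k % 3).toNat : ℤ) = k % 3 := Int.toNat_of_nonneg h1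
    have e2 : (((k % 3).toNat : ℕ) : ℝ) = ((k % 3 : ℤ) : ℝ) := by
      exact_mod_cast congrArg (Int.cast (R := ℝ)) e1
    have e3 : k = k % 3 + 3 * (k / 3) := (Int.emod_add_mul_ediv k 3).symm
    have e4 : (k : ℝ) = ((k % 3 : ℤ) : ℝ) + 3 * ((k / 3 : ℤ) : ℝ) := by exact_mod_cast e3
    rw [e2]
    rw [e4]
    ring
  exact ⟨⟨(k % 3).toNat, by omega⟩, key d b, key⟩

theorem ub12 {R h q : ℝ} (O : OptS R h q) :
    ∃ (b : Fin 9 → ℂ) (a : Fin 3 → ℂ),
      (∀ x : ℂ, ‖x‖ ≤ R → (∃ i, ‖x - b i‖ ≤ 1) ∨ ∃ j, ‖x - a j‖ ≤ 1) ∧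
      ∀ x : ℂ, ‖x‖ = R → ∃ i, ‖x - b i‖ ≤ 1 := by
  let P : Fin 3 → Fin 3 → ℂ := fun j s =>
    ![pt (√(1 + R * (1 + h))) (gg R h / 2 + 2 * π / 3 * (j : ℕ)),
      pt (√(1 + R * (1 + h))) (-(gg R h / 2) + 2 * π / 3 * (j : ℕ)),
      pt (1 + q) (π / 3 + 2 * π / 3 * (j : ℕ))] s
  let e : Fin 3 × Fin 3 ≃ Fin 9 := finProdFinEquiv
  refine ⟨fun i => P (e.symm i).1 (e.symm i).2, fun j => pt h (2 * π / 3 * (j : ℕ)), ?_, ?_⟩
  · intro x hx
    obtain ⟨k, hk⟩ := ub_any O x hx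
    obtain ⟨j, -, hj⟩ := pt_red 0 0 k
    rcases hk with hk | hk | hk | hk
    · right
      refine ⟨j, ?_⟩
      have := hj h 0
      rw [zero_add, zero_add] at this
      rw [this] at hk
      exact hk
    · left
      refine ⟨e (j, 0), ?_⟩
      simp only [Equiv.symm_apply_apply]
      rw [hj] at hk
      exact hk
    · left
      refine ⟨e (j, 1), ?_⟩
      simp only [Equiv.symm_apply_apply]
      rw [hj] at hk
      exact hk
    · left
      refine ⟨e (j, 2), ?_⟩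
      simp only [Equiv.symm_apply_apply]
      rw [hj] at hk
      exact hk
  · intro x hx
    obtain ⟨k, hk⟩ := ub_any_circle O x hx
    obtain ⟨j, -, hj⟩ := pt_red 0 0 k
    rcases hk with hk | hk | hk
    · refine ⟨e (j, 0), ?_⟩
      simp only [Equiv.symm_apply_apply]
      rw [hj] at hk
      exact hk
    · refine ⟨e (j, 1), ?_⟩
      simp only [Equiv.symm_apply_apply]
      rw [hj] at hk
      exact hk
    · refine ⟨e (j, 2), ?_⟩
      simp only [Equiv.symm_apply_apply]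
      rw [hj] at hk
      exact hk

end Pool.Agent.TD25
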