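import Pool.Agent.TD25.Fi

/-!
# TD25/Arc: the part of the circle of radius `R` inside a unit disk

Proofs. `‖pt R t - pt d b‖^2 = R^2 + d^2 - 2 R d cos (t - b)` (for all real `R`, `d`, `t`, `b`), so
`‖pt R t - pt d b‖ < 1` iff `cos (t - b) > (R^2 + d^2 - 1) / (2 R d) = cos (fi R (d^2))` (`cos_fi`, `√(d^2) = d`), and
`cos x > cos p` with `0 ≤ p ≤ π` iff `|x - 2 π k| < p` for some integer `k` (reduce `x` to `(-π, π]`: `k = round (x / 2π)`;
`cos` is strictly decreasing on `[0, π]` and even).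
-/

set_option autoImplicit false

namespace Pool.Agent.TD25

open Real

private theorem pt_re (r t : ℝ) : (pt r t).re = r * cos t := by
  unfold pt
  rw [Complex.re_ofReal_mul, Complex.exp_ofReal_mul_I_re]

private theorem pt_im (r t : ℝ) : (pt r t).im = r * sin t := by
  unfold pt
  rw [Complex.im_ofReal_mul, Complex.exp_ofReal_mul_I_im]

theorem norm_pt {d b : ℝ} (hd : 0 ≤ d) : ‖pt d b‖ = d := by
  unfold pt
  rw [norm_mul, Complex.norm_exp_ofReal_mul_I, mul_one, Complex.norm_real, Real.norm_of_nonneg hd]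

theorem norm_pt_sub_sq (r t d b : ℝ) : ‖pt r t - pt d b‖ ^ 2 = r ^ 2 + d ^ 2 - 2 * r * d * cos (t - b) := by
  rw [Complex.sq_norm, Complex.normSq_apply, Complex.sub_re, Complex.sub_im, pt_re, pt_re, pt_im,
    pt_im, cos_sub]
  have h1 := sin_sq_add_cos_sq t
  have h2 := sin_sq_add_cos_sq b
  linear_combination r ^ 2 * h1 + d ^ 2 * h2

theorem pt_add_two_pi (d b : ℝ) (k : ℤ) : pt d (b + 2 * π * k) = pt d b := by
  unfold pt
  congr 1
  have h : ((b + 2 * π * k : ℝ) : ℂ) * Complex.I = (b : ℂ) * Complex.I +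
      (k : ℂ) * (2 * (π : ℂ) * Complex.I) := by
    push_cast
    ring
  rw [h, Complex.exp_add, Complex.exp_int_mul_two_pi_mul_I, mul_one]

theorem exists_pt (x : ℂ) : ∃ t : ℝ, x = pt ‖x‖ t :=
  ⟨Complex.arg x, (Complex.norm_mul_exp_arg_mul_I x).symm⟩

/-- reduction modulo `2 π` -/
private theorem red (x : ℝ) : |x - 2 * π * (round (x / (2 * π)) : ℤ)| ≤ π := by
  have hpi := Real.pi_pos
  have h := abs_sub_round (x / (2 * π))
  have e : x - 2 * π * (round (x / (2 * π)) : ℤ) =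
      (2 * π) * (x / (2 * π) - (round (x / (2 * π)) : ℤ)) := by
    field_simp
  rw [e, abs_mul, abs_of_pos (by positivity)]
  nlinarith

private theorem cos_red (x : ℝ) (k : ℤ) : cos |x - 2 * π * k| = cos x := by
  rw [cos_abs, show x - 2 * π * k = x - k * (2 * π) by ring, cos_sub_int_mul_two_pi]

private theorem cos_gt_iff {p x : ℝ} (hp0 : 0 ≤ p) (hp : p ≤ π) :
    cos p < cos x ↔ ∃ k : ℤ, |x - 2 * π * k| < p := by
  constructor
  · intro h
    refine ⟨round (x / (2 * π)), ?_⟩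
    by_contra hcon
    push Not at hcon
    have h1 := cos_le_cos_of_nonneg_of_le_pi hp0 (red x) hcon
    rw [cos_red] at h1
    linarith
  · rintro ⟨k, hk⟩
    have h1 := cos_lt_cos_of_nonneg_of_le_pi (abs_nonneg _) hp hk
    rwa [cos_red] at h1

private theorem d_pos {R d : ℝ} (hR : OkR R) (h1 : R - 1 ≤ d) : 0 < d := by
  have := hR.1
  linarith

private theorem cos_fi' {R d : ℝ} (hR : OkR R) (h1 : R - 1 ≤ d) (h2 : d ^ 2 ≤ R ^ 2 - 1) :
    2 * R * d * cos (fi R (d ^ 2)) = R ^ 2 - 1 + d ^ 2 := by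
  have hd := d_pos hR h1
  have hR0 : 0 < R := by
    have := hR.1
    linarith
  have h3 : (R - 1) ^ 2 ≤ d ^ 2 := by
    apply pow_le_pow_left₀ _ h1
    have := hR.1
    linarith
  rw [cos_fi hR h3 h2, Real.sqrt_sq hd.le]
  field_simp

private theorem fi_le_pi (R D : ℝ) : fi R D ≤ π := arccos_le_pi _

theorem arc_iff {R d t b : ℝ} (hR : OkR R) (h1 : R - 1 ≤ d) (h2 : d ^ 2 ≤ R ^ 2 - 1) :
    ‖pt R t - pt d b‖ < 1 ↔ ∃ k : ℤ, |t - b - 2 * π * k| < fi R (d ^ 2) := by
  rw [← cos_gt_iff (fi_nonneg _ _) (fi_le_pi _ _)]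
  have hd := d_pos hR h1
  have hR0 : 0 < R := by
    have := hR.1
    linarith
  have h3 := cos_fi' hR h1 h2
  have h4 := norm_pt_sub_sq R t d b
  have h5 : 0 < 2 * R * d := by positivity
  have h6 : 0 ≤ ‖pt R t - pt d b‖ := norm_nonneg _
  constructor
  · intro h
    have h7 : ‖pt R t - pt d b‖ ^ 2 < 1 := by nlinarith
    have h8 : 2 * R * d * cos (fi R (d ^ 2)) < 2 * R * d * cos (t - b) := by linarith
    exact lt_of_mul_lt_mul_left h8 h5.le
  · intro h
    have h8 : 2 * R * d * cos (fi R (d ^ 2)) < 2 * R * d * cos (t - b) :=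
      mul_lt_mul_of_pos_left h h5
    have h7 : ‖pt R t - pt d b‖ ^ 2 < 1 := by linarith
    by_contra hcon
    push Not at hcon
    nlinarith

theorem arc_out {R d t b : ℝ} (hR : OkR R) (h1 : R - 1 ≤ d) (h2 : d ^ 2 ≤ R ^ 2 - 1)
    (h : ∀ k : ℤ, fi R (d ^ 2) < |t - b - 2 * π * k|) : 1 < ‖pt R t - pt d b‖ := by
  have hd := d_pos hR h1
  have hR0 : 0 < R := by
    have := hR.1
    linarith
  have h3 := cos_fi' hR h1 h2
  have h4 := norm_pt_sub_sq R t d b
  have h5 : 0 < 2 * R * d := by positivity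
  have h6 : 0 ≤ ‖pt R t - pt d b‖ := norm_nonneg _
  have h7 := cos_lt_cos_of_nonneg_of_le_pi (fi_nonneg R (d ^ 2)) (red (t - b))
    (h (round ((t - b) / (2 * π))))
  rw [cos_red] at h7
  have h8 : 2 * R * d * cos (t - b) < 2 * R * d * cos (fi R (d ^ 2)) :=
    mul_lt_mul_of_pos_left h7 h5
  by_contra hcon
  push Not at hcon
  nlinarith

/-- A unit disk with centre of norm at most `R - 1` does not meet the circle of radius `R`. -/
theorem arc_none {R t : ℝ} {b : ℂ} (hR : OkR R) (h : ‖b‖ ≤ R - 1) : 1 ≤ ‖pt R t - b‖ := by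
  have hR0 : 0 ≤ R := by
    have := hR.1
    linarith
  have h1 := norm_sub_norm_le (pt R t) b
  rw [norm_pt hR0] at h1
  linarith

end Pool.Agent.TD25
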