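import Pool.Agent.TD25.Opp

/-!
# TD25/Bridge: a common point of two neighbouring free disks on the circle of the bridging disk

Proof. `L ⊆ A ∪ B` (open unit balls): a point `x ∈ L` has norm `< R` and is in no open disk of the ring, so by `cov` it is in ball
`A`, `B` or `C`; not in ball `C` by `opp` (`y = x`, `P = Pn4`). `L` is preconnected, meets the open sets ball `A` (at `P0`) and ball `B` (at `P1`),
so it meets `A ∩ B` (`IsPreconnected` definition). That point is `Q`.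
-/

set_option autoImplicit false

namespace Pool.Agent.TD25

open Real

theorem bridge {R : ℝ} (hR : OkR R) (r : Ring R 9) (n : ℤ) (L : Set ℂ) (hL : IsPreconnected L) (P0 P1 P4 A B C : ℂ)
    (h0 : P0 ∈ L) (h1 : P1 ∈ L) (hx : ∀ x ∈ L, ‖x - r.b n‖ = 1 ∧ ‖x‖ < R ∧ ∀ k : ℤ, 1 ≤ ‖x - r.b k‖)
    (cov : ∀ x : ℂ, ‖x‖ ≤ R → (∃ k : ℤ, ‖x - r.b k‖ < 1) ∨ ‖x - A‖ < 1 ∨ ‖x - B‖ < 1 ∨ ‖x - C‖ < 1)
    (hA : ‖P0 - A‖ < 1) (hB : ‖P1 - B‖ < 1) (hC : ‖P4 - C‖ < 1)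
    (h4 : ‖P4 - r.b (n + 4)‖ = 1) (h5 : ‖P4 - r.b (n + 5)‖ = 1) (h6 : ‖P4‖ < R) :
    ∃ Q : ℂ, ‖Q - r.b n‖ = 1 ∧ ‖Q - A‖ < 1 ∧ ‖Q - B‖ < 1 := by
  have hsub : L ⊆ Metric.ball A 1 ∪ Metric.ball B 1 := by
    intro x hxL
    obtain ⟨hx1, hx2, hx3⟩ := hx x hxL
    rcases cov x hx2.le with ⟨k, hk⟩ | h | h | h
    · exact absurd hk (not_lt.2 (hx3 k))
    · left
      rw [mem_ball_iff_norm]
      exact h
    · right
      rw [mem_ball_iff_norm]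
      exact h
    · exact absurd ⟨h, hC⟩ (opp hR r n x P4 C hx1 h4 h5 h6)
  obtain ⟨Q, hQL, hQA, hQB⟩ := hL (Metric.ball A 1) (Metric.ball B 1) Metric.isOpen_ball
    Metric.isOpen_ball hsub ⟨P0, h0, by rw [mem_ball_iff_norm]; exact hA⟩
    ⟨P1, h1, by rw [mem_ball_iff_norm]; exact hB⟩
  rw [mem_ball_iff_norm] at hQA hQB
  exact ⟨Q, (hx Q hQL).1, hQA, hQB⟩

end Pool.Agent.TD25
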