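import Mathlib

/-!
# TD25/Comb9: nine cusps, three disks

`In j n` means: cusp `n` (integers modulo 9) is in disk `j`. Every cusp is in some disk, no disk contains two cusps at
cyclic distance 3 or 4. Then up to a shift `s` and a permutation of the disks, disk `k` contains the cusps
`s + 3k, s + 3k + 1, s + 3k + 2`.

Proof. For each `j` the set `C j` of residues in disk `j` has pairwise cyclic distances `≤ 2`, hence lies in a window
`{w, w+1, w+2}` of three consecutive residues (a finite check: for subsets of `ZMod 9`; or by hand: if `x ∈ C j`, then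
`C j ⊆ {x-2, ..., x+2}`, and two elements of it at distance 3 or 4 are excluded). So `In j n → n ∈ window (w j)`. Three windows of size 3
cover the 9 residues, so they are pairwise disjoint and equal to `{s, s+1, s+2}, {s+3, s+4, s+5}, {s+6, s+7, s+8}` (finite check
`decide` over `w : Fin 3 → ZMod 9`, 729 cases, giving `s` and the permutation), and every residue of window `k` is in disk `σ k`
because it is in some disk and only in the window of that one. Use `Int.cast` to `ZMod 9` (periodicity `per`).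
-/

set_option autoImplicit false

namespace Pool.Agent.TD25

private def win9 (w r : Fin 9) : Bool := decide (r = w) || decide (r = w + 1) || decide (r = w + 2)

private def cond9 (b0 b1 b2 b3 b4 b5 b6 b7 b8 : Bool) : Bool := !(b0 && b3) &&
      !(b0 && b4) &&
      !(b1 && b4) &&
      !(b1 && b5) &&
      !(b2 && b5) &&
      !(b2 && b6) &&
      !(b3 && b6) &&
      !(b3 && b7) &&
      !(b4 && b7) &&
      !(b4 && b8) &&
      !(b5 && b8) &&
      !(b5 && b0) &&
      !(b6 && b0) &&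
      !(b6 && b1) &&
      !(b7 && b1) &&
      !(b7 && b2) &&
      !(b8 && b2) &&
      !(b8 && b3)

private def out9 (v : Fin 9 → Bool) : Bool :=
  (List.finRange 9).any (fun w => (List.finRange 9).all (fun r => !(v r) || win9 w r))

private theorem row9 : ∀ b0 b1 b2 b3 b4 b5 b6 b7 b8 : Bool, cond9 b0 b1 b2 b3 b4 b5 b6 b7 b8 = true →
    out9 ![b0, b1, b2, b3, b4, b5, b6, b7, b8] = true := by
  decide +kernel

private theorem row9' (Q : Fin 9 → Bool) (h3 : ∀ r, ¬ (Q r = true ∧ Q (r + 3) = true))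
    (h4 : ∀ r, ¬ (Q r = true ∧ Q (r + 4) = true)) :
    ∃ w : Fin 9, ∀ r : Fin 9, Q r = true → win9 w r = true := by
  have hQ : ∀ r, Q r = ![Q 0, Q 1, Q 2, Q 3, Q 4, Q 5, Q 6, Q 7, Q 8] r := by
    intro r
    fin_cases r <;> rfl
  have h := row9 (Q 0) (Q 1) (Q 2) (Q 3) (Q 4) (Q 5) (Q 6) (Q 7) (Q 8) (by
    have k3 : ∀ r, (!(Q r && Q (r + 3))) = true := by
      intro r
      have := h3 r
      revert this
      cases Q r <;> cases Q (r + 3) <;> simp
    have k4 : ∀ r, (!(Q r && Q (r + 4))) = true := by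
      intro r
      have := h4 r
      revert this
      cases Q r <;> cases Q (r + 4) <;> simp
    unfold cond9
    simp only [Bool.and_eq_true]
    exact ⟨⟨⟨⟨⟨⟨⟨⟨⟨⟨⟨⟨⟨⟨⟨⟨⟨k3 0, k4 0⟩, k3 1⟩, k4 1⟩, k3 2⟩, k4 2⟩, k3 3⟩, k4 3⟩, k3 4⟩, k4 4⟩, k3 5⟩, k4 5⟩, k3 6⟩, k4 6⟩, k3 7⟩, k4 7⟩, k3 8⟩, k4 8⟩)
  rw [← show Q = ![Q 0, Q 1, Q 2, Q 3, Q 4, Q 5, Q 6, Q 7, Q 8] from funext hQ] at h
  unfold out9 at h
  rw [List.any_eq_true] at h
  obtain ⟨w, -, hw⟩ := h
  rw [List.all_eq_true] at hw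
  refine ⟨w, fun r hr => ?_⟩
  have := hw r (List.mem_finRange r)
  rw [hr] at this
  simpa using this

private def res9 (n : ℤ) : Fin 9 := (n : ZMod 9)

private theorem res9_3 : ∀ r : Fin 9, res9 ((r.val : ℤ) + 3) = r + 3 := by
  decide +kernel

private theorem res9_4 : ∀ r : Fin 9, res9 ((r.val : ℤ) + 4) = r + 4 := by
  decide +kernel

private theorem res9_eq : ∀ (a : Fin 9) (k i : Fin 3),
    res9 ((a.val : ℤ) + 3 * ((k.val : ℕ) : ℤ) + ((i.val : ℕ) : ℤ)) =
      a + 3 * (Fin.ofNat 9 k.val) + Fin.ofNat 9 i.val := by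
  decide +kernel

private theorem cov9 : ∀ w0 w1 w2 : Fin 9,
    (∀ r : Fin 9, (win9 w0 r || win9 w1 r || win9 w2 r) = true) →
    (w1 = w0 + 3 ∧ w2 = w0 + 6) ∨ (w1 = w0 + 6 ∧ w2 = w0 + 3) := by
  decide +kernel

private theorem only9 : ∀ w0 : Fin 9, ∀ k i j : Fin 3,
    win9 (w0 + 3 * (Fin.ofNat 9 j.val)) (w0 + 3 * (Fin.ofNat 9 k.val) + Fin.ofNat 9 i.val) = true →
    j = k := by
  decide +kernel

theorem comb9 (In : Fin 3 → ℤ → Prop) (per : ∀ j n, In j (n + 9) ↔ In j n) (cov : ∀ n, ∃ j, In j n)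
    (h3 : ∀ j n, ¬ (In j n ∧ In j (n + 3))) (h4 : ∀ j n, ¬ (In j n ∧ In j (n + 4))) :
    ∃ (s : ℤ) (σ : Equiv.Perm (Fin 3)), ∀ k i : Fin 3, In (σ k) (s + 3 * (k : ℤ) + (i : ℤ)) := by
  classical
  have per' : ∀ j n (k : ℤ), In j (n + 9 * k) ↔ In j n := by
    intro j n k
    induction k using Int.induction_on with
    | zero => rw [mul_zero, add_zero]
    | succ k ih => rw [← ih, show n + 9 * ((k : ℤ) + 1) = n + 9 * k + 9 by ring, per]
    | pred k ih =>
      rw [← ih, ← per j (n + 9 * (-(k : ℤ) - 1)),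
        show n + 9 * (-(k : ℤ) - 1) + 9 = n + 9 * (-(k : ℤ)) by ring]
  have hin : ∀ j (n m : ℤ), (n : ZMod 9) = (m : ZMod 9) → (In j n ↔ In j m) := by
    intro j n m h
    rw [ZMod.intCast_eq_intCast_iff_dvd_sub] at h
    obtain ⟨k, hk⟩ := h
    have e : m = n + 9 * k := by
      push_cast at hk
      linarith
    rw [e, per']
  obtain ⟨Q, hQ⟩ : ∃ Q : Fin 3 → Fin 9 → Bool, ∀ j r, Q j r = decide (In j (r.val : ℤ)) :=
    ⟨_, fun _ _ => rfl⟩
  have hcast : ∀ r : Fin 9, (((r.val : ℤ) : ZMod 9)) = (r : ZMod 9) := by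
    intro r
    rw [Int.cast_natCast]
    exact ZMod.natCast_zmod_val (n := 9) r
  have hQin : ∀ j (n : ℤ), Q j (res9 n) = true ↔ In j n := by
    intro j n
    rw [hQ, decide_eq_true_iff]
    apply hin
    exact hcast (res9 n)
  have hQval : ∀ j (r : Fin 9), Q j r = true ↔ In j (r.val : ℤ) := by
    intro j r
    rw [hQ, decide_eq_true_iff]
  have hrow : ∀ j, ∃ w : Fin 9, ∀ r : Fin 9, Q j r = true → win9 w r = true := by
    intro j
    apply row9' (Q j)
    · rintro r ⟨h1, h2⟩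
      apply h3 j (r.val : ℤ)
      refine ⟨(hQval j r).1 h1, ?_⟩
      rw [← hQin]
      have e : res9 ((r.val : ℤ) + 3) = r + 3 := res9_3 r
      rw [e]
      exact h2
    · rintro r ⟨h1, h2⟩
      apply h4 j (r.val : ℤ)
      refine ⟨(hQval j r).1 h1, ?_⟩
      rw [← hQin]
      have e : res9 ((r.val : ℤ) + 4) = r + 4 := res9_4 r
      rw [e]
      exact h2
  choose w hw using hrow
  have hcov : ∀ r : Fin 9, (win9 (w 0) r || win9 (w 1) r || win9 (w 2) r) = true := by
    intro r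
    obtain ⟨j, hj⟩ := cov (r.val : ℤ)
    have h1 := hw j r ((hQval j r).2 hj)
    fin_cases j
    · have h1' : win9 (w 0) r = true := h1
      rw [h1']
      rfl
    · have h1' : win9 (w 1) r = true := h1
      rw [h1', Bool.or_true]
      rfl
    · have h1' : win9 (w 2) r = true := h1
      rw [h1', Bool.or_true]
  have hfin : ∀ σ : Equiv.Perm (Fin 3), (∀ j : Fin 3, w (σ j) = w 0 + 3 * (Fin.ofNat 9 j.val)) →
      ∀ k i : Fin 3, In (σ k) (((w 0 : Fin 9).val : ℤ) + 3 * (k : ℤ) + (i : ℤ)) := by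
    intro σ hσ k i
    obtain ⟨j, hj⟩ := cov (((w 0 : Fin 9).val : ℤ) + 3 * (k : ℤ) + (i : ℤ))
    have h1 := (hQin j _).2 hj
    have e : res9 (((w 0 : Fin 9).val : ℤ) + 3 * (k : ℤ) + (i : ℤ)) =
        w 0 + 3 * (Fin.ofNat 9 k.val) + Fin.ofNat 9 i.val := res9_eq (w 0) k i
    rw [e] at h1
    have h2 := hw j _ h1
    obtain ⟨j', rfl⟩ := σ.surjective j
    rw [hσ j'] at h2
    have h5 := only9 (w 0) k i j' h2
    subst h5
    exact hj
  rcases cov9 (w 0) (w 1) (w 2) hcov with ⟨h1, h2⟩ | ⟨h1, h2⟩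
  · refine ⟨((w 0 : Fin 9).val : ℤ), Equiv.refl _, hfin _ ?_⟩
    intro j
    fin_cases j
    · show w 0 = w 0 + 3 * (Fin.ofNat 9 0)
      generalize w 0 = a
      revert a
      decide
    · show w 1 = w 0 + 3 * (Fin.ofNat 9 1)
      rw [h1]
      generalize w 0 = a
      revert a
      decide
    · show w 2 = w 0 + 3 * (Fin.ofNat 9 2)
      rw [h2]
      generalize w 0 = a
      revert a
      decide
  · refine ⟨((w 0 : Fin 9).val : ℤ), Equiv.swap 1 2, hfin _ ?_⟩
    intro j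
    fin_cases j
    · show w 0 = w 0 + 3 * (Fin.ofNat 9 0)
      generalize w 0 = a
      revert a
      decide
    · show w 2 = w 0 + 3 * (Fin.ofNat 9 1)
      rw [h2]
      generalize w 0 = a
      revert a
      decide
    · show w 1 = w 0 + 3 * (Fin.ofNat 9 2)
      rw [h1]
      generalize w 0 = a
      revert a
      decide

end Pool.Agent.TD25
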