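import Pool.Agent.TD25.Fi

/-!
# TD25/Win: window inequalities in a ring

Proofs. `r.p n = fi R (r.d n ^ 2)` is periodic, `0 ≤ r.p n ≤ phm R` (`fi_le`, `r.d n > R - 1 > 0`).
* `win_hi`: sum `r.ov j` over `j = n, ..., k-1`: `β k - β n < ∑ (p j + p (j+1)) = p n + p k + 2 ∑_{n<j<k} p j`.
* `win_lo`: apply `win_hi` to `k` and `n + m`: `β n + 2 π - β k < p k + p n + 2 (n + m - k - 1) phm R`.
* `β` is strictly increasing (from `nn`: the difference is larger than an absolute value).
(Induction on `k` from `n + 1`: `Int.le_induction`.)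
-/

set_option autoImplicit false

namespace Pool.Agent.TD25

open Real

variable {R : ℝ} {m : ℕ}

theorem Ring.d_pos (hR : OkR R) (r : Ring R m) (n : ℤ) : 1.7 < r.d n := by
  have h1 := r.lo n
  have h2 := hR.1
  linarith

theorem Ring.p_le (hR : OkR R) (r : Ring R m) (n : ℤ) : r.p n ≤ phm R := by
  have h := r.d_pos hR n
  exact fi_le hR (pow_pos (by linarith) 2)

theorem Ring.p_pos (hR : OkR R) (r : Ring R m) (n : ℤ) : 0 < r.p n := by
  have h1 := r.lo n
  have h2 := hR.1
  exact fi_pos hR (pow_lt_pow_left₀ h1 (by linarith) (by norm_num))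

theorem Ring.per_p (r : Ring R m) (n : ℤ) : r.p (n + m) = r.p n := by
  unfold Ring.p
  rw [r.per_d]

theorem Ring.per_b (r : Ring R m) (n : ℤ) : r.b (n + m) = r.b n := by
  unfold Ring.b pt
  rw [r.per_d, r.per_β]
  congr 1
  have h : ((r.β n + 2 * π : ℝ) : ℂ) * Complex.I = (r.β n : ℂ) * Complex.I +
      2 * (π : ℂ) * Complex.I := by
    push_cast
    ring
  rw [h, Complex.exp_add, Complex.exp_two_pi_mul_I, mul_one]

theorem Ring.β_lt (r : Ring R m) {n k : ℤ} (h : n < k) : r.β n < r.β k := by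
  have hm : StrictMono r.β := strictMono_int_of_lt_succ fun n => by
    have h1 := r.nn n
    have h2 := abs_nonneg (fi R (r.d (n + 1) ^ 2) - fi R (r.d n ^ 2))
    linarith
  exact hm h

theorem Ring.win_hi (hR : OkR R) (r : Ring R m) {n k : ℤ} (h : n < k) :
    r.β k - r.β n < r.p n + r.p k + 2 * phm R * ((k : ℝ) - n - 1) := by
  have h' : n + 1 ≤ k := h
  induction k, h' using Int.leInduction with
  | base =>
    have h1 := r.ov n
    push_cast
    have h2 : 2 * phm R * ((n : ℝ) + 1 - n - 1) = 0 := by ring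
    rw [h2, add_zero]
    exact h1
  | succ k hk ih =>
    have h1 := ih (by omega)
    have h2 := r.ov k
    have h3 := r.p_le hR k
    have h4 : fi R (r.d k ^ 2) = r.p k := rfl
    have h5 : fi R (r.d (k + 1) ^ 2) = r.p (k + 1) := rfl
    rw [h4, h5] at h2
    push_cast
    linarith

theorem Ring.win_lo (hR : OkR R) (r : Ring R m) {n k : ℤ} (h : n < k) (h' : k < n + m) :
    2 * π < (r.β k - r.β n) + r.p n + r.p k + 2 * phm R * ((n : ℝ) + m - 1 - k) := by
  have h1 := r.win_hi hR h'
  rw [r.per_β, r.per_p] at h1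
  push_cast at h1
  linarith

end Pool.Agent.TD25
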