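import Pool.Agent.TD25.LemP
import Pool.Agent.TD25.Dir
import Pool.Agent.TD25.Win

/-!
# TD25/Cusp: a common boundary point of two neighbouring disks of a ring

`P` has distance 1 from `b n` and `b (n+1)`, `‖P‖ < R`. Then it has a lift `t` of its direction with
`|t - β n| = ang ‖P‖ (d n)`, `|t - β (n+1)| = ang ‖P‖ (d (n+1))`, both at most the `arcsin`s; the gap satisfies
`β (n+1) - β n ≤ ang ‖P‖ (d n) + ang ‖P‖ (d (n+1))` and `p n + (β (n+1) - β n) + p (n+1) ≤ 4 Sf R ‖P‖`.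

Proof. `lift_sphere` for both disks gives lifts `t`, `t'` of the same point (`‖P‖ > 0`, `norm_pos_of_ball`), each within
`arcsin (1/d) ≤ arcsin (1/1.7) < 0.65` of `β n` resp. `β (n+1)`, and `0 < β (n+1) - β n < 2 phm < 0.74`, so
`|t - t'| < 2π` and `t = t'` (`pt_inj`). The gap bound is the triangle inequality. Last: `pas` with
`d = d n`, `d' = d (n+1)`, `κ = ‖P‖` (`R - 2 < d - 1 ≤ κ`, `d ≤ κ + 1` by `norm_pos_of_ball`).
-/

set_option autoImplicit false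

namespace Pool.Agent.TD25

open Real

theorem cusp {R : ℝ} {m : ℕ} (hR : OkR R) (r : Ring R m) (n : ℤ) (P : ℂ) (h1 : ‖P - r.b n‖ = 1)
    (h2 : ‖P - r.b (n + 1)‖ = 1) :
    ∃ t : ℝ, P = pt ‖P‖ t ∧ |t - r.β n| = ang ‖P‖ (r.d n) ∧ |t - r.β (n + 1)| = ang ‖P‖ (r.d (n + 1)) ∧
      ang ‖P‖ (r.d n) ≤ arcsin (1 / r.d n) ∧ ang ‖P‖ (r.d (n + 1)) ≤ arcsin (1 / r.d (n + 1)) := by
  have hd1 := r.d_pos hR n
  have hd2 := r.d_pos hR (n + 1)
  obtain ⟨t, ht1, ht2, ht3⟩ := lift_sphere (by linarith : (1 : ℝ) < r.d n) h1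
  obtain ⟨t', ht1', ht2', ht3'⟩ := lift_sphere (by linarith : (1 : ℝ) < r.d (n + 1)) h2
  have hP : 0 < ‖P‖ := by
    have h3 := (norm_pos_of_ball (by linarith : (1 : ℝ) < r.d n) (le_of_eq h1)).1
    linarith
  have g1 : r.β n < r.β (n + 1) := r.β_lt (by omega)
  have g2 := r.ov n
  have g3 : fi R (r.d n ^ 2) ≤ phm R := r.p_le hR n
  have g4 : fi R (r.d (n + 1) ^ 2) ≤ phm R := r.p_le hR (n + 1)
  have g5 := phm_hi hR
  have g6 := Real.arcsin_le_pi_div_two (1 / r.d n)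
  have g7 := Real.arcsin_le_pi_div_two (1 / r.d (n + 1))
  have g8 := Real.pi_gt_three
  have htt : t = t' := by
    apply pt_inj hP (ht1.symm.trans ht1')
    have e1 : |t - r.β n| ≤ π / 2 := by rw [ht2]; linarith
    have e2 : |t' - r.β (n + 1)| ≤ π / 2 := by rw [ht2']; linarith
    rw [abs_le] at e1 e2
    rw [abs_lt]
    constructor <;> linarith [e1.1, e1.2, e2.1, e2.2]
  refine ⟨t, ht1, ht2, ?_, ht3, ht3'⟩
  rw [htt]
  exact ht2'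

private theorem cusp_norm' {R : ℝ} {m : ℕ} (hR : OkR R) (r : Ring R m) (n : ℤ) (P : ℂ)
    (h1 : ‖P - r.b n‖ ≤ 1) : R - 2 < ‖P‖ ∧ r.d n ≤ ‖P‖ + 1 := by
  have hd1 := r.d_pos hR n
  have h3 := (norm_pos_of_ball (by linarith : (1 : ℝ) < r.d n) h1).1
  have h4 := r.lo n
  constructor <;> linarith

theorem cusp_S {R : ℝ} {m : ℕ} (hR : OkR R) (r : Ring R m) (n : ℤ) (P : ℂ) (h1 : ‖P - r.b n‖ = 1)
    (h2 : ‖P - r.b (n + 1)‖ = 1) (h3 : ‖P‖ < R) :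
    r.p n + (r.β (n + 1) - r.β n) + r.p (n + 1) ≤ 4 * Sf R ‖P‖ := by
  obtain ⟨t, _, ht2, ht3, _, _⟩ := cusp hR r n P h1 h2
  have k1 := cusp_norm' hR r n P (le_of_eq h1)
  have k2 := cusp_norm' hR r (n + 1) P (le_of_eq h2)
  refine pas hR k1.1 h3 (r.lo n) (r.hi n) k1.2 (r.lo (n + 1)) (r.hi (n + 1)) k2.2
    (le_of_lt (r.ov n)) ?_
  have e1 := le_abs_self (t - r.β n)
  have e2 := neg_abs_le (t - r.β (n + 1))
  rw [ht2] at e1
  rw [ht3] at e2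
  linarith

theorem cusp_norm {R : ℝ} {m : ℕ} (hR : OkR R) (r : Ring R m) (n : ℤ) (P : ℂ) (h1 : ‖P - r.b n‖ ≤ 1) :
    R - 2 < ‖P‖ ∧ r.d n ≤ ‖P‖ + 1 :=
  cusp_norm' hR r n P h1

end Pool.Agent.TD25
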