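import Mathlib

/-!
# TD25/Defs: covering a disk by twelve unit disks, nine of which cover the boundary circle (MP_7121fa_co)

All disks have radius 1, the big disk has radius `R` (about 2.76929) and centre 0. `pt d b` is the point with norm `d`
and argument `b`. For a unit disk with centre of norm `d`, `R - 1 ≤ d`, `d ^ 2 ≤ R ^ 2 - 1`, the part of the circle of
radius `R` inside the disk is an arc of half length `fi R (d ^ 2)` (an angle, law of cosines).
`ang r d` is the angle at `0` of a triangle with sides `r`, `d` at `0` and opposite side `1`.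
-/

set_option autoImplicit false

namespace Pool.Agent.TD25

open Real

/-- The range of the radius of the big disk. -/
def OkR (R : ℝ) : Prop := 2.7692 ≤ R ∧ R ≤ 2.7694

/-- The point with norm `d ≥ 0` and argument `b`. -/
noncomputable def pt (d b : ℝ) : ℂ := (d : ℂ) * Complex.exp ((b : ℂ) * Complex.I)

/-- The angle at `0` in a triangle with sides `r`, `d` at `0` and opposite side `1`. -/
noncomputable def ang (r d : ℝ) : ℝ := arccos ((r ^ 2 + d ^ 2 - 1) / (2 * r * d))

/-- Half of the arc of the circle of radius `R` covered by a unit disk whose centre has squared norm `D`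
(the maximal value for `D ≥ R ^ 2 - 1`). -/
noncomputable def fi (R D : ℝ) : ℝ :=
  arccos ((R ^ 2 - 1 + min D (R ^ 2 - 1)) / (2 * R * √(min D (R ^ 2 - 1))))

/-- The maximal value of `fi R`. -/
noncomputable def phm (R : ℝ) : ℝ := arcsin (1 / R)

/-- The value of `fi R` for a unit disk whose circle passes through two points with the same argument and norms
`k`, `R` (power of the point `0`: the squared norm of the centre is `1 + R k`). -/
noncomputable def Sf (R k : ℝ) : ℝ := fi R (1 + R * k)

/-- Points of the circle of radius `1` about `pt d b`, all but the farthest from `0`. The parameter `t = 0` gives the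
nearest point to `0`; the argument of `XX d b t` is at least `b` for `t ≥ 0`. -/
noncomputable def XX (d b t : ℝ) : ℂ :=
  Complex.exp ((b : ℂ) * Complex.I) *
    ((d : ℂ) - (1 - (t : ℂ) * Complex.I) / (1 + (t : ℂ) * Complex.I))

/-- `‖XX d b t‖ < R` if and only if `|t| < tR R d`. -/
noncomputable def tR (R d : ℝ) : ℝ := √((R ^ 2 - (d - 1) ^ 2) / ((d + 1) ^ 2 - R ^ 2))

/-- A ring of `m` unit disks whose arcs cover the circle of radius `R` in cyclic order (indexed by the integers,
periodic with period `m`): each arc meets the next one, no arc is contained in the next or previous one. -/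
structure Ring (R : ℝ) (m : ℕ) where
  d : ℤ → ℝ
  β : ℤ → ℝ
  per_d : ∀ n : ℤ, d (n + m) = d n
  per_β : ∀ n : ℤ, β (n + m) = β n + 2 * π
  lo : ∀ n : ℤ, R - 1 < d n
  hi : ∀ n : ℤ, d n ^ 2 ≤ R ^ 2 - 1
  ov : ∀ n : ℤ, β (n + 1) - β n < fi R (d n ^ 2) + fi R (d (n + 1) ^ 2)
  nn : ∀ n : ℤ, |fi R (d (n + 1) ^ 2) - fi R (d n ^ 2)| < β (n + 1) - β n

/-- The centres of the disks of a ring. -/
noncomputable def Ring.b {R : ℝ} {m : ℕ} (r : Ring R m) (n : ℤ) : ℂ := pt (r.d n) (r.β n)

/-- The half length of the arc number `n`. -/
noncomputable def Ring.p {R : ℝ} {m : ℕ} (r : Ring R m) (n : ℤ) : ℝ := fi R (r.d n ^ 2)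

end Pool.Agent.TD25
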