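import Pool.Agent.TD25.Defs

/-!
# TD25/FDefs: the two functions of the final inequality, and the optimal parameters

`ff R q`: half arc of a disk passing at distance `q` from the origin (centre of norm `1 + q`);
`gg R h = 2 Sf R (1 + h)`. `fp, fpp, gp, gpp`: first and second derivatives.
`Opt R h q`: the parameters of the extremal configuration (three inner disks with centres of norm `h`, directions
`0, 2π/3, 4π/3`, meeting at distance `q` in the directions `π/3, ...`; three boundary disks through these points, six more).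
-/

set_option autoImplicit false

namespace Pool.Agent.TD25

open Real

noncomputable def ff (R q : ℝ) : ℝ := fi R ((1 + q) ^ 2)

noncomputable def gg (R h : ℝ) : ℝ := 2 * fi R (1 + R * (1 + h))

/-- Derivative of `ff R`. -/
noncomputable def fp (R q : ℝ) : ℝ :=
  (R ^ 2 - 1 - (1 + q) ^ 2) / ((1 + q) * √(4 * R ^ 2 * (1 + q) ^ 2 - (R ^ 2 + (1 + q) ^ 2 - 1) ^ 2))

/-- Derivative of `gg R`. -/
noncomputable def gp (R h : ℝ) : ℝ :=
  (R ^ 2 - 2 - R * (1 + h)) / ((1 + R * (1 + h)) * √(4 - (R - 1 - h) ^ 2))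

/-- `W = 4 R^2 d^2 - (R^2 + d^2 - 1)^2` with `d = 1 + q`. -/
noncomputable def WW (R q : ℝ) : ℝ := 4 * R ^ 2 * (1 + q) ^ 2 - (R ^ 2 + (1 + q) ^ 2 - 1) ^ 2

/-- Second derivative of `ff R`. -/
noncomputable def fpp (R q : ℝ) : ℝ :=
  -(WW R q * ((1 + q) ^ 2 + (R ^ 2 - 1)) +
      2 * (1 + q) ^ 2 * (R ^ 2 - 1 - (1 + q) ^ 2) * (R ^ 2 + 1 - (1 + q) ^ 2)) /
    ((1 + q) ^ 2 * (WW R q * √(WW R q)))

/-- Second derivative of `gg R`. -/
noncomputable def gpp (R h : ℝ) : ℝ :=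
  -(R * (1 + R * (1 + h)) * (4 - (R - 1 - h) ^ 2) +
      (R * (R - 1 - h) - 2) * (R * (4 - (R - 1 - h) ^ 2) + (1 + R * (1 + h)) * (R - 1 - h))) /
    ((1 + R * (1 + h)) ^ 2 * ((4 - (R - 1 - h) ^ 2) * √(4 - (R - 1 - h) ^ 2)))

/-- The extremal parameters: `e1`: the inner disks of norm `h` meet at distance `q` in the direction `π/3`; `e2`: the arcs close
up; `e3`: stationarity of `ff R q + gg R h` along `h^2 + q^2 - h q = 1`. -/
structure Opt (R h q : ℝ) : Prop where
  R1 : 2.76929324 ≤ R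
  R2 : R ≤ 2.76929326
  h1 : 0.770 ≤ h
  h2 : h ≤ 0.771
  q1 : 1.1299 ≤ q
  q2 : q ≤ 1.1303
  e1 : h ^ 2 + q ^ 2 - h * q = 1
  e2 : ff R q + gg R h = π / 3
  e3 : fp R q * (2 * h - q) = gp R h * (2 * q - h)

/-- The multiplier. -/
noncomputable def lamO (R h q : ℝ) : ℝ := √3 * h * q * fp R q / (2 * q - h)

end Pool.Agent.TD25
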