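import Pool.Agent.TD25.Tool
import Pool.Agent.TD25.FDefs
import Pool.Agent.TD25.Fi

/-!
# TD25/FPoly: polynomial upper bounds of `ff R` on `[0.85, 1.44]` and of `gg R` on `[0.09, R - 2/R - 1]`

Verified Taylor models; error less than `0.00003`.
-/

set_option autoImplicit false

namespace Pool.Agent.TD25

open Real Pool.Agent.SB19

def exU : Ex := (.add (.mul (.add (.mul (.add (.mul (.add (.mul (.add (.mul (.add (.mul (.add (.mul (.add (.mul (.add (.mul (.add (.mul (.neg (.num 1809849 1000000000)) (.mul (.add .Y (.neg (.num 229 200))) (.num 200 59))) (.num 2596969 1000000000)) (.mul (.add .Y (.neg (.num 229 200))) (.num 200 59))) (.num 1203491 1000000000)) (.mul (.add .Y (.neg (.num 229 200))) (.num 200 59))) (.neg (.num 156967 100000000))) (.mul (.add .Y (.neg (.num 229 200))) (.num 200 59))) (.neg (.num 3006367 1000000000))) (.mul (.add .Y (.neg (.num 229 200))) (.num 200 59))) (.num 1223067 250000000)) (.mul (.add .Y (.neg (.num 229 200))) (.num 200 59))) (.neg (.num 6457299 1000000000))) (.mul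 (.add .Y (.neg (.num 229 200))) (.num 200 59))) (.num 6991037 500000000)) (.mul (.add .Y (.neg (.num 229 200))) (.num 200 59))) (.neg (.num 8430523 200000000))) (.mul (.add .Y (.neg (.num 229 200))) (.num 200 59))) (.num 7567991 100000000)) (.mul (.add .Y (.neg (.num 229 200))) (.num 200 59))) (.num 321922693 1000000000))

def exV : Ex := (.add (.mul (.add (.mul (.add (.mul (.add (.mul (.add (.mul (.add (.mul (.add (.mul (.add (.mul (.add (.mul (.num 125941 500000000) (.mul (.add .X (.neg (.num 11371 20000))) (.num 20000 9571))) (.neg (.num 498753 1000000000))) (.mul (.add .X (.neg (.num 11371 20000))) (.num 20000 9571))) (.num 382979 1000000000)) (.mul (.add .X (.neg (.num 11371 20000))) (.num 20000 9571))) (.neg (.num 109953 125000000))) (.mul (.add .X (.neg (.num 11371 20000))) (.num 20000 9571))) (.num 671773 250000000)) (.mul (.add .X (.neg (.num 11371 20000))) (.num 20000 9571))) (.neg (.num 1671107 250000000))) (.mul (.add .X (.neg (.num 11371 20000))) (.num 20000 9571))) (.num 17560457 1000000000))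 (.mul (.add .X (.neg (.num 11371 20000))) (.num 20000 9571))) (.neg (.num 54621283 1000000000))) (.mul (.add .X (.neg (.num 11371 20000))) (.num 20000 9571))) (.num 74198671 1000000000)) (.mul (.add .X (.neg (.num 11371 20000))) (.num 20000 9571))) (.num 706515959 1000000000))

def exEU : Ex := (.add (.add (.add (.mul .Z .Z) (.neg (.num 1 1))) (.mul (.add (.num 1 1) .Y) (.add (.num 1 1) .Y))) (.neg (.mul (.mul (.mul (.num 2 1) .Z) (.add (.num 1 1) .Y)) (.cos exU))))

def exEV : Ex := (.add (.add (.add (.mul .Z .Z) (.mul (.add (.num 1 1) .X) (.add (.num 1 1) .X))) (.neg (.num 2 1))) (.neg (.mul (.mul (.num 2 1) (.add (.num 1 1) (.mul .Z (.add (.num 1 1) .X)))) (.cos exV))))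

theorem chkU : chk2 [exEU, exU, .add (.num 3 1) (.neg exU)] []
    (.Y (.Y (.Y (.Y (.Y (.Y .L .L) .L) .L) (.Y .L .L)) (.Y .L .L)) (.Y (.Y .L .L) (.Y .L .L)))
    ((0 + 105) * 524288) ((105 - 0) * 524288) ((891289 + 1509950) * 524288) ((1509950 - 891289) * 524288)
    ((2903811 + 2903822) * 524288) ((2903822 - 2903811) * 524288) = true := by
  decide +kernel

theorem chkV : chk2 [exEV, exV, .add (.num 3 1) (.neg exV)] [] (.X (.X (.X .L .L) (.X .L .L)) (.X .L .L))
    ((94371 + 1098384) * 524288) ((1098384 - 94371) * 524288) ((0 + 105) * 524288) ((105 - 0) * 524288)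
    ((2903811 + 2903822) * 524288) ((2903822 - 2903811) * 524288) = true := by
  decide +kernel

theorem okR_of {R : ℝ} (hR1 : 2.76929 ≤ R) (hR2 : R ≤ 2.7693) : OkR R := ⟨by linarith, by linarith⟩

theorem ff_le {R q : ℝ} (hR1 : 2.76929 ≤ R) (hR2 : R ≤ 2.7693) (h1 : 0.85 ≤ q) (h2 : q ≤ 1.44) :
    ff R q ≤ exU.eval 0 q 0 := by
  rcases of_box _ _ _ _ _ _ _ _ _ (by norm_num) (by norm_num) (by norm_num) chkU (x := 0) (y := q) (z := R)
    (by norm_num) (by norm_num) (by norm_num; linarith) (by norm_num; linarith)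
    (by norm_num; linarith) (by norm_num; linarith) with h | h
  · obtain ⟨d, hd, -⟩ := h
    exact absurd hd (by simp)
  · have hE := h exEU (by simp)
    have hU := h exU (by simp)
    have hU3 := h (.add (.num 3 1) (.neg exU)) (by simp)
    have e0 : exU.eval 0 q R = exU.eval 0 q 0 := by simp only [exU, Ex.eval]
    rw [e0] at hU
    have hU3' : exU.eval 0 q 0 ≤ 3 := by
      have e : Ex.eval 0 q R (.add (.num 3 1) (.neg exU)) = 3 - exU.eval 0 q R := by
        simp only [Ex.eval]; push_cast; ring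
      rw [e, e0] at hU3
      linarith
    have hE' : 0 ≤ R ^ 2 - 1 + (1 + q) ^ 2 - 2 * R * (1 + q) * cos (exU.eval 0 q 0) := by
      refine le_trans hE (le_of_eq ?_)
      rw [← e0]
      simp only [exEU, Ex.eval]; push_cast; ring
    unfold ff
    have hq : (0 : ℝ) < 1 + q := by linarith
    refine fi_le_of_cos (okR_of hR1 hR2) (by positivity) (by nlinarith) hU (by linarith [pi_gt_three]) ?_
    rw [sqrt_sq hq.le, le_div_iff₀ (by nlinarith)]
    linarith

theorem gg_le {R h : ℝ} (hR1 : 2.76929 ≤ R) (hR2 : R ≤ 2.7693) (h1 : 0.09 ≤ h) (h2 : R * (1 + h) ≤ R ^ 2 - 2) :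
    gg R h ≤ exV.eval h 0 0 := by
  have h3 : h ≤ 1.0475 := by
    by_contra hc
    rw [not_le] at hc
    nlinarith
  rcases of_box _ _ _ _ _ _ _ _ _ (by norm_num) (by norm_num) (by norm_num) chkV (x := h) (y := 0) (z := R)
    (by norm_num; linarith) (by norm_num; linarith) (by norm_num) (by norm_num)
    (by norm_num; linarith) (by norm_num; linarith) with hh | hh
  · obtain ⟨d, hd, -⟩ := hh
    exact absurd hd (by simp)
  · have hE := hh exEV (by simp)
    have hV := hh exV (by simp)
    have hV3 := hh (.add (.num 3 1) (.neg exV)) (by simp)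
    have e0 : exV.eval h 0 R = exV.eval h 0 0 := by simp only [exV, Ex.eval]
    rw [e0] at hV
    have hV3' : exV.eval h 0 0 ≤ 3 := by
      have e : Ex.eval h 0 R (.add (.num 3 1) (.neg exV)) = 3 - exV.eval h 0 R := by
        simp only [Ex.eval]; push_cast; ring
      rw [e, e0] at hV3
      linarith
    have hE' : 0 ≤ R ^ 2 + (1 + h) ^ 2 - 2 - 2 * (1 + R * (1 + h)) * cos (exV.eval h 0 0) := by
      refine le_trans hE (le_of_eq ?_)
      rw [← e0]
      simp only [exEV, Ex.eval]; push_cast; ring
    set V := exV.eval h 0 0 with hVdef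
    have hM : 0 < 1 + R * (1 + h) := by nlinarith
    have hs : √(1 + R * (1 + h)) * √(1 + R * (1 + h)) = 1 + R * (1 + h) := mul_self_sqrt hM.le
    have hs0 : 0 < √(1 + R * (1 + h)) := sqrt_pos.2 hM
    have hc : cos V = 2 * cos (V / 2) ^ 2 - 1 := by
      rw [← cos_two_mul]; congr 1; ring
    have hc2 : 2 * √(1 + R * (1 + h)) * cos (V / 2) ≤ R + (1 + h) := by
      refine abs_le_of_sq_le_sq' ?_ (by linarith) |>.2
      have : (2 * √(1 + R * (1 + h)) * cos (V / 2)) ^ 2 =
          4 * (√(1 + R * (1 + h)) * √(1 + R * (1 + h))) * cos (V / 2) ^ 2 := by ring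
      rw [this, hs]
      rw [hc] at hE'
      nlinarith
    unfold gg
    have : fi R (1 + R * (1 + h)) ≤ V / 2 := by
      refine fi_le_of_cos (okR_of hR1 hR2) hM (by linarith) (by linarith) (by linarith [pi_gt_three]) ?_
      rw [le_div_iff₀ (by nlinarith [mul_pos (show (0:ℝ) < R by linarith) hs0])]
      have h6 : R ^ 2 - 1 + (1 + R * (1 + h)) = R * (R + (1 + h)) := by ring
      rw [h6]
      nlinarith
    linarith

end Pool.Agent.TD25
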