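import Pool.Agent.TD25.Pair
import Pool.Agent.TD25.Win

/-!
# TD25/Lam: the cusps `P n` of a ring and the arcs `L` between them

`sep`: closed disks of the ring that are not neighbours are disjoint.

Proof. For each `n` let `u n`, `v (n+1)` be the numbers of `pair` for disks `n`, `n + 1` (`r.ov`, `r.nn`), and
`P n = XX (d n) (β n) (u n) = XX (d (n+1)) (β (n+1)) (v (n+1))`. `P (n + m) = P n`: `u` is unique (two values `u < u'`
would contradict the equivalence at `t = (u + u')/2`, as `|t| < tR`), and the data of `n + m` give the same functions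
(`XX_per`, `per_d`, `per_β`, `Ring.per_b`), so `u (n+m) = u n`.
`v n ≤ u n`: otherwise a `t` with `u n < t < v n` (`|t| < tR`) gives a point in the open disks `n + 1` and `n - 1`,
contradiction to `sep (n-1) (n+1)` (`m ≥ 4`: `n + 1 ≤ n - 1 + m - 2`).
`L = XX (d n) (β n) '' Icc (v n) (u n)`: image of an interval under a continuous map (`XX_cont`), preconnected,
contains `P (n-1) = XX (d n) (β n) (v n)` and `P n`. Its points have distance 1 from `b n` and norm `< R` (`XX_lt_iff`), are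
not in disk `n + 1` (`t ≤ u n`), not in disk `n - 1` (`t ≥ v n`), and not in disk `k` for the other residues of `k` modulo
`m` by `sep` (reduce `k` to `n + 2 ≤ k ≤ n + m - 2` by periodicity `r.per_b`; for `k ≡ n` the distance is 1).
-/

set_option autoImplicit false

namespace Pool.Agent.TD25

open Real

theorem lam {R : ℝ} {m : ℕ} (hR : OkR R) (hm : 4 ≤ m) (r : Ring R m)
    (sep : ∀ n k : ℤ, n + 2 ≤ k → k ≤ n + m - 2 → ∀ x : ℂ, ¬ (‖x - r.b n‖ ≤ 1 ∧ ‖x - r.b k‖ ≤ 1)) :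
    ∃ P : ℤ → ℂ,
      (∀ n : ℤ, ‖P n - r.b n‖ = 1 ∧ ‖P n - r.b (n + 1)‖ = 1 ∧ ‖P n‖ < R ∧ P (n + m) = P n) ∧
      ∀ n : ℤ, ∃ L : Set ℂ, IsPreconnected L ∧ P (n - 1) ∈ L ∧ P n ∈ L ∧
        ∀ x ∈ L, ‖x - r.b n‖ = 1 ∧ ‖x‖ < R ∧ ∀ k : ℤ, 1 ≤ ‖x - r.b k‖ := by
  classical
  choose u v hu hv huv hu1 hv1 using fun n : ℤ =>
    pair hR (r.lo n) (r.hi n) (r.lo (n + 1)) (r.hi (n + 1)) (r.ov n) (r.nn n)
  have hb : ∀ n : ℤ, pt (r.d n) (r.β n) = r.b n := fun n => rfl
  have hXX : ∀ n : ℤ, ∀ t : ℝ, XX (r.d (n + m)) (r.β (n + m)) t = XX (r.d n) (r.β n) t := by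
    intro n t
    rw [r.per_d, r.per_β, XX_per]
  have hum : ∀ n : ℤ, u (n + m) = u n := by
    intro n
    have hd : r.d (n + m) = r.d n := r.per_d n
    have key : ∀ t : ℝ, |t| ≤ tR R (r.d n) → (u (n + m) < t ↔ u n < t) := by
      intro t ht
      have e1 := hu1 (n + m) t (by rw [hd]; exact ht)
      have e2 := hu1 n t ht
      rw [hXX, hb, show n + (m : ℤ) + 1 = (n + 1) + m by ring, r.per_b, ← hb (n + 1)] at e1
      exact e1.symm.trans e2
    have h1 := key (u n) (hu n).le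
    have h2 := key (u (n + m)) (by rw [← hd]; exact (hu (n + m)).le)
    rcases lt_trichotomy (u (n + m)) (u n) with h | h | h
    · exact absurd (h1.1 h) (lt_irrefl _)
    · exact h
    · exact absurd (h2.2 h) (lt_irrefl _)
  have hP1 : ∀ n : ℤ, XX (r.d (n - 1)) (r.β (n - 1)) (u (n - 1)) = XX (r.d n) (r.β n) (v (n - 1)) := by
    intro n
    have := huv (n - 1)
    rwa [sub_add_cancel] at this
  refine ⟨fun n => XX (r.d n) (r.β n) (u n), fun n => ⟨?_, ?_, ?_, ?_⟩, ?_⟩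
  · exact XX_sub _ _ _
  · change ‖XX (r.d n) (r.β n) (u n) - r.b (n + 1)‖ = 1
    rw [huv n]
    exact XX_sub _ _ _
  · exact (XX_lt_iff hR (r.lo n) (r.hi n) _ _).2 (hu n)
  · change XX (r.d (n + m)) (r.β (n + m)) (u (n + m)) = XX (r.d n) (r.β n) (u n)
    rw [hXX, hum]
  intro n
  have hvn : |v (n - 1)| < tR R (r.d n) := by
    have := hv (n - 1)
    rwa [sub_add_cancel] at this
  have hv2 : ∀ t : ℝ, |t| ≤ tR R (r.d n) → (‖XX (r.d n) (r.β n) t - r.b (n - 1)‖ < 1 ↔ t < v (n - 1)) := by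
    have := hv1 (n - 1)
    rw [sub_add_cancel] at this
    exact this
  have hvu : v (n - 1) ≤ u n := by
    by_contra hlt
    push Not at hlt
    obtain ⟨a1, a2⟩ := abs_lt.1 hvn
    obtain ⟨a3, a4⟩ := abs_lt.1 (hu n)
    have ht : |(u n + v (n - 1)) / 2| ≤ tR R (r.d n) := by
      rw [abs_le]
      constructor <;> linarith
    have c1 := (hu1 n _ ht).2 (by linarith)
    have c2 := (hv2 _ ht).2 (by linarith)
    refine sep (n - 1) (n + 1) (by omega) (by omega) _ ⟨c2.le, ?_⟩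
    exact c1.le
  refine ⟨XX (r.d n) (r.β n) '' Set.Icc (v (n - 1)) (u n), ?_, ?_, ?_, ?_⟩
  · exact isPreconnected_Icc.image _ (XX_cont _ _).continuousOn
  · exact ⟨v (n - 1), ⟨le_refl _, hvu⟩, (hP1 n).symm⟩
  · exact ⟨u n, ⟨hvu, le_refl _⟩, rfl⟩
  rintro x ⟨t, ⟨ht1, ht2⟩, rfl⟩
  obtain ⟨a1, a2⟩ := abs_lt.1 hvn
  obtain ⟨a3, a4⟩ := abs_lt.1 (hu n)
  have ht : |t| < tR R (r.d n) := by
    rw [abs_lt]
    constructor <;> linarith
  have hn1 : ‖XX (r.d n) (r.β n) t - r.b n‖ = 1 := XX_sub _ _ _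
  refine ⟨hn1, (XX_lt_iff hR (r.lo n) (r.hi n) _ _).2 ht, ?_⟩
  intro k
  have hper : Function.Periodic r.b (m : ℤ) := fun x => r.per_b x
  have hmz : (0 : ℤ) < m := by omega
  have hj : r.b k = r.b (n + (k - n) % m) := by
    have e := (hper.int_mul ((k - n) / m)) (n + (k - n) % m)
    rw [← e]
    congr 1
    have := Int.emod_add_mul_ediv (k - n) m
    rw [Int.cast_id]
    linarith
  have hj0 := Int.emod_nonneg (k - n) hmz.ne'
  have hj1 := Int.emod_lt_of_pos (k - n) hmz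
  rw [hj]
  generalize (k - n) % (m : ℤ) = j at hj0 hj1
  rcases eq_or_ne j 0 with rfl | h0
  · rw [add_zero, hn1]
  rcases eq_or_ne j 1 with rfl | h1
  · have := (hu1 n t ht.le).not.2 (not_lt.2 ht2)
    exact not_lt.1 this
  rcases eq_or_ne j (m - 1) with rfl | h2
  · have := (hv2 t ht.le).not.2 (not_lt.2 ht1)
    rw [show n + ((m : ℤ) - 1) = (n - 1) + m by ring, r.per_b]
    exact not_lt.1 this
  · by_contra hlt
    push Not at hlt
    exact sep n (n + j) (by omega) (by omega) _ ⟨hn1.le, hlt.le⟩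

end Pool.Agent.TD25
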