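import Pool.Agent.TD25.Fi

/-!
# TD25/NumS: linear bound for `Sf R κ` (true margin at least 0.00099)

Proof. Let `D = 1 + R κ`. If `D ≥ R^2 - 1` then `Sf = phm < 0.3695` and `κ ≥ R - 2/R > 2.04`, the right side is `> 0.45`.
Otherwise `cos (Sf R κ) = (R + κ) / (2 √(1 + R κ))` (`cos_fi`; `(R-1)^2 ≤ 1 + R κ` iff `κ ≥ R - 2`). Put `t = Sf R κ`, `t0 = 0.316`:
`cos_tangent`: `cos t ≤ cos t0 - sin t0 (t - t0)`. If `t > 0.3177 + 0.18 (κ - 1.27)` this gives
`(R + κ) / (2 √(1 + Rκ)) < cos t0 - sin t0 (0.0017 + 0.18 (κ - 1.27)) =: ℓ` (`cos t0 = 0.95048...`, `sin t0 = 0.31077...`), `ℓ > 0`,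
so `(R + κ)^2 < 4 (1 + R κ) ℓ^2`, false: a cubic polynomial inequality in `κ ∈ [R - 2, 2.05]`, `R ∈ [2.7692, 2.7694]` (for
numbers: put `κ = 1.27 + x`; at `x = 0` both sides are 16.31 and 16.29...; use rational bounds for `cos t0`, `sin t0`,
then `nlinarith` or a subdivision of the range of `κ` into a few cells with the Taylor form of the cubic at the centre).
-/

set_option autoImplicit false

namespace Pool.Agent.TD25

open Real

theorem cs316 : cos 0.316 ≤ 0.95051 ∧ 0.3106 ≤ sin 0.316 ∧ sin 0.316 ≤ 0.3109 := by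
  have h1 := abs_le.1 (Real.sin_bound (x := 0.158) (by rw [abs_of_pos] <;> norm_num))
  have h2 := abs_le.1 (Real.cos_bound (x := 0.158) (by rw [abs_of_pos] <;> norm_num))
  rw [abs_of_pos (by norm_num : (0 : ℝ) < 0.158)] at h1 h2
  have s1 : 0.15731 ≤ sin 0.158 := by
    have := h1.1
    norm_num at this ⊢
    linarith
  have s2 : sin 0.158 ≤ 0.157376 := by
    have := h1.2
    norm_num at this ⊢
    linarith
  have c1 : 0.987485 ≤ cos 0.158 := by
    have := h2.1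
    norm_num at this ⊢
    linarith
  have c2 : cos 0.158 ≤ 0.987551 := by
    have := h2.2
    norm_num at this ⊢
    linarith
  have e1 : cos 0.316 = 1 - 2 * sin 0.158 ^ 2 := by
    rw [show (0.316 : ℝ) = 2 * 0.158 by norm_num, Real.cos_two_mul]
    have := Real.sin_sq_add_cos_sq 0.158
    linarith
  have e2 : sin 0.316 = 2 * sin 0.158 * cos 0.158 := by
    rw [show (0.316 : ℝ) = 2 * 0.158 by norm_num, Real.sin_two_mul]
  refine ⟨?_, ?_, ?_⟩
  · rw [e1]
    nlinarith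
  · rw [e2]
    have : 0.15731 * 0.987485 ≤ sin 0.158 * cos 0.158 :=
      mul_le_mul s1 c1 (by norm_num) (by linarith)
    norm_num at this ⊢
    linarith
  · rw [e2]
    have : sin 0.158 * cos 0.158 ≤ 0.157376 * 0.987551 :=
      mul_le_mul s2 c2 (by linarith) (by norm_num)
    norm_num at this ⊢
    linarith

/-- The polynomial inequality. -/
theorem numS_poly {R κ l : ℝ} (hR : OkR R) (h0 : R - 2 ≤ κ) (h1 : κ ≤ 2.05) (hl0 : 0 ≤ l)
    (hl : l ≤ 0.95051 - 0.3106 * (0.0017 + 0.18 * (κ - 1.27)) ∨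
      (κ ≤ 1.2606 ∧ l ≤ 0.95051 - 0.3109 * (0.0017 + 0.18 * (κ - 1.27)))) :
    4 * (1 + R * κ) * l ^ 2 ≤ (R + κ) ^ 2 := by
  obtain ⟨r1, r2⟩ := hR
  have hκ0 : 0.7692 ≤ κ := by norm_num at r1 h0 ⊢; linarith
  have hl1 : l ≤ 1 := by
    norm_num at hl h1 hκ0 ⊢
    rcases hl with hl | ⟨-, hl⟩ <;> linarith
  have hl2 : l ^ 2 ≤ 1 := by nlinarith
  have hmono : 4 * (1 + 2.7692 * κ) * l ^ 2 ≤ (2.7692 + κ) ^ 2 → 4 * (1 + R * κ) * l ^ 2 ≤ (R + κ) ^ 2 := by
    intro h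
    have h2 : 0 ≤ (R - 2.7692) * (R + 2.7692 + 2 * κ - 4 * κ * l ^ 2) := by
      apply mul_nonneg
      · linarith
      · have : κ * l ^ 2 ≤ κ := by nlinarith
        norm_num at h1 r1 ⊢
        linarith
    nlinarith
  apply hmono
  obtain ⟨x, hx⟩ : ∃ x, x = κ - 1.27 := ⟨_, rfl⟩
  have hk : κ = 1.27 + x := by rw [hx]; ring
  subst hk
  norm_num at hκ0 h1
  have x1 : -0.5008 ≤ x := by norm_num; linarith
  have x2 : x ≤ 0.78 := by norm_num; linarith
  rcases hl with hl | ⟨h3, hl⟩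
  · have hb : l ≤ 0.95051 - 0.3106 * (0.0017 + 0.18 * x) := by norm_num at hl ⊢; linarith
    have hsq : l ^ 2 ≤ (0.95051 - 0.3106 * (0.0017 + 0.18 * x)) ^ 2 := pow_le_pow_left₀ hl0 hb 2
    have hpos : 0 ≤ 4 * (1 + 2.7692 * (1.27 + x)) := by norm_num at x1 ⊢; linarith
    refine (mul_le_mul_of_nonneg_left hsq hpos).trans ?_
    have hx2 : 0 ≤ x ^ 2 * (0.79 - x) := mul_nonneg (sq_nonneg x) (by norm_num at x2 ⊢; linarith)
    norm_num at x1 x2 hx2 ⊢
    nlinarith [sq_nonneg x, hx2]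
  · have hb : l ≤ 0.95051 - 0.3109 * (0.0017 + 0.18 * x) := by norm_num at hl ⊢; linarith
    have hsq : l ^ 2 ≤ (0.95051 - 0.3109 * (0.0017 + 0.18 * x)) ^ 2 := pow_le_pow_left₀ hl0 hb 2
    have hpos : 0 ≤ 4 * (1 + 2.7692 * (1.27 + x)) := by norm_num at x1 ⊢; linarith
    refine (mul_le_mul_of_nonneg_left hsq hpos).trans ?_
    have hx2 : 0 ≤ x ^ 2 * (0.79 - x) := mul_nonneg (sq_nonneg x) (by norm_num at x2 ⊢; linarith)
    norm_num at x1 x2 hx2 ⊢
    nlinarith [sq_nonneg x, hx2]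

theorem numS {R κ : ℝ} (hR : OkR R) (h0 : R - 2 ≤ κ) (h1 : κ ≤ R) : Sf R κ ≤ 0.3177 + 0.18 * (κ - 1.27) := by
  obtain ⟨r1, r2⟩ := id hR
  have hκ0 : 0.7692 ≤ κ := by norm_num at r1 h0 ⊢; linarith
  have hκpos : 0 < κ := by norm_num at hκ0; linarith
  have hR0 : 0 < R := by linarith
  rcases le_or_gt (R ^ 2 - 1) (1 + R * κ) with hc | hc
  · have h2 : Sf R κ = phm R := fi_top hR hc
    have h3 := phm_hi hR
    have h4 : 2.04 ≤ κ := by
      by_contra hcon
      push Not at hcon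
      norm_num at hcon r1 r2
      nlinarith
    rw [h2]
    norm_num at h3 h4 ⊢
    linarith
  · have h4 : κ ≤ 2.05 := by
      by_contra hcon
      push Not at hcon
      norm_num at hcon r1 r2
      nlinarith
    have hD0 : (0 : ℝ) < 1 + R * κ := by positivity
    have hs0 : 0 < √(1 + R * κ) := Real.sqrt_pos.2 hD0
    have hsq : √(1 + R * κ) ^ 2 = 1 + R * κ := Real.sq_sqrt hD0.le
    have hpi := Real.pi_gt_three
    have ht0 : 0 ≤ 0.3177 + 0.18 * (κ - 1.27) := by norm_num at hκ0 ⊢; linarith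
    have ht1 : 0.3177 + 0.18 * (κ - 1.27) ≤ π / 2 := by norm_num at h4 ⊢; linarith
    unfold Sf
    apply fi_le_of_cos hR hD0 hc.le ht0 (by linarith)
    have e1 : (R ^ 2 - 1 + (1 + R * κ)) / (2 * R * √(1 + R * κ)) = (R + κ) / (2 * √(1 + R * κ)) := by
      field_simp
      ring
    rw [e1]
    obtain ⟨c1, c2, c3⟩ := cs316
    have T := cos_tangent ht0 ht1 (t0 := 0.316) (by norm_num) (by norm_num at hpi ⊢; linarith)
    have hcpos : 0 ≤ cos (0.3177 + 0.18 * (κ - 1.27)) :=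
      Real.cos_nonneg_of_mem_Icc ⟨by linarith, ht1⟩
    have hp := numS_poly hR h0 h4 hcpos (by
      rcases le_total 0.316 (0.3177 + 0.18 * (κ - 1.27)) with hh | hh
      · left
        have : 0.3106 * (0.3177 + 0.18 * (κ - 1.27) - 0.316) ≤
            sin 0.316 * (0.3177 + 0.18 * (κ - 1.27) - 0.316) :=
          mul_le_mul_of_nonneg_right c2 (by linarith)
        norm_num at this T c1 ⊢
        linarith
      · right
        refine ⟨by norm_num at hh ⊢; linarith, ?_⟩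
        have : 0.3109 * (0.3177 + 0.18 * (κ - 1.27) - 0.316) ≤
            sin 0.316 * (0.3177 + 0.18 * (κ - 1.27) - 0.316) :=
          mul_le_mul_of_nonpos_right c3 (by linarith)
        norm_num at this T c1 ⊢
        linarith)
    rw [le_div_iff₀ (by positivity)]
    apply le_of_sq_le_sq _ (by positivity)
    calc (cos (0.3177 + 0.18 * (κ - 1.27)) * (2 * √(1 + R * κ))) ^ 2
        = 4 * (1 + R * κ) * cos (0.3177 + 0.18 * (κ - 1.27)) ^ 2 := by rw [mul_pow, mul_pow, hsq]; ring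
      _ ≤ (R + κ) ^ 2 := hp

end Pool.Agent.TD25
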