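import Pool.Agent.TD25.Fi
import Pool.Agent.SB19.Check2

/-!
# TD25/NumT: `fi R (d^2) + ang κ d ≤ 0.74 + 0.314 (κ - 1.27)` (true margin at least 0.018)

Let `T = 0.74 + 0.314 (κ - 1.27)` (between 0.582 and 1.212), `c = (R^2 + d^2 - 1)/(2 R d) = cos (fi R (d^2))`,
`u = (κ^2 + d^2 - 1)/(2 κ d) = cos (ang κ d)`. Since `fi ≤ 0.3695 ≤ T`, the claim `ang ≤ T - fi` follows from
`u ≥ cos (T - fi) = c cos T + √(1 - c^2) sin T`, i.e. from `u ≥ c cos T` and `(u - c cos T)^2 ≥ (1 - c^2) (sin T)^2`, i.e. from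
`u ≥ c cos T` and `G := c^2 + u^2 + (cos T)^2 - 2 c u cos T - 1 ≥ 0`. With `A = κ (R^2 + d^2 - 1)`, `B = R (κ^2 + d^2 - 1)`
this is `B ≥ A cos T` and `A^2 + B^2 - 2 A B cos T ≥ 4 (κ d R sin T)^2`, checked on
`κ ∈ [0.7692, 2.7694]`, `d ∈ [1.7692, 2.5826]`, `R ∈ [2.7692, 2.7694]` by the verified Taylor models `Pool.Agent.SB19.Check2`.
-/

set_option autoImplicit false

namespace Pool.Agent.TD25

open Real

namespace NumTC

open Pool.Agent.SB19 (Ex Tr2 chk2 of_chk2)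

/-- `T` -/
def eT : Ex := .add (.num 34122 100000) (.mul (.num 314 1000) .X)
/-- The square. -/
def eS (e : Ex) : Ex := .mul e e
/-- `κ (R^2 + d^2 - 1)` -/
def eA : Ex := .mul .X (.add (.add (eS .Z) (eS .Y)) (.neg (.num 1 1)))
/-- `R (κ^2 + d^2 - 1)` -/
def eB : Ex := .mul .Z (.add (.add (eS .X) (eS .Y)) (.neg (.num 1 1)))
/-- `B - A cos T` -/
def eP : Ex := .add eB (.neg (.mul eA (.cos eT)))
/-- `A^2 + B^2 - (2 A B cos T + 4 (κ d R sin T)^2)` -/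
def eQ : Ex := .add (.add (eS eA) (eS eB))
  (.neg (.add (.nmul 2 (.mul (.mul eA eB) (.cos eT))) (.nmul 4 (eS (.mul (.mul (.mul .X .Y) .Z) (.sin eT))))))

/-- The subdivision. -/
def tree : Tr2 := (.X (.Y (.X (.Y (.X (.Y (.X .L .L) (.X .L .L)) (.Y (.X .L (.Y .L .L)) (.X (.Y .L .L) (.Y .L .L))))
  (.X (.Y .L .L) (.Y (.X .L (.Y .L .L)) .L))) (.X (.Y (.X (.Y (.Y .L .L) .L) (.Y .L .L)) (.Y (.X .L .L) .L))
  (.X (.Y (.Y .L .L) .L) (.Y .L .L)))) (.X (.Y (.X .L .L) .L) (.Y (.X .L .L) .L)))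
  (.X (.X (.Y (.X .L .L) (.Y .L .L)) (.Y .L .L)) (.X .L .L)))

theorem chk_ok : chk2 [eP, eQ] [] tree ((806564 + 2903927) * 524288) ((2903927 - 806564) * 524288)
    ((1855140 + 2708053) * 524288) ((2708053 - 1855140) * 524288)
    ((2903716 + 2903927) * 524288) ((2903927 - 2903716) * 524288) = true := by
  decide +kernel

theorem poly {R κ d : ℝ} (hR : 2.7692 ≤ R ∧ R ≤ 2.7694) (hd : 1.7692 ≤ d ∧ d ≤ 2.5826)
    (hκ : 0.7692 ≤ κ ∧ κ ≤ 2.7694) :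
    κ * (R ^ 2 + d ^ 2 - 1) * cos (0.74 + 0.314 * (κ - 1.27)) ≤ R * (κ ^ 2 + d ^ 2 - 1) ∧
    2 * (κ * (R ^ 2 + d ^ 2 - 1) * (R * (κ ^ 2 + d ^ 2 - 1)) * cos (0.74 + 0.314 * (κ - 1.27))) +
      4 * (κ * d * R * sin (0.74 + 0.314 * (κ - 1.27))) ^ 2 ≤
      (κ * (R ^ 2 + d ^ 2 - 1)) ^ 2 + (R * (κ ^ 2 + d ^ 2 - 1)) ^ 2 := by
  have h := of_chk2 [eP, eQ] [] tree 806564 2903927 1855140 2708053 2903716 2903927 chk_ok κ d R
    ⟨by norm_num; linarith [hκ.1], by norm_num; linarith [hκ.2]⟩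
    ⟨by norm_num; linarith [hd.1], by norm_num; linarith [hd.2]⟩
    ⟨by norm_num; linarith [hR.1], by norm_num; linarith [hR.2]⟩
  rcases h with ⟨q, hq, -⟩ | h
  · exact absurd hq (by simp)
  · have h1 := h eP (by simp)
    have h2 := h eQ (by simp)
    simp only [eP, eQ, eA, eB, eS, eT, Ex.eval] at h1 h2
    have e : ((34122 : ℕ) : ℝ) / ((100000 : ℕ) : ℝ) + ((314 : ℕ) : ℝ) / ((1000 : ℕ) : ℝ) * κ =
        0.74 + 0.314 * (κ - 1.27) := by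
      norm_num
      ring
    rw [e] at h1 h2
    norm_num at h1 h2 ⊢
    constructor
    · nlinarith [h1]
    · nlinarith [h2]

end NumTC

theorem numT {R κ d : ℝ} (hR : OkR R) (h1 : R - 1 ≤ d) (h2 : d ^ 2 ≤ R ^ 2 - 1) (h3 : d - 1 ≤ κ) (h4 : κ ≤ d + 1)
    (h5 : κ ≤ R) : fi R (d ^ 2) + ang κ d ≤ 0.74 + 0.314 * (κ - 1.27) := by
  obtain ⟨hR1, hR2⟩ := hR
  have hd0 : 1.7692 ≤ d := by linarith
  have hd1 : d ≤ 2.5826 := by nlinarith
  have hκ0 : 0.7692 ≤ κ := by linarith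
  have hκ1 : κ ≤ 2.7694 := by linarith
  obtain ⟨p1, p2⟩ := NumTC.poly ⟨hR1, hR2⟩ ⟨hd0, hd1⟩ ⟨hκ0, hκ1⟩
  set T : ℝ := 0.74 + 0.314 * (κ - 1.27) with hT
  have hRp : 0 < R := by linarith
  have hdp : 0 < d := by linarith
  have hκp : 0 < κ := by linarith
  set p : ℝ := fi R (d ^ 2) with hp
  have hp0 : 0 ≤ p := fi_nonneg _ _
  have hp1 : p < 0.3695 := lt_of_le_of_lt (fi_le ⟨hR1, hR2⟩ (by positivity)) (phm_hi ⟨hR1, hR2⟩)
  have hcp : cos p = (R ^ 2 - 1 + d ^ 2) / (2 * R * d) := by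
    rw [hp, cos_fi ⟨hR1, hR2⟩ (by nlinarith) h2, Real.sqrt_sq hdp.le]
  have hT0 : 0.58 ≤ T := by rw [hT]; linarith
  have hT1 : T ≤ 1.3 := by rw [hT]; linarith
  have hpi := Real.pi_gt_three
  suffices h : ang κ d ≤ T - p by linarith
  refine ang_le_of_cos (by linarith) (by linarith) ?_
  rw [Real.cos_sub]
  have hsp : 0 ≤ sin p := Real.sin_nonneg_of_nonneg_of_le_pi hp0 (by linarith)
  have hsT : 0 ≤ sin T := Real.sin_nonneg_of_nonneg_of_le_pi (by linarith) (by linarith)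
  have hsq := Real.sin_sq_add_cos_sq p
  have hsq' := Real.sin_sq_add_cos_sq T
  rw [le_div_iff₀ (by positivity)]
  have e1 : cos p * (2 * R * d) = R ^ 2 + d ^ 2 - 1 := by
    rw [hcp]
    field_simp
    ring
  -- `A = κ cos p (2 R d)`
  have e2 : κ * (R ^ 2 + d ^ 2 - 1) = 2 * R * d * κ * cos p := by
    rw [← e1]; ring
  rw [e2] at p1 p2
  set B : ℝ := R * (κ ^ 2 + d ^ 2 - 1) with hB
  set M : ℝ := 2 * R * d * κ with hM
  have hMp : 0 < M := by positivity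
  have q1 : 0 ≤ B - M * cos p * cos T := by linarith
  have q2 : (M * (sin T * sin p)) ^ 2 ≤ (B - M * cos p * cos T) ^ 2 := by
    have e3 : 4 * (κ * d * R * sin T) ^ 2 = M ^ 2 * sin T ^ 2 := by rw [hM]; ring
    rw [e3] at p2
    have e4 : (M * (sin T * sin p)) ^ 2 = M ^ 2 * sin T ^ 2 - M ^ 2 * sin T ^ 2 * cos p ^ 2 := by
      have : sin p ^ 2 = 1 - cos p ^ 2 := by linarith
      calc (M * (sin T * sin p)) ^ 2 = M ^ 2 * sin T ^ 2 * sin p ^ 2 := by ring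
        _ = _ := by rw [this]; ring
    have e5 : (B - M * cos p * cos T) ^ 2 = B ^ 2 - 2 * (M * cos p * B * cos T) +
        M ^ 2 * cos p ^ 2 - M ^ 2 * sin T ^ 2 * cos p ^ 2 := by
      have : cos T ^ 2 = 1 - sin T ^ 2 := by linarith
      calc (B - M * cos p * cos T) ^ 2 = B ^ 2 - 2 * (M * cos p * B * cos T) +
            M ^ 2 * cos p ^ 2 * cos T ^ 2 := by ring
        _ = _ := by rw [this]; ring
    rw [e4, e5]
    have e6 : (M * cos p) ^ 2 = M ^ 2 * cos p ^ 2 := by ring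
    rw [e6] at p2
    linarith
  have q3 : M * (sin T * sin p) ≤ B - M * cos p * cos T := by
    have := abs_le_of_sq_le_sq' q2 q1
    exact this.2
  have q4 : R * ((cos T * cos p + sin T * sin p) * (2 * κ * d)) ≤ R * (κ ^ 2 + d ^ 2 - 1) := by
    calc R * ((cos T * cos p + sin T * sin p) * (2 * κ * d)) = M * cos p * cos T +
          M * (sin T * sin p) := by rw [hM]; ring
      _ ≤ B := by linarith
  exact le_of_mul_le_mul_left q4 hRp

end Pool.Agent.TD25
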