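import Pool.Agent.TD25.Cusp
import Pool.Agent.TD25.Sep9
import Pool.Agent.TD25.NumS
import Pool.Agent.TD25.NumT

/-!
# TD25/LemK: two cusps at ring distance 3 or 4 (ring of nine) are not in one unit disk

Setting: `c = a + 3` or `c = a + 4`; `Pa` is a cusp of disks `a`, `a+1`; `Pc` a cusp of disks `c`, `c+1`. Suppose both are
in the open unit disk with centre `A`; then `‖Pa - Pc‖ < 2`. Write `κa = ‖Pa‖`, `κc = ‖Pc‖`, `km = (κa + κc)/2`,
`φ n = r.p n`, `phm < 0.3695`.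
(1) Lifts `ta`, `tc` of the directions (`cusp`), `Z = tc - ta`. Let `T = φ a + (β (c+1) - β a) + φ (c+1)`. `win_lo` with
`n = a`, `k = c + 1`: `T > 2π - 2 phm (a + 8 - (c + 1))`, i.e. `T > 2π - 8 phm` (`c = a + 3`), `T > 2π - 6 phm` (`c = a + 4`).
`Z ≥ β (c+1) - ang κc (d (c+1)) - β a - ang κa (d a) = T - (φ (c+1) + ang κc (d (c+1))) - (φ a + ang κa (d a))`. (*)
With `φ + ang ≤ φ + arcsin (1/d) ≤ 0.83` (`ep`): `Z ≥ T - 1.66 > 0`.
Upper bound: `Z ≤ β c + ang κc (d c) - β (a+1) + ang κa (d (a+1))`, and `win_lo` for `n = c`, `k = a + 10`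
(`c < a + 10 < c + 9`): `2π - 2 phm (c + 8 - (a + 10)) < (β (a+10) - β c) + φ c + φ (a + 10)`, `β (a+10) = β (a+1) + 2π`, so
`β c - β (a+1) < φ c + φ (a+1) + 2 phm (c - a - 2)` and `Z < 1.66 + 4 phm < π` (`4 * 0.3695 + 1.66 = 3.138`). So `0 < Z < π`.
(2) `sub_ge`: `(κa + κc) sin (Z/2) ≤ ‖Pa - Pc‖ < 2`, i.e. `km sin (Z/2) < 1`.
(3) Case `km ≤ 1.27`. `cusp_S`: `φ a + g a + φ (a+1) ≤ 4 Sf R κa`, `φ c + g c + φ (c+1) ≤ 4 Sf R κc` (`g n = β (n+1) - β n`);
the gaps in between: `g j < φ j + φ (j+1)` for `a + 1 ≤ j ≤ c - 1`. Sum: `T ≤ 4 Sf R κa + 4 Sf R κc + 2 phm (c - a - 2)`.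
`numS`: `4 (Sf κa + Sf κc) ≤ 8 * 0.3177 + 0.72 (κa + κc - 2.54) ≤ 2.5416`. So `T ≤ 2.5416 + 0.739 = 3.2806` for `c = a + 3`,
but `T > 2π - 8 * 0.3695 = 3.327`; for `c = a + 4`: `T ≤ 4.0196 < 4.066 < T`. Contradiction.
(4) Case `km > 1.27`. `sin (Z/2) < 1/km`. From (*) and `numT`: `T ≤ Z + 2 * 0.74 + 0.314 (κa + κc - 2.54) =
Z + 1.48 + 0.628 (km - 1.27)`, and from `ep`: `T ≤ Z + 1.66`. `Z/2 ∈ (0, π/2)`, so `Z/2 < arcsin (1/km)`.
 - `1.27 < km ≤ 1.3`: `Z < 2 * 0.9067 `(`sin 0.9067 > 1/1.27`), `T < 1.8134 + 1.4989 = 3.3123`.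
 - `1.3 ≤ km ≤ 1.35`: `Z < 2 * 0.8777` (`sin 0.8777 > 1/1.3`), `T < 1.7554 + 1.5303 = 3.2857`.
 - `1.35 ≤ km ≤ 1.5`: `Z < 2 * 0.8345` (`sin 0.8345 > 1/1.35`), `T < 1.669 + 1.6245 = 3.2935`.
 - `km ≥ 1.5`: `Z < 2 * 0.73` (`sin 0.73 > 1/1.5`), `T < 1.46 + 1.66 = 3.12`.
In all cases `T < 3.327 < 2π - 8 phm < T`: contradiction (also for `c = a + 4`, where `T > 4.06`).
-/

set_option autoImplicit false

namespace Pool.Agent.TD25

open Real

namespace LemKC

open Pool.Agent.SB19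

theorem sin_ge_of_chk (p q : ℕ)
    (h : chk (.add (.sin (.num p 10000)) (.neg (.num q 10000))) .L 0 0 0 0 0 0 = true) :
    (q : ℝ) / 10000 ≤ Real.sin ((p : ℝ) / 10000) := by
  have h1 := nonneg_of_chk _ _ _ _ _ _ _ _ h 0 0 0 le_rfl le_rfl le_rfl (by simp) (by simp) (by simp)
  simp only [Ex.eval] at h1
  push_cast at h1
  linarith

theorem s1 : 0.7904 ≤ sin 0.913 := by
  have := sin_ge_of_chk 9130 7904 (by decide +kernel)
  norm_num at this ⊢
  exact this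

theorem s2 : 0.7705 ≤ sin 0.881 := by
  have := sin_ge_of_chk 8810 7705 (by decide +kernel)
  norm_num at this ⊢
  exact this

theorem s3 : 0.7435 ≤ sin 0.84 := by
  have := sin_ge_of_chk 8400 7435 (by decide +kernel)
  norm_num at this ⊢
  exact this

theorem s4 : 0.67 ≤ sin 0.74 := by
  have := sin_ge_of_chk 7400 6700 (by decide +kernel)
  norm_num at this ⊢
  exact this

/-- From the chord bound to a bound for the angle. -/
theorem z_lt {K Z x q k0 : ℝ} (hK : k0 ≤ K) (hk0 : 0 < k0) (hZ0 : 0 ≤ Z) (hZ1 : Z ≤ π)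
    (h : K * sin (Z / 2) < 2) (hx0 : 0 ≤ x) (_hx1 : x ≤ π / 2) (hs : q ≤ sin x) (hq : 2 ≤ k0 * q) :
    Z < 2 * x := by
  by_contra hcon
  push Not at hcon
  have h1 : sin x ≤ sin (Z / 2) :=
    Real.sin_le_sin_of_le_of_le_pi_div_two (by linarith) (by linarith) (by linarith)
  have h2 : 0 ≤ sin (Z / 2) := Real.sin_nonneg_of_nonneg_of_le_pi (by linarith) (by linarith)
  have h3 : k0 * q ≤ k0 * sin (Z / 2) := mul_le_mul_of_nonneg_left (hs.trans h1) hk0.le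
  have h4 : k0 * sin (Z / 2) ≤ K * sin (Z / 2) := mul_le_mul_of_nonneg_right hK h2
  linarith

end LemKC

open LemKC

theorem lemK {R : ℝ} (hR : OkR R) (r : Ring R 9) (a c : ℤ) (hc : c = a + 3 ∨ c = a + 4) (Pa Pc A : ℂ)
    (ha : ‖Pa - r.b a‖ = 1) (ha' : ‖Pa - r.b (a + 1)‖ = 1) (hc1 : ‖Pc - r.b c‖ = 1) (hc2 : ‖Pc - r.b (c + 1)‖ = 1)
    (hPa : ‖Pa‖ < R) (hPc : ‖Pc‖ < R) : ¬ (‖Pa - A‖ < 1 ∧ ‖Pc - A‖ < 1) := by
  rintro ⟨hA, hC⟩
  obtain ⟨r1, r2⟩ := id hR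
  have hdist : ‖Pa - Pc‖ < 2 := by
    have h1 : Pa - Pc = (Pa - A) - (Pc - A) := by ring
    rw [h1]
    have := norm_sub_le (Pa - A) (Pc - A)
    linarith
  obtain ⟨ta, eta, t1, t2, -, t4⟩ := cusp hR r a Pa ha ha'
  obtain ⟨tc, etc, u1, u2, u3, -⟩ := cusp hR r c Pc hc1 hc2
  have hph := phm_hi hR
  have hpi := Real.pi_gt_d4
  have E : ∀ n : ℤ, arcsin (1 / r.d n) + r.p n ≤ 0.83 := fun n => ep hR (r.lo n).le (r.hi n)
  have hpn : ∀ n : ℤ, r.p n ≤ phm R := fun n => r.p_le hR n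
  have hphm : 0 < phm R := lt_of_lt_of_le (r.p_pos hR a) (hpn a)
  have na := cusp_norm hR r a Pa ha.le
  have na' := cusp_norm hR r (a + 1) Pa ha'.le
  have nc := cusp_norm hR r c Pc hc1.le
  have nc' := cusp_norm hR r (c + 1) Pc hc2.le
  have Na := norm_pos_of_ball (d := r.d a) (b := r.β a) (x := Pa) (by linarith [r.d_pos hR a]) ha.le
  have Nc := norm_pos_of_ball (d := r.d (c + 1)) (b := r.β (c + 1)) (x := Pc)
    (by linarith [r.d_pos hR (c + 1)]) hc2.le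
  -- the windows
  have hac : a < c + 1 := by omega
  have hac' : c + 1 < a + (9 : ℕ) := by push_cast; omega
  have w1 := r.win_lo hR hac hac'
  have hca : c < a + 10 := by omega
  have hca' : a + 10 < c + (9 : ℕ) := by push_cast; omega
  have w2 := r.win_lo hR hca hca'
  have e10 : a + 10 = (a + 1) + ((9 : ℕ) : ℤ) := by push_cast; ring
  have eβ : r.β (a + 10) = r.β (a + 1) + 2 * π := by
    rw [e10]
    exact r.per_β (a + 1)
  have eP : r.p (a + 10) = r.p (a + 1) := by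
    rw [e10]
    exact r.per_p (a + 1)
  rw [eβ, eP] at w2
  have w3 := r.win_hi hR (n := a + 1) (k := c) (by omega)
  push_cast at w1 w2 w3
  -- the angle
  have l1 := abs_le.1 t1.le
  have l2 := abs_le.1 t2.le
  have l3 := abs_le.1 u1.le
  have l4 := abs_le.1 u2.le
  have v1 : ang ‖Pa‖ (r.d a) + r.p a ≤ 0.83 := by
    obtain ⟨_, _, _, _, t3, _⟩ := cusp hR r a Pa ha ha'
    linarith [E a]
  have v2 : ang ‖Pa‖ (r.d (a + 1)) + r.p (a + 1) ≤ 0.83 := by linarith [E (a + 1)]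
  have v3 : ang ‖Pc‖ (r.d c) + r.p c ≤ 0.83 := by linarith [E c]
  have v4 : ang ‖Pc‖ (r.d (c + 1)) + r.p (c + 1) ≤ 0.83 := by
    obtain ⟨_, _, _, _, _, u4⟩ := cusp hR r c Pc hc1 hc2
    linarith [E (c + 1)]
  set κa := ‖Pa‖ with hκa
  set κc := ‖Pc‖ with hκc
  have hcR : (c : ℝ) = a + 3 ∨ (c : ℝ) = a + 4 := by
    rcases hc with hc | hc
    · left; rw [hc]; push_cast; ring
    · right; rw [hc]; push_cast; ring
  have hZlow : r.p a + (r.β (c + 1) - r.β a) + r.p (c + 1) - 1.66 ≤ tc - ta := by linarith [l1.1, l1.2, l4.1, l4.2]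
  have hTlow : 3.327 < r.p a + (r.β (c + 1) - r.β a) + r.p (c + 1) := by
    have w1' : 2 * π < r.p a + (r.β (c + 1) - r.β a) + r.p (c + 1) + 8 * phm R := by
      rcases hcR with h | h
      · rw [h, show (a : ℝ) + 9 - 1 - (a + 3 + 1) = 4 by ring] at w1
        linarith
      · rw [h, show (a : ℝ) + 9 - 1 - (a + 4 + 1) = 3 by ring] at w1
        linarith
    norm_num at hph hpi ⊢
    linarith
  have hZpos : 0 < tc - ta := by norm_num at hTlow hZlow ⊢; linarith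
  have hZup : tc - ta < π := by
    have : r.β c - r.β (a + 1) < r.p c + r.p (a + 1) + 4 * phm R := by
      rcases hcR with h | h
      · rw [h, show (a : ℝ) + 3 + 9 - 1 - (a + 10) = 1 by ring] at w2
        linarith
      · rw [h, show (a : ℝ) + 4 + 9 - 1 - (a + 10) = 2 by ring] at w2
        linarith
    norm_num at v2 v3 hph hpi ⊢
    linarith [l2.1, l2.2, l3.1, l3.2]
  have hsub : (κa + κc) * sin ((tc - ta) / 2) < 2 := by
    have h1 := sub_ge (a := κa) (c := κc) (t := ta) (t' := tc)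
    rw [← eta, ← etc] at h1
    have h2 : ((κa + κc) * sin ((tc - ta) / 2)) ^ 2 < 2 ^ 2 := by
      have : ‖Pa - Pc‖ ^ 2 < 2 ^ 2 := by
        have := norm_nonneg (Pa - Pc)
        nlinarith
      linarith
    exact lt_of_pow_lt_pow_left₀ 2 (by norm_num) h2
  rcases le_or_gt (κa + κc) 2.54 with hk | hk
  · -- small norms
    have S1 := cusp_S hR r a Pa ha ha' hPa
    have S2 := cusp_S hR r c Pc hc1 hc2 hPc
    have N1 := numS hR na.1.le hPa.le
    have N2 := numS hR nc.1.le hPc.le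
    rw [← hκa] at S1
    rw [← hκc] at S2
    rcases hcR with h | h
    · rw [h, show (a : ℝ) + 9 - 1 - (a + 3 + 1) = 4 by ring] at w1
      rw [h, show (a : ℝ) + 3 - (a + 1) - 1 = 1 by ring] at w3
      norm_num at hk N1 N2 hph hpi
      linarith
    · rw [h, show (a : ℝ) + 9 - 1 - (a + 4 + 1) = 3 by ring] at w1
      rw [h, show (a : ℝ) + 4 - (a + 1) - 1 = 2 by ring] at w3
      norm_num at hk N1 N2 hph hpi
      linarith
  · -- large norms
    have M1 := numT hR (r.lo a).le (r.hi a) Na.1 Na.2 hPa.le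
    have M2 := numT hR (r.lo (c + 1)).le (r.hi (c + 1)) Nc.1 Nc.2 hPc.le
    have M1' : r.p a + ang κa (r.d a) ≤ 0.74 + 0.314 * (κa - 1.27) := M1
    have M2' : r.p (c + 1) + ang κc (r.d (c + 1)) ≤ 0.74 + 0.314 * (κc - 1.27) := M2
    have hT : r.p a + (r.β (c + 1) - r.β a) + r.p (c + 1) ≤
        tc - ta + 1.48 + 0.314 * (κa + κc - 2.54) := by
      norm_num at M1' M2' ⊢
      linarith [l1.1, l1.2, l4.1, l4.2]
    have hpi2 : 0.913 ≤ π / 2 := by norm_num at hpi ⊢; linarith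
    rcases le_or_gt (κa + κc) 2.6 with hk2 | hk2
    · have := z_lt (K := κa + κc) (Z := tc - ta) (x := 0.913) (q := 0.7904) (k0 := 2.54) hk.le (by norm_num)
        hZpos.le hZup.le hsub (by norm_num) hpi2 s1 (by norm_num)
      norm_num at this hT hTlow hk2
      linarith
    rcases le_or_gt (κa + κc) 2.7 with hk3 | hk3
    · have := z_lt (K := κa + κc) (Z := tc - ta) (x := 0.881) (q := 0.7705) (k0 := 2.6) hk2.le (by norm_num)
        hZpos.le hZup.le hsub (by norm_num) (by norm_num at hpi2 ⊢; linarith) s2 (by norm_num)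
      norm_num at this hT hTlow hk3
      linarith
    rcases le_or_gt (κa + κc) 3 with hk4 | hk4
    · have := z_lt (K := κa + κc) (Z := tc - ta) (x := 0.84) (q := 0.7435) (k0 := 2.7) hk3.le (by norm_num)
        hZpos.le hZup.le hsub (by norm_num) (by norm_num at hpi2 ⊢; linarith) s3 (by norm_num)
      norm_num at this hT hTlow hk4
      linarith
    · have := z_lt (K := κa + κc) (Z := tc - ta) (x := 0.74) (q := 0.67) (k0 := 3) hk4.le (by norm_num)
        hZpos.le hZup.le hsub (by norm_num) (by norm_num at hpi2 ⊢; linarith) s4 (by norm_num)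
      norm_num at this hZlow hTlow
      linarith

end Pool.Agent.TD25
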