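import Pool.Agent.TD25.Fi

/-!
# TD25/LemP: the main one-disk inequality

Proof of `lemP`. Let `w = (R + κ) / ((R - κ) (R κ + 1))`; `w ≤ 1` (equivalent to `R κ ≤ R^2 - 2`), `w > 0`.
Let `D0 = 1 + R κ ≤ R^2 - 1`, `d0 = √D0`, `S = Sf R κ = fi R D0`, so `cos S = (R^2 - 1 + D0)/(2 R d0) = (R + κ)/(2 d0)`
(`cos_fi`: `(R-1)^2 ≤ D0` iff `R κ ≥ R^2 - 2 R`), `0 < S < π/2`, `sin S > 0`.
Let `a1 = fi R (d^2)`, `a2 = ang κ d`, `cos a1 = (R^2 - 1 + d^2)/(2 R d)` (`cos_fi`), `cos a2 = (κ^2 - 1 + d^2) / (2 κ d)`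
(`cos_ang`, `|κ - d| ≤ 1` because `d ≤ κ + 1` and `κ ≤ R - 2/R < R - 1 + 1 < d + 1`). Both angles are in `[0, π/2]` (cosines
nonnegative: `d > 1`).
Key: `(1 + w) cos a1 + (1 - w) cos a2 = p d + q / d` with `p = (1+w)/(2R) + (1-w)/(2κ)`,
`q = (1+w)(R^2-1)/(2R) + (1-w)(κ^2-1)/(2κ)`, and by the choice of `w`: `q = p D0` and `p = (R + κ)/(2 D0)`
(`q - p D0 = (1+w)(R^2-2-Rκ)/(2R) + (1-w)(κ^2-2-Rκ)/(2κ) = 0`, `field_simp; ring`). Hence
`p d + q/d ≥ 2 p d0 = 2 cos S` (AM-GM: `d + D0/d ≥ 2 d0`).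
`cos_tangent`: `cos a_i ≤ cos S - sin S (a_i - S)`. Multiply by the nonnegative weights and add:
`2 cos S ≤ 2 cos S - sin S ((1+w) a1 + (1-w) a2 - 2 S)`, so `(1+w) a1 + (1-w) a2 ≤ 2 S`.

Proof of `pas`. `R κ ≤ R^2 - 2`: `g ≤ w (a + a') + (1 - w) (c + c')` where `a, a' = fi R (d_i^2)`, `c, c' = ang κ d_i`;
`a + a' + g ≤ ∑ ((1+w) a_i + (1-w) c_i) ≤ 4 S`. If `R κ > R^2 - 2`: `Sf R κ = phm R` (`fi_top`) and
`a + a' + g ≤ 2 (a + a') ≤ 4 phm R` (`fi_le`).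
-/

set_option autoImplicit false

namespace Pool.Agent.TD25

open Real

/-- The choice of the weights. -/
theorem lemP_key {R κ d D0 w : ℝ} (hR0 : 0 < R) (hκ0 : 0 < κ) (hκR : κ < R) (hd : 0 < d) (hD : D0 = 1 + R * κ)
    (hw : w = (R + κ) / ((R - κ) * (R * κ + 1))) :
    (1 + w) * ((R ^ 2 - 1 + d ^ 2) / (2 * R * d)) + (1 - w) * ((κ ^ 2 + d ^ 2 - 1) / (2 * κ * d)) =
      (R + κ) / (2 * D0) * ((d ^ 2 + D0) / d) := by
  have h1 : R - κ ≠ 0 := by linarith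
  have h2 : R * κ + 1 ≠ 0 := by positivity
  have h3 : 1 + R * κ ≠ 0 := by positivity
  subst hw hD
  field_simp
  ring

theorem lemP {R κ d : ℝ} (hR : OkR R) (h0 : R - 2 < κ) (hκ : R * κ ≤ R ^ 2 - 2) (h1 : R - 1 < d)
    (h2 : d ^ 2 ≤ R ^ 2 - 1) (h3 : d ≤ κ + 1) :
    (1 + (R + κ) / ((R - κ) * (R * κ + 1))) * fi R (d ^ 2) +
      (1 - (R + κ) / ((R - κ) * (R * κ + 1))) * ang κ d ≤ 2 * Sf R κ := by
  obtain ⟨r1, r2⟩ := id hR
  have hR0 : 0 < R := by linarith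
  have hκ0 : 0 < κ := by linarith
  have hκR : κ < R := by nlinarith
  have hd : 0 < d := by linarith
  have hd1 : 1 < d := by linarith
  set w := (R + κ) / ((R - κ) * (R * κ + 1)) with hw
  have hRk : 0 < R - κ := by linarith
  have hw0 : 0 < w := by positivity
  have hw1 : w ≤ 1 := by
    rw [hw, div_le_one (by positivity)]
    nlinarith
  have hD0 : (0 : ℝ) < 1 + R * κ := by positivity
  have hs0 : 0 < √(1 + R * κ) := Real.sqrt_pos.2 hD0
  have hsq : √(1 + R * κ) ^ 2 = 1 + R * κ := Real.sq_sqrt hD0.le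
  have hlo : (R - 1) ^ 2 < 1 + R * κ := by nlinarith
  have hS : cos (Sf R κ) = (R + κ) / (2 * √(1 + R * κ)) := by
    unfold Sf
    rw [cos_fi hR hlo.le (by linarith)]
    field_simp
    ring
  have hSpos : 0 < Sf R κ := fi_pos hR hlo
  have hpi := Real.pi_gt_three
  have hph := phm_hi hR
  have hSle : Sf R κ ≤ π / 2 := by
    have : Sf R κ ≤ phm R := fi_le hR hD0
    linarith
  have ha1 : cos (fi R (d ^ 2)) = (R ^ 2 - 1 + d ^ 2) / (2 * R * d) := by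
    rw [cos_fi hR (by nlinarith) h2, Real.sqrt_sq hd.le]
  have ha2 : cos (ang κ d) = (κ ^ 2 + d ^ 2 - 1) / (2 * κ * d) := by
    apply cos_ang hκ0 hd
    · rw [abs_le]
      constructor
      · linarith
      · have : κ ≤ d + 1 := by nlinarith
        linarith
    · linarith
  have b1 : 0 ≤ fi R (d ^ 2) := fi_nonneg _ _
  have b2 : fi R (d ^ 2) ≤ π / 2 := by
    have : fi R (d ^ 2) ≤ phm R := fi_le hR (by positivity)
    linarith
  have b3 : 0 ≤ ang κ d := Real.arccos_nonneg _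
  have b4 : ang κ d ≤ π / 2 := by
    unfold ang
    rw [Real.arccos_le_pi_div_two]
    apply div_nonneg _ (by positivity)
    nlinarith [sq_nonneg κ]
  have T1 := cos_tangent b1 b2 hSpos.le hSle
  have T2 := cos_tangent b3 b4 hSpos.le hSle
  have hsin : 0 < sin (Sf R κ) := Real.sin_pos_of_pos_of_lt_pi hSpos (by linarith)
  have key : 2 * cos (Sf R κ) ≤ (1 + w) * cos (fi R (d ^ 2)) + (1 - w) * cos (ang κ d) := by
    rw [ha1, ha2, lemP_key hR0 hκ0 hκR hd rfl hw, hS]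
    have e1 : (R + κ) / (2 * (1 + R * κ)) * ((d ^ 2 + (1 + R * κ)) / d) -
        2 * ((R + κ) / (2 * √(1 + R * κ))) =
        (R + κ) / (2 * (1 + R * κ)) * ((d - √(1 + R * κ)) ^ 2 / d) := by
      have e2 : (R + κ) / (2 * √(1 + R * κ)) = (R + κ) / (2 * (1 + R * κ)) * √(1 + R * κ) := by
        rw [div_mul_eq_mul_div, div_eq_div_iff (by positivity) (by positivity)]
        linear_combination (-2 * (R + κ)) * hsq
      rw [e2]
      have e3 : (d - √(1 + R * κ)) ^ 2 = d ^ 2 + (1 + R * κ) - 2 * √(1 + R * κ) * d := by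
        linear_combination hsq
      rw [e3]
      field_simp
    have e4 : 0 ≤ (R + κ) / (2 * (1 + R * κ)) * ((d - √(1 + R * κ)) ^ 2 / d) := by positivity
    linarith
  have f1 : (1 + w) * cos (fi R (d ^ 2)) ≤
      (1 + w) * (cos (Sf R κ) - sin (Sf R κ) * (fi R (d ^ 2) - Sf R κ)) :=
    mul_le_mul_of_nonneg_left T1 (by linarith)
  have f2 : (1 - w) * cos (ang κ d) ≤
      (1 - w) * (cos (Sf R κ) - sin (Sf R κ) * (ang κ d - Sf R κ)) :=
    mul_le_mul_of_nonneg_left T2 (by linarith)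
  have f3 : sin (Sf R κ) * ((1 + w) * fi R (d ^ 2) + (1 - w) * ang κ d - 2 * Sf R κ) ≤ 0 := by
    nlinarith
  by_contra hcon
  push Not at hcon
  have : 0 < sin (Sf R κ) * ((1 + w) * fi R (d ^ 2) + (1 - w) * ang κ d - 2 * Sf R κ) :=
    mul_pos hsin (by linarith)
  linarith

theorem pas {R κ d d' g : ℝ} (hR : OkR R) (h0 : R - 2 < κ) (hκ : κ < R) (h1 : R - 1 < d) (h2 : d ^ 2 ≤ R ^ 2 - 1)
    (h3 : d ≤ κ + 1) (h1' : R - 1 < d') (h2' : d' ^ 2 ≤ R ^ 2 - 1) (h3' : d' ≤ κ + 1)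
    (hg : g ≤ fi R (d ^ 2) + fi R (d' ^ 2)) (hg' : g ≤ ang κ d + ang κ d') :
    fi R (d ^ 2) + g + fi R (d' ^ 2) ≤ 4 * Sf R κ := by
  obtain ⟨r1, r2⟩ := id hR
  have hκ0 : 0 < κ := by linarith
  rcases le_or_gt (R * κ) (R ^ 2 - 2) with hc | hc
  · have p1 := lemP hR h0 hc h1 h2 h3
    have p2 := lemP hR h0 hc h1' h2' h3'
    set w := (R + κ) / ((R - κ) * (R * κ + 1)) with hw
    have hRk : 0 < R - κ := by linarith
    have hR0 : 0 < R := by linarith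
    have hw0 : 0 < w := by positivity
    have hw1 : w ≤ 1 := by
      rw [hw, div_le_one (by positivity)]
      nlinarith
    have g1 : w * g ≤ w * (fi R (d ^ 2) + fi R (d' ^ 2)) := mul_le_mul_of_nonneg_left hg hw0.le
    have g2 : (1 - w) * g ≤ (1 - w) * (ang κ d + ang κ d') := mul_le_mul_of_nonneg_left hg' (by linarith)
    nlinarith
  · have q1 : Sf R κ = phm R := fi_top hR (by linarith)
    have q2 : fi R (d ^ 2) ≤ phm R := fi_le hR (by nlinarith)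
    have q3 : fi R (d' ^ 2) ≤ phm R := fi_le hR (by nlinarith)
    rw [q1]
    linarith

end Pool.Agent.TD25
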