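import Pool.Agent.TD25.Tay
import Pool.Agent.TD25.Par

/-!
# TD25/Near: the final inequality near the optimum

Proof. `p = fp R q0`, `m = gp R h0`, `c = 2 h0 q0 p/(2 q0 - h0)`, `lam = lamO R h0 q0 = c √3/2`, `u = q - q0`, `v = h - h0`. `O.e3`:
`m = c (2 h0 - q0)/(2 h0 q0)`, and `p = c (2 q0 - h0)/(2 h0 q0)`. (`fpB`, `gpB`, `cB`.)
(1) `cos δ > (h^2 + q^2 - 1)/(2 h q) > 0` (`h ≥ 0.69`, `q ≥ 1.0699`), so `δ < π/2`, and `cos_tangent` at `π/3`
(`sin (π/3) = √3/2`, `cos (π/3) = 1/2`): `cos δ ≤ 1/2 - (√3/2) (δ - π/3)`, so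
`lam (δ - π/3) ≤ c (1/2 - cos δ) ≤ c (h q - h^2 - q^2 + 1)/(2 h q)`.
(2) With `tayF`, `tayG`, `O.e2`: `2 h q (ff R q + gg R h - π/3 + lam (δ - π/3)) ≤
2 h q (p u - 0.508 u^2 + 0.62 u^3 + m v - 0.1645 v^2 + 0.095 v^3) + c (h q - h^2 - q^2 + 1) = a u^2 + b v^2 + 2 o u v` where
`a = -c + 2 h0 p + 2 p v - 2 h q (0.508 - 0.62 u)`, `b = -c + 2 q0 m + 2 m u - 2 h q (0.1645 - 0.095 v)`,
`2 o = c + 2 h0 m + 2 q0 p`. (Identity: `h q - h^2 - q^2 + 1 = -(2 q0 - h0) u - (2 h0 - q0) v + u v - u^2 - v^2` by `O.e1`;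
`2 h q (p u + m v) = 2 h0 q0 (p u + m v) + 2 (h0 u + q0 v + u v)(p u + m v)` and `2 h0 q0 p = c (2 q0 - h0)`,
`2 h0 q0 m = c (2 h0 - q0)`: the linear terms cancel.)
(3) `a ≤ -0.71`, `b ≤ -0.405`, `0 ≤ o ≤ 0.525` on the box (worst values `-0.7139`, `-0.4091`, `0.52445` with the bounds
`0.2709 ≤ p ≤ 0.2718`, `0.0745 ≤ m ≤ 0.0752`, `0.3160 ≤ c ≤ 0.3185`), and `0.71 * 0.405 > 0.525^2`: so the form is `≤ 0`.
-/

set_option autoImplicit false

namespace Pool.Agent.TD25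

open Real

/-- The algebraic part. -/
private theorem near_alg {h0 q0 p m c u v : ℝ} (a1 : 0.770 ≤ h0) (a2 : h0 ≤ 0.771) (b1 : 1.1299 ≤ q0)
    (b2 : q0 ≤ 1.1303) (p1 : 0.27109 ≤ p) (p2 : p ≤ 0.27153) (m1 : 0.0745 ≤ m) (m2 : m ≤ 0.0752)
    (c1 : 0.3165 ≤ c) (c2 : c ≤ 0.3178) (cp : c * (2 * q0 - h0) = 2 * h0 * q0 * p)
    (cm : c * (2 * h0 - q0) = 2 * h0 * q0 * m) (e1 : h0 ^ 2 + q0 ^ 2 - h0 * q0 = 1)
    (u1 : -0.06 ≤ u) (u2 : u ≤ 0.06) (v1 : -0.08 ≤ v) (v2 : v ≤ 0.08) :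
    2 * (h0 + v) * (q0 + u) * (p * u - 0.508 * u ^ 2 + 0.62 * u ^ 3 + (m * v - 0.1645 * v ^ 2 + 0.095 * v ^ 3)) +
      c * ((h0 + v) * (q0 + u) - (h0 + v) ^ 2 - (q0 + u) ^ 2 + 1) ≤ 0 := by
  have hkey : 2 * (h0 + v) * (q0 + u) *
        (p * u - 0.508 * u ^ 2 + 0.62 * u ^ 3 + (m * v - 0.1645 * v ^ 2 + 0.095 * v ^ 3)) +
      c * ((h0 + v) * (q0 + u) - (h0 + v) ^ 2 - (q0 + u) ^ 2 + 1) =
      (-c + 2 * h0 * p + 2 * p * v - 2 * (h0 + v) * (q0 + u) * (0.508 - 0.62 * u)) * u ^ 2 +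
      (-c + 2 * q0 * m + 2 * m * u - 2 * (h0 + v) * (q0 + u) * (0.1645 - 0.095 * v)) * v ^ 2 +
      (c + 2 * h0 * m + 2 * q0 * p) * (u * v) := by
    linear_combination (-u) * cp + (-v) * cm + (-c) * e1
  rw [hkey]
  have x1 : 0.5602 ≤ (q0 + u) * (0.508 - 0.62 * u) := by
    have : (1.1299 + u) * (0.508 - 0.62 * u) ≤ (q0 + u) * (0.508 - 0.62 * u) :=
      mul_le_mul_of_nonneg_right (by linarith) (by linarith)
    linarith [mul_nonneg (sub_nonneg.2 u1) (sub_nonneg.2 u2)]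
  have x2 : (0.77 + v) * 0.5602 ≤ (h0 + v) * ((q0 + u) * (0.508 - 0.62 * u)) :=
    mul_le_mul (by linarith) x1 (by norm_num) (by linarith)
  have x3 : (-c + 2 * h0 * p + 2 * p * v - 2 * (h0 + v) * (q0 + u) * (0.508 - 0.62 * u)) ≤ -0.71 := by
    have h1 : 2 * (h0 + v) * (q0 + u) * (0.508 - 0.62 * u) =
        2 * ((h0 + v) * ((q0 + u) * (0.508 - 0.62 * u))) := by ring
    rw [h1]
    have h2 : h0 * p ≤ 0.771 * 0.27153 := mul_le_mul a2 p2 (by linarith) (by norm_num)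
    have h3 : (1.1204 - 2 * p) * (-v) ≤ (1.1204 - 2 * 0.27109) * 0.08 :=
      (mul_le_mul_of_nonneg_left (by linarith : -v ≤ 0.08) (by linarith)).trans
        (mul_le_mul_of_nonneg_right (by linarith) (by norm_num))
    linarith
  have y1 : 0.1187 ≤ (h0 + v) * (0.1645 - 0.095 * v) := by
    have : (0.77 + v) * (0.1645 - 0.095 * v) ≤ (h0 + v) * (0.1645 - 0.095 * v) :=
      mul_le_mul_of_nonneg_right (by linarith) (by linarith)
    linarith [mul_nonneg (sub_nonneg.2 v1) (sub_nonneg.2 v2)]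
  have y2 : (1.1299 + u) * 0.1187 ≤ (q0 + u) * ((h0 + v) * (0.1645 - 0.095 * v)) :=
    mul_le_mul (by linarith) y1 (by norm_num) (by linarith)
  have y3 : (-c + 2 * q0 * m + 2 * m * u - 2 * (h0 + v) * (q0 + u) * (0.1645 - 0.095 * v)) ≤ -0.405 := by
    have h1 : 2 * (h0 + v) * (q0 + u) * (0.1645 - 0.095 * v) =
        2 * ((q0 + u) * ((h0 + v) * (0.1645 - 0.095 * v))) := by ring
    rw [h1]
    have h2 : q0 * m ≤ 1.1303 * 0.0752 := mul_le_mul b2 m2 (by linarith) (by norm_num)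
    have h3 : (0.2374 - 2 * m) * (-u) ≤ (0.2374 - 2 * 0.0745) * 0.06 :=
      (mul_le_mul_of_nonneg_left (by linarith : -u ≤ 0.06) (by linarith)).trans
        (mul_le_mul_of_nonneg_right (by linarith) (by norm_num))
    linarith
  have z1 : c + 2 * h0 * m + 2 * q0 * p ≤ 1.05 := by
    have h2 : h0 * m ≤ 0.771 * 0.0752 := mul_le_mul a2 m2 (by linarith) (by norm_num)
    have h3 : q0 * p ≤ 1.1303 * 0.27153 := mul_le_mul b2 p2 (by linarith) (by norm_num)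
    linarith
  have z2 : 0 ≤ c + 2 * h0 * m + 2 * q0 * p := by
    have h2 : 0 ≤ h0 * m := mul_nonneg (by linarith) (by linarith)
    have h3 : 0 ≤ q0 * p := mul_nonneg (by linarith) (by linarith)
    linarith
  have w1 := mul_le_mul_of_nonneg_right x3 (sq_nonneg u)
  have w2 := mul_le_mul_of_nonneg_right y3 (sq_nonneg v)
  clear hkey x1 x2 x3 y1 y2 y3
  generalize (-c + 2 * h0 * p + 2 * p * v - 2 * (h0 + v) * (q0 + u) * (0.508 - 0.62 * u)) = A at *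
  generalize (-c + 2 * q0 * m + 2 * m * u - 2 * (h0 + v) * (q0 + u) * (0.1645 - 0.095 * v)) = B at *
  generalize (c + 2 * h0 * m + 2 * q0 * p) = C at *
  rcases le_total (u * v) 0 with h | h
  · have w3 : C * (u * v) ≤ 0 := mul_nonpos_of_nonneg_of_nonpos z2 h
    linarith [sq_nonneg u, sq_nonneg v]
  · have w3 : C * (u * v) ≤ 1.05 * (u * v) := mul_le_mul_of_nonneg_right z1 h
    linarith [sq_nonneg (u - 0.74 * v), sq_nonneg v]

theorem near {R h0 q0 h q δ : ℝ} (O : Opt R h0 q0) (hv : |h - h0| ≤ 0.08) (hu : |q - q0| ≤ 0.06) (hδ0 : 0 ≤ δ)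
    (hδ1 : δ ≤ π) (hc : h ^ 2 + q ^ 2 - 2 * h * q * cos δ < 1) :
    ff R q + gg R h + lamO R h0 q0 * (δ - π / 3) ≤ π / 3 := by
  obtain ⟨R1, R2, a1, a2, b1, b2, e1, e2, e3⟩ := O
  have hR1 : 2.769293 ≤ R := by linarith
  have hR2 : R ≤ 2.769294 := by linarith
  obtain ⟨p1, p2⟩ := fpB hR1 hR2 b1 b2
  obtain ⟨m1, m2⟩ := gpB hR1 hR2 a1 a2
  obtain ⟨c1, c2⟩ := cB hR1 hR2 a1 a2 b1 b2
  have tF := tayF (R := R) (q := q) (by linarith) (by linarith) b1 b2 hu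
  have tG := tayG (R := R) (h := h) (by linarith) (by linarith) a1 a2 hv
  have hlam : lamO R h0 q0 = (2 * h0 * q0 * fp R q0 / (2 * q0 - h0)) * (√3 / 2) := by
    unfold lamO; ring
  rw [hlam]
  generalize fp R q0 = p at *
  generalize gp R h0 = m at *
  have hd : 0 < 2 * q0 - h0 := by linarith
  have cp : 2 * h0 * q0 * p / (2 * q0 - h0) * (2 * q0 - h0) = 2 * h0 * q0 * p :=
    div_mul_cancel₀ _ hd.ne'
  have cm : 2 * h0 * q0 * p / (2 * q0 - h0) * (2 * h0 - q0) = 2 * h0 * q0 * m := by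
    rw [div_mul_eq_mul_div, div_eq_iff hd.ne']
    linear_combination (2 * h0 * q0) * e3
  generalize 2 * h0 * q0 * p / (2 * q0 - h0) = c at *
  obtain ⟨v1, v2⟩ := abs_le.1 hv
  obtain ⟨u1, u2⟩ := abs_le.1 hu
  have hh : 0.69 ≤ h := by linarith
  have hq : 1.0699 ≤ q := by linarith
  have hhq : 0 < h * q := mul_pos (by linarith) (by linarith)
  have hcos : 0 < cos δ := by
    by_contra hcon
    rw [not_lt] at hcon
    have : h * q * cos δ ≤ 0 := mul_nonpos_of_nonneg_of_nonpos hhq.le hcon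
    nlinarith
  have hδ2 : δ ≤ π / 2 := by
    by_contra hcon
    rw [not_le] at hcon
    have := cos_nonpos_of_pi_div_two_le_of_le hcon.le (by linarith [pi_pos])
    linarith
  have ht := cos_tangent hδ0 hδ2 (t0 := π / 3) (by positivity) (by linarith [pi_pos])
  rw [cos_pi_div_three, sin_pi_div_three] at ht
  have hA := near_alg a1 a2 b1 b2 p1 p2 m1 m2 c1 c2 cp cm e1 (u := q - q0) (v := h - h0) u1 u2 v1 v2
  have g1 : h0 + (h - h0) = h := by ring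
  have g2 : q0 + (q - q0) = q := by ring
  rw [g1, g2] at hA
  -- `c (√3/2) (δ - π/3) ≤ c (1/2 - cos δ)`
  have k1 : c * (√3 / 2) * (δ - π / 3) ≤ c * (1 / 2 - cos δ) := by
    rw [mul_assoc]
    exact mul_le_mul_of_nonneg_left (by linarith) (by linarith)
  have k2 : 2 * h * q * (c * (1 / 2 - cos δ)) ≤ c * (h * q - h ^ 2 - q ^ 2 + 1) := by
    have : c * (h ^ 2 + q ^ 2 - 2 * h * q * cos δ) ≤ c * 1 := mul_le_mul_of_nonneg_left hc.le (by linarith)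
    linarith
  have k3 : ff R q + gg R h - π / 3 ≤ p * (q - q0) - 0.508 * (q - q0) ^ 2 + 0.62 * (q - q0) ^ 3 +
      (m * (h - h0) - 0.1645 * (h - h0) ^ 2 + 0.095 * (h - h0) ^ 3) := by
    linarith
  have h2 : 0 < 2 * h * q := by linarith
  have k4 := mul_le_mul_of_nonneg_left k3 h2.le
  have k5 := mul_le_mul_of_nonneg_left k1 h2.le
  have k6 : 2 * h * q * (ff R q + gg R h - π / 3 + c * (√3 / 2) * (δ - π / 3)) ≤ 2 * h * q * 0 := by
    rw [mul_add, mul_zero]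
    linarith
  have k7 := le_of_mul_le_mul_left k6 h2
  linarith

end Pool.Agent.TD25
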