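import Mathlib

/-!
# TD25/NotCover: finitely many arcs of total length less than `2 π` do not cover the circle

Proof. Suppose every `t ∈ [0, 2π)` satisfies `|t - b i - 2 π k| < p i` for some `i`, `k`. For fixed `i` the set
`U i = {t | ∃ k : ℤ, |t - b i - 2 π k| < p i}` is `2π`-periodic, and the measure of `U i ∩ [0, 2π)` is at most `2 p i`:
by periodicity it equals the measure of `U i ∩ [b i - π, b i + π)` (e.g. `MeasureTheory` / `Function.Periodic`, or the
Haar measure of `AddCircle (2 π)`, where `U i` is a metric ball: `AddCircle.volume_closedBall` gives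
`min (2 π) (2 ε)`), which for `p i ≤ π` is an interval of length `2 p i` (if `p i > π` the claim is trivial; if `p i ≤ 0`
the set is empty; note that `∑ p i < π` can hold with some negative `p i`: the hypothesis `0 ≤ p i` excludes this).
So `2 π ≤ ∑ 2 p i < 2 π`. Recommended: work in `AddCircle (2 * π)` with `MeasureTheory.measure_iUnion_le` (finite sum)
and `AddCircle.volume_closedBall`, `‖(x : AddCircle (2π))‖ = |x - round ((2π)⁻¹ x) * (2π)|`.
-/

set_option autoImplicit false

namespace Pool.Agent.TD25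

open Real

theorem not_cover {ι : Type} [Fintype ι] (b p : ι → ℝ) (hp : ∀ i, 0 ≤ p i) (h : ∑ i, p i < π) :
    ∃ t : ℝ, ∀ i : ι, ∀ k : ℤ, p i ≤ |t - b i - 2 * π * k| := by
  classical
  by_contra hcon
  push Not at hcon
  haveI : Fact (0 < 2 * π) := ⟨Real.two_pi_pos⟩
  have hcov : (Set.univ : Set (AddCircle (2 * π))) ⊆
      ⋃ i : ι, Metric.closedBall ((b i : ℝ) : AddCircle (2 * π)) (p i) := by
    intro x _
    obtain ⟨t, rfl⟩ := QuotientAddGroup.mk_surjective x
    obtain ⟨i, k, hik⟩ := hcon t
    rw [Set.mem_iUnion]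
    refine ⟨i, ?_⟩
    rw [Metric.mem_closedBall, dist_eq_norm]
    have e : ((t : ℝ) : AddCircle (2 * π)) - ((b i : ℝ) : AddCircle (2 * π)) =
        ((t - b i - 2 * π * k : ℝ) : AddCircle (2 * π)) := by
      have e1 : t - b i - 2 * π * k = (t - b i) - k • (2 * π) := by
        rw [zsmul_eq_mul]; ring
      rw [e1, AddCircle.coe_sub, AddCircle.coe_sub, AddCircle.coe_zsmul, AddCircle.coe_period]
      simp
    change ‖((t : ℝ) : AddCircle (2 * π)) - ((b i : ℝ) : AddCircle (2 * π))‖ ≤ p i
    rw [e]
    refine le_trans ?_ hik.le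
    exact QuotientAddGroup.norm_mk_le_norm
  have h1 := MeasureTheory.measure_mono (μ := MeasureTheory.volume) hcov
  rw [AddCircle.measure_univ] at h1
  have h2 := h1.trans (MeasureTheory.measure_iUnion_le _)
  rw [tsum_fintype] at h2
  have h3 : ∀ i : ι, MeasureTheory.volume (Metric.closedBall ((b i : ℝ) : AddCircle (2 * π)) (p i)) ≤
      ENNReal.ofReal (2 * p i) := by
    intro i
    rw [AddCircle.volume_closedBall]
    exact ENNReal.ofReal_le_ofReal (min_le_right _ _)
  have h4 := h2.trans (Finset.sum_le_sum fun i _ => h3 i)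
  rw [← ENNReal.ofReal_sum_of_nonneg (fun i _ => by linarith [hp i]), ← Finset.mul_sum] at h4
  have h5 : 0 ≤ 2 * ∑ i, p i := by
    have := Finset.sum_nonneg (fun i (_ : i ∈ Finset.univ) => hp i)
    linarith
  rw [ENNReal.ofReal_le_ofReal_iff h5] at h4
  linarith

end Pool.Agent.TD25
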