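import Pool.Agent.TD25.Tool
import Pool.Agent.TD25.FDefs

/-!
# TD25/NumH: upper bounds for the second derivatives of `ff` and `gg` near the optimum

Verified Taylor models. With `W = WW R q`, `D = (1+q)^2`: `fpp = - N / (D W √W)`, and `N^2 ≥ (1.016 - 3.72 (q - q0))^2 D^2 W^3`.
-/

set_option autoImplicit false

namespace Pool.Agent.TD25

open Real Pool.Agent.SB19

def exW : Ex := (.add (.mul (.mul (.num 4 1) (.mul .Z .Z)) (.mul (.add (.num 1 1) .X) (.add (.num 1 1) .X))) (.neg (.mul (.add (.add (.mul .Z .Z) (.mul (.add (.num 1 1) .X) (.add (.num 1 1) .X))) (.neg (.num 1 1))) (.add (.add (.mul .Z .Z) (.mul (.add (.num 1 1) .X) (.add (.num 1 1) .X))) (.neg (.num 1 1))))))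
def exN : Ex := (.add (.mul (.add (.mul (.mul (.num 4 1) (.mul .Z .Z)) (.mul (.add (.num 1 1) .X) (.add (.num 1 1) .X))) (.neg (.mul (.add (.add (.mul .Z .Z) (.mul (.add (.num 1 1) .X) (.add (.num 1 1) .X))) (.neg (.num 1 1))) (.add (.add (.mul .Z .Z) (.mul (.add (.num 1 1) .X) (.add (.num 1 1) .X))) (.neg (.num 1 1)))))) (.add (.mul (.add (.num 1 1) .X) (.add (.num 1 1) .X)) (.add (.mul .Z .Z) (.neg (.num 1 1))))) (.mul (.mul (.mul (.num 2 1) (.mul (.add (.num 1 1) .X) (.add (.num 1 1) .X))) (.add (.add (.mul .Z .Z) (.neg (.num 1 1))) (.neg (.mul (.add (.num 1 1) .X) (.add (.num 1 1) .X))))) (.add (.add (.mul .Z .Z) (.num 1 1)) (.neg (.mul (.add (.num 1 1) .X) (.add (.num 1 1) .X))))))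
def exE1 : Ex := (.add (.mul (.add (.mul (.add (.mul (.mul (.num 4 1) (.mul .Z .Z)) (.mul (.add (.num 1 1) .X) (.add (.num 1 1) .X))) (.neg (.mul (.add (.add (.mul .Z .Z) (.mul (.add (.num 1 1) .X) (.add (.num 1 1) .X))) (.neg (.num 1 1))) (.add (.add (.mul .Z .Z) (.mul (.add (.num 1 1) .X) (.add (.num 1 1) .X))) (.neg (.num 1 1)))))) (.add (.mul (.add (.num 1 1) .X) (.add (.num 1 1) .X)) (.add (.mul .Z .Z) (.neg (.num 1 1))))) (.mul (.mul (.mul (.num 2 1) (.mul (.add (.num 1 1) .X) (.add (.num 1 1) .X))) (.add (.add (.mul .Z .Z) (.neg (.num 1 1))) (.neg (.mul (.add (.num 1 1) .X) (.add (.num 1 1) .X))))) (.add (.add (.mul .Z .Z) (.num 1 1)) (.neg (.mul (.add (.num 1 1) .X) (.add (.num 1 1) .X)))))) (.add (.mul (.add (.mul (.mul (.num 4 1) (.mul .Z .Z)) (.mul (.add (.num 1 1) .X) (.add (.num 1 1) .X))) (.neg (.mul (.add (.add (.mul .Z .Z) (.mul (.add (.num 1 1) .X) (.add (.num 1 1) .X))) (.neg (.num 1 1))) (.add (.add (.mul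 .Z .Z) (.mul (.add (.num 1 1) .X) (.add (.num 1 1) .X))) (.neg (.num 1 1)))))) (.add (.mul (.add (.num 1 1) .X) (.add (.num 1 1) .X)) (.add (.mul .Z .Z) (.neg (.num 1 1))))) (.mul (.mul (.mul (.num 2 1) (.mul (.add (.num 1 1) .X) (.add (.num 1 1) .X))) (.add (.add (.mul .Z .Z) (.neg (.num 1 1))) (.neg (.mul (.add (.num 1 1) .X) (.add (.num 1 1) .X))))) (.add (.add (.mul .Z .Z) (.num 1 1)) (.neg (.mul (.add (.num 1 1) .X) (.add (.num 1 1) .X))))))) (.neg (.mul (.mul (.mul (.add (.num 127 125) (.neg (.mul (.num 93 25) (.add .X (.neg .Y))))) (.add (.num 127 125) (.neg (.mul (.num 93 25) (.add .X (.neg .Y)))))) (.mul (.mul (.add (.num 1 1) .X) (.add (.num 1 1) .X)) (.mul (.add (.num 1 1) .X) (.add (.num 1 1) .X)))) (.mul (.mul (.add (.mul (.mul (.num 4 1) (.mul .Z .Z)) (.mul (.add (.num 1 1) .X) (.add (.num 1 1) .X))) (.neg (.mul (.add (.add (.mul .Z .Z) (.mul (.add (.num 1 1) .X) (.add (.num 1 1) .X))) (.neg (.num 1 1))) (.add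 (.add (.mul .Z .Z) (.mul (.add (.num 1 1) .X) (.add (.num 1 1) .X))) (.neg (.num 1 1)))))) (.add (.mul (.mul (.num 4 1) (.mul .Z .Z)) (.mul (.add (.num 1 1) .X) (.add (.num 1 1) .X))) (.neg (.mul (.add (.add (.mul .Z .Z) (.mul (.add (.num 1 1) .X) (.add (.num 1 1) .X))) (.neg (.num 1 1))) (.add (.add (.mul .Z .Z) (.mul (.add (.num 1 1) .X) (.add (.num 1 1) .X))) (.neg (.num 1 1))))))) (.add (.mul (.mul (.num 4 1) (.mul .Z .Z)) (.mul (.add (.num 1 1) .X) (.add (.num 1 1) .X))) (.neg (.mul (.add (.add (.mul .Z .Z) (.mul (.add (.num 1 1) .X) (.add (.num 1 1) .X))) (.neg (.num 1 1))) (.add (.add (.mul .Z .Z) (.mul (.add (.num 1 1) .X) (.add (.num 1 1) .X))) (.neg (.num 1 1))))))))))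
def exs2 : Ex := (.add (.num 4 1) (.neg (.mul (.add (.add .Z (.neg (.num 1 1))) (.neg .X)) (.add (.add .Z (.neg (.num 1 1))) (.neg .X)))))
def exN2 : Ex := (.add (.mul (.mul .Z (.add (.num 1 1) (.mul .Z (.add (.num 1 1) .X)))) (.add (.num 4 1) (.neg (.mul (.add (.add .Z (.neg (.num 1 1))) (.neg .X)) (.add (.add .Z (.neg (.num 1 1))) (.neg .X)))))) (.mul (.add (.mul .Z (.add (.add .Z (.neg (.num 1 1))) (.neg .X))) (.neg (.num 2 1))) (.add (.mul .Z (.add (.num 4 1) (.neg (.mul (.add (.add .Z (.neg (.num 1 1))) (.neg .X)) (.add (.add .Z (.neg (.num 1 1))) (.neg .X)))))) (.mul (.add (.num 1 1) (.mul .Z (.add (.num 1 1) .X))) (.add (.add .Z (.neg (.num 1 1))) (.neg .X))))))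
def exE2 : Ex := (.add (.mul (.add (.mul (.mul .Z (.add (.num 1 1) (.mul .Z (.add (.num 1 1) .X)))) (.add (.num 4 1) (.neg (.mul (.add (.add .Z (.neg (.num 1 1))) (.neg .X)) (.add (.add .Z (.neg (.num 1 1))) (.neg .X)))))) (.mul (.add (.mul .Z (.add (.add .Z (.neg (.num 1 1))) (.neg .X))) (.neg (.num 2 1))) (.add (.mul .Z (.add (.num 4 1) (.neg (.mul (.add (.add .Z (.neg (.num 1 1))) (.neg .X)) (.add (.add .Z (.neg (.num 1 1))) (.neg .X)))))) (.mul (.add (.num 1 1) (.mul .Z (.add (.num 1 1) .X))) (.add (.add .Z (.neg (.num 1 1))) (.neg .X)))))) (.add (.mul (.mul .Z (.add (.num 1 1) (.mul .Z (.add (.num 1 1) .X)))) (.add (.num 4 1) (.neg (.mul (.add (.add .Z (.neg (.num 1 1))) (.neg .X)) (.add (.add .Z (.neg (.num 1 1))) (.neg .X)))))) (.mul (.add (.mul .Z (.add (.add .Z (.neg (.num 1 1))) (.neg .X))) (.neg (.num 2 1))) (.add (.mul .Z (.add (.num 4 1) (.neg (.mul (.add (.add .Z (.neg (.num 1 1))) (.neg .X)) (.add (.add .Z (.neg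 (.num 1 1))) (.neg .X)))))) (.mul (.add (.num 1 1) (.mul .Z (.add (.num 1 1) .X))) (.add (.add .Z (.neg (.num 1 1))) (.neg .X))))))) (.neg (.mul (.mul (.mul (.add (.num 329 1000) (.neg (.mul (.num 57 100) (.add .X (.neg .Y))))) (.add (.num 329 1000) (.neg (.mul (.num 57 100) (.add .X (.neg .Y)))))) (.mul (.mul (.mul (.add (.num 1 1) (.mul .Z (.add (.num 1 1) .X))) (.add (.num 1 1) (.mul .Z (.add (.num 1 1) .X)))) (.add (.num 1 1) (.mul .Z (.add (.num 1 1) .X)))) (.add (.num 1 1) (.mul .Z (.add (.num 1 1) .X))))) (.mul (.mul (.add (.num 4 1) (.neg (.mul (.add (.add .Z (.neg (.num 1 1))) (.neg .X)) (.add (.add .Z (.neg (.num 1 1))) (.neg .X))))) (.add (.num 4 1) (.neg (.mul (.add (.add .Z (.neg (.num 1 1))) (.neg .X)) (.add (.add .Z (.neg (.num 1 1))) (.neg .X)))))) (.add (.num 4 1) (.neg (.mul (.add (.add .Z (.neg (.num 1 1))) (.neg .X)) (.add (.add .Z (.neg (.num 1 1))) (.neg .X)))))))))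

theorem chkF : chk2 [exE1, exN, .add exW (.neg (.num 1 1))] [] (.X (.X .L (.X .L .L)) (.X (.X .L .L) .L))
    ((1121871 + 1248121) * 524288) ((1248121 - 1121871) * 524288) ((1184786 + 1185206) * 524288)
    ((1185206 - 1184786) * 524288) ((2903811 + 2903822) * 524288) ((2903822 - 2903811) * 524288) = true := by
  decide +kernel

theorem chkG : chk2 [exE2, exN2, .add exs2 (.neg (.num 1 1))] [] (.X (.X .L .L) (.X .L .L))
    ((723517 + 892339) * 524288) ((892339 - 723517) * 524288) ((807403 + 808453) * 524288)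
    ((808453 - 807403) * 524288) ((2903811 + 2903822) * 524288) ((2903822 - 2903811) * 524288) = true := by
  decide +kernel

theorem sq_aux {N k D W : ℝ} (hD : 0 < D) (hW : 0 < W) (hN : 0 ≤ N)
    (h : 0 ≤ N ^ 2 - k ^ 2 * D ^ 2 * W ^ 3) : -N / (D * (W * √W)) ≤ -k := by
  have hs : √W * √W = W := Real.mul_self_sqrt hW.le
  have hs0 : 0 < √W := Real.sqrt_pos.2 hW
  have h1 : k * (D * (W * √W)) ≤ N := by
    refine abs_le_of_sq_le_sq' ?_ hN |>.2
    have : (k * (D * (W * √W))) ^ 2 = k ^ 2 * D ^ 2 * (W * W * (√W * √W)) := by ring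
    rw [this, hs]
    nlinarith
  rw [div_le_iff₀ (by positivity)]
  linarith

theorem numFpp {R q q0 : ℝ} (hR1 : 2.76929 ≤ R) (hR2 : R ≤ 2.7693) (h1 : 1.1299 ≤ q0) (h2 : q0 ≤ 1.1303)
    (h3 : |q - q0| ≤ 0.06) : 0 < WW R q ∧ fpp R q ≤ -1.016 + 3.72 * (q - q0) := by
  rw [abs_le] at h3
  obtain ⟨ha, hb⟩ := h3
  rcases of_box _ _ _ _ _ _ _ _ _ (by norm_num) (by norm_num) (by norm_num) chkF (x := q) (y := q0) (z := R)
    (by norm_num; linarith) (by norm_num; linarith) (by norm_num; linarith) (by norm_num; linarith)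
    (by norm_num; linarith) (by norm_num; linarith) with h | h
  · obtain ⟨d, hd, -⟩ := h
    exact absurd hd (by simp)
  · have hE := h exE1 (by simp)
    have hN := h exN (by simp)
    have hW := h (.add exW (.neg (.num 1 1))) (by simp)
    have hWW : 0 < WW R q := by
      have e : Ex.eval q q0 R (.add exW (.neg (.num 1 1))) = WW R q - 1 := by
        simp only [exW, Ex.eval, WW]; push_cast; ring
      rw [e] at hW
      linarith
    refine ⟨hWW, ?_⟩
    have h5 : (-1.016 + 3.72 * (q - q0) : ℝ) = -(1.016 - 3.72 * (q - q0)) := by ring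
    rw [h5]
    unfold fpp
    refine sq_aux (pow_pos (by linarith) 2) hWW ?_ ?_
    · refine le_trans hN (le_of_eq ?_)
      simp only [exN, Ex.eval, WW]; push_cast; ring
    · refine le_trans hE (le_of_eq ?_)
      simp only [exE1, Ex.eval, WW]; push_cast; ring

theorem numGpp {R h h0 : ℝ} (hR1 : 2.76929 ≤ R) (hR2 : R ≤ 2.7693) (h1 : 0.770 ≤ h0) (h2 : h0 ≤ 0.771)
    (h3 : |h - h0| ≤ 0.08) : gpp R h ≤ -0.329 + 0.57 * (h - h0) := by
  rw [abs_le] at h3
  obtain ⟨ha, hb⟩ := h3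
  rcases of_box _ _ _ _ _ _ _ _ _ (by norm_num) (by norm_num) (by norm_num) chkG (x := h) (y := h0) (z := R)
    (by norm_num; linarith) (by norm_num; linarith) (by norm_num; linarith) (by norm_num; linarith)
    (by norm_num; linarith) (by norm_num; linarith) with hh | hh
  · obtain ⟨d, hd, -⟩ := hh
    exact absurd hd (by simp)
  · have hE := hh exE2 (by simp)
    have hN := hh exN2 (by simp)
    have hW := hh (.add exs2 (.neg (.num 1 1))) (by simp)
    have hW' : 0 < 4 - (R - 1 - h) ^ 2 := by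
      have e : Ex.eval h h0 R (.add exs2 (.neg (.num 1 1))) = 4 - (R - 1 - h) ^ 2 - 1 := by
        simp only [exs2, Ex.eval]; push_cast; ring
      rw [e] at hW
      linarith
    have h5 : (-0.329 + 0.57 * (h - h0) : ℝ) = -(0.329 - 0.57 * (h - h0)) := by ring
    rw [h5]
    unfold gpp
    refine sq_aux (pow_pos (by nlinarith) 2) hW' ?_ ?_
    · refine le_trans hN (le_of_eq ?_)
      simp only [exN2, Ex.eval]; push_cast; ring
    · refine le_trans hE (le_of_eq ?_)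
      simp only [exE2, Ex.eval]; push_cast; ring

end Pool.Agent.TD25
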