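import Pool.Agent.TD25.Fi

/-!
# TD25/NumO: `2 Sf R (2.1434 - κ) + fi R ((1 + κ)^2) < 0.9245` for `κ ∈ [R - 2, 2.1434 - (R - 2)]` (true maximum 0.852)

Proof. On a cell `[k0, k1]` the left side is at most `2 Sf R (2.1434 - k0) + fi R ((1 + k1)^2)` (`fi_mono`). Three cells suffice
(uniformly for `R ∈ [2.7692, 2.7694]`): `[R - 2, 0.968]` (0.9231), `[0.968, 1.174]` (0.9235), `[1.174, 1.3742]` (in the last one use
`fi R ((1+κ)^2) ≤ phm R < 0.3695` and `Sf R (2.1434 - 1.174) = Sf R 0.9694 ≤ 0.26`). For each cell bound the two angles by decimals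
`x`, `y` using `fi_le_of_cos`: `cos x ≤ (R + k) / (2 √(1 + R k))` with `k = 2.1434 - k0` (square it: `4 (1 + R k) (cos x)^2 ≤ (R + k)^2`)
and `cos y ≤ (R^2 - 1 + (1 + k1)^2)/(2 R (1 + k1))`. Values: `Sf R 1.3742 = 0.3335`, `fi R (1.968^2) = 0.2561`,
`Sf R 1.1754 = 0.2981`, `fi R (2.174^2) = 0.3273`, `Sf R 0.9694 = 0.2331`. More cells may be used.
-/

set_option autoImplicit false

namespace Pool.Agent.TD25

open Real

private theorem o_cos {x : ℝ} (h0 : 0 ≤ x) (h1 : x ≤ 1) :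
    cos x ≤ 2 * (1 - x ^ 2 / 8 + x ^ 4 * (5 / 1536)) ^ 2 - 1 := by
  have h2 := Real.cos_bound (x := x / 2) (by rw [abs_of_nonneg (by linarith)]; linarith)
  rw [abs_of_nonneg (show 0 ≤ x / 2 by linarith), abs_le] at h2
  have h3 : cos (x / 2) ≤ 1 - x ^ 2 / 8 + x ^ 4 * (5 / 1536) := by
    have := h2.2
    nlinarith
  have h4 : 0 ≤ cos (x / 2) := by
    apply cos_nonneg_of_mem_Icc
    have := Real.pi_gt_three
    constructor <;> linarith
  have h5 : cos x = 2 * cos (x / 2) ^ 2 - 1 := by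
    rw [← cos_two_mul]
    congr 1
    ring
  have h6 := pow_le_pow_left₀ h4 h3 2
  linarith

private theorem o_sf {R k t C : ℝ} (hR : OkR R) (hk0 : 0 ≤ k) (hk1 : k ≤ 1.3742) (ht0 : 0 ≤ t)
    (ht1 : t ≤ 1) (hC : 2 * (1 - t ^ 2 / 8 + t ^ 4 * (5 / 1536)) ^ 2 - 1 ≤ C) (hC0 : 0 ≤ C)
    (h : 4 * (1 + R * k) * C ^ 2 ≤ (R + k) ^ 2) : fi R (1 + R * k) ≤ t := by
  obtain ⟨hR1, hR2⟩ := hR
  have hpi := Real.pi_gt_three
  have hRk : 0 ≤ R * k := mul_nonneg (by linarith) hk0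
  have hRk2 : R * k ≤ 2.7694 * 1.3742 := mul_le_mul hR2 hk1 hk0 (by norm_num)
  apply fi_le_of_cos ⟨hR1, hR2⟩ (by linarith) (by nlinarith) ht0 (by linarith)
  have hs : 0 < √(1 + R * k) := Real.sqrt_pos.2 (by linarith)
  have hs2 : √(1 + R * k) ^ 2 = 1 + R * k := Real.sq_sqrt (by linarith)
  refine ((o_cos ht0 ht1).trans hC).trans ?_
  rw [le_div_iff₀ (by positivity)]
  have h1 : C * (2 * √(1 + R * k)) ≤ R + k := by
    apply abs_le_of_sq_le_sq' _ (by linarith) |>.2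
    nlinarith
  nlinarith

private theorem o_fm {R m t : ℝ} (hR : OkR R) (hm0 : 0 < m) (hm1 : m ≤ 2.2) (ht0 : 0 ≤ t)
    (ht1 : t ≤ 1) {C : ℝ} (hC : 2 * (1 - t ^ 2 / 8 + t ^ 4 * (5 / 1536)) ^ 2 - 1 ≤ C)
    (h : C * (2 * R * m) ≤ R ^ 2 - 1 + m ^ 2) : fi R (m ^ 2) ≤ t := by
  obtain ⟨hR1, hR2⟩ := hR
  have hpi := Real.pi_gt_three
  apply fi_le_of_cos ⟨hR1, hR2⟩ (by positivity) (by nlinarith) ht0 (by linarith)
  rw [Real.sqrt_sq hm0.le]
  refine ((o_cos ht0 ht1).trans hC).trans ?_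
  rwa [le_div_iff₀ (by positivity)]

private theorem o_cell {R κ k0 k1 x y : ℝ} (hR : OkR R) (h0 : k0 ≤ κ) (h1 : κ ≤ k1) (hk0 : 0 ≤ κ)
    (hk1 : κ ≤ 2.1434) (hx : fi R (1 + R * (2.1434 - k0)) ≤ x) (hy : fi R ((1 + k1) ^ 2) ≤ y) :
    2 * Sf R (2.1434 - κ) + fi R ((1 + κ) ^ 2) ≤ 2 * x + y := by
  have hR1 := hR.1
  have h2 : Sf R (2.1434 - κ) ≤ fi R (1 + R * (2.1434 - k0)) := by
    unfold Sf
    have h3 : 0 ≤ R * (2.1434 - κ) := mul_nonneg (by linarith) (by linarith)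
    have h4 : R * (2.1434 - κ) ≤ R * (2.1434 - k0) := mul_le_mul_of_nonneg_left (by linarith) (by linarith)
    exact fi_mono hR (by linarith) (by linarith)
  have h5 : fi R ((1 + κ) ^ 2) ≤ fi R ((1 + k1) ^ 2) :=
    fi_mono hR (by positivity) (pow_le_pow_left₀ (by linarith) (by linarith) 2)
  linarith

theorem numO {R κ : ℝ} (hR : OkR R) (h0 : R - 2 ≤ κ) (h1 : κ ≤ 2.1434 - (R - 2)) :
    2 * Sf R (2.1434 - κ) + fi R ((1 + κ) ^ 2) < 0.9245 := by
  have hR1 := hR.1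
  have hR2 := hR.2
  have hr : 0 ≤ R - 2.7692 := by linarith
  rcases le_total κ 0.9 with h | h
  · have h2 := o_cell (k0 := 0.7692) (k1 := 0.9) (x := 0.334) (y := 0.225) hR (by linarith) h
      (by linarith) (by linarith)
      (o_sf (C := 0.94478) hR (by norm_num) (by norm_num) (by norm_num) (by norm_num)
        (by norm_num) (by norm_num) (by nlinarith))
      (o_fm (C := 0.97482) hR (by norm_num) (by norm_num) (by norm_num) (by norm_num)
        (by norm_num) (by nlinarith))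
    linarith
  rcases le_total κ 1.05 with h' | h'
  · have h2 := o_cell (k0 := 0.9) (k1 := 1.05) (x := 0.3135) (y := 0.295) hR h h'
      (by linarith) (by linarith)
      (o_sf (C := 0.9513) hR (by norm_num) (by norm_num) (by norm_num) (by norm_num)
        (by norm_num) (by norm_num) (by nlinarith))
      (o_fm (C := 0.95683) hR (by norm_num) (by norm_num) (by norm_num) (by norm_num)
        (by norm_num) (by nlinarith))
    linarith
  rcases le_total κ 1.2 with h'' | h''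
  · have h2 := o_cell (k0 := 1.05) (k1 := 1.2) (x := 0.28) (y := 0.34) hR h' h''
      (by linarith) (by linarith)
      (o_sf (C := 0.9611) hR (by norm_num) (by norm_num) (by norm_num) (by norm_num)
        (by norm_num) (by norm_num) (by nlinarith))
      (o_fm (C := 0.9429) hR (by norm_num) (by norm_num) (by norm_num) (by norm_num)
        (by norm_num) (by nlinarith))
    linarith
  · have h2 := o_cell (k0 := 1.2) (k1 := 1.4) (x := 0.26) (y := 0.3695) hR h'' (by linarith)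
      (by linarith) (by linarith)
      (o_sf (C := 0.9665) hR (by norm_num) (by norm_num) (by norm_num) (by norm_num)
        (by norm_num) (by norm_num) (by nlinarith))
      ((fi_le hR (by norm_num)).trans (phm_hi hR).le)
    linarith

end Pool.Agent.TD25
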