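import Pool.Agent.TD25.Cusp
import Pool.Agent.TD25.Sep9
import Pool.Agent.TD25.NumO
import Pool.Agent.PalM.Taylor

/-!
# TD25/Opp: a point of the circle of disk `n` and the opposite cusp are not in one unit disk

Setting: `‖y - b n‖ = 1`; `P` is a cusp of disks `n + 4`, `n + 5`. Suppose both are in an open unit disk; then `‖y - P‖ < 2`.
Write `κy = ‖y‖`, `κ = ‖P‖`, `φ n = r.p n`, `phm < 0.3695`.
(1) `lift_sphere` gives a lift `ty` of `y` with `|ty - β n| = ang κy (d n) ≤ arcsin (1/d n)`; `cusp` gives a lift `t` of `P`.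
`Z = t - ty ≥ β (n+5) - ang κ (d (n+5)) - β n - ang κy (d n) ≥ (β (n+5) - β n + φ n + φ (n+5)) - 1.66` (`ep` twice)
`> 2π - 6 phm - 1.66 > 2.406` (`win_lo`, `n < n + 5 < n + 9`). In the same way `2π - Z = (ty + 2π) - t ≥ β (n+9) - ... - β (n+4) - ...
≥ (β (n+9) - β (n+4) + φ (n+4) + φ (n+9)) - 1.66 > 2π - 6 phm - 1.66 > 2.406` (`win_lo` for `n+4 < n + 9 < n + 13`).
So `1.203 < Z/2 < π - 1.203` and `sin (Z/2) > sin 1.203 > 0.93309`.
(2) `sub_ge`: `(κy + κ) sin (Z/2) ≤ ‖y - P‖ < 2`, so `κy + κ < 2.1434`.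
Precisely: `2π - 6 * 0.3695 - 1.66 > 2.40618`, `sin 1.20309 > 0.93315 > 2/2.1434`. So `κ < 2.1434 - κy`.
(3) `κy > R - 2`, `κ > R - 2` (`cusp_norm`), so `κy < 2.1434 - (R - 2)`. Budget: `2π = β (n+9) - β n` is the sum of nine gaps; eight of
them are `< φ j + φ (j+1)` (`r.ov`) and `φ (n+4) + g (n+4) + φ (n+5) ≤ 4 Sf R κ` (`cusp_S`). Sum:
`2π ≤ 2 φ n + 2 (six other φ) + 4 Sf R κ ≤ 2 φ n + 12 phm + 4 Sf R κ`. `φ n = fi R ((d n)^2) ≤ fi R ((1 + κy)^2)` (`fi_mono`,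
`d n ≤ κy + 1`) and `Sf R κ ≤ Sf R (2.1434 - κy)` (`fi_mono`). So `π - 6 * 0.3695 ≤ fi R ((1+κy)^2) + 2 Sf R (2.1434 - κy) < 0.9245` by
`numO`, but `π - 2.217 > 0.9245`. Contradiction.
-/

set_option autoImplicit false

namespace Pool.Agent.TD25

open Real

theorem opp {R : ℝ} (hR : OkR R) (r : Ring R 9) (n : ℤ) (y P A : ℂ) (hy : ‖y - r.b n‖ = 1)
    (h1 : ‖P - r.b (n + 4)‖ = 1) (h2 : ‖P - r.b (n + 5)‖ = 1) (h3 : ‖P‖ < R) :
    ¬ (‖y - A‖ < 1 ∧ ‖P - A‖ < 1) := by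
  rintro ⟨hyA, hPA⟩
  have hyP : ‖y - P‖ < 2 := by
    have h := norm_sub_le (y - A) (P - A)
    rw [show y - A - (P - A) = y - P by ring] at h
    linarith
  obtain ⟨r1, r2⟩ := id hR
  have hpi1 := Real.pi_gt_d6
  have hpi2 := Real.pi_lt_d6
  have hph := phm_hi hR
  have hd : 1 < r.d n := by have := r.lo n; linarith
  obtain ⟨ty, ty1, ty2, ty3⟩ := lift_sphere (b := r.β n) hd hy
  have h2' : ‖P - r.b (n + 4 + 1)‖ = 1 := by
    rw [show n + 4 + 1 = n + 5 by ring]; exact h2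
  obtain ⟨t, t1, t2, t3, t4, t5⟩ := cusp hR r (n + 4) P h1 h2'
  have hS := cusp_S hR r (n + 4) P h1 h2' h3
  rw [show n + 4 + 1 = n + 5 by ring] at t3 t5 hS
  have e0 := ep hR (r.lo n).le (r.hi n)
  have e4 := ep hR (r.lo (n + 4)).le (r.hi (n + 4))
  have e5 := ep hR (r.lo (n + 5)).le (r.hi (n + 5))
  have w1 := Ring.win_lo hR r (n := n) (k := n + 5) (by omega) (by push_cast; omega)
  have w2 := Ring.win_lo hR r (n := n + 4) (k := n + 9) (by omega) (by push_cast; omega)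
  have p9 : r.p (n + 9) = r.p n := by
    have := Ring.per_p r n
    push_cast at this
    exact this
  have b9 : r.β (n + 9) = r.β n + 2 * π := by
    have := r.per_β n
    push_cast at this
    exact this
  push_cast at w1 w2
  rw [p9, b9] at w2
  have q0 : r.p n = fi R (r.d n ^ 2) := rfl
  have q4 : r.p (n + 4) = fi R (r.d (n + 4) ^ 2) := rfl
  have q5 : r.p (n + 5) = fi R (r.d (n + 5) ^ 2) := rfl
  rw [← q0] at e0
  rw [← q4] at e4
  rw [← q5] at e5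
  have a0 : |ty - r.β n| ≤ arcsin (1 / r.d n) := by rw [ty2]; exact ty3
  have a4 : |t - r.β (n + 4)| ≤ arcsin (1 / r.d (n + 4)) := by rw [t2]; exact t4
  have a5 : |t - r.β (n + 5)| ≤ arcsin (1 / r.d (n + 5)) := by rw [t3]; exact t5
  rw [abs_le] at a0 a4 a5
  have z1 : 2.406184 < t - ty := by linarith [a0.1, a0.2, a5.1, a5.2]
  have z2 : 2.406184 < 2 * π - (t - ty) := by linarith [a0.1, a0.2, a4.1, a4.2]
  have hsin : 0.9331 < sin ((t - ty) / 2) := by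
    rw [← cos_pi_div_two_sub, ← cos_abs]
    have hx : |π / 2 - (t - ty) / 2| ≤ 0.367705 := by
      rw [abs_le]; constructor <;> linarith
    have h4 := cos_le_cos_of_nonneg_of_le_pi (abs_nonneg _) (by linarith) hx
    have h5 := Pool.Agent.PalM.cos_ge6 (x := 0.367705) (by norm_num)
    have h6 : (0.9331 : ℝ) < 1 - 0.367705 ^ 2 / 2 + 0.367705 ^ 4 / 24 - 0.367705 ^ 6 / 720 := by norm_num
    linarith
  have hsub := sub_ge (a := ‖y‖) (c := ‖P‖) (t := ty) (t' := t)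
  rw [← ty1, ← t1] at hsub
  obtain ⟨ny, ny'⟩ := norm_pos_of_ball (b := r.β n) hd (le_of_eq hy)
  obtain ⟨nP, -⟩ := cusp_norm hR r (n + 4) P h1.le
  have hlo := r.lo n
  have hsum : ‖y‖ + ‖P‖ < 2.1434 := by
    by_contra hcon
    push Not at hcon
    have h4 : 2 < (‖y‖ + ‖P‖) * sin ((t - ty) / 2) := by
      have : 2.1434 * 0.9331 ≤ (‖y‖ + ‖P‖) * sin ((t - ty) / 2) :=
        mul_le_mul hcon hsin.le (by norm_num) (by positivity)
      linarith
    have h5 : ‖y - P‖ ^ 2 < 2 ^ 2 := pow_lt_pow_left₀ hyP (norm_nonneg _) (by norm_num)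
    have h6 : (2 : ℝ) ^ 2 < ((‖y‖ + ‖P‖) * sin ((t - ty) / 2)) ^ 2 := pow_lt_pow_left₀ h4 (by norm_num) (by norm_num)
    linarith
  have hnum := numO hR (κ := ‖y‖) (by linarith) (by linarith)
  have m1 : r.p n ≤ fi R ((1 + ‖y‖) ^ 2) := by
    rw [q0]
    apply fi_mono hR (by positivity)
    apply pow_le_pow_left₀ (by linarith)
    linarith
  have m2 : Sf R ‖P‖ ≤ Sf R (2.1434 - ‖y‖) := by
    unfold Sf
    apply fi_mono hR
    · have : 0 ≤ R * ‖P‖ := by positivity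
      linarith
    · have : R * ‖P‖ ≤ R * (2.1434 - ‖y‖) := mul_le_mul_of_nonneg_left (by linarith) (by linarith)
      linarith
  have ov : ∀ j : ℤ, r.β (j + 1) - r.β j < r.p j + r.p (j + 1) := r.ov
  have o0 := ov n
  have o1 := ov (n + 1)
  have o2 := ov (n + 2)
  have o3 := ov (n + 3)
  have o5 := ov (n + 5)
  have o6 := ov (n + 6)
  have o7 := ov (n + 7)
  have o8 := ov (n + 8)
  rw [show n + 1 + 1 = n + 2 by ring] at o1
  rw [show n + 2 + 1 = n + 3 by ring] at o2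
  rw [show n + 3 + 1 = n + 4 by ring] at o3
  rw [show n + 5 + 1 = n + 6 by ring] at o5
  rw [show n + 6 + 1 = n + 7 by ring] at o6
  rw [show n + 7 + 1 = n + 8 by ring] at o7
  rw [show n + 8 + 1 = n + 9 by ring, p9, b9] at o8
  have l1 := Ring.p_le hR r (n + 1)
  have l2 := Ring.p_le hR r (n + 2)
  have l3 := Ring.p_le hR r (n + 3)
  have l6 := Ring.p_le hR r (n + 6)
  have l7 := Ring.p_le hR r (n + 7)
  have l8 := Ring.p_le hR r (n + 8)
  linarith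

end Pool.Agent.TD25
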