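import Pool.Agent.SB19.Check2

/-!
# TD25/Tool: the verified Taylor models of `SB19/Check2` on boxes with endpoints in units of `2 ^ (-20)`
-/

set_option autoImplicit false

namespace Pool.Agent.TD25

open Pool.Agent.SB19

theorem box_aux {x : ℝ} {a b : ℕ} (hab : a ≤ b) (h1 : (a : ℝ) ≤ 1048576 * x) (h2 : 1048576 * x ≤ b) :
    |(S : ℝ) * x - (((a + b) * 524288 : ℕ) : ℝ)| ≤ (((b - a) * 524288 : ℕ) : ℝ) := by
  have hS : (S : ℝ) = 1048576 * 1048576 := by unfold S; norm_num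
  rw [hS]
  push_cast [Nat.cast_sub hab]
  rw [abs_le]
  constructor <;> nlinarith

/-- At every point of the box, some `d ∈ ds` is nonnegative or all `p ∈ ps` are nonnegative. -/
theorem of_box (ps ds : List Ex) (t : Tr2) (ax bx ay b' az bz : ℕ) (hx : ax ≤ bx) (hy : ay ≤ b') (hz : az ≤ bz)
    (h : chk2 ps ds t ((ax + bx) * 524288) ((bx - ax) * 524288) ((ay + b') * 524288) ((b' - ay) * 524288)
      ((az + bz) * 524288) ((bz - az) * 524288) = true)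
    {x y z : ℝ} (hx1 : (ax : ℝ) ≤ 1048576 * x) (hx2 : 1048576 * x ≤ bx) (hy1 : (ay : ℝ) ≤ 1048576 * y)
    (hy2 : 1048576 * y ≤ b') (hz1 : (az : ℝ) ≤ 1048576 * z) (hz2 : 1048576 * z ≤ bz) :
    (∃ d ∈ ds, 0 ≤ d.eval x y z) ∨ ∀ p ∈ ps, 0 ≤ p.eval x y z := by
  have p0 : ∀ {a : ℕ} {x : ℝ}, (a : ℝ) ≤ 1048576 * x → 0 ≤ x := by
    intro a x h
    have := Nat.cast_nonneg (α := ℝ) a
    nlinarith
  exact nonneg_of_chk2 ps ds t _ _ _ _ _ _ h x y z (p0 hx1) (p0 hy1) (p0 hz1) (box_aux hx hx1 hx2)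
    (box_aux hy hy1 hy2) (box_aux hz hz1 hz2)

end Pool.Agent.TD25
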