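import Pool.Agent.TD25.OptS
import Pool.Agent.TD25.Fi
import Pool.Agent.TD25.Tool

/-!
# TD25/OptNum: numerical facts for the existence of the optimal parameters (verified Taylor models)
-/

set_option autoImplicit false

namespace Pool.Agent.TD25

open Real Pool.Agent.SB19

def exH : Ex := (.nmul 2 (.mul (.inv .sq3) (.sin .X)))

def exQ : Ex := (.add (.ndiv 2 (.nmul 2 (.mul (.inv .sq3) (.sin .X)))) (.cos .X))

def exV2 : Ex := (.add (.ndiv 3 .pi) (.neg (.add (.add (.num 1308997 1250000) (.mul (.add (.cos (.num 397459 1250000)) (.neg (.mul (.add (.num 16672462899703569 2500000000000000) (.mul (.add (.num 1 1) exQ) (.add (.num 1 1) exQ))) (.inv (.mul (.num 138464663 25000000) (.add (.num 1 1) exQ)))))) (.inv (.sin (.num 397459 1250000))))) (.mul (.add (.cos (.num 455769 625000)) (.neg (.mul (.add (.num 14172462899703569 2500000000000000) (.mul (.add (.num 1 1) exH) (.add (.num 1 1) exH))) (.inv (.add (.num 2 1) (.mul (.num 138464663 25000000)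 (.add (.num 1 1) exH))))))) (.inv (.sin (.num 455769 625000)))))))

def exA1 : Ex := (.add (.cos (.num 1589835807 5000000000)) (.neg (.mul (.add (.num 4168115655693561 625000000000000) (.mul (.add (.num 1 1) exQ) (.add (.num 1 1) exQ))) (.inv (.mul (.num 69232331 12500000) (.add (.num 1 1) exQ))))))

def exA2 : Ex := (.add (.cos (.num 3646151951 5000000000)) (.neg (.mul (.add (.num 3543115655693561 625000000000000) (.mul (.add (.num 1 1) exH) (.add (.num 1 1) exH))) (.inv (.add (.num 2 1) (.mul (.num 69232331 12500000) (.add (.num 1 1) exH)))))))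

def exA3 : Ex := (.add (.num 2617993879 2500000000) (.neg (.ndiv 3 .pi)))

def exN3 : Ex := (.add (.mul (.mul (.mul (.mul (.add (.add (.mul .Z .Z) (.neg (.num 2 1))) (.neg (.mul .Z (.num 3541 2000)))) (.add (.mul (.num 2 1) .Y) (.neg (.num 1541 2000)))) (.mul (.add (.add (.mul .Z .Z) (.neg (.num 2 1))) (.neg (.mul .Z (.num 3541 2000)))) (.add (.mul (.num 2 1) .Y) (.neg (.num 1541 2000))))) (.mul (.add (.num 1 1) .Y) (.add (.num 1 1) .Y))) (.add (.mul (.mul (.num 4 1) (.mul .Z .Z)) (.mul (.add (.num 1 1) .Y) (.add (.num 1 1) .Y))) (.neg (.mul (.add (.add (.mul .Z .Z) (.mul (.add (.num 1 1) .Y) (.add (.num 1 1) .Y))) (.neg (.num 1 1))) (.add (.add (.mul .Z .Z) (.mul (.add (.num 1 1) .Y) (.add (.num 1 1) .Y))) (.neg (.num 1 1))))))) (.neg (.mul (.mul (.mul (.mul (.add (.add (.mul .Z .Z) (.neg (.num 1 1))) (.neg (.mul (.add (.num 1 1) .Y) (.add (.num 1 1) .Y)))) (.add (.num 1541 1000) (.neg .Y))) (.mul (.add (.add (.mul .Z .Z) (.neg (.num 1 1)))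 (.neg (.mul (.add (.num 1 1) .Y) (.add (.num 1 1) .Y)))) (.add (.num 1541 1000) (.neg .Y)))) (.mul (.add (.num 1 1) (.mul .Z (.num 3541 2000))) (.add (.num 1 1) (.mul .Z (.num 3541 2000))))) (.add (.num 4 1) (.neg (.mul (.add .Z (.neg (.num 3541 2000))) (.add .Z (.neg (.num 3541 2000)))))))))

def exN4 : Ex := (.neg (.add (.mul (.mul (.mul (.mul (.add (.add (.mul .Z .Z) (.neg (.num 2 1))) (.neg (.mul .Z (.num 8853 5000)))) (.add (.mul (.num 2 1) .Y) (.neg (.num 3853 5000)))) (.mul (.add (.add (.mul .Z .Z) (.neg (.num 2 1))) (.neg (.mul .Z (.num 8853 5000)))) (.add (.mul (.num 2 1) .Y) (.neg (.num 3853 5000))))) (.mul (.add (.num 1 1) .Y) (.add (.num 1 1) .Y))) (.add (.mul (.mul (.num 4 1) (.mul .Z .Z)) (.mul (.add (.num 1 1) .Y) (.add (.num 1 1) .Y))) (.neg (.mul (.add (.add (.mul .Z .Z) (.mul (.add (.num 1 1) .Y) (.add (.num 1 1) .Y))) (.neg (.num 1 1))) (.add (.add (.mul .Z .Z) (.mul (.add (.num 1 1) .Y) (.add (.num 1 1) .Y))) (.neg (.num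 1 1))))))) (.neg (.mul (.mul (.mul (.mul (.add (.add (.mul .Z .Z) (.neg (.num 1 1))) (.neg (.mul (.add (.num 1 1) .Y) (.add (.num 1 1) .Y)))) (.add (.num 3853 2500) (.neg .Y))) (.mul (.add (.add (.mul .Z .Z) (.neg (.num 1 1))) (.neg (.mul (.add (.num 1 1) .Y) (.add (.num 1 1) .Y)))) (.add (.num 3853 2500) (.neg .Y)))) (.mul (.add (.num 1 1) (.mul .Z (.num 8853 5000))) (.add (.num 1 1) (.mul .Z (.num 8853 5000))))) (.add (.num 4 1) (.neg (.mul (.add .Z (.neg (.num 8853 5000))) (.add .Z (.neg (.num 8853 5000))))))))))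

theorem chkV2 : chk2 [.add exV2 (.neg (.num 1 10000000000))] [] .L ((766027 + 766150) * 524288) ((766150 - 766027) * 524288) ((0 + 1) * 524288) ((1 - 0) * 524288)
    ((0 + 1) * 524288) ((1 - 0) * 524288) = true := by
  decide +kernel

theorem chkA : chk2 [exA1, exA2, exA3] [] .L ((766068 + 766068) * 524288) ((766068 - 766068) * 524288) ((0 + 1) * 524288) ((1 - 0) * 524288)
    ((0 + 1) * 524288) ((1 - 0) * 524288) = true := by
  decide +kernel

theorem chkN3 : chk2 [.add exN3 (.neg (.num 1 1000))] [] .L ((0 + 1) * 524288) ((1 - 0) * 524288) ((1184957 + 1184958) * 524288) ((1184958 - 1184957) * 524288)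
    ((2903814 + 2903815) * 524288) ((2903815 - 2903814) * 524288) = true := by
  decide +kernel

theorem chkN4 : chk2 [.add exN4 (.neg (.num 1 1000))] [] .L ((0 + 1) * 524288) ((1 - 0) * 524288) ((1184928 + 1184929) * 524288) ((1184929 - 1184928) * 524288)
    ((2903814 + 2903815) * 524288) ((2903815 - 2903814) * 524288) = true := by
  decide +kernel

theorem chkBl : chk2 [.add (.num 7705 10000) (.neg exH)] [] .L ((766027 + 766027) * 524288) ((766027 - 766027) * 524288)
    ((0 + 1) * 524288) ((1 - 0) * 524288) ((0 + 1) * 524288) ((1 - 0) * 524288) = true := by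
  decide +kernel

theorem chkBh : chk2 [.add exH (.neg (.num 7706 10000))] [] .L ((766150 + 766150) * 524288) ((766150 - 766150) * 524288)
    ((0 + 1) * 524288) ((1 - 0) * 524288) ((0 + 1) * 524288) ((1 - 0) * 524288) = true := by
  decide +kernel

theorem chkB0 : chk2 [.add exH (.neg (.num 7705 10000)), .add (.num 7706 10000) (.neg exH)] [] .L
    ((766068 + 766068) * 524288) ((766068 - 766068) * 524288)
    ((0 + 1) * 524288) ((1 - 0) * 524288) ((0 + 1) * 524288) ((1 - 0) * 524288) = true := by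
  decide +kernel

theorem qcB {h : ℝ} (h1 : 0.7705 ≤ h) (h2 : h ≤ 0.7706) : 1.13003 ≤ qc h ∧ qc h ≤ 1.13007 := by
  have e3 : 0.744735 + (0.7706 - h) * 0.77 ≤ √(1 - 3 * h ^ 2 / 4) := le_sqrt_of_sq_le (by nlinarith)
  have e4 : √(1 - 3 * h ^ 2 / 4) ≤ 0.744815 - (h - 0.7705) * 0.77 := by
    rw [sqrt_le_left (by nlinarith)]; nlinarith
  unfold qc
  constructor <;> linarith

/-- Parametrisation: `h = (2/√3) sin B`, `qc h = h/2 + cos B`. -/
theorem paramB {h : ℝ} (h1 : 0.7705 ≤ h) (h2 : h ≤ 0.7706) :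
    ∃ B : ℝ, ((766027 : ℕ) : ℝ) ≤ 1048576 * B ∧ 1048576 * B ≤ ((766150 : ℕ) : ℝ) ∧ h = exH.eval B 0 0 ∧ qc h = exQ.eval B 0 0 := by
  have s3 : √3 * √3 = (3 : ℝ) := mul_self_sqrt (by norm_num)
  have s30 : 0 < √3 := sqrt_pos.2 (by norm_num)
  have s31 : √3 ≤ 1.7321 := by
    rw [sqrt_le_left (by norm_num)]; norm_num
  have hs1 : h * √3 / 2 ≤ 1 := by nlinarith
  have hs0 : 0 ≤ h * √3 / 2 := by positivity
  have hB : sin (arcsin (h * √3 / 2)) = h * √3 / 2 := sin_arcsin (by linarith) hs1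
  have hc : cos (arcsin (h * √3 / 2)) = √(1 - 3 * h ^ 2 / 4) := by
    rw [cos_arcsin]
    congr 1
    have : (h * √3 / 2) ^ 2 = h ^ 2 * (√3 * √3) / 4 := by ring
    rw [this, s3]; ring
  set B := arcsin (h * √3 / 2) with hBdef
  have hB0 : 0 ≤ B := arcsin_nonneg.2 hs0
  have hB1 : B ≤ π / 2 := arcsin_le_pi_div_two _
  have eH : ∀ x : ℝ, exH.eval x 0 0 = 2 * (√3)⁻¹ * sin x := by
    intro x; simp only [exH, Ex.eval]; push_cast; ring
  have hh : h = exH.eval B 0 0 := by
    rw [eH, hB]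
    field_simp
  refine ⟨B, ?_, ?_, hh, ?_⟩
  · by_contra hcon
    rw [not_le] at hcon
    rcases of_box _ _ _ _ _ _ _ _ _ (by norm_num) (by norm_num) (by norm_num) chkBl (x := (766027 : ℝ) / 1048576)
      (y := 0) (z := 0) (by norm_num) (by norm_num) (by norm_num) (by norm_num) (by norm_num) (by norm_num) with k | k
    · obtain ⟨d, hd, -⟩ := k
      exact absurd hd (by simp)
    · have k1 := k _ (List.mem_singleton_self _)
      have e : Ex.eval ((766027 : ℝ) / 1048576) 0 0 (.add (.num 7705 10000) (.neg exH)) =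
          0.7705 - 2 * (√3)⁻¹ * sin ((766027 : ℝ) / 1048576) := by
        rw [← eH]; simp only [Ex.eval]; push_cast; ring
      rw [e] at k1
      have k2 : sin B < sin ((766027 : ℝ) / 1048576) := by
        refine sin_lt_sin_of_lt_of_le_pi_div_two (by linarith [pi_pos]) ?_ ?_
        · have := pi_gt_three; norm_num; linarith
        · rw [lt_div_iff₀ (by norm_num)]
          push_cast at hcon
          linarith
      have k3 : 0 < (√3)⁻¹ := inv_pos.2 s30
      rw [eH] at hh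
      nlinarith
  · by_contra hcon
    rw [not_le] at hcon
    rcases of_box _ _ _ _ _ _ _ _ _ (by norm_num) (by norm_num) (by norm_num) chkBh (x := (766150 : ℝ) / 1048576)
      (y := 0) (z := 0) (by norm_num) (by norm_num) (by norm_num) (by norm_num) (by norm_num) (by norm_num) with k | k
    · obtain ⟨d, hd, -⟩ := k
      exact absurd hd (by simp)
    · have k1 := k _ (List.mem_singleton_self _)
      have e : Ex.eval ((766150 : ℝ) / 1048576) 0 0 (.add exH (.neg (.num 7706 10000))) =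
          2 * (√3)⁻¹ * sin ((766150 : ℝ) / 1048576) - 0.7706 := by
        rw [← eH]; simp only [Ex.eval]; push_cast; ring
      rw [e] at k1
      have k2 : sin ((766150 : ℝ) / 1048576) < sin B := by
        refine sin_lt_sin_of_lt_of_le_pi_div_two ?_ hB1 ?_
        · have := pi_gt_three; norm_num; linarith
        · rw [div_lt_iff₀ (by norm_num)]
          push_cast at hcon
          linarith
      have k3 : 0 < (√3)⁻¹ := inv_pos.2 s30
      rw [eH] at hh
      nlinarith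
  · have e : exQ.eval B 0 0 = exH.eval B 0 0 / 2 + cos B := by
      simp only [exQ, exH, Ex.eval]; push_cast; ring
    rw [e, ← hh, hc]
    rfl

theorem qc_of {B : ℝ} (h0 : 0 ≤ B) (h1 : B ≤ π / 2) : qc (exH.eval B 0 0) = exQ.eval B 0 0 := by
  have s3 : √3 * √3 = (3 : ℝ) := mul_self_sqrt (by norm_num)
  have s30 : 0 < √3 := sqrt_pos.2 (by norm_num)
  have eH : exH.eval B 0 0 = 2 * (√3)⁻¹ * sin B := by
    simp only [exH, Ex.eval]; push_cast; ring
  have e : exQ.eval B 0 0 = exH.eval B 0 0 / 2 + cos B := by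
    simp only [exQ, exH, Ex.eval]; push_cast; ring
  have hc : 0 ≤ cos B := cos_nonneg_of_mem_Icc ⟨by linarith [pi_pos], h1⟩
  have h2 : 1 - 3 * (exH.eval B 0 0) ^ 2 / 4 = cos B ^ 2 := by
    rw [eH]
    have h3 : (√3)⁻¹ * (√3)⁻¹ = (1 / 3 : ℝ) := by
      rw [← mul_inv, s3]; norm_num
    have h4 := sin_sq_add_cos_sq B
    have h5 : (2 * (√3)⁻¹ * sin B) ^ 2 = 4 * ((√3)⁻¹ * (√3)⁻¹) * sin B ^ 2 := by ring
    rw [h5, h3]
    linarith
  unfold qc
  rw [h2, sqrt_sq hc, e]

theorem cos_ff {R q : ℝ} (hR1 : 2.7692 ≤ R) (hR2 : R ≤ 2.7694) (h1 : 1.1 ≤ q) (h2 : q ≤ 1.2) :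
    cos (ff R q) = (R ^ 2 - 1 + (1 + q) ^ 2) * (2 * R * (1 + q))⁻¹ ∧ 0 ≤ ff R q ∧ ff R q ≤ 0.37 := by
  have hR : OkR R := ⟨hR1, hR2⟩
  refine ⟨?_, fi_nonneg _ _, ?_⟩
  · unfold ff
    rw [cos_fi hR (by nlinarith) (by nlinarith), sqrt_sq (by linarith), div_eq_mul_inv]
  · have := fi_le hR (show 0 < (1 + q) ^ 2 by positivity)
    have := phm_hi hR
    unfold ff
    linarith

theorem cos_gg {R h : ℝ} (hR1 : 2.7692 ≤ R) (hR2 : R ≤ 2.7694) (h1 : 0.7 ≤ h) (h2 : h ≤ 0.8) :
    cos (gg R h) = (R ^ 2 - 2 + (1 + h) ^ 2) * (2 + 2 * R * (1 + h))⁻¹ ∧ 0 ≤ gg R h ∧ gg R h ≤ 0.74 := by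
  have hR : OkR R := ⟨hR1, hR2⟩
  have hM : 0 < 1 + R * (1 + h) := by nlinarith
  refine ⟨?_, ?_, ?_⟩
  · unfold gg
    rw [cos_two_mul, cos_fi hR (by nlinarith) (by nlinarith)]
    have hs : √(1 + R * (1 + h)) ^ 2 = 1 + R * (1 + h) := sq_sqrt hM.le
    have hR0 : R ≠ 0 := by linarith
    have h5 : R ^ 2 - 1 + (1 + R * (1 + h)) = R * (R + (1 + h)) := by ring
    rw [h5, div_pow, mul_pow, mul_pow, mul_pow, hs]
    have h6 : (2 + 2 * R * (1 + h)) = 2 * (1 + R * (1 + h)) := by ring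
    rw [h6]
    field_simp
    ring
  · have := fi_nonneg R (1 + R * (1 + h))
    unfold gg
    linarith
  · have := fi_le hR hM
    have := phm_hi hR
    unfold gg
    linarith

theorem optN1 : ∃ h : ℝ, 0.7705 ≤ h ∧ h ≤ 0.7706 ∧ π / 3 ≤ ff 2.76929324 (qc h) + gg 2.76929324 h := by
  have hpi := pi_gt_three
  have hq := qc_of (B := (766068 : ℝ) / 1048576) (by norm_num) (by norm_num; linarith)
  set h := exH.eval ((766068 : ℝ) / 1048576) 0 0 with hh
  have hb : 0.7705 ≤ h ∧ h ≤ 0.7706 := by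
    rcases of_box _ _ _ _ _ _ _ _ _ (by norm_num) (by norm_num) (by norm_num) chkB0 (x := (766068 : ℝ) / 1048576)
      (y := 0) (z := 0) (by norm_num) (by norm_num) (by norm_num) (by norm_num) (by norm_num) (by norm_num) with k | k
    · obtain ⟨d, hd, -⟩ := k
      exact absurd hd (by simp)
    · have k1 := k (.add exH (.neg (.num 7705 10000))) (by simp)
      have k2 := k (.add (.num 7706 10000) (.neg exH)) (by simp)
      have e1 : Ex.eval ((766068 : ℝ) / 1048576) 0 0 (.add exH (.neg (.num 7705 10000))) = h - 0.7705 := by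
        rw [hh]; simp only [Ex.eval]; push_cast; ring
      have e2 : Ex.eval ((766068 : ℝ) / 1048576) 0 0 (.add (.num 7706 10000) (.neg exH)) = 0.7706 - h := by
        rw [hh]; simp only [Ex.eval]; push_cast; ring
      rw [e1] at k1
      rw [e2] at k2
      constructor <;> linarith
  have hqb := qcB hb.1 hb.2
  refine ⟨h, hb.1, hb.2, ?_⟩
  obtain ⟨c1, c2, c3⟩ := cos_ff (R := 2.76929324) (q := qc h) (by norm_num) (by norm_num) (by linarith) (by linarith)
  obtain ⟨d1, d2, d3⟩ := cos_gg (R := 2.76929324) (h := h) (by norm_num) (by norm_num) (by linarith) (by linarith)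
  rcases of_box _ _ _ _ _ _ _ _ _ (by norm_num) (by norm_num) (by norm_num) chkA (x := (766068 : ℝ) / 1048576)
    (y := 0) (z := 0) (by norm_num) (by norm_num) (by norm_num) (by norm_num) (by norm_num) (by norm_num) with k | k
  · obtain ⟨d, hd, -⟩ := k
    exact absurd hd (by simp)
  · have k1 := k exA1 (by simp)
    have k2 := k exA2 (by simp)
    have k3 := k exA3 (by simp)
    have e1 : exA1.eval ((766068 : ℝ) / 1048576) 0 0 = cos ((3179671614 / 10000000000)) - cos (ff 2.76929324 (qc h)) := by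
      rw [c1, hq]; simp only [exA1, exQ, Ex.eval]; push_cast; norm_num; ring_nf
    have e2 : exA2.eval ((766068 : ℝ) / 1048576) 0 0 = cos ((7292303902 / 10000000000)) - cos (gg 2.76929324 h) := by
      rw [d1, hh]; simp only [exA2, exH, Ex.eval]; push_cast; norm_num; ring_nf
    have e3 : exA3.eval ((766068 : ℝ) / 1048576) 0 0 = (3179671614 / 10000000000) + (7292303902 / 10000000000) - π / 3 := by
      simp only [exA3, Ex.eval]; push_cast; ring
    rw [e1] at k1
    rw [e2] at k2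
    rw [e3] at k3
    have g1 : (3179671614 / 10000000000) ≤ ff 2.76929324 (qc h) := by
      by_contra hcon
      rw [not_le] at hcon
      have := cos_lt_cos_of_nonneg_of_le_pi c2 (by linarith) hcon
      linarith
    have g2 : (7292303902 / 10000000000) ≤ gg 2.76929324 h := by
      by_contra hcon
      rw [not_le] at hcon
      have := cos_lt_cos_of_nonneg_of_le_pi d2 (by linarith) hcon
      linarith
    linarith

theorem optN2 {h : ℝ} (h1 : 0.7705 ≤ h) (h2 : h ≤ 0.7706) : ff 2.76929326 (qc h) + gg 2.76929326 h < π / 3 := by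
  have hpi := pi_gt_three
  obtain ⟨B, hB1, hB2, hh, hq⟩ := paramB h1 h2
  have hqb := qcB h1 h2
  obtain ⟨c1, c2, c3⟩ := cos_ff (R := 2.76929326) (q := qc h) (by norm_num) (by norm_num) (by linarith) (by linarith)
  obtain ⟨d1, d2, d3⟩ := cos_gg (R := 2.76929326) (h := h) (by norm_num) (by norm_num) (by linarith) (by linarith)
  have t1 := cos_tangent (t := ff 2.76929326 (qc h)) (t0 := (3179672 / 10000000)) c2 (by linarith) (by norm_num)
    (by linarith)
  have t2 := cos_tangent (t := gg 2.76929326 h) (t0 := (7292304 / 10000000)) d2 (by linarith) (by norm_num)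
    (by linarith)
  have s1 : 0 < sin ((3179672 / 10000000) : ℝ) := sin_pos_of_pos_of_lt_pi (by norm_num) (by linarith)
  have s2 : 0 < sin ((7292304 / 10000000) : ℝ) := sin_pos_of_pos_of_lt_pi (by norm_num) (by linarith)
  rcases of_box _ _ _ _ _ _ _ _ _ (by norm_num) (by norm_num) (by norm_num) chkV2 (x := B)
    (y := 0) (z := 0) hB1 hB2 (by norm_num) (by norm_num) (by norm_num) (by norm_num) with k | k
  · obtain ⟨d, hd, -⟩ := k
    exact absurd hd (by simp)
  · have k1 := k _ (List.mem_singleton_self _)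
    have e1 : Ex.eval B 0 0 (.add exV2 (.neg (.num 1 10000000000))) =
        π / 3 - ((3179672 / 10000000) + (7292304 / 10000000) + (cos (3179672 / 10000000) - cos (ff 2.76929326 (qc h))) * (sin (3179672 / 10000000))⁻¹ +
          (cos (7292304 / 10000000) - cos (gg 2.76929326 h)) * (sin (7292304 / 10000000))⁻¹) - 1 / 10000000000 := by
      rw [c1, d1, hq, hh]; simp only [exV2, exQ, exH, Ex.eval]; push_cast; norm_num; ring_nf
    rw [e1] at k1
    have g1 : ff 2.76929326 (qc h) - (3179672 / 10000000) ≤ (cos (3179672 / 10000000) - cos (ff 2.76929326 (qc h))) * (sin (3179672 / 10000000))⁻¹ := by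
      rw [← div_eq_mul_inv, le_div_iff₀ s1]; linarith
    have g2 : gg 2.76929326 h - (7292304 / 10000000) ≤ (cos (7292304 / 10000000) - cos (gg 2.76929326 h)) * (sin (7292304 / 10000000))⁻¹ := by
      rw [← div_eq_mul_inv, le_div_iff₀ s2]; linarith
    linarith

theorem cross {N1 N2 d M W s a b : ℝ} (hd : 0 < d) (hM : 0 < M) (hW : 0 < W) (hs : 0 < s) (h0 : 0 ≤ N2 * b)
    (h : (N1 * a) ^ 2 * M ^ 2 * s < (N2 * b) ^ 2 * d ^ 2 * W) :
    N1 / (d * √W) * a < N2 / (M * √s) * b := by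
  have w1 : √W ^ 2 = W := sq_sqrt hW.le
  have w2 : √s ^ 2 = s := sq_sqrt hs.le
  have w3 : 0 < √W := sqrt_pos.2 hW
  have w4 : 0 < √s := sqrt_pos.2 hs
  have h1 : N1 * a * M * √s < N2 * b * d * √W := by
    refine abs_lt_of_sq_lt_sq' ?_ (by positivity) |>.2
    have e1 : (N1 * a * M * √s) ^ 2 = (N1 * a) ^ 2 * M ^ 2 * √s ^ 2 := by ring
    have e2 : (N2 * b * d * √W) ^ 2 = (N2 * b) ^ 2 * d ^ 2 * √W ^ 2 := by ring
    rw [e1, e2, w1, w2]
    exact h
  rw [div_mul_eq_mul_div, div_mul_eq_mul_div, div_lt_div_iff₀ (by positivity) (by positivity)]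
  nlinarith

theorem cross' {N1 N2 d M W s a b : ℝ} (hd : 0 < d) (hM : 0 < M) (hW : 0 < W) (hs : 0 < s) (h0 : 0 ≤ N1 * a)
    (h : (N2 * b) ^ 2 * d ^ 2 * W < (N1 * a) ^ 2 * M ^ 2 * s) :
    N2 / (M * √s) * b < N1 / (d * √W) * a :=
  cross hM hd hs hW h0 h

theorem optN3 {R : ℝ} (hR1 : 2.76929324 ≤ R) (hR2 : R ≤ 2.76929326) :
    fp R (qc 0.7705) * (2 * 0.7705 - qc 0.7705) < gp R 0.7705 * (2 * qc 0.7705 - 0.7705) := by
  have q1 : 1184957 ≤ 1048576 * qc 0.7705 := by
    have : ((1184957 : ℝ) / 1048576 - 0.7705 / 2) ≤ √(1 - 3 * 0.7705 ^ 2 / 4) := le_sqrt_of_sq_le (by norm_num)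
    unfold qc
    linarith
  have q2 : 1048576 * qc 0.7705 ≤ 1184958 := by
    have : √(1 - 3 * 0.7705 ^ 2 / 4) ≤ ((1184958 : ℝ) / 1048576 - 0.7705 / 2) := by
      rw [sqrt_le_left (by norm_num)]; norm_num
    unfold qc
    linarith
  set q := qc 0.7705 with hq
  rcases of_box _ _ _ _ _ _ _ _ _ (by norm_num) (by norm_num) (by norm_num) chkN3 (x := 0)
    (y := q) (z := R) (by norm_num) (by norm_num) (by exact_mod_cast q1) (by exact_mod_cast q2) (by norm_num; linarith)
    (by norm_num; linarith) with k | k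
  · obtain ⟨d, hd, -⟩ := k
    exact absurd hd (by simp)
  · have k1 := k _ (List.mem_singleton_self _)
    unfold fp gp
    have hW : 0 < 4 * R ^ 2 * (1 + q) ^ 2 - (R ^ 2 + (1 + q) ^ 2 - 1) ^ 2 := by
      have : 4 * R ^ 2 * (1 + q) ^ 2 - (R ^ 2 + (1 + q) ^ 2 - 1) ^ 2 =
        (1 - (R - (1 + q)) ^ 2) * ((R + (1 + q)) ^ 2 - 1) := by ring
      rw [this]
      exact mul_pos (by nlinarith) (by nlinarith)
    refine cross (by linarith) (by nlinarith) hW (by nlinarith) (mul_nonneg (by nlinarith) (by linarith)) ?_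
    have e1 : Ex.eval 0 q R (.add exN3 (.neg (.num 1 1000))) =
      ((R ^ 2 - 2 - R * (1 + 0.7705)) * (2 * q - 0.7705)) ^ 2 * (1 + q) ^ 2 *
          (4 * R ^ 2 * (1 + q) ^ 2 - (R ^ 2 + (1 + q) ^ 2 - 1) ^ 2) -
        ((R ^ 2 - 1 - (1 + q) ^ 2) * (2 * 0.7705 - q)) ^ 2 * (1 + R * (1 + 0.7705)) ^ 2 * (4 - (R - 1 - 0.7705) ^ 2) -
        1 / 1000 := by
      simp only [exN3, Ex.eval]; push_cast; norm_num; ring_nf
    rw [e1] at k1
    linarith

theorem optN4 {R : ℝ} (hR1 : 2.76929324 ≤ R) (hR2 : R ≤ 2.76929326) :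
    gp R 0.7706 * (2 * qc 0.7706 - 0.7706) < fp R (qc 0.7706) * (2 * 0.7706 - qc 0.7706) := by
  have q1 : 1184928 ≤ 1048576 * qc 0.7706 := by
    have : ((1184928 : ℝ) / 1048576 - 0.7706 / 2) ≤ √(1 - 3 * 0.7706 ^ 2 / 4) := le_sqrt_of_sq_le (by norm_num)
    unfold qc
    linarith
  have q2 : 1048576 * qc 0.7706 ≤ 1184929 := by
    have : √(1 - 3 * 0.7706 ^ 2 / 4) ≤ ((1184929 : ℝ) / 1048576 - 0.7706 / 2) := by
      rw [sqrt_le_left (by norm_num)]; norm_num
    unfold qc
    linarith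
  set q := qc 0.7706 with hq
  rcases of_box _ _ _ _ _ _ _ _ _ (by norm_num) (by norm_num) (by norm_num) chkN4 (x := 0)
    (y := q) (z := R) (by norm_num) (by norm_num) (by exact_mod_cast q1) (by exact_mod_cast q2) (by norm_num; linarith)
    (by norm_num; linarith) with k | k
  · obtain ⟨d, hd, -⟩ := k
    exact absurd hd (by simp)
  · have k1 := k _ (List.mem_singleton_self _)
    unfold fp gp
    have hW : 0 < 4 * R ^ 2 * (1 + q) ^ 2 - (R ^ 2 + (1 + q) ^ 2 - 1) ^ 2 := by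
      have : 4 * R ^ 2 * (1 + q) ^ 2 - (R ^ 2 + (1 + q) ^ 2 - 1) ^ 2 =
        (1 - (R - (1 + q)) ^ 2) * ((R + (1 + q)) ^ 2 - 1) := by ring
      rw [this]
      exact mul_pos (by nlinarith) (by nlinarith)
    refine cross' (by linarith) (by nlinarith) hW (by nlinarith) (mul_nonneg (by nlinarith) (by linarith)) ?_
    have e1 : Ex.eval 0 q R (.add exN4 (.neg (.num 1 1000))) =
      ((R ^ 2 - 1 - (1 + q) ^ 2) * (2 * 0.7706 - q)) ^ 2 * (1 + R * (1 + 0.7706)) ^ 2 * (4 - (R - 1 - 0.7706) ^ 2) -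
      ((R ^ 2 - 2 - R * (1 + 0.7706)) * (2 * q - 0.7706)) ^ 2 * (1 + q) ^ 2 *
          (4 * R ^ 2 * (1 + q) ^ 2 - (R ^ 2 + (1 + q) ^ 2 - 1) ^ 2) - 1 / 1000 := by
      simp only [exN4, Ex.eval]; push_cast; norm_num; ring_nf
    rw [e1] at k1
    linarith

end Pool.Agent.TD25
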