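import Pool.Agent.TD25.FDefs

/-!
# TD25/OptS: optimal parameters with sharper bounds
-/

set_option autoImplicit false

namespace Pool.Agent.TD25

open Real

/-- The extremal parameters with sharper numerical bounds. -/
structure OptS (R h q : ℝ) : Prop extends Opt R h q where
  h3 : 0.7705 ≤ h
  h4 : h ≤ 0.7706
  q3 : 1.13003 ≤ q
  q4 : q ≤ 1.13007

/-- The distance `q` at which the inner disks with centres of norm `h` meet: `h^2 + q^2 - h q = 1`. -/
noncomputable def qc (h : ℝ) : ℝ := h / 2 + √(1 - 3 * h ^ 2 / 4)

end Pool.Agent.TD25
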