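import Pool.Agent.TD25.XXb

/-!
# TD25/Pair: the inner common point (cusp) of two neighbouring disks of a ring

Proof. Let `c = pt d2 b2`. `Q t = (1 + t^2) (1 - ‖XX d1 b1 t - c‖^2)` is a polynomial of degree at most 2 in `t`:
`XX - c = (pt d1 b1 - c) - e^{i b1} w`, `w = (1 - t i)/(1 + t i) = (1 - t i)^2 / (1 + t^2)`,
`‖XX - c‖^2 = ‖pt d1 b1 - c‖^2 - 2 Re ((pt d1 b1 - c) conj (e^{i b1} w)) + 1`.
`quad_sign`: if a polynomial `Q t = x t^2 + y t + z` has `Q t1 < 0 < Q t2`, `t1 < t2`, then there is `u ∈ (t1, t2)` with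
`Q u = 0`, `Q < 0` on `[t1, u)`, `Q > 0` on `(u, t2]`. (Intermediate value theorem gives `u`; `Q t = (t - u) (x (t + u) + y)`,
the linear factor is positive at `t1` and `t2`, hence on `[t1, t2]`.)
At `t = tR R d1`: `XX = pt R (b1 + p1)` with `p1 = fi R (d1^2)` (`XX_tR`) and `|b1 + p1 - b2| < p2` (from `ov` and `nn`), so
it is inside disk 2 (`arc_iff`, `k = 0`): `Q > 0`. At `t = - tR R d1`: the point is `pt R (b1 - p1)`,
`b2 - p2 - (b1 - p1) > 0` by `nn` and `b2 - b1 < p1 + p2 < 0.74` gives `p2 < |b1 - p1 - b2 - 2 π k|` for all `k`, so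
`Q < 0` (`arc_out`). So `u` exists with the property for disk 1. Symmetrically for disk 2 with disk 1 (the function
`(1 + t^2) (1 - ‖XX d2 b2 t - pt d1 b1‖^2)` is positive at `- tR R d2` and negative at `tR R d2`), giving `v`.
The point `x = XX d1 b1 u` has `‖x - pt d2 b2‖ = 1`, `‖x‖ < R < d2 + 1`, so `x = XX d2 b2 v'` (`XX_surj`) with `|v'| < tR R d2`
(`XX_lt_iff`), and `‖x - pt d1 b1‖ = 1`: the quadratic polynomial of disk 2 vanishes at `v'`, so `v' = v` (it vanishes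
only at `v` in the interval).
-/

set_option autoImplicit false

namespace Pool.Agent.TD25

open Real

theorem quad_sign (x y z t1 t2 : ℝ) (h : t1 < t2) (h1 : x * t1 ^ 2 + y * t1 + z < 0)
    (h2 : 0 < x * t2 ^ 2 + y * t2 + z) :
    ∃ u : ℝ, t1 < u ∧ u < t2 ∧ x * u ^ 2 + y * u + z = 0 ∧
      (∀ t, t1 ≤ t → t < u → x * t ^ 2 + y * t + z < 0) ∧ ∀ t, u < t → t ≤ t2 → 0 < x * t ^ 2 + y * t + z := by
  have hc : ContinuousOn (fun t : ℝ => x * t ^ 2 + y * t + z) (Set.Icc t1 t2) :=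
    Continuous.continuousOn (by fun_prop)
  obtain ⟨u, ⟨hu1, hu2⟩, hu⟩ := intermediate_value_Ioo h.le hc ⟨h1, h2⟩
  simp only at hu
  have key : ∀ t : ℝ, x * t ^ 2 + y * t + z = (t - u) * (x * (t + u) + y) := by
    intro t
    have : x * t ^ 2 + y * t + z = (x * t ^ 2 + y * t + z) - (x * u ^ 2 + y * u + z) := by
      rw [hu, sub_zero]
    rw [this]
    ring
  have a1 : 0 < x * (t1 + u) + y := by
    rw [key t1] at h1
    by_contra hc'
    push Not at hc'
    have := mul_nonneg_of_nonpos_of_nonpos (by linarith : t1 - u ≤ 0) hc'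
    linarith
  have a2 : 0 < x * (t2 + u) + y := by
    rw [key t2] at h2
    by_contra hc'
    push Not at hc'
    have := mul_nonpos_of_nonneg_of_nonpos (by linarith : 0 ≤ t2 - u) hc'
    linarith
  have a3 : ∀ t, t1 ≤ t → t ≤ t2 → 0 < x * (t + u) + y := by
    intro t b1 b2
    rcases le_total 0 x with hx | hx
    · have := mul_le_mul_of_nonneg_left b1 hx
      nlinarith
    · have := mul_le_mul_of_nonpos_left b2 hx
      nlinarith
  refine ⟨u, hu1, hu2, hu, fun t b1 b2 => ?_, fun t b1 b2 => ?_⟩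
  · rw [key t]
    exact mul_neg_of_neg_of_pos (by linarith) (a3 t b1 (by linarith))
  · rw [key t]
    exact mul_pos (by linarith) (a3 t (by linarith) b2)

/-- The quadratic polynomial of a disk. -/
private theorem pair_quad (d b : ℝ) (c : ℂ) : ∃ x y z : ℝ, ∀ t : ℝ,
    (1 + t ^ 2) * (1 - ‖XX d b t - c‖ ^ 2) = x * t ^ 2 + y * t + z := by
  set E : ℂ := Complex.exp ((b : ℂ) * Complex.I) with hE
  have hE0 : E ≠ 0 := Complex.exp_ne_zero _
  have hEn : ‖E‖ = 1 := Complex.norm_exp_ofReal_mul_I b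
  set p : ℝ := (c / E).re with hp
  set q : ℝ := (c / E).im with hq
  refine ⟨-((d - p) ^ 2 + q ^ 2) - 2 * (d - p), 4 * q, -((d - p) ^ 2 + q ^ 2) + 2 * (d - p),
    fun t => ?_⟩
  have hden : (1 + (t : ℂ) * Complex.I) ≠ 0 := by
    intro h
    have := congrArg Complex.re h
    simp at this
  have h1 : (1 + t ^ 2 : ℝ) ≠ 0 := by positivity
  have h2 : (1 + (t : ℂ) ^ 2) ≠ 0 := by exact_mod_cast h1
  have hc : c = E * ((p : ℂ) + (q : ℂ) * Complex.I) := by
    have : (p : ℂ) + (q : ℂ) * Complex.I = c / E := Complex.re_add_im _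
    rw [this]
    field_simp
  have hw : (1 - (t : ℂ) * Complex.I) / (1 + (t : ℂ) * Complex.I) =
      (((1 - t ^ 2) / (1 + t ^ 2) : ℝ) : ℂ) - ((2 * t / (1 + t ^ 2) : ℝ) : ℂ) * Complex.I := by
    rw [div_eq_iff hden]
    push_cast
    field_simp
    ring_nf
    rw [show Complex.I ^ 2 = -1 from Complex.I_sq]
    ring
  have e : XX d b t - c = E * (((d - (1 - t ^ 2) / (1 + t ^ 2) - p : ℝ) : ℂ) +
      ((2 * t / (1 + t ^ 2) - q : ℝ) : ℂ) * Complex.I) := by
    rw [hc]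
    unfold XX
    rw [← hE, hw]
    push_cast
    ring
  have e2 : ‖XX d b t - c‖ ^ 2 = (d - (1 - t ^ 2) / (1 + t ^ 2) - p) ^ 2 +
      (2 * t / (1 + t ^ 2) - q) ^ 2 := by
    rw [e, norm_mul, hEn, one_mul, Complex.sq_norm, Complex.normSq_add_mul_I]
  rw [e2]
  field_simp
  ring

/-- The cusp on one circle, from outside at `-T` to inside at `T`. -/
private theorem pair_side {d b T : ℝ} {c : ℂ} (hT : 0 < T) (h1 : 1 < ‖XX d b (-T) - c‖)
    (h2 : ‖XX d b T - c‖ < 1) :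
    ∃ u : ℝ, |u| < T ∧ ‖XX d b u - c‖ = 1 ∧ (∀ t : ℝ, |t| ≤ T → (‖XX d b t - c‖ < 1 ↔ u < t)) ∧
      ∀ t : ℝ, |t| ≤ T → ‖XX d b t - c‖ = 1 → t = u := by
  obtain ⟨x, y, z, hq⟩ := pair_quad d b c
  have hpos : ∀ t : ℝ, 0 < x * t ^ 2 + y * t + z ↔ ‖XX d b t - c‖ < 1 := by
    intro t
    have h0 := norm_nonneg (XX d b t - c)
    rw [← hq t]
    rw [mul_pos_iff_of_pos_left (by positivity), sub_pos]
    constructor
    · intro h
      by_contra hc'
      push Not at hc'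
      nlinarith
    · intro h
      nlinarith
  have hneg : ∀ t : ℝ, x * t ^ 2 + y * t + z < 0 ↔ 1 < ‖XX d b t - c‖ := by
    intro t
    have h0 := norm_nonneg (XX d b t - c)
    have hp : (0 : ℝ) < 1 + t ^ 2 := by positivity
    rw [← hq t]
    constructor
    · intro h
      by_contra hc'
      push Not at hc'
      have : 0 ≤ (1 + t ^ 2) * (1 - ‖XX d b t - c‖ ^ 2) := mul_nonneg hp.le (by nlinarith)
      linarith
    · intro h
      exact mul_neg_of_pos_of_neg hp (by nlinarith)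
  obtain ⟨u, a1, a2, a3, a4, a5⟩ := quad_sign x y z (-T) T (by linarith) ((hneg _).2 h1) ((hpos _).2 h2)
  refine ⟨u, abs_lt.2 ⟨a1, a2⟩, ?_, fun t ht => ?_, fun t ht h1 => ?_⟩
  · have hn := hneg u
    have hp := hpos u
    rw [a3] at hn hp
    have c1 : ¬ (‖XX d b u - c‖ < 1) := fun h => lt_irrefl _ (hp.2 h)
    have c2 : ¬ (1 < ‖XX d b u - c‖) := fun h => lt_irrefl _ (hn.2 h)
    linarith
  · rw [abs_le] at ht
    rw [← hpos t]
    constructor
    · intro h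
      by_contra hc'
      push Not at hc'
      rcases hc'.eq_or_lt with h' | h'
      · rw [h', a3] at h
        exact lt_irrefl _ h
      · have := a4 t ht.1 h'
        linarith
    · intro h
      exact a5 t h ht.2
  · rw [abs_le] at ht
    rcases lt_trichotomy t u with h | h | h
    · have := (hneg t).1 (a4 t ht.1 h)
      linarith
    · exact h
    · have := (hpos t).1 (a5 t h ht.2)
      linarith

/-- Reflection. -/
private theorem pair_conj (d b t : ℝ) (c : ℂ) :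
    ‖XX d (-b) (-t) - (starRingEnd ℂ) c‖ = ‖XX d b t - c‖ := by
  have : XX d (-b) (-t) - (starRingEnd ℂ) c = (starRingEnd ℂ) (XX d b t - c) := by
    unfold XX
    simp only [map_sub, map_mul, map_div₀, map_add, map_one, Complex.conj_ofReal, Complex.conj_I,
      ← Complex.exp_conj]
    push_cast
    ring_nf
  rw [this, RCLike.norm_conj]

/-- `u`, `v` are unique by the last two properties. -/
theorem pair {R d1 d2 b1 b2 : ℝ} (hR : OkR R) (l1 : R - 1 < d1) (u1 : d1 ^ 2 ≤ R ^ 2 - 1) (l2 : R - 1 < d2)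
    (u2 : d2 ^ 2 ≤ R ^ 2 - 1) (ov : b2 - b1 < fi R (d1 ^ 2) + fi R (d2 ^ 2))
    (nn : |fi R (d2 ^ 2) - fi R (d1 ^ 2)| < b2 - b1) :
    ∃ u v : ℝ, |u| < tR R d1 ∧ |v| < tR R d2 ∧ XX d1 b1 u = XX d2 b2 v ∧
      (∀ t : ℝ, |t| ≤ tR R d1 → (‖XX d1 b1 t - pt d2 b2‖ < 1 ↔ u < t)) ∧
      (∀ t : ℝ, |t| ≤ tR R d2 → (‖XX d2 b2 t - pt d1 b1‖ < 1 ↔ t < v)) := by
  have hd1 : 1 < d1 := by linarith [hR.1]
  have hd2 : 1 < d2 := by linarith [hR.1]
  have hp1 : fi R (d1 ^ 2) < 0.3695 := lt_of_le_of_lt (fi_le hR (by positivity)) (phm_hi hR)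
  have hp2 : fi R (d2 ^ 2) < 0.3695 := lt_of_le_of_lt (fi_le hR (by positivity)) (phm_hi hR)
  have hp1' := fi_nonneg R (d1 ^ 2)
  have hp2' := fi_nonneg R (d2 ^ 2)
  have hpi := Real.pi_gt_three
  obtain ⟨n1, n2⟩ := abs_lt.1 nn
  -- a real number `s` with `p < s < 2` (or `-2 < s < -p`) is far from all multiples of `2 π`
  have far : ∀ (p s : ℝ), 0 ≤ p → p < 0.3695 → (p < s ∧ s < 2 ∨ -2 < s ∧ s < -p) → ∀ k : ℤ,
      p < |s - 2 * π * k| := by
    intro p s hp hp' hs k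
    rcases lt_trichotomy k 0 with hk | hk | hk
    · have hk' : (k : ℝ) ≤ -1 := by exact_mod_cast Int.le_sub_one_of_lt hk
      have h3 : 2 * π * k ≤ -6 := by nlinarith
      refine lt_of_lt_of_le ?_ (le_abs_self _)
      rcases hs with hs | hs <;> linarith
    · subst hk
      rw [Int.cast_zero, mul_zero, sub_zero]
      rcases hs with hs | hs
      · exact lt_of_lt_of_le hs.1 (le_abs_self _)
      · exact lt_of_lt_of_le (by linarith) (neg_le_abs _)
    · have hk' : (1 : ℝ) ≤ k := by exact_mod_cast hk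
      have h3 : 6 ≤ 2 * π * k := by nlinarith
      refine lt_of_lt_of_le ?_ (neg_le_abs _)
      rcases hs with hs | hs <;> linarith
  have t1 := tR_pos hR l1 u1
  have t2 := tR_pos hR l2 u2
  -- disk 1
  have i1 : ‖XX d1 b1 (tR R d1) - pt d2 b2‖ < 1 := by
    rw [XX_tR hR l1 u1, arc_iff hR l2.le u2]
    refine ⟨0, ?_⟩
    rw [Int.cast_zero, mul_zero, sub_zero, abs_lt]
    constructor <;> linarith
  have o1 : 1 < ‖XX d1 b1 (-tR R d1) - pt d2 b2‖ := by
    rw [XX_tR_neg hR l1 u1]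
    refine arc_out hR l2.le u2 ?_
    exact far _ _ hp2' hp2 (Or.inr ⟨by linarith, by linarith⟩)
  obtain ⟨u, hu1, hu2, hu3, -⟩ := pair_side t1 o1 i1
  -- disk 2, reflected
  have i2 : ‖XX d2 b2 (-tR R d2) - pt d1 b1‖ < 1 := by
    rw [XX_tR_neg hR l2 u2, arc_iff hR l1.le u1]
    refine ⟨0, ?_⟩
    rw [Int.cast_zero, mul_zero, sub_zero, abs_lt]
    constructor <;> linarith
  have o2 : 1 < ‖XX d2 b2 (tR R d2) - pt d1 b1‖ := by
    rw [XX_tR hR l2 u2]
    refine arc_out hR l1.le u1 ?_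
    exact far _ _ hp1' hp1 (Or.inl ⟨by linarith, by linarith⟩)
  have i2' : ‖XX d2 (-b2) (tR R d2) - (starRingEnd ℂ) (pt d1 b1)‖ < 1 := by
    have := pair_conj d2 b2 (-tR R d2) (pt d1 b1)
    rw [neg_neg] at this
    rw [this]
    exact i2
  have o2' : 1 < ‖XX d2 (-b2) (-tR R d2) - (starRingEnd ℂ) (pt d1 b1)‖ := by
    rw [pair_conj]
    exact o2
  obtain ⟨v, hv1, hv2, hv3, hv4⟩ := pair_side t2 o2' i2'
  have hv3' : ∀ t : ℝ, |t| ≤ tR R d2 → (‖XX d2 b2 t - pt d1 b1‖ < 1 ↔ t < -v) := by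
    intro t ht
    rw [← pair_conj, hv3 (-t) (by rwa [abs_neg])]
    constructor <;> intro h <;> linarith
  -- the common point
  have hxR : ‖XX d1 b1 u‖ < R := (XX_lt_iff hR l1 u1 b1 u).2 hu1
  obtain ⟨v', hv'⟩ := XX_surj (d := d2) (b := b2) (x := XX d1 b1 u) hd2 hu2 (by linarith)
  have hv'1 : |v'| < tR R d2 := by
    rw [← XX_lt_iff hR l2 u2 b2 v', ← hv']
    exact hxR
  have hv'2 : ‖XX d2 b2 v' - pt d1 b1‖ = 1 := by
    rw [← hv']
    exact XX_sub d1 b1 u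
  have h5 : -v' = v := by
    refine hv4 (-v') (by rw [abs_neg]; exact hv'1.le) ?_
    rw [pair_conj]
    exact hv'2
  refine ⟨u, -v, hu1, by rwa [abs_neg], ?_, hu3, hv3'⟩
  rw [← h5, neg_neg]
  exact hv'

end Pool.Agent.TD25
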