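import Pool.Agent.TD25.Defs

/-!
# TD25/PullIn: a unit disk whose centre is too far away can be replaced by a better one

Proof. Let `t = (R^2 - 1) / ‖b‖^2 < 1`, `b' = t b`. Then `‖b'‖^2 = t^2 ‖b‖^2 = t (R^2 - 1) ≤ R^2 - 1`. If `‖x‖ ≤ R` and
`‖x - b‖ < 1` then `2 ⟨x, b⟩ > ‖x‖^2 + ‖b‖^2 - 1`, so
`‖x - t b‖^2 = ‖x‖^2 - 2 t ⟨x, b⟩ + t^2 ‖b‖^2 < (1 - t) ‖x‖^2 + t - t (1 - t) ‖b‖^2 ≤ (1 - t) R^2 + t - (1 - t) (R^2 - 1) = 1`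
(used `t ‖b‖^2 = R^2 - 1`, `0 < t`, `t < 1`).
-/

set_option autoImplicit false

namespace Pool.Agent.TD25

theorem pull_in {R : ℝ} (hR : 1 < R) (b : ℂ) (hb : R ^ 2 - 1 < ‖b‖ ^ 2) :
    ∃ b' : ℂ, ‖b'‖ ^ 2 ≤ R ^ 2 - 1 ∧ ∀ x : ℂ, ‖x‖ ≤ R → ‖x - b‖ < 1 → ‖x - b'‖ < 1 := by
  have hR2 : 0 < R ^ 2 - 1 := by nlinarith
  have hb0 : 0 < ‖b‖ ^ 2 := hR2.trans hb
  set t : ℝ := (R ^ 2 - 1) / ‖b‖ ^ 2 with ht
  have ht0 : 0 < t := div_pos hR2 hb0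
  have ht1 : t < 1 := (div_lt_one hb0).mpr hb
  have htb : t * ‖b‖ ^ 2 = R ^ 2 - 1 := div_mul_cancel₀ _ hb0.ne'
  have hn : ∀ z : ℂ, ‖z‖ ^ 2 = z.re ^ 2 + z.im ^ 2 := by
    intro z
    rw [Complex.sq_norm, Complex.normSq_apply]; ring
  refine ⟨(t : ℂ) * b, ?_, ?_⟩
  · rw [norm_mul, Complex.norm_real, Real.norm_of_nonneg ht0.le, mul_pow]
    nlinarith
  · intro x hx hxb
    have hx2 : ‖x‖ ^ 2 ≤ R ^ 2 := by
      have := norm_nonneg x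
      nlinarith
    have hxb2 : ‖x - b‖ ^ 2 < 1 := by
      have := norm_nonneg (x - b)
      nlinarith
    have key : ‖x - (t : ℂ) * b‖ ^ 2 < 1 := by
      rw [hn] at hx2 hxb2 htb ⊢
      simp only [Complex.sub_re, Complex.sub_im, Complex.mul_re, Complex.mul_im,
        Complex.ofReal_re, Complex.ofReal_im, zero_mul, sub_zero, add_zero] at hx2 hxb2 htb ⊢
      have h1 : x.re ^ 2 + x.im ^ 2 + (b.re ^ 2 + b.im ^ 2) - 1 <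
          2 * (x.re * b.re + x.im * b.im) := by nlinarith
      have h2 : (x.re - t * b.re) ^ 2 + (x.im - t * b.im) ^ 2 =
          (x.re ^ 2 + x.im ^ 2) - t * (2 * (x.re * b.re + x.im * b.im)) +
            t * (t * (b.re ^ 2 + b.im ^ 2)) := by ring
      rw [h2, htb]
      have h3 := mul_lt_mul_of_pos_left h1 ht0
      have h4 : (1 - t) * (x.re ^ 2 + x.im ^ 2) ≤ (1 - t) * R ^ 2 :=
        mul_le_mul_of_nonneg_left hx2 (by linarith)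
      nlinarith
    have := norm_nonneg (x - (t : ℂ) * b)
    nlinarith

end Pool.Agent.TD25
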