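import Mathlib

/-!
# TD25/RingEx: an irredundant covering of the circle by arcs is a ring (abstract form)

`m ≥ 3` open arcs `{t | ∃ k : ℤ, |t - b i - 2 π k| < p i}`, `0 < p i < π / 4`, cover the circle (`hc`) and no arc can be
omitted (`hmin`: for each `i` there is a point covered by no other arc). Then the arcs can be listed in cyclic order:
`g : ℤ → ℝ` strictly increasing lifts of the midpoints (`g n = b (s n) + 2 π k`), `s : ℤ → Fin m`, periodic.

Proof. (0) If `arc i ⊆ arc j` for some `j ≠ i` then `hmin i` fails (the point of `hmin i` is covered by some arc by `hc`,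
which must be `i`, so `j` covers it). In particular the midpoints are distinct modulo `2π` (if `b i ≡ b j` and
`p i ≤ p j`, then `arc i ⊆ arc j`).
(1) Let `c i ∈ [0, 2π)` be `b i` reduced modulo `2π` (`toIcoMod`), an injective function `Fin m → ℝ`. Sort it: there is a
permutation `e` of `Fin m` with `c ∘ e` strictly increasing (`Tuple.sort`, or `Finset.orderIsoOfFin` of the image).
Define for `n = m q + r`, `0 ≤ r < m`: `g n = c (e r) + 2 π q`, `s n = e r`. Then `g` is strictly increasing (within a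
period by sorting, across periods because `c` has values in `[0, 2π)`), `g (n + m) = g n + 2 π`, `s (n + m) = s n`, every
lift `b i + 2 π k` is some `g l` with `s l = i`, and `s l = s n` only if `m ∣ l - n` (then `|g l - g n| ≥ 2π` if `l ≠ n`).
(2) Overlap: suppose `g (n+1) - g n ≥ p (s n) + p (s (n+1))`. The point `t = g n + p (s n)` is covered by an arc, i.e.
`|t - g l| < p (s l)` for some `l`. `l ≠ n`; also `s l ≠ s n` (otherwise `|g l - g n| ≥ 2π` and
`|t - g l| ≥ 2π - p (s n) ≥ p (s l)`). If `l < n`: `p (s l) > t - g l ≥ p (s n) + (g n - g l)`, so the arc of `n` is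
contained in the arc of `l`, contradiction to (0). If `l ≥ n + 1`: `p (s l) > g l - t ≥ g l - g (n+1) + p (s (n+1))`
(because `t ≤ g (n+1) - p (s (n+1))`), so `l ≠ n+1`, `s l ≠ s (n+1)` (as before: otherwise `g l ≥ g (n+1) + 2π` and
`p (s l) > 2π`), and the arc of `n+1` is contained in the arc of `l`: contradiction to (0).
(3) Not nested: if `|p (s (n+1)) - p (s n)| ≥ g (n+1) - g n` one of the two arcs is contained in the other, and
`s n ≠ s (n+1)` because `m ≥ 2`.
-/

set_option autoImplicit false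

namespace Pool.Agent.TD25

open Real

theorem ring_exists {m : ℕ} (hm : 3 ≤ m) (b p : Fin m → ℝ) (hp : ∀ i, 0 < p i) (hp' : ∀ i, p i < π / 4)
    (hc : ∀ t : ℝ, ∃ i : Fin m, ∃ k : ℤ, |t - b i - 2 * π * k| < p i)
    (hmin : ∀ i : Fin m, ∃ t : ℝ, ∀ j : Fin m, j ≠ i → ∀ k : ℤ, p j ≤ |t - b j - 2 * π * k|) :
    ∃ (g : ℤ → ℝ) (s : ℤ → Fin m),
      (∀ n : ℤ, g (n + m) = g n + 2 * π) ∧ (∀ n : ℤ, s (n + m) = s n) ∧ (∀ i : Fin m, ∃ n : ℤ, s n = i) ∧
      (∀ n : ℤ, ∃ k : ℤ, g n = b (s n) + 2 * π * k) ∧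
      (∀ n : ℤ, g (n + 1) - g n < p (s n) + p (s (n + 1))) ∧
      (∀ n : ℤ, |p (s (n + 1)) - p (s n)| < g (n + 1) - g n) := by
  have hpi := Real.pi_pos
  have hm0 : (0 : ℤ) < m := by
    have : 0 < m := by omega
    exact_mod_cast this
  -- (0)
  have key : ∀ i j : Fin m, i ≠ j → ∀ k : ℤ, ¬ (p i + |b i - b j - 2 * π * k| ≤ p j) := by
    intro i j hij k hk
    obtain ⟨t, ht⟩ := hmin i
    obtain ⟨i', k', hi'⟩ := hc t
    by_cases h : i' = i
    · subst h
      have h1 := ht j (Ne.symm hij) (k' + k)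
      have h2 : |t - b j - 2 * π * ((k' + k : ℤ) : ℝ)| ≤ |t - b i' - 2 * π * k'| + |b i' - b j - 2 * π * k| := by
        have : t - b j - 2 * π * ((k' + k : ℤ) : ℝ) = (t - b i' - 2 * π * k') + (b i' - b j - 2 * π * k) := by
          push_cast; ring
        rw [this]; exact abs_add_le _ _
      linarith
    · have := ht i' h k'
      linarith
  -- (1)
  obtain ⟨c, hc0, hc1, hcb⟩ : ∃ c : Fin m → ℝ, (∀ i, 0 ≤ c i) ∧ (∀ i, c i < 2 * π) ∧
      ∀ i, ∃ k : ℤ, b i = c i + 2 * π * k := by
    refine ⟨fun i => toIcoMod Real.two_pi_pos 0 (b i), fun i => ?_, fun i => ?_, fun i => ?_⟩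
    · exact (toIcoMod_mem_Ico Real.two_pi_pos 0 (b i)).1
    · have := (toIcoMod_mem_Ico Real.two_pi_pos 0 (b i)).2
      simpa using this
    · refine ⟨toIcoDiv Real.two_pi_pos 0 (b i), ?_⟩
      have := toIcoMod_add_toIcoDiv_zsmul Real.two_pi_pos 0 (b i)
      rw [zsmul_eq_mul] at this
      linarith
  have hcinj : Function.Injective c := by
    intro i j hij
    by_contra hne
    obtain ⟨ki, hki⟩ := hcb i
    obtain ⟨kj, hkj⟩ := hcb j
    rcases le_total (p i) (p j) with h | h
    · apply key i j hne (ki - kj)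
      have : b i - b j - 2 * π * ((ki - kj : ℤ) : ℝ) = 0 := by
        push_cast; rw [hki, hkj, hij]; ring
      rw [this, abs_zero]; linarith
    · apply key j i (Ne.symm hne) (kj - ki)
      have : b j - b i - 2 * π * ((kj - ki : ℤ) : ℝ) = 0 := by
        push_cast; rw [hki, hkj, hij]; ring
      rw [this, abs_zero]; linarith
  obtain ⟨e, he⟩ : ∃ e : Equiv.Perm (Fin m), StrictMono (c ∘ e) :=
    ⟨Tuple.sort c, (Tuple.monotone_sort c).strictMono_of_injective (hcinj.comp (Tuple.sort c).injective)⟩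
  have hrlt : ∀ n : ℤ, (n % (m : ℤ)).toNat < m := by
    intro n
    have h1 := Int.emod_nonneg n (ne_of_gt hm0)
    have h2 := Int.emod_lt_of_pos n hm0
    omega
  obtain ⟨r, hr⟩ : ∃ r : ℤ → Fin m, ∀ n, (((r n : Fin m) : ℕ) : ℤ) = n % m := by
    refine ⟨fun n => ⟨(n % (m : ℤ)).toNat, hrlt n⟩, fun n => ?_⟩
    exact Int.toNat_of_nonneg (Int.emod_nonneg n (ne_of_gt hm0))
  obtain ⟨s, hs⟩ : ∃ s : ℤ → Fin m, ∀ n, s n = e (r n) := ⟨_, fun n => rfl⟩
  obtain ⟨g, hg⟩ : ∃ g : ℤ → ℝ, ∀ n, g n = c (s n) + 2 * π * ((n / (m : ℤ) : ℤ) : ℝ) := ⟨_, fun n => rfl⟩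
  have hdm : ∀ n : ℤ, n = m * (n / m) + n % m := fun n => (Int.mul_ediv_add_emod n m).symm
  have hmono : StrictMono g := by
    intro n l hnl
    rw [hg, hg]
    have hq : n / (m : ℤ) ≤ l / (m : ℤ) := Int.ediv_le_ediv hm0 hnl.le
    rcases hq.eq_or_lt with h | h
    · have hrr : r n < r l := by
        rw [Fin.lt_def]
        have h1 := hr n
        have h2 := hr l
        have h3 := hdm n
        have h4 := hdm l
        rw [h] at h3
        have : n % (m : ℤ) < l % (m : ℤ) := by linarith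
        omega
      have := he hrr
      simp only [Function.comp] at this
      rw [hs, hs, h]
      linarith
    · have h1 : ((n / (m : ℤ) : ℤ) : ℝ) + 1 ≤ ((l / (m : ℤ) : ℤ) : ℝ) := by exact_mod_cast h
      have h2 := hc0 (s l)
      have h3 := hc1 (s n)
      have h4 : 2 * π * (((n / (m : ℤ) : ℤ) : ℝ) + 1) ≤ 2 * π * ((l / (m : ℤ) : ℤ) : ℝ) :=
        mul_le_mul_of_nonneg_left h1 (by positivity)
      linarith
  have hlift : ∀ n : ℤ, ∃ k : ℤ, g n = b (s n) + 2 * π * k := by
    intro n
    obtain ⟨k, hk⟩ := hcb (s n)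
    refine ⟨n / (m : ℤ) - k, ?_⟩
    rw [hg, hk]; push_cast; ring
  have hsurj : ∀ (i : Fin m) (k : ℤ), ∃ l : ℤ, s l = i ∧ g l = b i + 2 * π * k := by
    intro i k
    obtain ⟨ki, hki⟩ := hcb i
    have hlt : (((e.symm i : Fin m) : ℕ) : ℤ) < m := by exact_mod_cast (e.symm i).2
    have hge : (0 : ℤ) ≤ (((e.symm i : Fin m) : ℕ) : ℤ) := by positivity
    have h1 : ((((e.symm i : Fin m) : ℕ) : ℤ) + m * (k + ki)) % (m : ℤ) = (((e.symm i : Fin m) : ℕ) : ℤ) := by
      rw [Int.add_mul_emod_self_left]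
      exact Int.emod_eq_of_lt hge hlt
    have h2 : ((((e.symm i : Fin m) : ℕ) : ℤ) + m * (k + ki)) / (m : ℤ) = k + ki := by
      rw [Int.add_mul_ediv_left _ _ (ne_of_gt hm0), Int.ediv_eq_zero_of_lt hge hlt, zero_add]
    have h3 : r ((((e.symm i : Fin m) : ℕ) : ℤ) + m * (k + ki)) = e.symm i := by
      apply Fin.ext
      have := hr ((((e.symm i : Fin m) : ℕ) : ℤ) + m * (k + ki))
      rw [h1] at this
      exact_mod_cast this
    have h4 : s ((((e.symm i : Fin m) : ℕ) : ℤ) + m * (k + ki)) = i := by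
      rw [hs, h3]; simp
    refine ⟨_, h4, ?_⟩
    rw [hg, h4, h2, hki]; push_cast; ring
  have hgap : ∀ l n : ℤ, s l = s n → l < n → g l + 2 * π ≤ g n := by
    intro l n hsl hln
    have h1 : r l = r n := by
      have := hsl
      rw [hs, hs] at this
      exact e.injective this
    have h2 : l % (m : ℤ) = n % (m : ℤ) := by
      rw [← hr l, ← hr n, h1]
    have h3 := hdm l
    have h4 := hdm n
    have h5 : l / (m : ℤ) < n / (m : ℤ) := by
      by_contra hcon
      push Not at hcon
      have : (m : ℤ) * (n / m) ≤ m * (l / m) := mul_le_mul_of_nonneg_left hcon hm0.le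
      rw [h2] at h3
      linarith
    have h6 : ((l / (m : ℤ) : ℤ) : ℝ) + 1 ≤ ((n / (m : ℤ) : ℤ) : ℝ) := by exact_mod_cast h5
    have h7 : 2 * π * (((l / (m : ℤ) : ℤ) : ℝ) + 1) ≤ 2 * π * ((n / (m : ℤ) : ℤ) : ℝ) :=
      mul_le_mul_of_nonneg_left h6 (by positivity)
    rw [hg, hg, hsl]
    linarith
  have key' : ∀ n l : ℤ, s n ≠ s l → ¬ (p (s n) + |g n - g l| ≤ p (s l)) := by
    intro n l hnl h
    obtain ⟨kn, hkn⟩ := hlift n
    obtain ⟨kl, hkl⟩ := hlift l
    apply key (s n) (s l) hnl (kl - kn)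
    have : b (s n) - b (s l) - 2 * π * ((kl - kn : ℤ) : ℝ) = g n - g l := by
      rw [hkn, hkl]; push_cast; ring
    rw [this]; exact h
  have hsne : ∀ n : ℤ, s n ≠ s (n + 1) := by
    intro n h
    rw [hs, hs] at h
    have h1 := e.injective h
    have h2 : n % (m : ℤ) = (n + 1) % (m : ℤ) := by rw [← hr n, ← hr (n + 1), h1]
    have h3 : (m : ℤ) ∣ (n + 1) - n := by
      exact Int.ModEq.dvd h2
    have h4 : (m : ℤ) ∣ 1 := by simpa using h3
    have h5 := Int.le_of_dvd one_pos h4
    omega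
  refine ⟨g, s, ?_, ?_, ?_, hlift, ?_, ?_⟩
  · intro n
    have h1 : (n + m) % (m : ℤ) = n % m := by simp
    have h2 : (n + m) / (m : ℤ) = n / m + 1 := by
      have := Int.add_mul_ediv_left n 1 (ne_of_gt hm0)
      rw [mul_one] at this
      exact this
    have h3 : r (n + m) = r n := by
      apply Fin.ext
      have h4 := hr (n + m)
      rw [h1, ← hr n] at h4
      exact_mod_cast h4
    rw [hg, hg, hs, hs, h3, h2]; push_cast; ring
  · intro n
    have h1 : (n + m) % (m : ℤ) = n % m := by simp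
    have h3 : r (n + m) = r n := by
      apply Fin.ext
      have h4 := hr (n + m)
      rw [h1, ← hr n] at h4
      exact_mod_cast h4
    rw [hs, hs, h3]
  · intro i
    obtain ⟨l, hl, _⟩ := hsurj i 0
    exact ⟨l, hl⟩
  · intro n
    by_contra hcon
    push Not at hcon
    obtain ⟨i, k, hik⟩ := hc (g n + p (s n))
    obtain ⟨l, hli, hlg⟩ := hsurj i k
    have h1 : |g n + p (s n) - g l| < p (s l) := by
      rw [hlg, hli]
      have : g n + p (s n) - (b i + 2 * π * k) = g n + p (s n) - b i - 2 * π * k := by ring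
      rw [this]; exact hik
    have hpn := hp (s n)
    have hpn' := hp' (s n)
    have hpl := hp (s l)
    have hpl' := hp' (s l)
    have hpn1 := hp (s (n + 1))
    have hpn1' := hp' (s (n + 1))
    obtain ⟨h1a, h1b⟩ := abs_lt.1 h1
    rcases lt_trichotomy l n with hlt | heq | hgt
    · have hgl := hmono hlt
      have hsl : s n ≠ s l := by
        intro h
        have := hgap l n h.symm hlt
        linarith
      apply key' n l hsl
      rw [abs_of_pos (by linarith)]
      linarith
    · subst heq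
      linarith
    · have hle : n + 1 ≤ l := by omega
      rcases hle.eq_or_lt with h | h
      · rw [← h] at h1a h1b
        linarith
      · have hgl := hmono h
        have hsl : s (n + 1) ≠ s l := by
          intro h'
          have := hgap (n + 1) l h' h
          linarith
        apply key' (n + 1) l hsl
        rw [abs_of_neg (by linarith)]
        linarith
  · intro n
    have hgn := hmono (show n < n + 1 by omega)
    by_contra hcon
    push Not at hcon
    rcases le_abs.1 hcon with h | h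
    · apply key' n (n + 1) (hsne n)
      rw [abs_of_neg (by linarith)]
      linarith
    · apply key' (n + 1) n (hsne n).symm
      rw [abs_of_pos (by linarith)]
      linarith

end Pool.Agent.TD25
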