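import Pool.Agent.TD25.Arc
import Pool.Agent.TD25.RingEx

/-!
# TD25/RingOf: from an irredundant covering of the circle of radius `R` by unit disks to a `Ring`

Proof. Every `i` has `R - 1 < ‖b i‖` (otherwise disk `i` contains no point of the circle, `arc_none`, so the point of
`hmin i` is not covered, contradiction to `hc`). Write `b i = pt ‖b i‖ (a i)` (`exists_pt`). Apply `ring_exists` with
`b := a`, `p i := fi R (‖b i‖ ^ 2)` (`fi_pos`; `fi_le`, `phm_hi` and `0.3695 < π / 4`; `arc_iff` for `hc` and `hmin`) and put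
`d n = ‖b (s n)‖`, `β = g`. `pt (d n) (g n) = b (s n)` by `pt_add_two_pi`.
-/

set_option autoImplicit false

namespace Pool.Agent.TD25

open Real

theorem ring_of {R : ℝ} {m : ℕ} (hR : OkR R) (hm : 3 ≤ m) (b : Fin m → ℂ) (hb : ∀ i, ‖b i‖ ^ 2 ≤ R ^ 2 - 1)
    (hc : ∀ t : ℝ, ∃ i : Fin m, ‖pt R t - b i‖ < 1)
    (hmin : ∀ i : Fin m, ∃ t : ℝ, ∀ j : Fin m, j ≠ i → 1 ≤ ‖pt R t - b j‖) :
    ∃ r : Ring R m, (∀ n : ℤ, ∃ i, r.b n = b i) ∧ ∀ i : Fin m, ∃ n : ℤ, r.b n = b i := by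
  have hR1 := hR.1
  have hlo : ∀ i, R - 1 < ‖b i‖ := by
    intro i
    by_contra h
    push Not at h
    obtain ⟨t, ht⟩ := hmin i
    obtain ⟨j, hj⟩ := hc t
    by_cases hji : j = i
    · subst hji
      have := arc_none (t := t) hR h
      linarith
    · have := ht j hji
      linarith
  have hlo2 : ∀ i, (R - 1) ^ 2 < ‖b i‖ ^ 2 := fun i =>
    pow_lt_pow_left₀ (hlo i) (by linarith) (by norm_num)
  have hpos : ∀ i, 0 < ‖b i‖ ^ 2 := fun i => lt_of_le_of_lt (sq_nonneg _) (hlo2 i)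
  choose a ha using fun i => exists_pt (b i)
  have harc : ∀ i t, ‖pt R t - b i‖ < 1 ↔ ∃ k : ℤ, |t - a i - 2 * π * k| < fi R (‖b i‖ ^ 2) := by
    intro i t
    rw [← arc_iff hR (hlo i).le (hb i), ← ha i]
  obtain ⟨g, s, h1, h2, h3, h4, h5, h6⟩ := ring_exists hm a (fun i => fi R (‖b i‖ ^ 2))
    (fun i => fi_pos hR (hlo2 i))
    (fun i => by
      have e1 := fi_le hR (hpos i)
      have e2 := phm_hi hR
      have e3 := Real.pi_gt_d2
      change fi R (‖b i‖ ^ 2) < π / 4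
      linarith)
    (fun t => by
      obtain ⟨i, hi⟩ := hc t
      exact ⟨i, (harc i t).1 hi⟩)
    (fun i => by
      obtain ⟨t, ht⟩ := hmin i
      refine ⟨t, fun j hj k => ?_⟩
      by_contra hk
      push Not at hk
      have e1 := (harc j t).2 ⟨k, hk⟩
      have e2 := ht j hj
      linarith)
  have hbn : ∀ n : ℤ, pt ‖b (s n)‖ (g n) = b (s n) := by
    intro n
    obtain ⟨k, hk⟩ := h4 n
    rw [hk, pt_add_two_pi]
    exact (ha (s n)).symm
  refine ⟨{ d := fun n => ‖b (s n)‖, β := g, per_d := fun n => by rw [h2 n], per_β := h1,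
            lo := fun n => hlo (s n), hi := fun n => hb (s n), ov := h5, nn := h6 }, ?_, ?_⟩
  · intro n
    exact ⟨s n, hbn n⟩
  · intro i
    obtain ⟨n, hn⟩ := h3 i
    refine ⟨n, ?_⟩
    rw [← hn]
    exact hbn n

end Pool.Agent.TD25
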