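import Pool.Agent.TD25.PullIn
import Pool.Agent.TD25.RingOf
import Pool.Agent.TD25.NotCover
import Pool.Agent.TD25.Lam
import Pool.Agent.TD25.LemK
import Pool.Agent.TD25.Comb9
import Pool.Agent.TD25.Bridge
import Pool.Agent.TD25.Core9

/-!
# TD25/T9: nine open unit disks covering the circle of radius `R` and three more cannot cover the disk of radius `R`

Proof. (1) By `pull_in` we may assume `‖b i‖^2 ≤ R^2 - 1` for all `i` (replace `b i` by `b'`; both hypotheses are preserved).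
(2) Irredundant: for each `i` the other eight disks do not cover the circle: by contradiction every `t` has a `j ≠ i` with
`‖pt R t - b j‖ < 1`, so `R - 1 < ‖b j‖` (`arc_none`) and (`arc_iff`) the arcs `p j = fi R (‖b j‖^2) ≤ phm R < 0.3695` (put `p j = 0` for
`‖b j‖ ≤ R - 1`) of eight disks cover, contradiction to `not_cover` (`8 * 0.3695 < π`), index type `{j // j ≠ i}`.
(3) `ring_of` gives a ring `r` (m = 9), whose disks are the nine disks. `lam` with `sep9` gives cusps `P` and arcs.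
(4) `In j n := ‖P n - a j‖ < 1`. Every `P n` (norm `< R`, in the arc `L`, hence in no open ring disk) is in some ball `a j` by `cov`.
`lemK` (with `a = n`, `c = n + 3` or `n + 4`) gives `h3`, `h4` of `comb9`. Get `s`, `σ`. Put `A k = a (σ k)`.
(5) For `k = 0, 1, 2` let `n = s + 3 k`: `bridge` with `A := A (k - 1)` (contains `P (n - 1)`; for `k = 0` this is `P (s - 1)`, equal to
`P (s + 8)` by periodicity), `B := A k` (contains `P n`), `C := A (k + 1)` (contains `P (n + 4)`, the middle one of the cusps of `A (k+1)`;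
periodicity for `k = 2`). The three indices `k-1, k, k+1` are all of `Fin 3`, so `cov` has the required form. Get `Q k`.
(6) `core9` with `M k = P (s + 3 k + 1)`.
-/

set_option autoImplicit false

namespace Pool.Agent.TD25

open Real

private theorem fin3_cases (k l : Fin 3) : l = k - 1 ∨ l = k ∨ l = k + 1 := by
  fin_cases k <;> fin_cases l <;> decide

theorem T9 {R lam : ℝ} (hR : OkR R) (hl : 0 < lam) (F : FIneq R lam) (b : Fin 9 → ℂ) (a : Fin 3 → ℂ)
    (cov : ∀ x : ℂ, ‖x‖ ≤ R → (∃ i, ‖x - b i‖ < 1) ∨ ∃ j, ‖x - a j‖ < 1)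
    (cir : ∀ x : ℂ, ‖x‖ = R → ∃ i, ‖x - b i‖ < 1) : False := by
  have hR1 : 1 < R := by have := hR.1; linarith
  have hR0 : 0 ≤ R := by linarith
  -- step 1
  have hex : ∀ i, ∃ b' : ℂ, ‖b'‖ ^ 2 ≤ R ^ 2 - 1 ∧ ∀ x : ℂ, ‖x‖ ≤ R → ‖x - b i‖ < 1 → ‖x - b'‖ < 1 := by
    intro i
    by_cases h : R ^ 2 - 1 < ‖b i‖ ^ 2
    · exact pull_in hR1 (b i) h
    · exact ⟨b i, not_lt.1 h, fun x _ hx => hx⟩
  choose b' hb' hbb using hex
  -- step 2
  have hc : ∀ t : ℝ, ∃ i : Fin 9, ‖pt R t - b' i‖ < 1 := by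
    intro t
    have hn : ‖pt R t‖ = R := norm_pt hR0
    obtain ⟨i, hi⟩ := cir (pt R t) hn
    exact ⟨i, hbb i _ hn.le hi⟩
  have hang : ∀ i, ∃ t : ℝ, b' i = pt ‖b' i‖ t := fun i => exists_pt (b' i)
  choose be hbe using hang
  have hmin : ∀ i : Fin 9, ∃ t : ℝ, ∀ j : Fin 9, j ≠ i → 1 ≤ ‖pt R t - b' j‖ := by
    intro i
    classical
    have hp0 : ∀ j : {j : Fin 9 // j ≠ i},
        0 ≤ (if R - 1 < ‖b' j.1‖ then fi R (‖b' j.1‖ ^ 2) else 0) := by
      intro j
      split_ifs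
      · exact fi_nonneg _ _
      · exact le_rfl
    have hp1 : ∀ j : {j : Fin 9 // j ≠ i},
        (if R - 1 < ‖b' j.1‖ then fi R (‖b' j.1‖ ^ 2) else 0) ≤ 0.3695 := by
      intro j
      split_ifs with h
      · have h1 : 0 < ‖b' j.1‖ := by linarith
        exact (fi_le hR (by positivity)).trans (phm_hi hR).le
      · norm_num
    obtain ⟨t, ht⟩ := not_cover (fun j : {j : Fin 9 // j ≠ i} => be j.1)
      (fun j => if R - 1 < ‖b' j.1‖ then fi R (‖b' j.1‖ ^ 2) else 0) hp0 (by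
        have h1 : ∑ j : {j : Fin 9 // j ≠ i},
            (if R - 1 < ‖b' j.1‖ then fi R (‖b' j.1‖ ^ 2) else 0) ≤
            ∑ _j : {j : Fin 9 // j ≠ i}, (0.3695 : ℝ) := Finset.sum_le_sum fun j _ => hp1 j
        have h2 : Fintype.card {j : Fin 9 // j ≠ i} = 8 := by
          rw [Fintype.card_subtype_compl, Fintype.card_fin, Fintype.card_subtype_eq]
        rw [Finset.sum_const, Finset.card_univ, h2] at h1
        have h3 := pi_gt_d2
        norm_num at h1
        linarith)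
    refine ⟨t, fun j hj => ?_⟩
    by_cases h : R - 1 < ‖b' j‖
    · by_contra hlt
      rw [not_le] at hlt
      rw [hbe j] at hlt
      obtain ⟨k, hk⟩ := (arc_iff hR h.le (hb' j)).1 hlt
      have h1 := ht ⟨j, hj⟩ k
      simp only at h1
      rw [if_pos h] at h1
      linarith
    · exact arc_none hR (not_lt.1 h)
  -- step 3
  obtain ⟨r, hr1, hr2⟩ := ring_of hR (by norm_num) b' hb' hc hmin
  obtain ⟨P, hP, hL⟩ := Pool.Agent.TD25.lam hR (by norm_num) r (fun n k h1 h2 x => sep9 hR r n k h1 h2 x)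
  have hper : ∀ n : ℤ, P (n + 9) = P n := fun n => by
    have h := (hP n).2.2.2
    push_cast at h
    exact h
  have cov' : ∀ x : ℂ, ‖x‖ ≤ R → (∃ k : ℤ, ‖x - r.b k‖ < 1) ∨ ∃ j, ‖x - a j‖ < 1 := by
    intro x hx
    rcases cov x hx with ⟨i, hi⟩ | h
    · left
      obtain ⟨n, hn⟩ := hr2 i
      exact ⟨n, by rw [hn]; exact hbb i x hx hi⟩
    · exact Or.inr h
  -- step 4
  obtain ⟨s, σ, hσ⟩ := comb9 (fun j n => ‖P n - a j‖ < 1)
    (fun j n => by show ‖P (n + 9) - a j‖ < 1 ↔ _; rw [hper])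
    (fun n => by
      obtain ⟨L, -, -, h2, h3⟩ := hL n
      have h4 := h3 _ h2
      rcases cov' (P n) h4.2.1.le with ⟨k, hk⟩ | h
      · exact absurd hk (not_lt.2 (h4.2.2 k))
      · exact h)
    (fun j n => lemK hR r n (n + 3) (Or.inl rfl) (P n) (P (n + 3)) (a j) (hP n).1 (hP n).2.1
      (hP (n + 3)).1 (hP (n + 3)).2.1 (hP n).2.2.1 (hP (n + 3)).2.2.1)
    (fun j n => lemK hR r n (n + 4) (Or.inr rfl) (P n) (P (n + 4)) (a j) (hP n).1 (hP n).2.1
      (hP (n + 4)).1 (hP (n + 4)).2.1 (hP n).2.2.1 (hP (n + 4)).2.2.1)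
  -- step 5
  have hQ : ∀ k : Fin 3, ∃ Q : ℂ, ‖Q - r.b (s + 3 * (k : ℤ))‖ = 1 ∧ ‖Q - a (σ (k - 1))‖ < 1 ∧
      ‖Q - a (σ k)‖ < 1 := by
    intro k
    obtain ⟨L, hL1, hL2, hL3, hL4⟩ := hL (s + 3 * (k : ℤ))
    refine bridge hR r (s + 3 * (k : ℤ)) L hL1 (P (s + 3 * (k : ℤ) - 1)) (P (s + 3 * (k : ℤ)))
      (P (s + 3 * (k : ℤ) + 4)) (a (σ (k - 1))) (a (σ k)) (a (σ (k + 1))) hL2 hL3 hL4 ?_ ?_ ?_ ?_
      (hP _).1 ?_ (hP _).2.2.1
    · intro x hx
      rcases cov' x hx with h | ⟨j, hj⟩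
      · exact Or.inl h
      · right
        have e : j = σ (σ.symm j) := (σ.apply_symm_apply j).symm
        rcases fin3_cases k (σ.symm j) with h | h | h
        · left; rw [← h, ← e]; exact hj
        · right; left; rw [← h, ← e]; exact hj
        · right; right; rw [← h, ← e]; exact hj
    · have h := hσ (k - 1) 2
      fin_cases k
      · have e : s + 3 * (((0 : Fin 3) : ℕ) : ℤ) - 1 + 9 =
            s + 3 * ((((0 : Fin 3) - 1 : Fin 3) : ℕ) : ℤ) + (((2 : Fin 3) : ℕ) : ℤ) := by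
          have h1 : (((0 : Fin 3) - 1 : Fin 3) : ℕ) = 2 := by decide
          rw [h1]
          norm_num
          ring
        have h2 := hper (s + 3 * (((0 : Fin 3) : ℕ) : ℤ) - 1)
        rw [e] at h2
        show ‖P (s + 3 * (((0 : Fin 3) : ℕ) : ℤ) - 1) - _‖ < 1
        rw [← h2]
        exact h
      · have e : s + 3 * (((1 : Fin 3) : ℕ) : ℤ) - 1 =
            s + 3 * ((((1 : Fin 3) - 1 : Fin 3) : ℕ) : ℤ) + (((2 : Fin 3) : ℕ) : ℤ) := by
          have h1 : (((1 : Fin 3) - 1 : Fin 3) : ℕ) = 0 := by decide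
          rw [h1]
          norm_num
          ring
        show ‖P (s + 3 * (((1 : Fin 3) : ℕ) : ℤ) - 1) - _‖ < 1
        rw [e]
        exact h
      · have e : s + 3 * (((2 : Fin 3) : ℕ) : ℤ) - 1 =
            s + 3 * ((((2 : Fin 3) - 1 : Fin 3) : ℕ) : ℤ) + (((2 : Fin 3) : ℕ) : ℤ) := by
          have h1 : (((2 : Fin 3) - 1 : Fin 3) : ℕ) = 1 := by decide
          rw [h1]
          norm_num
          ring
        show ‖P (s + 3 * (((2 : Fin 3) : ℕ) : ℤ) - 1) - _‖ < 1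
        rw [e]
        exact h
    · have h := hσ k 0
      have e : s + 3 * (k : ℤ) + (((0 : Fin 3) : ℕ) : ℤ) = s + 3 * (k : ℤ) := by norm_num
      rw [e] at h
      exact h
    · have h := hσ (k + 1) 1
      fin_cases k
      · have e : s + 3 * (((0 : Fin 3) : ℕ) : ℤ) + 4 =
            s + 3 * ((((0 : Fin 3) + 1 : Fin 3) : ℕ) : ℤ) + (((1 : Fin 3) : ℕ) : ℤ) := by
          have h1 : (((0 : Fin 3) + 1 : Fin 3) : ℕ) = 1 := by decide
          rw [h1]
          norm_num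
          ring
        show ‖P (s + 3 * (((0 : Fin 3) : ℕ) : ℤ) + 4) - _‖ < 1
        rw [e]
        exact h
      · have e : s + 3 * (((1 : Fin 3) : ℕ) : ℤ) + 4 =
            s + 3 * ((((1 : Fin 3) + 1 : Fin 3) : ℕ) : ℤ) + (((1 : Fin 3) : ℕ) : ℤ) := by
          have h1 : (((1 : Fin 3) + 1 : Fin 3) : ℕ) = 2 := by decide
          rw [h1]
          norm_num
          ring
        show ‖P (s + 3 * (((1 : Fin 3) : ℕ) : ℤ) + 4) - _‖ < 1
        rw [e]
        exact h
      · have e : s + 3 * (((2 : Fin 3) : ℕ) : ℤ) + 4 =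
            s + 3 * ((((2 : Fin 3) + 1 : Fin 3) : ℕ) : ℤ) + (((1 : Fin 3) : ℕ) : ℤ) + 9 := by
          have h1 : (((2 : Fin 3) + 1 : Fin 3) : ℕ) = 0 := by decide
          rw [h1]
          norm_num
          ring
        show ‖P (s + 3 * (((2 : Fin 3) : ℕ) : ℤ) + 4) - _‖ < 1
        rw [e, hper]
        exact h
    · have h := (hP (s + 3 * (k : ℤ) + 4)).2.1
      have e : s + 3 * (k : ℤ) + 4 + 1 = s + 3 * (k : ℤ) + 5 := by ring
      rw [e] at h
      exact h
  choose Q hQ1 hQ2 hQ3 using hQ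
  -- step 6
  refine core9 hR r hl F s (fun k => a (σ k)) Q (fun k => P (s + 3 * (k : ℤ) + 1)) hQ1 hQ3 ?_ ?_
  · intro k
    have h := hQ2 (k + 1)
    rw [add_sub_cancel_right] at h
    exact h
  · intro k
    refine ⟨(hP _).1, ?_, (hP _).2.2.1, ?_⟩
    · have h := (hP (s + 3 * (k : ℤ) + 1)).2.1
      have e : s + 3 * (k : ℤ) + 1 + 1 = s + 3 * (k : ℤ) + 2 := by ring
      rw [e] at h
      exact h
    · exact hσ k 1

end Pool.Agent.TD25
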