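import Pool.Agent.TD25.FDer
import Pool.Agent.TD25.NumH

/-!
# TD25/Tay: Taylor bounds of third order near the optimum

Proof (`tayF`). `G x = ff R q0 + fp R q0 (x - q0) - 0.508 (x - q0)^2 + 0.62 (x - q0)^3 - ff R x` has `G q0 = 0`,
`G' x = fp R q0 - 1.016 (x - q0) + 1.86 (x - q0)^2 - fp R x`, `G' q0 = 0`, and `G'' x = -1.016 + 3.72 (x - q0) - fpp R x ≥ 0` (`numFpp`) for
`|x - q0| ≤ 0.06`. So `G'` is nonnegative to the right of `q0` and nonpositive to the left, and `G ≥ 0`. (`ff_deriv`, `fp_deriv`: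
`R - 2 < 1.0699 ≤ x` and `(1 + x)^2 ≤ 2.1903^2 < R^2 - 1`. Use `monotoneOn_of_deriv_nonneg` on `Icc (q0 - 0.06) (q0 + 0.06)`.)
`tayG` in the same way with `numGpp` (`2 * 0.1645 = 0.329`, `6 * 0.095 = 0.57`; `R (1 + x) ≤ 2.7693 * 1.851 < R^2 - 2`).
-/

set_option autoImplicit false

namespace Pool.Agent.TD25

open Real

private theorem tay_aux {f f' f'' : ℝ → ℝ} {x0 δ a b x : ℝ}
    (h1 : ∀ y, |y - x0| ≤ δ → HasDerivAt f (f' y) y)
    (h2 : ∀ y, |y - x0| ≤ δ → HasDerivAt f' (f'' y) y)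
    (h3 : ∀ y, |y - x0| ≤ δ → f'' y ≤ -a + b * (y - x0)) (hx : |x - x0| ≤ δ) :
    f x ≤ f x0 + f' x0 * (x - x0) - a / 2 * (x - x0) ^ 2 + b / 6 * (x - x0) ^ 3 := by
  have hδ : 0 ≤ δ := le_trans (abs_nonneg _) hx
  have hxb := abs_le.1 hx
  have hin : ∀ y, y ∈ Set.Icc (x0 - δ) (x0 + δ) → |y - x0| ≤ δ := by
    intro y hy
    rw [abs_le]
    constructor <;> linarith [hy.1, hy.2]
  have d1 : ∀ y, HasDerivAt (fun y => y - x0) 1 y := fun y => (hasDerivAt_id' y).sub_const x0
  let G : ℝ → ℝ := fun y => f x0 + f' x0 * (y - x0) - a / 2 * (y - x0) ^ 2 +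
    b / 6 * (y - x0) ^ 3 - f y
  let G' : ℝ → ℝ := fun y => f' x0 - a * (y - x0) + b / 2 * (y - x0) ^ 2 - f' y
  have hG : ∀ y, |y - x0| ≤ δ → HasDerivAt G (G' y) y := by
    intro y hy
    have e := ((((((d1 y).const_mul (f' x0)).const_add (f x0)).fun_sub
      (((d1 y).fun_pow 2).const_mul (a / 2))).fun_add
        (((d1 y).fun_pow 3).const_mul (b / 6))).fun_sub (h1 y hy))
    refine e.congr_deriv ?_
    show _ = f' x0 - a * (y - x0) + b / 2 * (y - x0) ^ 2 - f' y
    push_cast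
    ring
  have hG' : ∀ y, |y - x0| ≤ δ → HasDerivAt G' (-a + b * (y - x0) - f'' y) y := by
    intro y hy
    have e := ((((d1 y).const_mul a).const_sub (f' x0)).fun_add
      (((d1 y).fun_pow 2).const_mul (b / 2))).fun_sub (h2 y hy)
    refine e.congr_deriv ?_
    push_cast
    ring
  have hG0 : G x0 = 0 := by
    show f x0 + f' x0 * (x0 - x0) - a / 2 * (x0 - x0) ^ 2 + b / 6 * (x0 - x0) ^ 3 - f x0 = 0
    ring
  have hG'0 : G' x0 = 0 := by
    show f' x0 - a * (x0 - x0) + b / 2 * (x0 - x0) ^ 2 - f' x0 = 0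
    ring
  have hmono : MonotoneOn G' (Set.Icc (x0 - δ) (x0 + δ)) := by
    refine monotoneOn_of_hasDerivWithinAt_nonneg (f' := fun y => -a + b * (y - x0) - f'' y)
      (convex_Icc _ _) (fun y hy => (hG' y (hin y hy)).continuousAt.continuousWithinAt) ?_ ?_
    · intro y hy
      exact (hG' y (hin y (interior_subset hy))).hasDerivWithinAt
    · intro y hy
      have := h3 y (hin y (interior_subset hy))
      linarith
  have hx0 : x0 ∈ Set.Icc (x0 - δ) (x0 + δ) := ⟨by linarith, by linarith⟩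
  have key : 0 ≤ G x := by
    rcases le_total x0 x with hle | hle
    · have hm : MonotoneOn G (Set.Icc x0 (x0 + δ)) := by
        refine monotoneOn_of_hasDerivWithinAt_nonneg (f' := G') (convex_Icc _ _)
          (fun y hy => (hG y (hin y ⟨by linarith [hy.1], hy.2⟩)).continuousAt.continuousWithinAt)
          ?_ ?_
        · intro y hy
          have hy' := interior_subset hy
          exact (hG y (hin y ⟨by linarith [hy'.1], hy'.2⟩)).hasDerivWithinAt
        · intro y hy
          have hy' := interior_subset hy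
          have := hmono hx0 ⟨by linarith [hy'.1], hy'.2⟩ hy'.1
          rw [hG'0] at this
          exact this
      have := hm ⟨le_rfl, by linarith⟩ ⟨hle, by linarith⟩ hle
      rw [hG0] at this
      exact this
    · have hm : AntitoneOn G (Set.Icc (x0 - δ) x0) := by
        refine antitoneOn_of_hasDerivWithinAt_nonpos (f' := G') (convex_Icc _ _)
          (fun y hy => (hG y (hin y ⟨hy.1, by linarith [hy.2]⟩)).continuousAt.continuousWithinAt)
          ?_ ?_
        · intro y hy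
          have hy' := interior_subset hy
          exact (hG y (hin y ⟨hy'.1, by linarith [hy'.2]⟩)).hasDerivWithinAt
        · intro y hy
          have hy' := interior_subset hy
          have := hmono ⟨hy'.1, by linarith [hy'.2]⟩ hx0 hy'.2
          rw [hG'0] at this
          exact this
      have := hm ⟨by linarith, hle⟩ ⟨by linarith, le_rfl⟩ hle
      rw [hG0] at this
      exact this
  have : 0 ≤ f x0 + f' x0 * (x - x0) - a / 2 * (x - x0) ^ 2 + b / 6 * (x - x0) ^ 3 - f x := key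
  linarith

theorem tayF {R q0 q : ℝ} (hR1 : 2.76929 ≤ R) (hR2 : R ≤ 2.7693) (h1 : 1.1299 ≤ q0) (h2 : q0 ≤ 1.1303)
    (h3 : |q - q0| ≤ 0.06) :
    ff R q ≤ ff R q0 + fp R q0 * (q - q0) - 0.508 * (q - q0) ^ 2 + 0.62 * (q - q0) ^ 3 := by
  have hOk : OkR R := by
    unfold OkR
    constructor <;> norm_num at hR1 hR2 ⊢ <;> linarith
  have h := tay_aux (f := ff R) (f' := fp R) (f'' := fpp R) (x0 := q0) (δ := 0.06) (a := 1.016)
    (b := 3.72) (x := q)
    (fun y hy => by
      rw [abs_le] at hy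
      exact ff_deriv hOk (by linarith) (by nlinarith))
    (fun y hy => by
      rw [abs_le] at hy
      exact fp_deriv hOk (by linarith) (by nlinarith))
    (fun y hy => (numFpp hR1 hR2 h1 h2 hy).2) h3
  norm_num at h ⊢
  linarith

theorem tayG {R h0 h : ℝ} (hR1 : 2.76929 ≤ R) (hR2 : R ≤ 2.7693) (h1 : 0.770 ≤ h0) (h2 : h0 ≤ 0.771)
    (h3 : |h - h0| ≤ 0.08) :
    gg R h ≤ gg R h0 + gp R h0 * (h - h0) - 0.1645 * (h - h0) ^ 2 + 0.095 * (h - h0) ^ 3 := by
  have hOk : OkR R := by
    unfold OkR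
    constructor <;> norm_num at hR1 hR2 ⊢ <;> linarith
  have h := tay_aux (f := gg R) (f' := gp R) (f'' := gpp R) (x0 := h0) (δ := 0.08) (a := 0.329)
    (b := 0.57) (x := h)
    (fun y hy => by
      rw [abs_le] at hy
      exact gg_deriv hOk (by linarith) (by nlinarith))
    (fun y hy => by
      rw [abs_le] at hy
      exact gp_deriv hOk (by linarith) (by nlinarith))
    (fun y hy => numGpp hR1 hR2 h1 h2 hy) h3
  norm_num at h ⊢
  linarith

end Pool.Agent.TD25
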