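import Pool.Agent.TD25.OptS
import Pool.Agent.TD25.Arc

/-!
# TD25/UBSec: the extremal configuration covers the sector `0 ≤ arg ≤ π/3`

Notation: `κ = 1 + h`, `β = gg R h / 2 = fi R (1 + R κ)`, `α = ff R q = fi R ((1+q)^2)`, `2 β + α = π/3` (`O.e2`). `e0 = 1`, `e1 = e^{2 β i}`,
`e2 = e^{i π/3}`. Centres: `a = h` (`pt h 0`), `p = pt (√(1 + R κ)) β`, `b = pt (1 + q) (π/3)`. `A, P, B` are the closed unit disks.
`cos β = (R + κ)/(2 √(1 + Rκ))` (`cos_fi`), so `2 ⟨p, e0⟩ = 2 ⟨p, e1⟩ = R + κ`. `cos α = (R^2 - 1 + (1+q)^2)/(2R(1+q))`, so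
`2 ⟨b, e1⟩ = R + v`, `v = (q^2 + 2q)/R`.
(1) `‖ρ e0 - p‖^2 = ρ^2 - ρ (R + κ) + 1 + R κ = 1 + (ρ - R)(ρ - κ)`; the same for `e1`. So `ρ e0, ρ e1 ∈ P` for `κ ≤ ρ ≤ R`.
`‖ρ e1 - b‖^2 = 1 + (ρ - R)(ρ - v)`: `ρ e1 ∈ B` for `v ≤ ρ ≤ R` (`v < 1.28`). `‖ρ e2 - b‖ = |ρ - (1+q)| ≤ 1` for `q ≤ ρ ≤ R` (`R < q + 2`).
`0 ∈ A`, `κ e0 ∈ A` (distance 1), `1.35 e1 ∈ A` (numerically: `1.35^2 + h^2 - 2.7 h cos 2β < 1`, `cos 2β = (R^2 + κ^2 - 2)/(2 (1 + R κ)) ≥ 0.7456`, value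
`0.866`), `q e2 ∈ A`: `q^2 + h^2 - q h = 1` (`O.e1`).
(2) Cone between `e1` and `e2`: `x = s e1 + t e2`, `s, t ≥ 0`, `‖x‖ ≤ R`.
 - If `s/1.35 + t/q ≤ 1`: `x` is a convex combination of `0, 1.35 e1, q e2 ∈ A`.
 - If `s + t ≤ R` and `s/1.35 + t/q ≥ 1`: `x` is in the quadrilateral `1.35 e1, R e1, R e2, q e2`, all in `B`: the point `x` lies on the segment
   from `(1.35) σ-point`... precisely: with `λ = 1/(s/1.35 + t/q) ≤ 1`, `y = λ x` is on the segment `[1.35 e1, q e2] ⊆ B`, with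
   `μ = R/(s + t) ≥ 1`, `z = μ x` is on `[R e1, R e2] ⊆ B`, and `x ∈ [y, z]`. (If `s = t = 0` we are in the first case.)
 - If `s + t > R`: `2⟨x, b⟩ = s (R + v) + 2 t (1 + q)`. Since `2 (1 + q) ≥ R + v` (as `⟨b, e2⟩ = ‖b‖` is the maximum), `2⟨x, b⟩ ≥ (s + t)(R + v) ≥
   R (R + v)` and `‖x - b‖^2 = ‖x‖^2 - 2⟨x, b⟩ + (1+q)^2 ≤ R^2 - R^2 - R v + 1 + 2q + q^2 = 1`. So `x ∈ B`.
(3) Cone between `e0` and `e1`: `x = s e0 + t e1`, `s, t ≥ 0`, `‖x‖ ≤ R`.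
 - `s + t > R`: `2⟨x, p⟩ = (s + t)(R + κ) ≥ R (R + κ)`, `‖x - p‖^2 ≤ R^2 - R^2 - R κ + 1 + R κ = 1`: `x ∈ P`.
 - `κ ≤ s + t ≤ R`: with `σ = s + t`, `x` is on the segment `[σ e0, σ e1] ⊆ P`.
 - `s/κ + t/1.35 ≤ 1`: convex combination of `0, κ e0, 1.35 e1 ∈ A`.
 - `s + t < κ` and `s/κ + t/1.35 > 1`: `x` is in the triangle with vertices `C = κ e0`, `C1 = κ e1`, `V1 = 1.35 e1`. Let
   `V = 0.3008 e0 + 1.2999 e1`; numerically `V ∈ A ∩ P ∩ B` (squared distances `0.99973, 0.99962, 0.99967`), and `V` is in the interior of this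
   triangle. So `x` is in one of the triangles `(V, C, C1) ⊆ P`, `(V, C1, V1) ⊆ B` (`κ e1, 1.35 e1 ∈ B`), `(V, V1, C) ⊆ A`.
   (Star decomposition: if `x = ∑ λ_i P_i`, `V = ∑ μ_i P_i` with `μ_i > 0`, take `i` with `λ_i/μ_i` minimal:
   `x = (λ_i/μ_i) V + ∑_{j ≠ i} (λ_j - μ_j λ_i/μ_i) P_j`.)
(4) A point `x = pt ‖x‖ θ`, `0 ≤ θ ≤ π/3`, is in one of the two cones: `e^{iθ} = (sin (2β - θ)/sin 2β) e0 + (sin θ/sin 2β) e1` for `θ ≤ 2β`, similarly for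
`θ ≥ 2β` with `e1, e2`, `α = π/3 - 2β`.
(5) If `‖x‖ = R` then `x ∈ P` or `x ∈ B`: in the cone `e0, e1` `s + t ≥ ‖x‖ = R` (triangle inequality), so the first case applies; in the cone
`e1, e2` also `s + t ≥ R`, and the last case of (2) applies.
-/

set_option autoImplicit false

namespace Pool.Agent.TD25

open Real

private theorem re_pt (r t : ℝ) : (pt r t).re = r * cos t := by
  unfold pt
  rw [Complex.re_ofReal_mul, Complex.exp_ofReal_mul_I_re]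

private theorem im_pt (r t : ℝ) : (pt r t).im = r * sin t := by
  unfold pt
  rw [Complex.im_ofReal_mul, Complex.exp_ofReal_mul_I_im]

/-- squared distance of a combination of two unit vectors to a point -/
private theorem dsq (s t γ1 γ2 d b : ℝ) :
    ‖(s : ℂ) * pt 1 γ1 + (t : ℂ) * pt 1 γ2 - pt d b‖ ^ 2 =
      s ^ 2 + t ^ 2 + 2 * s * t * cos (γ1 - γ2) + d ^ 2 -
        2 * d * (s * cos (γ1 - b) + t * cos (γ2 - b)) := by
  rw [Complex.sq_norm, Complex.normSq_apply]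
  simp only [Complex.sub_re, Complex.sub_im, Complex.add_re, Complex.add_im,
    Complex.re_ofReal_mul, Complex.im_ofReal_mul, re_pt, im_pt, cos_sub]
  have h1 := sin_sq_add_cos_sq γ1
  have h2 := sin_sq_add_cos_sq γ2
  have h3 := sin_sq_add_cos_sq b
  linear_combination s ^ 2 * h1 + t ^ 2 * h2 + d ^ 2 * h3

private theorem nsq (s t γ1 γ2 : ℝ) :
    ‖(s : ℂ) * pt 1 γ1 + (t : ℂ) * pt 1 γ2‖ ^ 2 =
      s ^ 2 + t ^ 2 + 2 * s * t * cos (γ1 - γ2) := by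
  have h := dsq s t γ1 γ2 0 0
  have e : pt 0 0 = 0 := by simp [pt]
  rw [e, sub_zero] at h
  rw [h]; ring

/-- the cone decomposition -/
private theorem cone_pt (r θ γ1 γ2 : ℝ) (h : sin (γ2 - γ1) ≠ 0) :
    pt r θ = ((r * sin (γ2 - θ) / sin (γ2 - γ1) : ℝ) : ℂ) * pt 1 γ1 +
      ((r * sin (θ - γ1) / sin (γ2 - γ1) : ℝ) : ℂ) * pt 1 γ2 := by
  apply Complex.ext
  · simp only [Complex.add_re, Complex.re_ofReal_mul, re_pt]
    field_simp
    simp only [sin_sub]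
    ring
  · simp only [Complex.add_im, Complex.im_ofReal_mul, im_pt]
    field_simp
    simp only [sin_sub]
    ring

private theorem sq_le_one' {z : ℂ} (h : ‖z‖ ^ 2 ≤ 1) : ‖z‖ ≤ 1 := by
  have := norm_nonneg z
  nlinarith

private theorem cvx2 {c y z : ℂ} {a b : ℝ} (ha : 0 ≤ a) (hb : 0 ≤ b) (hab : a + b = 1)
    (hy : ‖y - c‖ ≤ 1) (hz : ‖z - c‖ ≤ 1) : ‖(a : ℂ) * y + (b : ℂ) * z - c‖ ≤ 1 := by
  have e : (a : ℂ) * y + (b : ℂ) * z - c = (a : ℂ) * (y - c) + (b : ℂ) * (z - c) := by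
    have : ((a + b : ℝ) : ℂ) = 1 := by rw [hab]; norm_num
    push_cast at this
    linear_combination (c : ℂ) * (this)
  rw [e]
  refine (norm_add_le _ _).trans ?_
  rw [norm_mul, norm_mul, Complex.norm_real, Complex.norm_real, Real.norm_of_nonneg ha,
    Real.norm_of_nonneg hb]
  nlinarith

private theorem cvx3 {c y z w : ℂ} {a b d : ℝ} (ha : 0 ≤ a) (hb : 0 ≤ b) (hd : 0 ≤ d)
    (hab : a + b + d = 1) (hy : ‖y - c‖ ≤ 1) (hz : ‖z - c‖ ≤ 1) (hw : ‖w - c‖ ≤ 1) :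
    ‖(a : ℂ) * y + (b : ℂ) * z + (d : ℂ) * w - c‖ ≤ 1 := by
  have e : (a : ℂ) * y + (b : ℂ) * z + (d : ℂ) * w - c =
      (a : ℂ) * (y - c) + (b : ℂ) * (z - c) + (d : ℂ) * (w - c) := by
    have : ((a + b + d : ℝ) : ℂ) = 1 := by rw [hab]; norm_num
    push_cast at this
    linear_combination (c : ℂ) * (this)
  rw [e]
  refine (norm_add_le _ _).trans ?_
  refine (add_le_add_left (norm_add_le _ _) _).trans ?_
  rw [norm_mul, norm_mul, norm_mul, Complex.norm_real, Complex.norm_real, Complex.norm_real,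
    Real.norm_of_nonneg ha, Real.norm_of_nonneg hb, Real.norm_of_nonneg hd]
  nlinarith

/-- a point between two points of a ray is in the disk -/
private theorem ray {c x : ℂ} {l m : ℝ} (hl : l ≤ 1) (hm : 1 ≤ m) (h1 : ‖(l : ℂ) * x - c‖ ≤ 1)
    (h2 : ‖(m : ℂ) * x - c‖ ≤ 1) : ‖x - c‖ ≤ 1 := by
  rcases (hl.trans hm).eq_or_lt with h | h
  · have hl1 : l = 1 := by linarith
    rw [hl1] at h1
    simpa using h1
  · have h3 : 0 < m - l := by linarith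
    have h4 := cvx2 (c := c) (y := (l : ℂ) * x) (z := (m : ℂ) * x)
      (a := (m - 1) / (m - l)) (b := (1 - l) / (m - l))
      (div_nonneg (by linarith) h3.le) (div_nonneg (by linarith) h3.le)
      (by field_simp; ring) h1 h2
    have e : (((m - 1) / (m - l) : ℝ) : ℂ) * ((l : ℂ) * x) +
        (((1 - l) / (m - l) : ℝ) : ℂ) * ((m : ℂ) * x) = x := by
      have h5 : ((m : ℂ) - l) ≠ 0 := by
        have : ((m - l : ℝ) : ℂ) ≠ 0 := by exact_mod_cast h3.ne'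
        push_cast at this
        exact this
      push_cast
      field_simp
      ring
    rw [e] at h4
    exact h4

/-- star decomposition of a triangle -/
private theorem star3 {a p b P0 P1 P2 V x : ℂ} {l0 l1 l2 m0 m1 m2 : ℝ}
    (hl0 : 0 ≤ l0) (hl1 : 0 ≤ l1) (hl2 : 0 ≤ l2) (hl : l0 + l1 + l2 = 1)
    (hm0 : 0 < m0) (hm1 : 0 < m1) (hm2 : 0 < m2) (hm : m0 + m1 + m2 = 1)
    (hx : x = (l0 : ℂ) * P0 + (l1 : ℂ) * P1 + (l2 : ℂ) * P2)
    (hV : V = (m0 : ℂ) * P0 + (m1 : ℂ) * P1 + (m2 : ℂ) * P2)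
    (a0 : ‖P0 - a‖ ≤ 1) (a2 : ‖P2 - a‖ ≤ 1) (aV : ‖V - a‖ ≤ 1)
    (p0 : ‖P0 - p‖ ≤ 1) (p1 : ‖P1 - p‖ ≤ 1) (pV : ‖V - p‖ ≤ 1)
    (b1 : ‖P1 - b‖ ≤ 1) (b2 : ‖P2 - b‖ ≤ 1) (bV : ‖V - b‖ ≤ 1) :
    ‖x - a‖ ≤ 1 ∨ ‖x - p‖ ≤ 1 ∨ ‖x - b‖ ≤ 1 := by
  have key : ∀ (c Q0 Q1 Q2 : ℂ) (r0 r1 r2 n0 n1 n2 : ℝ), 0 ≤ r0 → 0 < n0 →
      r0 + r1 + r2 = 1 → n0 + n1 + n2 = 1 → r0 * n1 ≤ r1 * n0 → r0 * n2 ≤ r2 * n0 →
      x = (r0 : ℂ) * Q0 + (r1 : ℂ) * Q1 + (r2 : ℂ) * Q2 →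
      V = (n0 : ℂ) * Q0 + (n1 : ℂ) * Q1 + (n2 : ℂ) * Q2 →
      ‖V - c‖ ≤ 1 → ‖Q1 - c‖ ≤ 1 → ‖Q2 - c‖ ≤ 1 → ‖x - c‖ ≤ 1 := by
    intro c Q0 Q1 Q2 r0 r1 r2 n0 n1 n2 hr0 hn0 hr hn h1 h2 hx' hV' hv hq1 hq2
    have h3 := cvx3 (c := c) (y := V) (z := Q1) (w := Q2) (a := r0 / n0)
      (b := r1 - n1 * (r0 / n0)) (d := r2 - n2 * (r0 / n0)) (div_nonneg hr0 hn0.le)
      (by
        rw [sub_nonneg, ← mul_div_assoc, div_le_iff₀ hn0]
        linarith)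
      (by
        rw [sub_nonneg, ← mul_div_assoc, div_le_iff₀ hn0]
        linarith)
      (by
        field_simp
        linear_combination n0 * hr - r0 * hn) hv hq1 hq2
    have e : ((r0 / n0 : ℝ) : ℂ) * V + ((r1 - n1 * (r0 / n0) : ℝ) : ℂ) * Q1 +
        ((r2 - n2 * (r0 / n0) : ℝ) : ℂ) * Q2 = x := by
      have h5 : (n0 : ℂ) ≠ 0 := by exact_mod_cast hn0.ne'
      rw [hx', hV']
      push_cast
      field_simp
      ring
    rw [e] at h3
    exact h3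
  by_cases h01 : l0 * m1 ≤ l1 * m0
  · by_cases h02 : l0 * m2 ≤ l2 * m0
    · exact Or.inr (Or.inr (key b P0 P1 P2 l0 l1 l2 m0 m1 m2 hl0 hm0 hl hm h01 h02 hx hV bV b1 b2))
    · rw [not_le] at h02
      have h21 : l2 * m1 ≤ l1 * m2 := by
        have h1 := mul_le_mul_of_nonneg_right h01 hm2.le
        have h2 := mul_le_mul_of_nonneg_right h02.le hm1.le
        have h3 : m0 * (l2 * m1) ≤ m0 * (l1 * m2) := by nlinarith
        exact le_of_mul_le_mul_left h3 hm0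
      refine Or.inr (Or.inl (key p P2 P0 P1 l2 l0 l1 m2 m0 m1 hl2 hm2 (by linarith) (by linarith)
        h02.le h21 (by rw [hx]; ring) (by rw [hV]; ring) pV p0 p1))
  · rw [not_le] at h01
    by_cases h12 : l1 * m2 ≤ l2 * m1
    · exact Or.inl (key a P1 P0 P2 l1 l0 l2 m1 m0 m2 hl1 hm1 (by linarith) (by linarith)
        h01.le h12 (by rw [hx]; ring) (by rw [hV]; ring) aV a0 a2)
    · rw [not_le] at h12
      have h20 : l2 * m0 ≤ l0 * m2 := by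
        have h1 := mul_le_mul_of_nonneg_right h01.le hm2.le
        have h2 := mul_le_mul_of_nonneg_right h12.le hm0.le
        have h3 : m1 * (l2 * m0) ≤ m1 * (l0 * m2) := by nlinarith
        exact le_of_mul_le_mul_left h3 hm1
      exact Or.inr (Or.inl (key p P2 P0 P1 l2 l0 l1 m2 m0 m1 hl2 hm2 (by linarith) (by linarith)
        h20 h12.le (by rw [hx]; ring) (by rw [hV]; ring) pV p0 p1))

/-- the numerical data of the configuration -/
private structure Dat (R h q β D v C : ℝ) : Prop where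
  R1 : 2.76929324 ≤ R
  R2 : R ≤ 2.76929326
  h3 : 0.7705 ≤ h
  h4 : h ≤ 0.7706
  q3 : 1.13003 ≤ q
  q4 : q ≤ 1.13007
  e1 : h ^ 2 + q ^ 2 - h * q = 1
  D2 : D ^ 2 = 1 + R * (1 + h)
  cβ : 2 * (D * cos β) = R + (1 + h)
  C2 : cos (2 * β) = C
  Clo : 0.74568 ≤ C
  Chi : C ≤ 0.74569
  v2 : R * v = q ^ 2 + 2 * q
  vlo : 1.2772 ≤ v
  vhi : v ≤ 1.28
  cα : 2 * ((1 + q) * cos (2 * β - π / 3)) = R + v
  s1 : 0 < sin (2 * β)
  s2 : 0 < sin (π / 3 - 2 * β)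
  b0 : 0 < 2 * β
  b1 : 2 * β < π / 3

private theorem dat {R h q : ℝ} (O : OptS R h q) :
    ∃ v C, Dat R h q (gg R h / 2) (√(1 + R * (1 + h))) v C := by
  have R1 := O.R1
  have R2 := O.R2
  have h3 := O.h3
  have h4 := O.h4
  have q3 := O.q3
  have q4 := O.q4
  have e1 := O.e1
  have e2 := O.e2
  have hR : OkR R := ⟨by linarith, by linarith⟩
  have hR0 : 0 < R := by linarith
  obtain ⟨β, hβ⟩ : ∃ β, β = gg R h / 2 := ⟨_, rfl⟩
  have hβ2 : β = fi R (1 + R * (1 + h)) := by rw [hβ, gg]; ring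
  obtain ⟨D, hD⟩ : ∃ D, D = √(1 + R * (1 + h)) := ⟨_, rfl⟩
  rw [← hβ, ← hD]
  have hDpos0 : 0 < 1 + R * (1 + h) := by positivity
  have hDpos : 0 < D := by rw [hD]; exact sqrt_pos.2 hDpos0
  have hD2 : D ^ 2 = 1 + R * (1 + h) := by rw [hD]; exact sq_sqrt hDpos0.le
  have hlow : (R - 1) ^ 2 < 1 + R * (1 + h) := by nlinarith
  have hupp : 1 + R * (1 + h) ≤ R ^ 2 - 1 := by nlinarith
  have hcβ : 2 * (D * cos β) = R + (1 + h) := by
    rw [hβ2, cos_fi hR hlow.le hupp, ← hD]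
    field_simp
    ring
  have hβpos : 0 < β := by rw [hβ2]; exact fi_pos hR hlow
  have hlow2 : (R - 1) ^ 2 < (1 + q) ^ 2 := by nlinarith
  have hupp2 : (1 + q) ^ 2 ≤ R ^ 2 - 1 := by nlinarith
  have hα : 0 < ff R q := fi_pos hR hlow2
  have hsum : ff R q + 2 * β = π / 3 := by rw [hβ, ← e2]; ring
  have hpi := Real.pi_pos
  have hb1 : 2 * β < π / 3 := by linarith
  have hC2 : cos (2 * β) = 2 * cos β ^ 2 - 1 := cos_two_mul β
  have hCD : D ^ 2 * (cos (2 * β) + 1) = (R + (1 + h)) ^ 2 / 2 := by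
    rw [hC2, ← hcβ]; ring
  rw [hD2] at hCD
  refine ⟨(q ^ 2 + 2 * q) / R, cos (2 * β), R1, R2, h3, h4, q3, q4, e1, hD2, hcβ, rfl, ?_, ?_,
    ?_, ?_, ?_, ?_, ?_, ?_, by linarith, hb1⟩
  · by_contra hcon
    rw [not_le] at hcon
    have h5 : (1 + R * (1 + h)) * (cos (2 * β) + 1) < (1 + R * (1 + h)) * 1.74568 :=
      mul_lt_mul_of_pos_left (by linarith) hDpos0
    rw [hCD] at h5
    linarith [mul_nonneg (sub_nonneg.2 R1) (sub_nonneg.2 h4), sq_nonneg (R - 2.76929324),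
      sq_nonneg (h - 0.7706)]
  · by_contra hcon
    rw [not_le] at hcon
    have h5 : (1 + R * (1 + h)) * 1.74569 < (1 + R * (1 + h)) * (cos (2 * β) + 1) :=
      mul_lt_mul_of_pos_left (by linarith) hDpos0
    rw [hCD] at h5
    linarith [mul_nonneg (sub_nonneg.2 R1) (sub_nonneg.2 h3), mul_nonneg (sub_nonneg.2 h3)
      (sub_nonneg.2 h4), mul_nonneg (sub_nonneg.2 R1) (sub_nonneg.2 R2)]
  · field_simp
  · rw [le_div_iff₀ hR0]
    nlinarith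
  · rw [div_le_iff₀ hR0]
    nlinarith
  · have h5 : cos (2 * β - π / 3) = cos (ff R q) := by
      rw [← cos_neg]
      congr 1
      linarith
    rw [h5, ff, cos_fi hR hlow2.le hupp2, sqrt_sq (by linarith)]
    have h6 : 0 < 1 + q := by linarith
    field_simp
    ring
  · exact sin_pos_of_pos_of_lt_pi (by linarith) (by linarith)
  · exact sin_pos_of_pos_of_lt_pi (by linarith) (by linarith)

section

variable {R h q β D v C : ℝ}

/-- cone between `e0` and `e1` -/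
private theorem c01_far (T : Dat R h q β D v C) {s t : ℝ}
    (hst : R ≤ s + t) (hx : ‖(s : ℂ) * pt 1 0 + (t : ℂ) * pt 1 (2 * β)‖ ≤ R) :
    ‖(s : ℂ) * pt 1 0 + (t : ℂ) * pt 1 (2 * β) - pt D β‖ ≤ 1 := by
  apply sq_le_one'
  have h1 := dsq s t 0 (2 * β) D β
  have h2 := nsq s t 0 (2 * β)
  have R1 := T.R1
  have h3 := T.h3
  have e1 : cos (0 - β) = cos β := by rw [zero_sub, cos_neg]
  have e2 : cos (2 * β - β) = cos β := by congr 1; ring
  rw [e1, e2] at h1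
  have h4 : ‖(s : ℂ) * pt 1 0 + (t : ℂ) * pt 1 (2 * β)‖ ^ 2 ≤ R ^ 2 :=
    pow_le_pow_left₀ (norm_nonneg _) hx 2
  rw [h2] at h4
  have h5 : 2 * D * (s * cos β + t * cos β) = (s + t) * (R + (1 + h)) := by
    rw [← T.cβ]; ring
  rw [h5, T.D2] at h1
  rw [h1]
  have h6 : R * (R + (1 + h)) ≤ (s + t) * (R + (1 + h)) :=
    mul_le_mul_of_nonneg_right hst (by linarith)
  nlinarith

private theorem c01_P (T : Dat R h q β D v C) {s t : ℝ} (hs : 0 ≤ s) (ht : 0 ≤ t)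
    (hst : 1 + h ≤ s + t) (hst2 : s + t ≤ R) :
    ‖(s : ℂ) * pt 1 0 + (t : ℂ) * pt 1 (2 * β) - pt D β‖ ≤ 1 := by
  apply sq_le_one'
  have h1 := dsq s t 0 (2 * β) D β
  have e1 : cos (0 - β) = cos β := by rw [zero_sub, cos_neg]
  have e2 : cos (2 * β - β) = cos β := by congr 1; ring
  rw [e1, e2] at h1
  have h5 : 2 * D * (s * cos β + t * cos β) = (s + t) * (R + (1 + h)) := by
    rw [← T.cβ]; ring
  rw [h5, T.D2] at h1
  rw [h1]
  have h6 : 2 * s * t * cos (0 - 2 * β) ≤ 2 * s * t * 1 :=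
    mul_le_mul_of_nonneg_left (cos_le_one _) (by positivity)
  nlinarith

/-- cone between `e1` and `e2` -/
private theorem c12_far (T : Dat R h q β D v C) {s t : ℝ} (ht : 0 ≤ t)
    (hst : R ≤ s + t) (hx : ‖(s : ℂ) * pt 1 (2 * β) + (t : ℂ) * pt 1 (π / 3)‖ ≤ R) :
    ‖(s : ℂ) * pt 1 (2 * β) + (t : ℂ) * pt 1 (π / 3) - pt (1 + q) (π / 3)‖ ≤ 1 := by
  apply sq_le_one'
  have h1 := dsq s t (2 * β) (π / 3) (1 + q) (π / 3)
  have h2 := nsq s t (2 * β) (π / 3)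
  have h4 : ‖(s : ℂ) * pt 1 (2 * β) + (t : ℂ) * pt 1 (π / 3)‖ ^ 2 ≤ R ^ 2 :=
    pow_le_pow_left₀ (norm_nonneg _) hx 2
  rw [h2] at h4
  rw [sub_self, cos_zero, mul_one] at h1
  have h5 : 2 * (1 + q) * (s * cos (2 * β - π / 3) + t) = s * (R + v) + 2 * t * (1 + q) := by
    rw [← T.cα]; ring
  rw [h5] at h1
  rw [h1]
  have R1 := T.R1
  have R2 := T.R2
  have q3 := T.q3
  have v1 := T.vlo
  have v2 := T.vhi
  have h6 : t * (R + v) ≤ t * (2 * (1 + q)) := mul_le_mul_of_nonneg_left (by linarith) ht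
  have h7 : R * (R + v) ≤ (s + t) * (R + v) := mul_le_mul_of_nonneg_right hst (by linarith)
  have h8 := T.v2
  nlinarith

private theorem one_pt_B (T : Dat R h q β D v C) {ρ : ℝ} (h1 : v ≤ ρ) (h2 : ρ ≤ R) :
    ‖(ρ : ℂ) * pt 1 (2 * β) - pt (1 + q) (π / 3)‖ ≤ 1 := by
  apply sq_le_one'
  have h3 := dsq ρ 0 (2 * β) 0 (1 + q) (π / 3)
  have e : (ρ : ℂ) * pt 1 (2 * β) + ((0 : ℝ) : ℂ) * pt 1 0 = (ρ : ℂ) * pt 1 (2 * β) := by
    simp
  rw [e] at h3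
  rw [h3]
  have h5 : 2 * (1 + q) * (ρ * cos (2 * β - π / 3) + 0 * cos (0 - π / 3)) = ρ * (R + v) := by
    rw [← T.cα]; ring
  rw [h5]
  have h6 := T.v2
  nlinarith

private theorem two_pt_B (T : Dat R h q β D v C) {ρ : ℝ} (h1 : q ≤ ρ) (h2 : ρ ≤ R) :
    ‖(ρ : ℂ) * pt 1 (π / 3) - pt (1 + q) (π / 3)‖ ≤ 1 := by
  apply sq_le_one'
  have h3 := dsq ρ 0 (π / 3) 0 (1 + q) (π / 3)
  have e : (ρ : ℂ) * pt 1 (π / 3) + ((0 : ℝ) : ℂ) * pt 1 0 = (ρ : ℂ) * pt 1 (π / 3) := by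
    simp
  rw [e] at h3
  rw [h3, sub_self, cos_zero]
  have q3 := T.q3
  have R2 := T.R2
  nlinarith

private theorem zero_A (T : Dat R h q β D v C) : ‖(0 : ℂ) - pt h 0‖ ≤ 1 := by
  have h3 := T.h3
  have h4 := T.h4
  rw [zero_sub, norm_neg, norm_pt (by linarith)]
  linarith

private theorem k0_A (_ : Dat R h q β D v C) : ‖((1 + h : ℝ) : ℂ) * pt 1 0 - pt h 0‖ ≤ 1 := by
  have e : ((1 + h : ℝ) : ℂ) * pt 1 0 - pt h 0 = 1 := by
    simp [pt]
  rw [e]; simp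

private theorem v1_A (T : Dat R h q β D v C) :
    ‖((1.35 : ℝ) : ℂ) * pt 1 (2 * β) - pt h 0‖ ≤ 1 := by
  apply sq_le_one'
  have h3 := dsq 1.35 0 (2 * β) 0 h 0
  have e : ((1.35 : ℝ) : ℂ) * pt 1 (2 * β) + ((0 : ℝ) : ℂ) * pt 1 0 =
      ((1.35 : ℝ) : ℂ) * pt 1 (2 * β) := by
    simp
  rw [e, sub_zero, T.C2] at h3
  rw [h3]
  have a1 := T.h3
  have a2 := T.h4
  have a3 := T.Clo
  nlinarith

private theorem q2_A (T : Dat R h q β D v C) :
    ‖(q : ℂ) * pt 1 (π / 3) - pt h 0‖ ≤ 1 := by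
  apply sq_le_one'
  have h3 := dsq q 0 (π / 3) 0 h 0
  have e : (q : ℂ) * pt 1 (π / 3) + ((0 : ℝ) : ℂ) * pt 1 0 = (q : ℂ) * pt 1 (π / 3) := by
    simp
  rw [e, sub_zero, cos_pi_div_three] at h3
  rw [h3]
  have a1 := T.e1
  nlinarith

private theorem k0_P (T : Dat R h q β D v C) : ‖((1 + h : ℝ) : ℂ) * pt 1 0 - pt D β‖ ≤ 1 := by
  have a1 := T.h3
  have a2 := T.h4
  have a3 := T.R1
  have h := c01_P T (s := 1 + h) (t := 0) (by linarith) le_rfl (by linarith) (by linarith)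
  simpa using h

private theorem k1_P (T : Dat R h q β D v C) :
    ‖((1 + h : ℝ) : ℂ) * pt 1 (2 * β) - pt D β‖ ≤ 1 := by
  have a1 := T.h3
  have a2 := T.h4
  have a3 := T.R1
  have h := c01_P T (s := 0) (t := 1 + h) le_rfl (by linarith) (by linarith) (by linarith)
  simpa using h

private theorem V_A (T : Dat R h q β D v C) :
    ‖((0.3008 : ℝ) : ℂ) * pt 1 0 + ((1.2999 : ℝ) : ℂ) * pt 1 (2 * β) - pt h 0‖ ≤ 1 := by
  apply sq_le_one'
  rw [dsq]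
  have e1 : cos (0 - 2 * β) = C := by rw [zero_sub, cos_neg, T.C2]
  rw [e1, sub_zero, sub_zero, cos_zero, T.C2]
  have a1 := T.h3
  have a2 := T.h4
  have a3 := T.Clo
  have a4 := T.Chi
  have a5 : 0.7705 * 0.74568 ≤ h * C := mul_le_mul a1 a3 (by norm_num) (by linarith)
  nlinarith

private theorem V_P (T : Dat R h q β D v C) :
    ‖((0.3008 : ℝ) : ℂ) * pt 1 0 + ((1.2999 : ℝ) : ℂ) * pt 1 (2 * β) - pt D β‖ ≤ 1 := by
  apply sq_le_one'
  rw [dsq]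
  have e1 : cos (0 - 2 * β) = C := by rw [zero_sub, cos_neg, T.C2]
  have e2 : cos (0 - β) = cos β := by rw [zero_sub, cos_neg]
  have e3 : cos (2 * β - β) = cos β := by congr 1; ring
  rw [e1, e2, e3, T.D2]
  have h5 : 2 * D * (0.3008 * cos β + 1.2999 * cos β) = 1.6007 * (R + (1 + h)) := by
    rw [← T.cβ]; ring
  rw [h5]
  have a1 := T.h3
  have a2 := T.h4
  have a3 := T.Clo
  have a4 := T.Chi
  have a5 := T.R1
  have a6 := T.R2
  nlinarith [mul_nonneg (sub_nonneg.2 a2) (sub_nonneg.2 a5)]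

private theorem V_B (T : Dat R h q β D v C) :
    ‖((0.3008 : ℝ) : ℂ) * pt 1 0 + ((1.2999 : ℝ) : ℂ) * pt 1 (2 * β) - pt (1 + q) (π / 3)‖ ≤ 1 := by
  apply sq_le_one'
  rw [dsq]
  have e1 : cos (0 - 2 * β) = C := by rw [zero_sub, cos_neg, T.C2]
  have e2 : cos (0 - π / 3) = 1 / 2 := by rw [zero_sub, cos_neg, cos_pi_div_three]
  rw [e1, e2]
  have h5 : 2 * (1 + q) * (0.3008 * (1 / 2) + 1.2999 * cos (2 * β - π / 3)) =
      0.3008 * (1 + q) + 1.2999 * (R + v) := by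
    rw [← T.cα]; ring
  rw [h5]
  have a3 := T.Clo
  have a4 := T.Chi
  have a5 := T.R1
  have a6 := T.R2
  have a7 := T.vlo
  have a8 := T.q3
  have a9 := T.q4
  nlinarith

private theorem cone01 (T : Dat R h q β D v C) {s t : ℝ} (hs : 0 ≤ s) (ht : 0 ≤ t)
    (hx : ‖(s : ℂ) * pt 1 0 + (t : ℂ) * pt 1 (2 * β)‖ ≤ R) :
    ‖(s : ℂ) * pt 1 0 + (t : ℂ) * pt 1 (2 * β) - pt h 0‖ ≤ 1 ∨
      ‖(s : ℂ) * pt 1 0 + (t : ℂ) * pt 1 (2 * β) - pt D β‖ ≤ 1 ∨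
      ‖(s : ℂ) * pt 1 0 + (t : ℂ) * pt 1 (2 * β) - pt (1 + q) (π / 3)‖ ≤ 1 := by
  have a1 := T.h3
  have a2 := T.h4
  have a3 := T.R1
  have hκ : 0 < 1 + h := by linarith
  rcases le_total R (s + t) with h1 | h1
  · exact Or.inr (Or.inl (c01_far T h1 hx))
  rcases le_total (1 + h) (s + t) with h2 | h2
  · exact Or.inr (Or.inl (c01_P T hs ht h2 h1))
  rcases le_total (s / (1 + h) + t / 1.35) 1 with h3 | h3
  · left
    have h4 := cvx3 (c := pt h 0) (y := ((1 + h : ℝ) : ℂ) * pt 1 0)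
      (z := ((1.35 : ℝ) : ℂ) * pt 1 (2 * β)) (w := 0) (a := s / (1 + h)) (b := t / 1.35)
      (d := 1 - (s / (1 + h) + t / 1.35)) (by positivity) (by positivity) (by linarith)
      (by ring) (k0_A T) (v1_A T) (zero_A T)
    have e : ((s / (1 + h) : ℝ) : ℂ) * (((1 + h : ℝ) : ℂ) * pt 1 0) +
        ((t / 1.35 : ℝ) : ℂ) * (((1.35 : ℝ) : ℂ) * pt 1 (2 * β)) +
        ((1 - (s / (1 + h) + t / 1.35) : ℝ) : ℂ) * 0 =
        (s : ℂ) * pt 1 0 + (t : ℂ) * pt 1 (2 * β) := by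
      rw [mul_zero, add_zero, ← mul_assoc, ← mul_assoc, ← Complex.ofReal_mul,
        ← Complex.ofReal_mul]
      congr 3
      · field_simp
      · field_simp
    rw [e] at h4
    exact h4
  · have h5 : 0 < (1 + h) - 1.35 := by linarith
    refine star3 (a := pt h 0) (p := pt D β) (b := pt (1 + q) (π / 3))
      (P0 := ((1 + h : ℝ) : ℂ) * pt 1 0) (P1 := ((1 + h : ℝ) : ℂ) * pt 1 (2 * β))
      (P2 := ((1.35 : ℝ) : ℂ) * pt 1 (2 * β))
      (V := ((0.3008 : ℝ) : ℂ) * pt 1 0 + ((1.2999 : ℝ) : ℂ) * pt 1 (2 * β))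
      (l0 := s / (1 + h)) (l1 := 1.35 * (s / (1 + h) + t / 1.35 - 1) / ((1 + h) - 1.35))
      (l2 := ((1 + h) - s - t) / ((1 + h) - 1.35))
      (m0 := 0.3008 / (1 + h))
      (m1 := 1.35 * (0.3008 / (1 + h) + 1.2999 / 1.35 - 1) / ((1 + h) - 1.35))
      (m2 := ((1 + h) - 0.3008 - 1.2999) / ((1 + h) - 1.35))
      (by positivity) (div_nonneg (mul_nonneg (by norm_num) (by linarith)) h5.le)
      (div_nonneg (by linarith) h5.le) ?_ (by positivity) ?_ (div_pos (by linarith) h5) ?_ ?_ ?_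
      (k0_A T) (v1_A T) (V_A T) (k0_P T) (k1_P T) (V_P T)
      (one_pt_B T (by have := T.vhi; linarith) (by linarith))
      (one_pt_B T (by have := T.vhi; linarith) (by linarith)) (V_B T)
    · field_simp
      ring
    · refine div_pos (mul_pos (by norm_num) ?_) h5
      have h6 : 0.16 ≤ 0.3008 / (1 + h) := by
        rw [le_div_iff₀ hκ]; linarith
      norm_num at h6 ⊢
      linarith
    · field_simp
      ring
    · apply Complex.ext
      · simp only [Complex.add_re, Complex.re_ofReal_mul, re_pt]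
        field_simp
        ring
      · simp only [Complex.add_im, Complex.im_ofReal_mul, im_pt]
        field_simp
        ring
    · apply Complex.ext
      · simp only [Complex.add_re, Complex.re_ofReal_mul, re_pt]
        field_simp
        ring
      · simp only [Complex.add_im, Complex.im_ofReal_mul, im_pt]
        field_simp
        ring

private theorem cone12 (T : Dat R h q β D v C) {s t : ℝ} (hs : 0 ≤ s) (ht : 0 ≤ t)
    (hx : ‖(s : ℂ) * pt 1 (2 * β) + (t : ℂ) * pt 1 (π / 3)‖ ≤ R) :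
    ‖(s : ℂ) * pt 1 (2 * β) + (t : ℂ) * pt 1 (π / 3) - pt h 0‖ ≤ 1 ∨
      ‖(s : ℂ) * pt 1 (2 * β) + (t : ℂ) * pt 1 (π / 3) - pt (1 + q) (π / 3)‖ ≤ 1 := by
  have a1 := T.q3
  have a2 := T.q4
  have a3 := T.R1
  have hq : 0 < q := by linarith
  rcases le_total R (s + t) with h1 | h1
  · exact Or.inr (c12_far T ht h1 hx)
  rcases le_total (s / 1.35 + t / q) 1 with h3 | h3
  · left
    have h4 := cvx3 (c := pt h 0) (y := ((1.35 : ℝ) : ℂ) * pt 1 (2 * β))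
      (z := (q : ℂ) * pt 1 (π / 3)) (w := 0) (a := s / 1.35) (b := t / q)
      (d := 1 - (s / 1.35 + t / q)) (by positivity) (by positivity) (by linarith)
      (by ring) (v1_A T) (q2_A T) (zero_A T)
    have e : ((s / 1.35 : ℝ) : ℂ) * (((1.35 : ℝ) : ℂ) * pt 1 (2 * β)) +
        ((t / q : ℝ) : ℂ) * ((q : ℂ) * pt 1 (π / 3)) +
        ((1 - (s / 1.35 + t / q) : ℝ) : ℂ) * 0 =
        (s : ℂ) * pt 1 (2 * β) + (t : ℂ) * pt 1 (π / 3) := by
      rw [mul_zero, add_zero, ← mul_assoc, ← mul_assoc, ← Complex.ofReal_mul,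
        ← Complex.ofReal_mul]
      congr 3
      · field_simp
      · field_simp
    rw [e] at h4
    exact h4
  · right
    have hst : 0 < s + t := by
      by_contra hcon
      rw [not_lt] at hcon
      have hs0 : s = 0 := by linarith
      have ht0 : t = 0 := by linarith
      rw [hs0, ht0] at h3
      norm_num at h3
    have hσ : 0 < s / 1.35 + t / q := by linarith
    refine ray (l := 1 / (s / 1.35 + t / q)) (m := R / (s + t)) ?_ ?_ ?_ ?_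
    · rw [div_le_one hσ]; exact h3
    · rw [one_le_div hst]; exact h1
    · have h4 := cvx2 (c := pt (1 + q) (π / 3)) (y := ((1.35 : ℝ) : ℂ) * pt 1 (2 * β))
        (z := (q : ℂ) * pt 1 (π / 3)) (a := s / 1.35 / (s / 1.35 + t / q))
        (b := t / q / (s / 1.35 + t / q)) (by positivity) (by positivity)
        (by rw [← add_div, div_self hσ.ne'])
        (one_pt_B T (by have := T.vhi; linarith) (by linarith))
        (two_pt_B T le_rfl (by linarith))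
      have e : ((s / 1.35 / (s / 1.35 + t / q) : ℝ) : ℂ) * (((1.35 : ℝ) : ℂ) * pt 1 (2 * β)) +
          ((t / q / (s / 1.35 + t / q) : ℝ) : ℂ) * ((q : ℂ) * pt 1 (π / 3)) =
          ((1 / (s / 1.35 + t / q) : ℝ) : ℂ) *
            ((s : ℂ) * pt 1 (2 * β) + (t : ℂ) * pt 1 (π / 3)) := by
        rw [mul_add, ← mul_assoc, ← mul_assoc, ← mul_assoc, ← mul_assoc, ← Complex.ofReal_mul,
          ← Complex.ofReal_mul, ← Complex.ofReal_mul, ← Complex.ofReal_mul]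
        have g1 : s / 1.35 / (s / 1.35 + t / q) * 1.35 = 1 / (s / 1.35 + t / q) * s := by
          field_simp
        have g2 : t / q / (s / 1.35 + t / q) * q = 1 / (s / 1.35 + t / q) * t := by
          field_simp
        rw [g1, g2]
      rw [e] at h4
      exact h4
    · have h4 := cvx2 (c := pt (1 + q) (π / 3)) (y := (R : ℂ) * pt 1 (2 * β))
        (z := (R : ℂ) * pt 1 (π / 3)) (a := s / (s + t))
        (b := t / (s + t)) (by positivity) (by positivity)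
        (by rw [← add_div, div_self hst.ne'])
        (one_pt_B T (by have := T.vhi; linarith) le_rfl)
        (two_pt_B T (by linarith) le_rfl)
      have e : ((s / (s + t) : ℝ) : ℂ) * ((R : ℂ) * pt 1 (2 * β)) +
          ((t / (s + t) : ℝ) : ℂ) * ((R : ℂ) * pt 1 (π / 3)) =
          ((R / (s + t) : ℝ) : ℂ) *
            ((s : ℂ) * pt 1 (2 * β) + (t : ℂ) * pt 1 (π / 3)) := by
        rw [mul_add, ← mul_assoc, ← mul_assoc, ← mul_assoc, ← mul_assoc, ← Complex.ofReal_mul,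
          ← Complex.ofReal_mul, ← Complex.ofReal_mul, ← Complex.ofReal_mul]
        have g1 : s / (s + t) * R = R / (s + t) * s := by ring
        have g2 : t / (s + t) * R = R / (s + t) * t := by ring
        rw [g1, g2]
      rw [e] at h4
      exact h4

private theorem norm_le_add {s t γ1 γ2 : ℝ} (hs : 0 ≤ s) (ht : 0 ≤ t) :
    ‖(s : ℂ) * pt 1 γ1 + (t : ℂ) * pt 1 γ2‖ ≤ s + t := by
  refine (norm_add_le _ _).trans ?_
  rw [norm_mul, norm_mul, norm_pt zero_le_one, norm_pt zero_le_one, Complex.norm_real,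
    Complex.norm_real, Real.norm_of_nonneg hs, Real.norm_of_nonneg ht]
  linarith

/-- every point of the sector is in one of the two cones -/
private theorem two_cones (T : Dat R h q β D v C) {x : ℂ} {θ : ℝ} (hx : x = pt ‖x‖ θ)
    (h0 : 0 ≤ θ) (h1 : θ ≤ π / 3) :
    (∃ s t : ℝ, 0 ≤ s ∧ 0 ≤ t ∧ x = (s : ℂ) * pt 1 0 + (t : ℂ) * pt 1 (2 * β)) ∨
      ∃ s t : ℝ, 0 ≤ s ∧ 0 ≤ t ∧ x = (s : ℂ) * pt 1 (2 * β) + (t : ℂ) * pt 1 (π / 3) := by
  have hpi := Real.pi_pos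
  have b0 := T.b0
  have b1 := T.b1
  rcases le_total θ (2 * β) with h2 | h2
  · left
    have s1 := T.s1
    have e := cone_pt ‖x‖ θ 0 (2 * β) (by rw [sub_zero]; exact s1.ne')
    rw [← hx] at e
    refine ⟨_, _, ?_, ?_, e⟩
    · rw [sub_zero]
      exact div_nonneg (mul_nonneg (norm_nonneg _)
        (sin_nonneg_of_nonneg_of_le_pi (by linarith) (by linarith))) s1.le
    · rw [sub_zero, sub_zero]
      exact div_nonneg (mul_nonneg (norm_nonneg _)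
        (sin_nonneg_of_nonneg_of_le_pi (by linarith) (by linarith))) s1.le
  · right
    have s2 := T.s2
    have e := cone_pt ‖x‖ θ (2 * β) (π / 3) s2.ne'
    rw [← hx] at e
    refine ⟨_, _, ?_, ?_, e⟩
    · exact div_nonneg (mul_nonneg (norm_nonneg _)
        (sin_nonneg_of_nonneg_of_le_pi (by linarith) (by linarith))) s2.le
    · exact div_nonneg (mul_nonneg (norm_nonneg _)
        (sin_nonneg_of_nonneg_of_le_pi (by linarith) (by linarith))) s2.le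

end

theorem ub_sector {R h q : ℝ} (O : OptS R h q) {x : ℂ} {θ : ℝ} (hx : x = pt ‖x‖ θ) (h0 : 0 ≤ θ) (h1 : θ ≤ π / 3)
    (hR : ‖x‖ ≤ R) :
    ‖x - pt h 0‖ ≤ 1 ∨ ‖x - pt (√(1 + R * (1 + h))) (gg R h / 2)‖ ≤ 1 ∨ ‖x - pt (1 + q) (π / 3)‖ ≤ 1 := by
  obtain ⟨v, C, T⟩ := dat O
  rcases two_cones T hx h0 h1 with ⟨s, t, hs, ht, he⟩ | ⟨s, t, hs, ht, he⟩
  · rw [he] at hR ⊢
    exact cone01 T hs ht hR
  · rw [he] at hR ⊢
    rcases cone12 T hs ht hR with h2 | h2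
    · exact Or.inl h2
    · exact Or.inr (Or.inr h2)

theorem ub_sector_circle {R h q : ℝ} (O : OptS R h q) {x : ℂ} {θ : ℝ} (hx : x = pt ‖x‖ θ) (h0 : 0 ≤ θ)
    (h1 : θ ≤ π / 3) (hR : ‖x‖ = R) :
    ‖x - pt (√(1 + R * (1 + h))) (gg R h / 2)‖ ≤ 1 ∨ ‖x - pt (1 + q) (π / 3)‖ ≤ 1 := by
  obtain ⟨v, C, T⟩ := dat O
  rcases two_cones T hx h0 h1 with ⟨s, t, hs, ht, he⟩ | ⟨s, t, hs, ht, he⟩
  · rw [he] at hR ⊢
    exact Or.inl (c01_far T (hR ▸ norm_le_add hs ht) hR.le)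
  · rw [he] at hR ⊢
    exact Or.inr (c12_far T ht (hR ▸ norm_le_add hs ht) hR.le)

end Pool.Agent.TD25
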