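import Pool.Agent.TD25.Arc

/-!
# TD25/XXb: the parametrisation `XX d b t` of the unit circle about `pt d b`

Proofs. Let `w = (1 - t i) / (1 + t i)`, `|w| = 1`, `w = ((1 - t^2) - 2 t i) / (1 + t^2)`. `XX d b t = e^{ib} (d - w)`.
* `XX - pt d b = - e^{ib} w`: norm 1.
* `‖XX‖^2 = d^2 - 2 d (1 - t^2)/(1 + t^2) + 1 = ((d - 1)^2 + (d + 1)^2 t^2) / (1 + t^2)`.
* `‖XX‖ < R` iff `(d-1)^2 + (d+1)^2 t^2 < R^2 (1 + t^2)` iff `t^2 ((d+1)^2 - R^2) < R^2 - (d-1)^2` iff `|t| < tR R d`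
  (`(d + 1)^2 > R^2` because `d > R - 1`, and `(d-1)^2 < R^2` because `d ≤ R`), `Real.lt_sqrt`.
* `XX_surj`: if `‖x - pt d b‖ = 1` and `‖x‖ < d + 1`, put `w = d - e^{-ib} x`, `|w| = 1`, `w ≠ -1` (else `x = e^{ib} (d+1)`
  has norm `d + 1`), and `t = - Im w / (1 + Re w)` satisfies `(1 - t i)/(1 + t i) = w` (half angle formula:
  with `w = cos a + i sin a`, `t = - tan (a/2)`; check algebraically with `Re^2 + Im^2 = 1`).
* `XX_tR`: let `t = tR R d`, `z = e^{-ib} XX d b t = d - w`, `Im z = 2 t / (1 + t^2) > 0`, `|z| = R`,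
  `|z - d| = 1`, so `Re z = (R^2 + d^2 - 1) / (2 d) = R cos p` with `p = fi R (d^2)` (`cos_fi`), and `Im z = √(R^2 - (Re z)^2)
  = R sin p`. So `z = R e^{ip}`. Same for `-t` with `e^{-ip}`.
* continuity: `1 + t i ≠ 0` for real `t`.
-/

set_option autoImplicit false

namespace Pool.Agent.TD25

open Real

private theorem xxb_den (t : ℝ) : (1 + (t : ℂ) * Complex.I) ≠ 0 := by
  intro h
  have := congrArg Complex.re h
  simp at this

/-- The number `w` in coordinates. -/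
private theorem xxb_w (t : ℝ) : (1 - (t : ℂ) * Complex.I) / (1 + (t : ℂ) * Complex.I) =
    (((1 - t ^ 2) / (1 + t ^ 2) : ℝ) : ℂ) - ((2 * t / (1 + t ^ 2) : ℝ) : ℂ) * Complex.I := by
  have h1 : (1 + t ^ 2 : ℝ) ≠ 0 := by positivity
  have h2 : (1 + (t : ℂ) ^ 2) ≠ 0 := by exact_mod_cast h1
  rw [div_eq_iff (xxb_den t)]
  push_cast
  field_simp
  ring_nf
  rw [show Complex.I ^ 2 = -1 from Complex.I_sq]
  ring

private theorem xxb_exp (b : ℝ) : ‖Complex.exp ((b : ℂ) * Complex.I)‖ = 1 :=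
  Complex.norm_exp_ofReal_mul_I b

private theorem xxb_nsq (a b : ℝ) : ‖(a : ℂ) - (b : ℂ) * Complex.I‖ ^ 2 = a ^ 2 + b ^ 2 := by
  rw [Complex.sq_norm, Complex.normSq_apply]
  simp
  ring

private theorem xxb_wn (t : ℝ) : ‖(1 - (t : ℂ) * Complex.I) / (1 + (t : ℂ) * Complex.I)‖ = 1 := by
  have h1 : (1 + t ^ 2 : ℝ) ≠ 0 := by positivity
  have h : ‖(1 - (t : ℂ) * Complex.I) / (1 + (t : ℂ) * Complex.I)‖ ^ 2 = 1 := by
    rw [xxb_w, xxb_nsq]
    field_simp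
    ring
  have h0 := norm_nonneg ((1 - (t : ℂ) * Complex.I) / (1 + (t : ℂ) * Complex.I))
  nlinarith

theorem XX_sub (d b t : ℝ) : ‖XX d b t - pt d b‖ = 1 := by
  have e : XX d b t - pt d b = -(Complex.exp ((b : ℂ) * Complex.I) *
      ((1 - (t : ℂ) * Complex.I) / (1 + (t : ℂ) * Complex.I))) := by
    unfold XX pt
    ring
  rw [e, norm_neg, norm_mul, xxb_exp, xxb_wn, one_mul]

theorem XX_sq (d b t : ℝ) : ‖XX d b t‖ ^ 2 = ((d - 1) ^ 2 + (d + 1) ^ 2 * t ^ 2) / (1 + t ^ 2) := by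
  have h1 : (1 + t ^ 2 : ℝ) ≠ 0 := by positivity
  unfold XX
  rw [norm_mul, xxb_exp, one_mul, xxb_w, ← sub_add, ← Complex.ofReal_sub, ← sub_neg_eq_add,
    ← neg_mul, ← Complex.ofReal_neg, xxb_nsq]
  field_simp
  ring

private theorem xxb_bd {R d : ℝ} (hR : OkR R) (h1 : R - 1 < d) (h2 : d ^ 2 ≤ R ^ 2 - 1) :
    0 < (d + 1) ^ 2 - R ^ 2 ∧ 0 < R ^ 2 - (d - 1) ^ 2 ∧ 1.7 < d ∧ d < R := by
  obtain ⟨a, b⟩ := hR
  have hd : 1.7 < d := by linarith
  have hdR : d < R := by nlinarith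
  refine ⟨by nlinarith, by nlinarith, hd, hdR⟩

theorem XX_lt_iff {R d : ℝ} (hR : OkR R) (h1 : R - 1 < d) (h2 : d ^ 2 ≤ R ^ 2 - 1) (b t : ℝ) :
    ‖XX d b t‖ < R ↔ |t| < tR R d := by
  obtain ⟨k1, k2, k3, k4⟩ := xxb_bd hR h1 h2
  have hRp : 0 < R := by linarith
  unfold tR
  rw [Real.lt_sqrt (abs_nonneg t), sq_abs, lt_div_iff₀ k1]
  rw [← sq_lt_sq₀ (norm_nonneg _) hRp.le, XX_sq, div_lt_iff₀ (by positivity)]
  constructor <;> intro h <;> nlinarith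

theorem tR_pos {R d : ℝ} (hR : OkR R) (h1 : R - 1 < d) (h2 : d ^ 2 ≤ R ^ 2 - 1) : 0 < tR R d := by
  obtain ⟨k1, k2, k3, k4⟩ := xxb_bd hR h1 h2
  unfold tR
  exact Real.sqrt_pos.2 (div_pos k2 k1)

theorem XX_surj {d b : ℝ} {x : ℂ} (hd : 1 < d) (h1 : ‖x - pt d b‖ = 1) (h2 : ‖x‖ < d + 1) :
    ∃ t : ℝ, x = XX d b t := by
  set E : ℂ := Complex.exp ((b : ℂ) * Complex.I) with hE
  have hE0 : E ≠ 0 := Complex.exp_ne_zero _
  have hEn : ‖E‖ = 1 := xxb_exp b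
  set w : ℂ := (d : ℂ) - x / E with hw
  have hx : x = E * ((d : ℂ) - w) := by
    rw [hw]
    field_simp
    ring
  have hwn : ‖w‖ = 1 := by
    have : x - pt d b = -(E * w) := by
      rw [hx]
      unfold pt
      rw [← hE]
      ring
    rw [this, norm_neg, norm_mul, hEn, one_mul] at h1
    exact h1
  have hsq : w.re ^ 2 + w.im ^ 2 = 1 := by
    have := Complex.sq_norm w
    rw [hwn, Complex.normSq_apply] at this
    nlinarith
  have hre : 1 + w.re ≠ 0 := by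
    intro h
    have hr : w.re = -1 := by linarith
    have hi : w.im = 0 := by
      have : w.im ^ 2 = 0 := by rw [hr] at hsq; linarith
      exact pow_eq_zero_iff (by norm_num) |>.1 this
    have hw1 : w = -1 := by
      apply Complex.ext <;> simp [hr, hi]
    rw [hx, norm_mul, hEn, one_mul, hw1] at h2
    have : ‖(d : ℂ) - -1‖ = d + 1 := by
      rw [sub_neg_eq_add]
      have : ((d : ℂ) + 1) = ((d + 1 : ℝ) : ℂ) := by push_cast; ring
      rw [this, Complex.norm_real, Real.norm_of_nonneg (by linarith)]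
    linarith
  refine ⟨-w.im / (1 + w.re), ?_⟩
  rw [hx]
  unfold XX
  rw [← hE]
  congr 2
  rw [xxb_w]
  have e0 : 1 + (-w.im / (1 + w.re)) ^ 2 = 2 / (1 + w.re) := by
    field_simp
    nlinarith
  have e1 : (1 - (-w.im / (1 + w.re)) ^ 2) / (1 + (-w.im / (1 + w.re)) ^ 2) = w.re := by
    rw [e0]
    field_simp
    nlinarith
  have e2 : 2 * (-w.im / (1 + w.re)) / (1 + (-w.im / (1 + w.re)) ^ 2) = -w.im := by
    rw [e0]
    field_simp
  rw [e1, e2]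
  push_cast
  rw [neg_mul, sub_neg_eq_add]
  exact (Complex.re_add_im w).symm

theorem XX_cont (d b : ℝ) : Continuous (XX d b) := by
  unfold XX
  refine continuous_const.mul (continuous_const.sub ?_)
  refine Continuous.div ?_ ?_ xxb_den
  · exact continuous_const.sub (Complex.continuous_ofReal.mul continuous_const)
  · exact continuous_const.add (Complex.continuous_ofReal.mul continuous_const)

theorem XX_per (d b t : ℝ) : XX d (b + 2 * π) t = XX d b t := by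
  unfold XX
  congr 1
  push_cast
  rw [add_mul, Complex.exp_add, Complex.exp_two_pi_mul_I, mul_one]

/-- Coordinates of the point with number `± tR R d`. -/
private theorem xxb_coord {R d : ℝ} (hR : OkR R) (h1 : R - 1 < d) (h2 : d ^ 2 ≤ R ^ 2 - 1) :
    d - (1 - tR R d ^ 2) / (1 + tR R d ^ 2) = R * cos (fi R (d ^ 2)) ∧
      2 * tR R d / (1 + tR R d ^ 2) = R * sin (fi R (d ^ 2)) := by
  obtain ⟨k1, k2, k3, k4⟩ := xxb_bd hR h1 h2
  have hRp : 0 < R := by linarith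
  have hdp : 0 < d := by linarith
  have ht : tR R d ^ 2 = (R ^ 2 - (d - 1) ^ 2) / ((d + 1) ^ 2 - R ^ 2) := by
    unfold tR
    exact Real.sq_sqrt (div_pos k2 k1).le
  have ht0 := tR_pos hR h1 h2
  have hc : cos (fi R (d ^ 2)) = (R ^ 2 - 1 + d ^ 2) / (2 * R * d) := by
    rw [cos_fi hR (by nlinarith [hR.1]) h2, Real.sqrt_sq hdp.le]
  have e0 : 1 + tR R d ^ 2 = 4 * d / ((d + 1) ^ 2 - R ^ 2) := by
    rw [ht]
    field_simp
    ring
  have e1 : d - (1 - tR R d ^ 2) / (1 + tR R d ^ 2) = R * cos (fi R (d ^ 2)) := by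
    rw [e0, hc, ht]
    field_simp
    ring
  refine ⟨e1, ?_⟩
  have hp : fi R (d ^ 2) ≤ 0.3695 := ((fi_le hR (by positivity)).trans (phm_hi hR).le)
  have hs : 0 ≤ sin (fi R (d ^ 2)) :=
    Real.sin_nonneg_of_nonneg_of_le_pi (fi_nonneg _ _) (by linarith [Real.pi_gt_three])
  have hl : 0 ≤ 2 * tR R d / (1 + tR R d ^ 2) := by positivity
  have hsq := Real.sin_sq_add_cos_sq (fi R (d ^ 2))
  have e2 : (2 * tR R d / (1 + tR R d ^ 2)) ^ 2 = (R * sin (fi R (d ^ 2))) ^ 2 := by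
    have e3 : (R * sin (fi R (d ^ 2))) ^ 2 = R ^ 2 - (R * cos (fi R (d ^ 2))) ^ 2 := by
      have : sin (fi R (d ^ 2)) ^ 2 = 1 - cos (fi R (d ^ 2)) ^ 2 := by linarith
      calc (R * sin (fi R (d ^ 2))) ^ 2 = R ^ 2 * sin (fi R (d ^ 2)) ^ 2 := by ring
        _ = _ := by rw [this]; ring
    rw [e3, hc, div_pow, mul_pow, e0, ht]
    field_simp
    ring
  exact (pow_left_inj₀ hl (by positivity) (by norm_num)).1 e2

theorem XX_tR {R d : ℝ} (hR : OkR R) (h1 : R - 1 < d) (h2 : d ^ 2 ≤ R ^ 2 - 1) (b : ℝ) :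
    XX d b (tR R d) = pt R (b + fi R (d ^ 2)) := by
  obtain ⟨e1, e2⟩ := xxb_coord hR h1 h2
  unfold XX pt
  rw [xxb_w, e2]
  push_cast
  rw [add_mul, Complex.exp_add, Complex.exp_mul_I (fi R (d ^ 2) : ℂ)]
  have e3 := congrArg (fun z : ℝ => (z : ℂ)) e1
  push_cast at e3
  have e4 : (d : ℂ) - ((1 - (tR R d : ℂ) ^ 2) / (1 + (tR R d : ℂ) ^ 2) -
      (R : ℂ) * Complex.sin (fi R (d ^ 2) : ℂ) * Complex.I) =
      (d : ℂ) - (1 - (tR R d : ℂ) ^ 2) / (1 + (tR R d : ℂ) ^ 2) +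
      (R : ℂ) * Complex.sin (fi R (d ^ 2) : ℂ) * Complex.I := by ring
  rw [e4, e3]
  ring

theorem XX_tR_neg {R d : ℝ} (hR : OkR R) (h1 : R - 1 < d) (h2 : d ^ 2 ≤ R ^ 2 - 1) (b : ℝ) :
    XX d b (-tR R d) = pt R (b - fi R (d ^ 2)) := by
  obtain ⟨e1, e2⟩ := xxb_coord hR h1 h2
  unfold XX pt
  rw [xxb_w]
  have e5 : 2 * -tR R d / (1 + (-tR R d) ^ 2) = -(R * sin (fi R (d ^ 2))) := by
    rw [← e2]
    ring
  rw [e5, neg_sq]
  push_cast
  rw [sub_eq_add_neg (b : ℂ), add_mul, Complex.exp_add, ← Complex.ofReal_neg,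
    Complex.exp_mul_I ((-fi R (d ^ 2) : ℝ) : ℂ)]
  push_cast
  rw [Complex.cos_neg, Complex.sin_neg]
  have e3 := congrArg (fun z : ℝ => (z : ℂ)) e1
  push_cast at e3
  have e4 : (d : ℂ) - ((1 - (tR R d : ℂ) ^ 2) / (1 + (tR R d : ℂ) ^ 2) -
      -((R : ℂ) * Complex.sin (fi R (d ^ 2) : ℂ)) * Complex.I) =
      (d : ℂ) - (1 - (tR R d : ℂ) ^ 2) / (1 + (tR R d : ℂ) ^ 2) -
      (R : ℂ) * Complex.sin (fi R (d ^ 2) : ℂ) * Complex.I := by ring
  rw [e4, e3]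
  ring

end Pool.Agent.TD25
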